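import Mathlib

namespace Knot548

open Set

section General

variable {E : Type*} [AddCommGroup E] [Module ℝ E]

/-- The half-open segment from `a` (included) to `b` (excluded). -/
def hseg (a b : E) : Set E := {x | ∃ s : ℝ, 0 ≤ s ∧ s < 1 ∧ x = (1 - s) • a + s • b}

/-- The directed edges `(L₀, L₁), (L₁, L₂), …, (Lₙ₋₁, L₀)` of the closed polygon with vertex list `L`. -/
def cedges {α : Type*} (L : List α) : List (α × α) := L.zip (L.rotate 1)

/-- The closed polygon with vertex list `L` is simple: its edges are nondegenerate and its
half-open edges are pairwise disjoint. -/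
def Simple (L : List E) : Prop :=
  (∀ e ∈ cedges L, e.1 ≠ e.2) ∧
    (cedges L).Pairwise (fun e e' => Disjoint (hseg e.1 e.2) (hseg e'.1 e'.2))

/-- Elementary moves of closed polygons: `motion` is a continuous motion of the `n` vertices during
which the closed polygon stays simple (polygonal isotopy), `insert` adds a new vertex in the interior
of an edge, `rotate` starts the cyclic list of vertices at another vertex. -/
inductive Move [TopologicalSpace E] : List E → List E → Prop
  | motion {n : ℕ} (v : ℝ → Fin n → E) (hv : Continuous v)
      (hs : ∀ t ∈ Icc (0 : ℝ) 1, Simple (List.ofFn (v t))) :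
      Move (List.ofFn (v 0)) (List.ofFn (v 1))
  | insert (a b : E) (L : List E) (s : ℝ) (h0 : 0 < s) (h1 : s < 1) :
      Move (a :: b :: L) (a :: ((1 - s) • a + s • b) :: b :: L)
  | rotate (L : List E) : Move L (L.rotate 1)

/-- Equivalence (isotopy) of closed polygons: the equivalence relation generated by the moves. A move
relates simple polygons to simple polygons only. Reflections and reversal are not allowed. -/
def Eqv [TopologicalSpace E] (L L' : List E) : Prop := Relation.EqvGen Move L L'

end General

section Space

/-- three-dimensional space -/
abbrev R3 : Type := Fin 3 → ℝ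

/-- a (polygonal) knot, given by the cyclic list of its vertices -/
def IsKnot (L : List R3) : Prop := 3 ≤ L.length ∧ Simple L

/-- the points of the closed polygon `L` over the point `(u, v)` of the plane -/
def fiber (L : List R3) (u v : ℝ) : Set R3 := {q | (∃ e ∈ cedges L, q ∈ segment ℝ e.1 e.2) ∧ q 0 = u ∧ q 1 = v}

/-- `L` is a polygonal knot whose projection to the first two coordinates is regular with exactly `k` crossings -/
structure IsDiagram (L : List R3) (k : ℕ) : Prop where
  knot : IsKnot L
  two : ∀ u v : ℝ, (fiber L u v).encard ≤ 2
  vert : ∀ p ∈ L, (fiber L (p 0) (p 1)).encard ≤ 1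
  crossings : {x : ℝ × ℝ | (fiber L x.1 x.2).encard = 2}.ncard = k

/-- `f` is a linear (straight line) spatial embedding of the complete graph on `Fin n`: two distinct
edges meet only in common end points -/
structure LinEmb {n : ℕ} (f : Fin n → R3) : Prop where
  inj : Function.Injective f
  edges : ∀ i j k l : Fin n, i ≠ j → k ≠ l → ¬ (i = k ∧ j = l) → ¬ (i = l ∧ j = k) →
    segment ℝ (f i) (f j) ∩ segment ℝ (f k) (f l) ⊆ {f i, f j} ∩ {f k, f l}

end Space

end Knot548
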