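import Pool.Agent.Helper548.Knot.Defs



namespace Knot548
open Set


theorem ce_cons_aux {α : Type*} (x : α) (L : List α) : ∀ a : α,
    (a :: L).zip (L ++ [x]) = pedges (a :: (L ++ [x])) := by
  induction L with
  | nil => intro a; simp [pedges]
  | cons b L ih =>
    intro a
    rw [List.cons_append, List.zip_cons_cons, ih b]
    simp [pedges]

theorem ce_cons {α : Type*} (a : α) (L : List α) : cedges (a :: L) = pedges (a :: (L ++ [a])) := by
  unfold cedges
  rw [List.rotate_cons_succ, List.rotate_zero]
  exact ce_cons_aux a L a

end Knot548
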