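import Pool.Agent.Helper548.Knot.Defs



namespace Knot548
open Set


theorem sm_cedges {α β : Type*} (f : α → β) (L : List α) :
    cedges (L.map f) = (cedges L).map (Prod.map f f) := by
  unfold cedges
  rw [← List.map_rotate, List.zip_map]

theorem sm_hseg {E F : Type*} [AddCommGroup E] [Module ℝ E] [AddCommGroup F] [Module ℝ F]
    (e : E →ₗ[ℝ] F) (a b : E) : hseg (e a) (e b) = e '' hseg a b := by
  ext x
  constructor
  · rintro ⟨s, h0, h1, rfl⟩
    exact ⟨(1 - s) • a + s • b, ⟨s, h0, h1, rfl⟩, by simp⟩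
  · rintro ⟨_, ⟨s, h0, h1, rfl⟩, rfl⟩
    exact ⟨s, h0, h1, by simp⟩

theorem simple_map {E F : Type*} [AddCommGroup E] [Module ℝ E] [AddCommGroup F] [Module ℝ F] (e : E →ₗ[ℝ] F)
    (he : Function.Injective e) {L : List E} (h : Simple L) : Simple (L.map e) := by
  obtain ⟨h1, h2⟩ := h
  constructor
  · intro p hp
    rw [sm_cedges, List.mem_map] at hp
    obtain ⟨q, hq, rfl⟩ := hp
    intro hh
    exact h1 q hq (he hh)
  · rw [sm_cedges, List.pairwise_map]
    refine h2.imp ?_
    intro p q hpq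
    simp only [Prod.map_fst, Prod.map_snd, sm_hseg]
    exact (Set.disjoint_image_iff he).mpr hpq

end Knot548
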