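import Pool.Agent.Helper548.Knot.Defs
import Pool.Agent.Helper548.Knot.P_ce_cons
import Pool.Agent.Helper548.Knot.P_simple_map



namespace Knot548
open Set


theorem mult_fiber_pl (a b : R3) (s : ℝ) :
    (up ((1 - s) • a + s • b)).1 = (1 - s) • (up a).1 + s • (up b).1 := by
  apply Complex.ext <;> simp [up]

theorem mult_fiber_over (q : R3) (x : ℂ) : (q 0 = x.re ∧ q 1 = x.im) ↔ (up q).1 = x := by
  constructor
  · rintro ⟨h1, h2⟩
    exact Complex.ext h1 h2
  · rintro rfl
    exact ⟨rfl, rfl⟩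

theorem mult_fiber_one (e : R3 × R3) (he : (up e.1).1 ≠ (up e.2).1) (x : ℂ) :
    ({q : R3 | q ∈ hseg e.1 e.2 ∧ (up q).1 = x}).encard =
      (open Classical in if x ∈ hseg (up e.1).1 (up e.2).1 then 1 else 0) := by
  classical
  by_cases hx : x ∈ hseg (up e.1).1 (up e.2).1
  · rw [if_pos hx]
    obtain ⟨s, h0, h1, hs⟩ := hx
    have : {q : R3 | q ∈ hseg e.1 e.2 ∧ (up q).1 = x} = {(1 - s) • e.1 + s • e.2} := by
      ext q
      constructor
      · rintro ⟨⟨s', h0', h1', rfl⟩, hq⟩
        rw [mult_fiber_pl, hs] at hq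
        have h2 : (s' - s) • ((up e.2).1 - (up e.1).1) = 0 := by
          have : (s' - s) • ((up e.2).1 - (up e.1).1) =
            ((1 - s') • (up e.1).1 + s' • (up e.2).1) - ((1 - s) • (up e.1).1 + s • (up e.2).1) := by
            module
          rw [this, hq, sub_self]
        rcases smul_eq_zero.1 h2 with h3 | h3
        · have : s' = s := by linarith
          rw [this]; rfl
        · exact absurd (sub_eq_zero.1 h3).symm he
      · rintro rfl
        exact ⟨⟨s, h0, h1, rfl⟩, by rw [mult_fiber_pl, hs]⟩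
    rw [this, Set.encard_singleton]
  · rw [if_neg hx]
    rw [Set.encard_eq_zero]
    ext q
    simp only [Set.mem_empty_iff_false, iff_false]
    rintro ⟨⟨s', h0', h1', rfl⟩, hq⟩
    apply hx
    exact ⟨s', h0', h1', by rw [← hq, mult_fiber_pl]⟩

theorem mult_fiber_list (ed : List (R3 × R3)) (x : ℂ)
    (hd : ed.Pairwise (fun e e' => Disjoint (hseg e.1 e.2) (hseg e'.1 e'.2)))
    (hn : ∀ e ∈ ed, (up e.1).1 ≠ (up e.2).1) :
    ({q : R3 | (∃ e ∈ ed, q ∈ hseg e.1 e.2) ∧ (up q).1 = x}).encard =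
      ((open Classical in ed.countP (fun e => decide (x ∈ hseg (up e.1).1 (up e.2).1)) : ℕ) : ℕ∞) := by
  classical
  induction ed with
  | nil => simp
  | cons e ed ih =>
    rw [List.pairwise_cons] at hd
    have ih' := ih hd.2 (fun e' he' => hn e' (List.mem_cons_of_mem _ he'))
    have hset : {q : R3 | (∃ e' ∈ e :: ed, q ∈ hseg e'.1 e'.2) ∧ (up q).1 = x} =
        {q : R3 | q ∈ hseg e.1 e.2 ∧ (up q).1 = x} ∪
        {q : R3 | (∃ e ∈ ed, q ∈ hseg e.1 e.2) ∧ (up q).1 = x} := by
      ext q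
      constructor
      · rintro ⟨⟨e', he', hq⟩, hx⟩
        rcases List.mem_cons.1 he' with rfl | he'
        · exact Or.inl ⟨hq, hx⟩
        · exact Or.inr ⟨⟨e', he', hq⟩, hx⟩
      · rintro (⟨hq, hx⟩ | ⟨⟨e', he', hq⟩, hx⟩)
        · exact ⟨⟨e, List.mem_cons_self, hq⟩, hx⟩
        · exact ⟨⟨e', List.mem_cons_of_mem _ he', hq⟩, hx⟩
    have hdisj : Disjoint {q : R3 | q ∈ hseg e.1 e.2 ∧ (up q).1 = x}
        {q : R3 | (∃ e ∈ ed, q ∈ hseg e.1 e.2) ∧ (up q).1 = x} := by
      rw [Set.disjoint_left]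
      rintro q ⟨hq, _⟩ ⟨⟨e', he', hq'⟩, _⟩
      exact Set.disjoint_left.1 (hd.1 e' he') hq hq'
    rw [hset, Set.encard_union_eq hdisj, ih', mult_fiber_one e (hn e List.mem_cons_self) x,
      List.countP_cons]
    by_cases hx : x ∈ hseg (up e.1).1 (up e.2).1
    · simp only [hx, if_true, decide_true]
      push_cast
      rw [add_comm]
    · simp only [hx, if_false, decide_false]
      simp

theorem mult_fiber {L : List R3} (hs : Simple L) (hn : ∀ e ∈ cedges (L.map up), e.1.1 ≠ e.2.1) (x : ℂ) :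
    (fiber L x.re x.im).encard = (mult (L.map up) x : ℕ∞) := by
  classical
  have hmap : cedges (L.map up) = (cedges L).map (Prod.map up up) := by
    unfold cedges
    rw [← List.map_rotate, List.zip_map]
  have hfst : (cedges L).map Prod.fst = L := by
    unfold cedges
    exact List.map_fst_zip (by rw [List.length_rotate])
  have hn' : ∀ e ∈ cedges L, (up e.1).1 ≠ (up e.2).1 := by
    intro e he
    exact hn (Prod.map up up e) (by rw [hmap]; exact List.mem_map_of_mem he)
  have hfib : fiber L x.re x.im = {q : R3 | (∃ e ∈ cedges L, q ∈ hseg e.1 e.2) ∧ (up q).1 = x} := by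
    ext q
    have h1 : (∃ e ∈ cedges L, q ∈ segment ℝ e.1 e.2) ↔ (∃ e ∈ cedges L, q ∈ hseg e.1 e.2) := by
      constructor
      · rintro ⟨e, he, a, b, ha, hb, hab, rfl⟩
        by_cases hb1 : b < 1
        · refine ⟨e, he, b, hb, hb1, ?_⟩
          have : a = 1 - b := by linarith
          rw [this]
        · have hb2 : b = 1 := by linarith
          have ha2 : a = 0 := by linarith
          have hmem : e.2 ∈ L := by
            have h2 : e.2 ∈ L.rotate 1 := (List.of_mem_zip (a := e.1) (b := e.2) he).2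
            exact List.mem_rotate.1 h2
          rw [← hfst] at hmem
          obtain ⟨e', he', h3⟩ := List.mem_map.1 hmem
          refine ⟨e', he', 0, le_refl _, by norm_num, ?_⟩
          rw [hb2, ha2, h3]
          simp
      · rintro ⟨e, he, s, h0, h1, rfl⟩
        exact ⟨e, he, 1 - s, s, by linarith, h0, by ring, rfl⟩
    unfold fiber
    simp only [Set.mem_ofPred_eq]
    rw [h1, mult_fiber_over]
  rw [hfib, mult_fiber_list (cedges L) x hs.2 hn', mult, cnt, hmap, List.countP_map]
  rfl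

end Knot548
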