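import Pool.Agent.Helper548.Knot.Defs



namespace Knot548
open Set


theorem up_nondeg {L : List R3} (hs : Simple L) (h2 : ∀ u v : ℝ, (fiber L u v).encard ≤ 2) :
    ∀ e ∈ cedges (L.map up), e.1.1 ≠ e.2.1 := by
  intro e he hcon
  have h1 : cedges (L.map up) = (cedges L).map (Prod.map up up) := by
    unfold cedges
    rw [← List.map_rotate, List.zip_map]
  rw [h1, List.mem_map] at he
  obtain ⟨⟨p, q⟩, hpq, rfl⟩ := he
  have hne : p ≠ q := hs.1 _ hpq
  have hc : (⟨p 0, p 1⟩ : ℂ) = ⟨q 0, q 1⟩ := hcon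
  have h0 : p 0 = q 0 := congrArg Complex.re hc
  have h1' : p 1 = q 1 := congrArg Complex.im hc
  have h2' : p 2 ≠ q 2 := by
    intro h
    apply hne
    funext i
    fin_cases i
    · exact h0
    · exact h1'
    · exact h
  set m : R3 := (1 / 2 : ℝ) • p + (1 / 2 : ℝ) • q with hm
  have hmi : ∀ i, m i = 1 / 2 * p i + 1 / 2 * q i := by
    intro i
    simp [hm]
  have hpm : p ≠ m := by
    intro h
    apply h2'
    have h3 : p 2 = 1 / 2 * p 2 + 1 / 2 * q 2 := by
      rw [← hmi, ← h]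
    linarith
  have hqm : m ≠ q := by
    intro h
    apply h2'
    have h3 : q 2 = 1 / 2 * p 2 + 1 / 2 * q 2 := by
      rw [← hmi, h]
    linarith
  have hsub : ({p, m, q} : Set R3) ⊆ fiber L (p 0) (p 1) := by
    rintro x (rfl | rfl | rfl)
    · exact ⟨⟨(x, q), hpq, left_mem_segment _ _ _⟩, rfl, rfl⟩
    · refine ⟨⟨(p, q), hpq, ⟨1 / 2, 1 / 2, by norm_num, by norm_num, by norm_num, rfl⟩⟩, ?_, ?_⟩
      · rw [hmi, ← h0]; ring
      · rw [hmi, ← h1']; ring
    · exact ⟨⟨(p, x), hpq, right_mem_segment _ _ _⟩, h0.symm, h1'.symm⟩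
  have h3 : ({p, m, q} : Set R3).encard = 3 := by
    rw [Set.encard_eq_three]
    exact ⟨p, m, q, hpm, hne, hqm, rfl⟩
  have h4 := (Set.encard_le_encard hsub).trans (h2 (p 0) (p 1))
  rw [h3] at h4
  exact absurd h4 (by decide)

end Knot548
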