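import Pool.Agent.Helper548.Knot.Defs
import Pool.Agent.Helper548.Knot.P_simple_map
import Pool.Agent.Helper548.Knot.P_up_nondeg
import Pool.Agent.Helper548.Knot.P_mult_fiber



namespace Knot548
open Set


theorem h636_exists_cedge {α : Type*} {L : List α} {v : α} (hv : v ∈ L) :
    ∃ e ∈ cedges L, e.1 = v := by
  unfold cedges
  obtain ⟨i, hi, rfl⟩ := List.getElem_of_mem hv
  refine ⟨(L[i], (L.rotate 1)[i]'(by simpa using hi)), ?_, rfl⟩
  rw [List.mem_iff_getElem]
  refine ⟨i, by simpa using hi, ?_⟩
  simp

/-- `up` as a linear map -/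
noncomputable def h636_upL : R3 →ₗ[ℝ] ℂ × ℝ where
  toFun := up
  map_add' p q := by
    apply Prod.ext
    · apply Complex.ext <;> simp [up]
    · simp [up]
  map_smul' c p := by
    apply Prod.ext
    · apply Complex.ext <;> simp [up]
    · simp [up]

theorem h636_up_inj : Function.Injective up := by
  intro p q h
  have h1 := congrArg Prod.fst h
  have h2 := congrArg Prod.snd h
  simp only [up] at h1 h2
  have h3 := congrArg Complex.re h1
  have h4 := congrArg Complex.im h1
  simp only at h3 h4
  funext i
  fin_cases i
  · exact h3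
  · exact h4
  · exact h2

theorem diag_transfer {L : List R3} {k : ℕ} (h : IsDiagram L k) :
    L.map up ≠ [] ∧ Simple (L.map up) ∧ (∀ e ∈ cedges (L.map up), e.1.1 ≠ e.2.1) ∧
      (∀ x, mult (L.map up) x ≤ 2) ∧ (∀ v ∈ L.map up, mult (L.map up) v.1 = 1) ∧
      {x | mult (L.map up) x = 2}.ncard = k := by
  have hnd := up_nondeg h.knot.2 h.two
  have hmf := mult_fiber h.knot.2 hnd
  refine ⟨?_, ?_, hnd, ?_, ?_, ?_⟩
  · intro h0
    have h1 := congrArg List.length h0
    have h2 := h.knot.1
    simp at h1
    rw [h1] at h2
    simp at h2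
  · exact simple_map h636_upL h636_up_inj h.knot.2
  · intro x
    have h1 := h.two x.re x.im
    rw [hmf] at h1
    exact_mod_cast h1
  · intro v hv
    apply le_antisymm
    · obtain ⟨p, hp, rfl⟩ := List.mem_map.1 hv
      have h1 := h.vert p hp
      have h2 := hmf (up p).1
      simp only [up] at h2
      rw [h2] at h1
      simp only [up]
      exact_mod_cast h1
    · classical
      obtain ⟨e, he, rfl⟩ := h636_exists_cedge hv
      unfold mult cnt
      apply Nat.succ_le_of_lt
      rw [List.countP_pos_iff]
      refine ⟨e, he, ?_⟩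
      rw [decide_eq_true_eq]
      exact ⟨0, le_rfl, one_pos, by simp⟩
  · rw [← h.crossings]
    have h1 : {x : ℝ × ℝ | (fiber L x.1 x.2).encard = 2} =
        Complex.equivRealProd '' {x | mult (L.map up) x = 2} := by
      ext ⟨a, b⟩
      simp only [Set.mem_ofPred_eq, Set.mem_image]
      constructor
      · intro hab
        refine ⟨⟨a, b⟩, ?_, rfl⟩
        have h2 := hmf ⟨a, b⟩
        simp only at h2
        rw [h2] at hab
        exact_mod_cast hab
      · rintro ⟨z, hz, he⟩
        have h2 := hmf z
        rw [hz] at h2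
        have h3 : z.re = a := congrArg Prod.fst he
        have h4 : z.im = b := congrArg Prod.snd he
        rw [h3, h4] at h2
        exact_mod_cast h2
    rw [h1, Set.ncard_image_of_injective _ Complex.equivRealProd.injective]

end Knot548
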