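import Pool.Agent.Helper548.Knot.Defs



namespace Knot548
open Set


theorem exists_e : ∃ e : (ℂ × ℝ) ≃L[ℝ] (Fin 3 → ℝ), ∀ q : Fin 3 → ℝ, e.symm q = up q := by
  let l : (ℂ × ℝ) ≃ₗ[ℝ] (Fin 3 → ℝ) :=
    { toFun := fun p => ![p.1.re, p.1.im, p.2]
      invFun := fun q => (⟨q 0, q 1⟩, q 2)
      map_add' := by
        intro p q
        ext i
        fin_cases i <;> simp
      map_smul' := by
        intro c p
        ext i
        fin_cases i <;> simp
      left_inv := by
        rintro ⟨z, h⟩
        simp
      right_inv := by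
        intro q
        ext i
        fin_cases i <;> simp }
  exact ⟨l.toContinuousLinearEquiv, fun q => rfl⟩

end Knot548
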