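import Pool.Agent.Helper548.Knot.Defs



namespace Knot548
open Set


theorem simple_nodup {E : Type*} [AddCommGroup E] [Module ℝ E] {L : List E} (h : Simple L) : L.Nodup := by
  have hmap : (cedges L).map Prod.fst = L := by
    unfold cedges
    exact List.map_fst_zip (by rw [List.length_rotate])
  have hself : ∀ a b : E, a ∈ hseg a b := by
    intro a b
    exact ⟨0, le_refl _, by norm_num, by simp⟩
  rw [← hmap]
  unfold List.Nodup
  rw [List.pairwise_map]
  refine h.2.imp ?_
  intro e e' hd heq
  refine Set.disjoint_left.1 hd (hself e.1 e.2) ?_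
  rw [heq]
  exact hself e'.1 e'.2

end Knot548
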