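import Pool.Agent.Helper548.Knot.P_partC
import Pool.Agent.Helper548.Knot.P_diag_transfer
import Pool.Agent.Helper548.Knot.P_exists_e
import Pool.Agent.Helper548.Knot.P_simple_nodup
import Pool.Agent.Helper548.KnotA.Main
import Pool.Agent.Helper548.KnotB.Spokes
import Pool.Agent.Helper548.KnotB.PartB
import Pool.Agent.Helper548.KnotB.SimpleAlt
import Pool.Agent.Helper548.KnotB.B2

/-!
Assembly: a polygonal knot with a regular projection with `k ≥ 1` crossings is contained in every
linear embedding of `K_n`, `n ≥ C k ^ d`.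
-/

namespace Knot548

open Set

theorem alt_map {E : Type*} {m n : ℕ} (f : Fin n → E) (a b : Fin m → Fin n) (π : List (Fin m × Fin m)) :
    (alt a b π).map f = alt (fun i => f (a i)) (fun i => f (b i)) π := by
  unfold alt
  rw [List.map_flatMap]
  rfl

theorem alt_length {E : Type*} {m : ℕ} (a b : Fin m → E) (π : List (Fin m × Fin m)) :
    (alt a b π).length = 2 * π.length := by
  unfold alt
  induction π with
  | nil => simp
  | cons p π ih => simp [List.flatMap_cons, ih]; ring

theorem core : ∃ C d : ℕ, ∀ k : ℕ, 1 ≤ k → ∀ L : List R3, IsDiagram L k → ∀ n : ℕ, C * k ^ d ≤ n →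
    ∀ f : Fin n → R3, LinEmb f → ∃ c : List (Fin n), 3 ≤ c.length ∧ c.Nodup ∧ Eqv (c.map f) L := by
  obtain ⟨C, d, hA⟩ := KnotA.partA
  refine ⟨C * 4 ^ d, d, ?_⟩
  intro k hk L hL n hn f hf
  obtain ⟨h0, h1, h2, h3, h4, h5⟩ := diag_transfer hL
  have hfin : {x | mult (L.map up) x = 2}.Finite := by
    apply Set.finite_of_ncard_ne_zero
    rw [h5]; omega
  obtain ⟨O, W, hW, hW1, hWl, hE⟩ := partC h0 h1 h2 h3 h4 hfin
  rw [h5] at hWl
  obtain ⟨e, he⟩ := exists_e
  obtain ⟨a, b, π, hab, hπ, hπ1, hπ2, hE2⟩ := spokes O W hW hW1 e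
  have hmpos : 1 ≤ W.length := by
    rcases Nat.eq_zero_or_pos W.length with h | h
    · exfalso
      rcases π with _ | ⟨p, π⟩
      · simp at hπ
      · have := p.1.2
        omega
    · exact h
  have hle : C * W.length ^ d ≤ n := by
    refine le_trans ?_ hn
    rw [mul_assoc, ← mul_pow]
    exact Nat.mul_le_mul_left _ (Nat.pow_le_pow_left (by omega) _)
  obtain ⟨a', b', hchi⟩ := hA W.length n hmpos hle f hf.inj (emb_planes f hf.inj hf.edges)
  have hconf : Conf (fun i => f (a' i)) (fun i => f (b' i)) := by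
    intro i j k l hij hkl
    exact hchi i j k l hij hkl
  have hB := partB a b (fun i => f (a' i)) (fun i => f (b' i)) hab hconf π hπ hπ1 hπ2
  have hs := simple_alt (fun i => f (a' i)) (fun i => f (b' i)) hconf π hπ hπ1 hπ2
  refine ⟨alt a' b' π, ?_, ?_, ?_⟩
  · rw [alt_length]; omega
  · have h6 := simple_nodup hs
    rw [← alt_map] at h6
    exact h6.of_map
  · rw [alt_map]
    have h7 : Eqv ((L.map up).map e) ((poly O W).map e) := eqv_mapB e _ _ hE
    have h8 : (L.map up).map e = L := by
      rw [List.map_map]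
      conv_rhs => rw [← List.map_id L]
      apply List.map_congr_left
      intro q _
      simp only [Function.comp, id]
      rw [← he q]
      exact e.apply_symm_apply q
    rw [h8] at h7
    exact (Relation.EqvGen.symm _ _ hB).trans _ _ _ ((Relation.EqvGen.symm _ _ hE2).trans _ _ _ (Relation.EqvGen.symm _ _ h7))

end Knot548
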