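import Pool.Agent.Helper548.Knot.Base

namespace Knot548

open Set

/-- The edges of the open path with vertex list `L`. -/
def pedges {α : Type*} : List α → List (α × α)
  | [] => []
  | [_] => []
  | a :: b :: l => (a, b) :: pedges (b :: l)

section Plane

/-- number of half-open edges whose projection to the plane contains `x` -/
noncomputable def cnt (ed : List ((ℂ × ℝ) × (ℂ × ℝ))) (x : ℂ) : ℕ :=
  open Classical in ed.countP (fun e => decide (x ∈ hseg e.1.1 e.2.1))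

/-- number of points of the polygon `P` over `x` -/
noncomputable def mult (P : List (ℂ × ℝ)) (x : ℂ) : ℕ := cnt (cedges P) x

/-- number of vertices of `P` over `O` -/
noncomputable def ax (O : ℂ) (P : List (ℂ × ℝ)) : ℕ :=
  open Classical in P.countP (fun v => decide (v.1 = O))

/-- regular polygon with centre `O` -/
structure Reg (O : ℂ) (P : List (ℂ × ℝ)) : Prop where
  simple : Simple P
  nondeg : ∀ e ∈ cedges P, e.1.1 ≠ e.2.1
  center : mult P O = ax O P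
  two : ∀ x, x ≠ O → mult P x ≤ 2
  vert : ∀ v ∈ P, v.1 ≠ O → mult P v.1 = 1

/-- the double points outside the centre -/
def dbl (O : ℂ) (P : List (ℂ × ℝ)) : Set ℂ := {x | x ≠ O ∧ mult P x = 2}

/-- polygon with centre `O`: `W` is the list of loops (level at which the loop starts, vertices) -/
def poly (O : ℂ) (W : List (ℝ × List (ℂ × ℝ))) : List (ℂ × ℝ) :=
  W.flatMap (fun p => ((O, p.1) : ℂ × ℝ) :: p.2)

/-- planar image of the loop with vertices `L` at the centre `O` -/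
def img (O : ℂ) (L : List (ℂ × ℝ)) : Set ℂ :=
  {x | ∃ e ∈ cedges (O :: L.map Prod.fst), x ∈ segment ℝ e.1 e.2}

/-- family of loops at `O` with pairwise disjoint planar images; loops with one vertex are pages -/
structure Loops (O : ℂ) (W : List (ℝ × List (ℂ × ℝ))) : Prop where
  len : 2 ≤ W.length ∨ ∃ p ∈ W, 2 ≤ p.2.length
  ne : ∀ p ∈ W, p.2 ≠ []
  off : ∀ p ∈ W, ∀ v ∈ p.2, v.1 ≠ O
  nod : (W.map Prod.fst).Nodup
  simp : ∀ p ∈ W, 2 ≤ p.2.length → Simple (O :: p.2.map Prod.fst)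
  disj : W.Pairwise (fun p q => img O p.2 ∩ img O q.2 ⊆ {O})

/-- the closed planar segments of a list of edges -/
def psegs (ed : List ((ℂ × ℝ) × (ℂ × ℝ))) : Set ℂ := {x | ∃ e ∈ ed, x ∈ segment ℝ e.1.1 e.2.1}

/-- simple planar path -/
def PathSimple (N : List ℂ) : Prop :=
  (∀ e ∈ pedges N, e.1 ≠ e.2) ∧ (pedges N).Pairwise (fun e e' => Disjoint (hseg e.1 e.2) (hseg e'.1 e'.2)) ∧
    ∀ x ∈ N.getLast?, ∀ e ∈ pedges N, x ∉ hseg e.1 e.2

/-- normal form of a polygon near the first double point `c` on the way from the axis vertex `(O, h)`;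
`c` lies on the edge from the last vertex of `(O, h) :: M` to `y` and on the edge `(a, b)`. -/
structure Ready (O : ℂ) (h : ℝ) (M : List (ℂ × ℝ)) (y y2 : ℂ × ℝ) (X : List (ℂ × ℝ)) (a b : ℂ × ℝ)
    (Y : List (ℂ × ℝ)) (c : ℂ) : Prop where
  reg : Reg O ((((O, h) :: M) ++ [y, y2]) ++ X ++ [a, b] ++ Y)
  moff : ∀ v ∈ M, v.1 ≠ O
  yoff : y.1 ≠ O
  y2off : y2.1 ≠ O
  aoff : a.1 ≠ O
  boff : b.1 ≠ O
  coff : c ≠ O
  cm : mult ((((O, h) :: M) ++ [y, y2]) ++ X ++ [a, b] ++ Y) c = 2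
  ce : c ∈ openSegment ℝ (((O, h) :: M).getLast (by simp)).1 y.1
  cs : c ∈ openSegment ℝ a.1 b.1
  k1 : ∀ x ∈ psegs (pedges ((O, h) :: M)), x ≠ O → mult ((((O, h) :: M) ++ [y, y2]) ++ X ++ [a, b] ++ Y) x ≤ 1
  k3 : ∀ x ∈ segment ℝ (((O, h) :: M).getLast (by simp)).1 y.1, x ≠ O → x ≠ c →
    mult ((((O, h) :: M) ++ [y, y2]) ++ X ++ [a, b] ++ Y) x ≤ 1
  k4 : ∀ x ∈ segment ℝ y.1 y2.1, x ≠ O → mult ((((O, h) :: M) ++ [y, y2]) ++ X ++ [a, b] ++ Y) x ≤ 1
  k5 : ∀ x ∈ segment ℝ a.1 b.1, x ≠ O → x ≠ c → mult ((((O, h) :: M) ++ [y, y2]) ++ X ++ [a, b] ++ Y) x ≤ 1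

/-- over `c`, the segment from `a` to `b` lies above the segment from `u` to `y` -/
def Over (u y a b : ℂ × ℝ) (c : ℂ) : Prop :=
  ∀ z z' : ℝ, ((c, z) : ℂ × ℝ) ∈ segment ℝ u y → ((c, z') : ℂ × ℝ) ∈ segment ℝ a b → z < z'

/-- reflection in the horizontal plane -/
def refl (P : List (ℂ × ℝ)) : List (ℂ × ℝ) := P.map (fun v => (v.1, -v.2))

/-- planar detour of the strand `[a, b]` (crossing `[v1, v2]` in `c`) around the corner `v1`: the new
path `a', l, r, b'` crosses `[v0, v1]` in `c'` instead, and avoids `F`. -/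
structure Detour (v0 v1 v2 a b c : ℂ) (F : Set ℂ) (a' b' l r c' : ℂ) : Prop where
  ha : a' ∈ openSegment ℝ a c
  hb : b' ∈ openSegment ℝ c b
  hc : c' ∈ openSegment ℝ v0 v1
  hc2 : c' ∈ openSegment ℝ l r
  m1 : segment ℝ l r ∩ segment ℝ v0 v1 = {c'}
  m2 : Disjoint (segment ℝ l r) (segment ℝ v1 v2)
  d1 : Disjoint (segment ℝ a' l) (segment ℝ v0 v1)
  d2 : Disjoint (segment ℝ a' l) (segment ℝ v1 v2)
  d3 : Disjoint (segment ℝ r b') (segment ℝ v0 v1)
  d4 : Disjoint (segment ℝ r b') (segment ℝ v1 v2)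
  f1 : Disjoint (segment ℝ a' l) F
  f2 : Disjoint (segment ℝ l r) F
  f3 : Disjoint (segment ℝ r b') F
  n1 : a' ≠ l
  n2 : l ≠ r
  n3 : r ≠ b'
  s1 : segment ℝ a' l ∩ segment ℝ l r = {l}
  s2 : segment ℝ l r ∩ segment ℝ r b' = {r}
  s3 : Disjoint (segment ℝ a' l) (segment ℝ r b')
  t1 : segment ℝ a a' ∩ segment ℝ a' l = {a'}
  t2 : Disjoint (segment ℝ a a') (segment ℝ l r)
  t3 : Disjoint (segment ℝ a a') (segment ℝ r b')
  t4 : segment ℝ r b' ∩ segment ℝ b' b = {b'}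
  t5 : Disjoint (segment ℝ b' b) (segment ℝ l r)
  t6 : Disjoint (segment ℝ b' b) (segment ℝ a' l)

/-- planar spike: the strand `[a, b]` (crossing `[O, y]` in `c`) can be pulled to `O` through the
triangle `O a' b'`, which avoids `F` and meets the segments `[O, w]`, `w ∈ Ws`, only in `O`. -/
structure Spike (O y a b c : ℂ) (F : Set ℂ) (Ws : List ℂ) (a' b' : ℂ) : Prop where
  ha : a' ∈ openSegment ℝ a c
  hb : b' ∈ openSegment ℝ c b
  f : Disjoint (convexHull ℝ {O, a', b'}) F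
  w : ∀ z ∈ Ws, convexHull ℝ {O, a', b'} ∩ segment ℝ O z ⊆ {O}
  e1 : segment ℝ O a' ∩ segment ℝ O y ⊆ {O}
  e2 : segment ℝ O b' ∩ segment ℝ O y ⊆ {O}
  t1 : segment ℝ a a' ∩ convexHull ℝ {O, a', b'} ⊆ {a'}
  t2 : segment ℝ b' b ∩ convexHull ℝ {O, a', b'} ⊆ {b'}
  o1 : segment ℝ O a' ∩ segment ℝ O b' ⊆ {O}
  ai : AffineIndependent ℝ ![O, a', b']

end Plane

/-- projection of space to the plane and the height -/
def up (q : R3) : ℂ × ℝ := (⟨q 0, q 1⟩, q 2)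

end Knot548
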