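import Pool.Agent.Helper548.Knot.Defs
import Pool.Agent.Helper548.Knot.P_ce_cons



namespace Knot548
open Set


theorem center_seg_countP847 {α : Type*} (p q : α → Bool) (l : List α)
    (h : ∀ x ∈ l, p x = true → q x = true) (x : α) (hx : x ∈ l) (hq : q x = true)
    (hp : p x = false) : l.countP p < l.countP q := by
  induction l with
  | nil => simp at hx
  | cons a t ih =>
    rw [List.countP_cons, List.countP_cons]
    rcases List.mem_cons.mp hx with rfl | hx'
    · have h1 : t.countP p ≤ t.countP q :=
        List.countP_mono_left (fun y hy => h y (List.mem_cons_of_mem _ hy))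
      simp only [hq, hp, if_true, Bool.false_eq_true, if_false]
      omega
    · have h1 := ih (fun y hy => h y (List.mem_cons_of_mem _ hy)) hx'
      have h2 : (if p a = true then 1 else 0) ≤ (if q a = true then 1 else 0) := by
        by_cases hpa : p a = true
        · rw [if_pos hpa, if_pos (h a (List.mem_cons_self ..) hpa)]
        · rw [if_neg hpa]; exact Nat.zero_le _
      omega

theorem center_seg {O : ℂ} {P : List (ℂ × ℝ)} (hr : Reg O P) (e : (ℂ × ℝ) × (ℂ × ℝ)) (he : e ∈ cedges P)
    (hO : O ∈ segment ℝ e.1.1 e.2.1) : e.1.1 = O ∨ e.2.1 = O := by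
  classical
  by_contra hcon
  push Not at hcon
  obtain ⟨h1, h2⟩ := hcon
  have hsg : O ∈ hseg e.1.1 e.2.1 := by
    obtain ⟨a, b, ha, hb, hab, hO'⟩ := hO
    refine ⟨b, hb, ?_, ?_⟩
    · rcases eq_or_lt_of_le ha with h0 | h0
      · exfalso
        apply h2
        rw [← hO', ← h0]
        have : b = 1 := by linarith
        rw [this]; simp
      · linarith
    · rw [← hO']
      have : a = 1 - b := by linarith
      rw [this]
  have hc := hr.center
  have hax : ax O P = (cedges P).countP
      (fun e => @decide (e.1.1 = O) (Classical.propDecidable _)) := by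
    have hmap : (cedges P).map Prod.fst = P := by
      unfold cedges
      apply List.map_fst_zip
      simp
    unfold ax
    conv_lhs => rw [← hmap]
    rw [List.countP_map]
    rfl
  have hlt : (cedges P).countP (fun e => @decide (e.1.1 = O) (Classical.propDecidable _)) <
      (cedges P).countP (fun e => @decide (O ∈ hseg e.1.1 e.2.1) (Classical.propDecidable _)) := by
    apply center_seg_countP847 _ _ _ _ e he
    · exact decide_eq_true hsg
    · exact decide_eq_false h1
    · intro x _ hx
      have hx' : x.1.1 = O := of_decide_eq_true hx
      apply decide_eq_true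
      exact ⟨0, le_refl _, one_pos, by rw [hx']; simp⟩
  have hm : mult P O = (cedges P).countP
      (fun e => @decide (O ∈ hseg e.1.1 e.2.1) (Classical.propDecidable _)) := rfl
  rw [hm, hax] at hc
  omega

end Knot548
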