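import Pool.Agent.Helper548.Knot.Defs



namespace Knot548
open Set


theorem eqv_rotate {E : Type*} [AddCommGroup E] [Module ℝ E] [TopologicalSpace E] (L : List E) (k : ℕ) :
    Eqv L (L.rotate k) := by
  induction k with
  | zero =>
    rw [List.rotate_zero]
    exact Relation.EqvGen.refl _
  | succ k ih =>
    rw [← List.rotate_rotate]
    exact Relation.EqvGen.trans _ _ _ ih (Relation.EqvGen.rel _ _ (Move.rotate (L.rotate k)))

end Knot548
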