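import Pool.Agent.Helper548.Knot.Defs
import Pool.Agent.Helper548.Knot.P_eqv_rotate



namespace Knot548
open Set


theorem eqv_insert {E : Type*} [AddCommGroup E] [Module ℝ E] [TopologicalSpace E] (A B : List E) (a b : E)
    (s : ℝ) (h0 : 0 < s) (h1 : s < 1) :
    Eqv (A ++ a :: b :: B) (A ++ a :: ((1 - s) • a + s • b) :: b :: B) := by
  have e1 := eqv_rotate (A ++ a :: b :: B) A.length
  have e2 := eqv_rotate (A ++ a :: ((1 - s) • a + s • b) :: b :: B) A.length
  rw [List.rotate_append_length_eq] at e1 e2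
  have e3 : Eqv (a :: b :: B ++ A) (a :: ((1 - s) • a + s • b) :: b :: B ++ A) :=
    Relation.EqvGen.rel _ _ (Move.insert a b (B ++ A) s h0 h1)
  exact Relation.EqvGen.trans _ _ _ e1 (Relation.EqvGen.trans _ _ _ e3 (Relation.EqvGen.symm _ _ e2))

end Knot548
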