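import Pool.Agent.Helper548.Knot.Defs



namespace Knot548
open Set


theorem eqv_lin {E : Type*} [AddCommGroup E] [Module ℝ E] [TopologicalSpace E] [IsTopologicalAddGroup E]
    [ContinuousSMul ℝ E] (P Q : List E) (h : P.length = Q.length)
    (hs : ∀ t ∈ Icc (0 : ℝ) 1, Simple (List.zipWith (fun a b => (1 - t) • a + t • b) P Q)) : Eqv P Q := by
  have hlt : ∀ i : Fin P.length, (i : ℕ) < Q.length := fun i => h ▸ i.2
  let v : ℝ → Fin P.length → E := fun t i => (1 - t) • P[(i : ℕ)] + t • Q[(i : ℕ)]'(hlt i)
  have hv : Continuous v := continuous_pi fun i =>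
    ((continuous_const.sub continuous_id).smul continuous_const).add
      (continuous_id.smul continuous_const)
  have hof : ∀ t, List.ofFn (v t) = List.zipWith (fun a b => (1 - t) • a + t • b) P Q := by
    intro t
    apply List.ext_getElem
    · simp [h]
    · intro i h1 h2
      simp [v]
  have h0 : List.ofFn (v 0) = P := by
    apply List.ext_getElem
    · simp
    · intro i h1 h2
      simp [v]
  have h1 : List.ofFn (v 1) = Q := by
    apply List.ext_getElem
    · simp [h]
    · intro i h1 h2
      simp [v]
  have hm := Move.motion v hv (fun t ht => by rw [hof]; exact hs t ht)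
  rw [h0, h1] at hm
  exact Relation.EqvGen.rel _ _ hm

end Knot548
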