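import Pool.Agent.Helper548.Knot.Defs



namespace Knot548
open Set


theorem hseg_split {E : Type*} [AddCommGroup E] [Module ℝ E] (a b : E) (s : ℝ) (h0 : 0 < s) (h1 : s < 1) :
    hseg a b = hseg a ((1 - s) • a + s • b) ∪ hseg ((1 - s) • a + s • b) b ∧
      (a ≠ b → Disjoint (hseg a ((1 - s) • a + s • b)) (hseg ((1 - s) • a + s • b) b)) := by
  refine ⟨?_, ?_⟩
  · apply Set.Subset.antisymm
    · rintro y ⟨r, hr0, hr1, rfl⟩
      rcases lt_or_ge r s with hrs | hrs
      · left
        obtain ⟨u, hu⟩ : ∃ u : ℝ, r = u * s := ⟨r / s, by field_simp⟩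
        have hu0 : 0 ≤ u := by
          by_contra hc
          push Not at hc
          nlinarith
        have hu1 : u < 1 := by
          by_contra hc
          push Not at hc
          nlinarith
        subst hu
        refine ⟨u, hu0, hu1, ?_⟩
        module
      · right
        have hs' : 1 - s ≠ 0 := by linarith
        obtain ⟨u, hu⟩ : ∃ u : ℝ, r = s + u * (1 - s) := ⟨(r - s) / (1 - s), by
          field_simp
          ring⟩
        have hu0 : 0 ≤ u := by
          by_contra hc
          push Not at hc
          nlinarith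
        have hu1 : u < 1 := by
          by_contra hc
          push Not at hc
          nlinarith
        subst hu
        refine ⟨u, hu0, hu1, ?_⟩
        module
    · rintro y (⟨u, hu0, hu1, rfl⟩ | ⟨u, hu0, hu1, rfl⟩)
      · refine ⟨u * s, by positivity, by nlinarith, ?_⟩
        module
      · refine ⟨s + u * (1 - s), by nlinarith, by nlinarith, ?_⟩
        module
  · intro hab
    rw [Set.disjoint_left]
    rintro y ⟨u, hu0, hu1, hy⟩ ⟨u', hu0', hu1', hy'⟩
    have h2 : ((s + u' * (1 - s)) - u * s) • (a - b) = 0 := by
      have h3 : (1 - u) • a + u • ((1 - s) • a + s • b) -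
          ((1 - u') • ((1 - s) • a + s • b) + u' • b) = 0 := by
        rw [← hy, ← hy', sub_self]
      have h4 : ((s + u' * (1 - s)) - u * s) • (a - b) =
          (1 - u) • a + u • ((1 - s) • a + s • b) -
          ((1 - u') • ((1 - s) • a + s • b) + u' • b) := by module
      rw [h4, h3]
    rcases smul_eq_zero.1 h2 with h5 | h5
    · nlinarith
    · exact hab (sub_eq_zero.1 h5)

end Knot548
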