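import Pool.Agent.Helper548.Knot.Defs



namespace Knot548
open Set


theorem pe_append {α : Type*} (A : List α) (x : α) (B : List α) :
    pedges (A ++ x :: B) = pedges (A ++ [x]) ++ pedges (x :: B) := by
  induction A with
  | nil => simp [pedges]
  | cons a A ih =>
    cases A with
    | nil => simp [pedges]
    | cons b A =>
      simp only [List.cons_append] at ih ⊢
      simp only [pedges, List.cons_append] at ih ⊢
      simp_all

end Knot548
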