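import Pool.Agent.Helper548.Knot.Defs



namespace Knot548
open Set


theorem ce_rotate {α : Type*} (L : List α) (k : ℕ) : cedges (L.rotate k) = (cedges L).rotate k := by
  unfold cedges
  rw [List.rotate_rotate, Nat.add_comm k 1, ← List.rotate_rotate]
  have h := List.zipWith_rotate_distrib Prod.mk L (L.rotate 1) k (by simp)
  exact h.symm

end Knot548
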