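import Pool.Agent.Helper548.Knot.Defs
import Pool.Agent.Helper548.Knot.P_ce_rotate



namespace Knot548
open Set


theorem simple_rotate {E : Type*} [AddCommGroup E] [Module ℝ E] (L : List E) (k : ℕ) :
    Simple (L.rotate k) ↔ Simple L := by
  have hp : (cedges (L.rotate k)).Perm (cedges L) := by
    rw [ce_rotate]
    exact List.rotate_perm _ _
  unfold Simple
  refine and_congr ?_ ?_
  · exact forall_congr' fun e => by rw [hp.mem_iff]
  · exact hp.pairwise_iff (fun h => h.symm)

end Knot548
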