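import Pool.Agent.Helper548.Knot.Defs
import Pool.Agent.Helper548.Knot.P_ce_cons
import Pool.Agent.Helper548.Knot.P_pe_append
import Pool.Agent.Helper548.Knot.P_simple_rotate
import Pool.Agent.Helper548.Knot.P_hseg_split



namespace Knot548
open Set


theorem simple_insert_aux {E : Type*} [AddCommGroup E] [Module ℝ E] (C : List E) (a b : E) (s : ℝ)
    (h0 : 0 < s) (h1 : s < 1) :
    Simple (a :: ((1 - s) • a + s • b) :: b :: C) ↔ Simple (a :: b :: C) := by
  have hsp := hseg_split a b s h0 h1
  have hax : a = (1 - s) • a + s • b ↔ a = b := by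
    constructor
    · intro h
      have h2 : s • (b - a) = 0 := by
        have h3 : (1 - s) • a + s • b - a = s • (b - a) := by module
        rw [← h3, ← h, sub_self]
      rcases smul_eq_zero.1 h2 with h4 | h4
      · exact absurd h4 h0.ne'
      · exact (sub_eq_zero.1 h4).symm
    · rintro rfl
      module
  have hxb : (1 - s) • a + s • b = b ↔ a = b := by
    constructor
    · intro h
      have h2 : (1 - s) • (a - b) = 0 := by
        have h3 : (1 - s) • a + s • b - b = (1 - s) • (a - b) := by module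
        rw [← h3, h, sub_self]
      rcases smul_eq_zero.1 h2 with h4 | h4
      · exact absurd h4 (by linarith)
      · exact sub_eq_zero.1 h4
    · rintro rfl
      module
  generalize (1 - s) • a + s • b = x at hsp hax hxb ⊢
  have e1 : cedges (a :: x :: b :: C) = (a, x) :: (x, b) :: pedges (b :: (C ++ [a])) := by
    rw [ce_cons]; rfl
  have e2 : cedges (a :: b :: C) = (a, b) :: pedges (b :: (C ++ [a])) := by
    rw [ce_cons]; rfl
  unfold Simple
  rw [e1, e2]
  generalize pedges (b :: (C ++ [a])) = R
  simp only [List.forall_mem_cons, List.pairwise_cons, ne_eq]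
  rw [hax, hxb, hsp.1]
  constructor
  · rintro ⟨⟨hab, -, hR⟩, ⟨-, h2⟩, h3, h4⟩
    exact ⟨⟨hab, hR⟩, fun e he => Set.disjoint_union_left.2 ⟨h2 e he, h3 e he⟩, h4⟩
  · rintro ⟨⟨hab, hR⟩, h2, h4⟩
    exact ⟨⟨hab, hab, hR⟩, ⟨hsp.2 hab, fun e he => (Set.disjoint_union_left.1 (h2 e he)).1⟩,
      fun e he => (Set.disjoint_union_left.1 (h2 e he)).2, h4⟩

theorem simple_insert {E : Type*} [AddCommGroup E] [Module ℝ E] (A B : List E) (a b : E) (s : ℝ) (h0 : 0 < s)
    (h1 : s < 1) : Simple (A ++ a :: ((1 - s) • a + s • b) :: b :: B) ↔ Simple (A ++ a :: b :: B) := by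
  rw [← simple_rotate (A ++ a :: ((1 - s) • a + s • b) :: b :: B) A.length,
    ← simple_rotate (A ++ a :: b :: B) A.length, List.rotate_append_length_eq,
    List.rotate_append_length_eq]
  exact simple_insert_aux (B ++ A) a b s h0 h1

end Knot548
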