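import Pool.Agent.Helper548.Knot.Defs
import Pool.Agent.Helper548.Knot.P_ce_cons
import Pool.Agent.Helper548.Knot.P_pe_append
import Pool.Agent.Helper548.Knot.P_eqv_lin
import Pool.Agent.Helper548.Knot.P_hseg_split
import Pool.Agent.Helper548.Knot.P_simple_insert
import Pool.Agent.Helper548.Knot.P_eqv_insert



namespace Knot548
open Set


theorem delta_zip {E : Type*} [AddCommGroup E] [Module ℝ E] (t : ℝ) (R : List E) :
    List.zipWith (fun a b => (1 - t) • a + t • b) R R = R := by
  induction R with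
  | nil => rfl
  | cons x R ih =>
    rw [List.zipWith_cons_cons, ih]
    congr 1
    module

theorem delta_simple {E : Type*} [AddCommGroup E] [Module ℝ E]
    (a b Y : E) (R : List E) (hs : Simple (a :: b :: R))
    (hai : AffineIndependent ℝ ![a, Y, b])
    (hT : ∀ e ∈ pedges (b :: (R ++ [a])), ∀ x ∈ segment ℝ e.1 e.2,
      x ∈ convexHull ℝ {a, Y, b} → x = a ∨ x = b) (t : ℝ) (ht : t ∈ Icc (0 : ℝ) 1) :
    Simple (a :: ((1 - t) • ((1 - (1 / 2 : ℝ)) • a + (1 / 2 : ℝ) • b) + t • Y) :: b :: R) := by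
  have key : ∀ w0 w1 w2 : ℝ, w0 + w1 + w2 = 0 → w0 • a + w1 • Y + w2 • b = 0 →
      w0 = 0 ∧ w1 = 0 ∧ w2 = 0 := by
    intro w0 w1 w2 h1 h2
    have h := (affineIndependent_iff.1 hai) Finset.univ ![w0, w1, w2]
      (by simp [Fin.sum_univ_three, h1]) (by simp [Fin.sum_univ_three, h2])
    exact ⟨by simpa using h 0 (Finset.mem_univ _), by simpa using h 1 (Finset.mem_univ _),
      by simpa using h 2 (Finset.mem_univ _)⟩
  obtain ⟨ht0, ht1⟩ := ht
  set g : ℝ := (1 - t) / 2 with hg
  have hg0 : 0 ≤ g := by rw [hg]; linarith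
  have hg1 : g ≤ 1 / 2 := by rw [hg]; linarith
  have htg : t = 1 - 2 * g := by rw [hg]; ring
  have hy : (1 - t) • ((1 - (1 / 2 : ℝ)) • a + (1 / 2 : ℝ) • b) + t • Y =
      g • a + t • Y + g • b := by
    rw [hg]
    module
  rw [hy]
  have hconv : ∀ x0 x1 x2 : ℝ, 0 ≤ x0 → 0 ≤ x1 → 0 ≤ x2 → x0 + x1 + x2 = 1 →
      x0 • a + x1 • Y + x2 • b ∈ convexHull ℝ ({a, Y, b} : Set E) := by
    intro x0 x1 x2 h0 h1 h2 hsum
    have hc : Convex ℝ (convexHull ℝ ({a, Y, b} : Set E)) := convex_convexHull ℝ _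
    have ma : a ∈ convexHull ℝ ({a, Y, b} : Set E) := subset_convexHull ℝ _ (by simp)
    have mY : Y ∈ convexHull ℝ ({a, Y, b} : Set E) := subset_convexHull ℝ _ (by simp)
    have mb : b ∈ convexHull ℝ ({a, Y, b} : Set E) := subset_convexHull ℝ _ (by simp)
    have := hc.sum_mem (t := Finset.univ) (w := ![x0, x1, x2]) (z := ![a, Y, b])
      (by
        intro i _
        fin_cases i
        · exact h0
        · exact h1
        · exact h2)
      (by simp [Fin.sum_univ_three, hsum])
      (by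
        intro i _
        fin_cases i
        · exact ma
        · exact mY
        · exact mb)
    simpa [Fin.sum_univ_three] using this
  have hce : cedges (a :: b :: R) = (a, b) :: pedges (b :: (R ++ [a])) := by
    rw [ce_cons]; rfl
  have hce2 : ∀ y : E, cedges (a :: y :: b :: R) = (a, y) :: (y, b) :: pedges (b :: (R ++ [a])) := by
    intro y
    rw [ce_cons]; rfl
  obtain ⟨hne, hpw⟩ := hs
  rw [hce] at hne hpw
  rw [List.pairwise_cons] at hpw
  obtain ⟨hab, hpw'⟩ := hpw
  have hEne : ∀ e ∈ pedges (b :: (R ++ [a])), e.1 ≠ e.2 := fun e he =>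
    hne e (List.mem_cons_of_mem _ he)
  have hsub : ∀ e : E × E, hseg e.1 e.2 ⊆ segment ℝ e.1 e.2 := by
    rintro e x ⟨s, h0, h1, rfl⟩
    exact ⟨1 - s, s, by linarith, h0, by ring, rfl⟩
  have ha_hseg : a ∈ hseg a b := ⟨0, le_rfl, by norm_num, by simp⟩
  -- `x` in the triangle on a rest edge
  have hrest : ∀ e ∈ pedges (b :: (R ++ [a])), ∀ x0 x1 x2 : ℝ, 0 ≤ x0 → 0 ≤ x1 → 0 ≤ x2 →
      x0 + x1 + x2 = 1 → x2 ≠ 1 → x0 • a + x1 • Y + x2 • b ∉ hseg e.1 e.2 := by
    intro e he x0 x1 x2 h0 h1 h2 hsum hx2 hx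
    rcases hT e he _ (hsub e hx) (hconv x0 x1 x2 h0 h1 h2 hsum) with h | h
    · rw [h] at hx
      exact Set.disjoint_left.1 (hab e he) ha_hseg hx
    · have h3 := key x0 x1 (x2 - 1) (by linarith) (by
        have : x0 • a + x1 • Y + (x2 - 1) • b = (x0 • a + x1 • Y + x2 • b) - b := by module
        rw [this, h, sub_self])
      exact hx2 (by linarith [h3.2.2])
  have hay : a ≠ g • a + t • Y + g • b := by
    intro h
    have h3 := key (g - 1) t g (by rw [htg]; ring) (by
      have : (g - 1) • a + t • Y + g • b = (g • a + t • Y + g • b) - a := by module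
      rw [this, ← h, sub_self])
    linarith [h3.1]
  have hyb : g • a + t • Y + g • b ≠ b := by
    intro h
    have h3 := key g t (g - 1) (by rw [htg]; ring) (by
      have : g • a + t • Y + (g - 1) • b = (g • a + t • Y + g • b) - b := by module
      rw [this, h, sub_self])
    linarith [h3.2.2]
  have hd1 : Disjoint (hseg a (g • a + t • Y + g • b)) (hseg (g • a + t • Y + g • b) b) := by
    rw [Set.disjoint_left]
    rintro x ⟨s, hs0, hs1, rfl⟩ ⟨u, hu0, hu1, hu⟩
    have h3 := key ((1 - s) + s * g - (1 - u) * g) (s * t - (1 - u) * t)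
      (s * g - (1 - u) * g - u) (by rw [htg]; ring) (by
        have : ((1 - s) + s * g - (1 - u) * g) • a + (s * t - (1 - u) * t) • Y +
            (s * g - (1 - u) * g - u) • b =
            ((1 - s) • a + s • (g • a + t • Y + g • b)) -
              ((1 - u) • (g • a + t • Y + g • b) + u • b) := by module
        rw [this, hu, sub_self])
    linarith [h3.1, h3.2.2]
  have hd2 : ∀ e ∈ pedges (b :: (R ++ [a])),
      Disjoint (hseg a (g • a + t • Y + g • b)) (hseg e.1 e.2) := by
    intro e he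
    rw [Set.disjoint_left]
    rintro x ⟨s, hs0, hs1, rfl⟩ hx
    have e1 : (1 - s) • a + s • (g • a + t • Y + g • b) =
        ((1 - s) + s * g) • a + (s * t) • Y + (s * g) • b := by module
    rw [e1] at hx
    refine hrest e he _ _ _ ?_ ?_ ?_ ?_ ?_ hx
    · nlinarith
    · positivity
    · positivity
    · rw [htg]; ring
    · nlinarith
  have hd3 : ∀ e ∈ pedges (b :: (R ++ [a])),
      Disjoint (hseg (g • a + t • Y + g • b) b) (hseg e.1 e.2) := by
    intro e he
    rw [Set.disjoint_left]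
    rintro x ⟨s, hs0, hs1, rfl⟩ hx
    have e1 : (1 - s) • (g • a + t • Y + g • b) + s • b =
        ((1 - s) * g) • a + ((1 - s) * t) • Y + ((1 - s) * g + s) • b := by module
    rw [e1] at hx
    have hs' : 0 < 1 - s := by linarith
    refine hrest e he _ _ _ ?_ ?_ ?_ ?_ ?_ hx
    · positivity
    · positivity
    · positivity
    · rw [htg]; ring
    · nlinarith
  refine ⟨?_, ?_⟩
  · rw [hce2]
    intro e he
    rcases List.mem_cons.1 he with rfl | he
    · exact hay
    rcases List.mem_cons.1 he with rfl | he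
    · exact hyb
    exact hEne e he
  · rw [hce2, List.pairwise_cons, List.pairwise_cons]
    refine ⟨?_, hd3, hpw'⟩
    intro e he
    rcases List.mem_cons.1 he with rfl | he
    · exact hd1
    · exact hd2 e he

theorem delta {E : Type*} [AddCommGroup E] [Module ℝ E] [TopologicalSpace E] [IsTopologicalAddGroup E]
    [ContinuousSMul ℝ E] (a b Y : E) (R : List E) (hs : Simple (a :: b :: R))
    (hai : AffineIndependent ℝ ![a, Y, b])
    (hT : ∀ e ∈ pedges (b :: (R ++ [a])), ∀ x ∈ segment ℝ e.1 e.2, x ∈ convexHull ℝ {a, Y, b} → x = a ∨ x = b) :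
    Simple (a :: Y :: b :: R) ∧ Eqv (a :: b :: R) (a :: Y :: b :: R) := by
  have h1 := delta_simple a b Y R hs hai hT
  constructor
  · have := h1 1 ⟨zero_le_one, le_rfl⟩
    have e : (1 - (1 : ℝ)) • ((1 - (1 / 2 : ℝ)) • a + (1 / 2 : ℝ) • b) + (1 : ℝ) • Y = Y := by
      module
    rwa [e] at this
  · have e1 := eqv_insert ([] : List E) R a b (1 / 2 : ℝ) (by norm_num) (by norm_num)
    simp only [List.nil_append] at e1
    refine Relation.EqvGen.trans _ _ _ e1 ?_
    refine eqv_lin _ _ (by simp) ?_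
    intro t ht
    have e2 : List.zipWith (fun a b => (1 - t) • a + t • b)
        (a :: ((1 - (1 / 2 : ℝ)) • a + (1 / 2 : ℝ) • b) :: b :: R) (a :: Y :: b :: R) =
        a :: ((1 - t) • ((1 - (1 / 2 : ℝ)) • a + (1 / 2 : ℝ) • b) + t • Y) :: b :: R := by
      rw [List.zipWith_cons_cons, List.zipWith_cons_cons, List.zipWith_cons_cons, delta_zip]
      have e3 : (1 - t) • a + t • a = a := by module
      have e4 : (1 - t) • b + t • b = b := by module
      rw [e3, e4]
    rw [e2]
    exact h1 t ht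

end Knot548
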