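import Pool.Agent.Helper548.Knot.Defs
import Pool.Agent.Helper548.Knot.P_ce_cons
import Pool.Agent.Helper548.Knot.P_pe_append



namespace Knot548
open Set


theorem ready_edges0 {O : ℂ} {h : ℝ} (y y2 : ℂ × ℝ) (X : List (ℂ × ℝ)) (a b : ℂ × ℝ)
    (Y : List (ℂ × ℝ)) :
    cedges ((((O, h) :: []) ++ [y, y2]) ++ X ++ [a, b] ++ Y) =
      [((O, h), y)] ++ pedges (y :: y2 :: (X ++ [a])) ++ [(a, b)] ++ pedges (b :: (Y ++ [(O, h)])) := by
  have h1 : (((O, h) :: []) ++ [y, y2]) ++ X ++ [a, b] ++ Y =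
      (O, h) :: (y :: y2 :: (X ++ a :: b :: Y)) := by simp
  have h2 : (O, h) :: ((y :: y2 :: (X ++ a :: b :: Y)) ++ [(O, h)]) =
      (O, h) :: y :: (y2 :: X ++ a :: (b :: (Y ++ [(O, h)]))) := by simp
  have h3 : pedges (y :: (y2 :: X ++ a :: (b :: (Y ++ [(O, h)])))) =
      pedges (y :: y2 :: (X ++ [a])) ++ pedges (a :: b :: (Y ++ [(O, h)])) :=
    pe_append (y :: y2 :: X) a (b :: (Y ++ [(O, h)]))
  rw [h1, ce_cons, h2]
  show ((O, h), y) :: pedges (y :: (y2 :: X ++ a :: (b :: (Y ++ [(O, h)])))) = _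
  rw [h3]
  show ((O, h), y) :: (pedges (y :: y2 :: (X ++ [a])) ++ (a, b) :: pedges (b :: (Y ++ [(O, h)]))) = _
  simp

end Knot548
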