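import Pool.Agent.Helper548.Knot.Defs
import Pool.Agent.Helper548.Knot.P_ce_cons
import Pool.Agent.Helper548.Knot.P_pe_append
import Pool.Agent.Helper548.Knot.P_simple_rotate
import Pool.Agent.Helper548.Knot.P_eqv_rotate
import Pool.Agent.Helper548.Knot.P_center_seg
import Pool.Agent.Helper548.Knot.P_delta
import Pool.Agent.Helper548.Knot.P_ready_edges0



namespace Knot548
open Set


theorem ad_mem_pedges {α : Type*} (L : List α) : ∀ e ∈ pedges L, e.1 ∈ L ∧ e.2 ∈ L := by
  induction L with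
  | nil => intro e he; simp [pedges] at he
  | cons a l ih =>
    cases l with
    | nil => intro e he; simp [pedges] at he
    | cons b l =>
      intro e he
      rw [pedges, List.mem_cons] at he
      rcases he with rfl | he
      · exact ⟨by simp, by simp⟩
      · have := ih e he
        exact ⟨List.mem_cons_of_mem _ this.1, List.mem_cons_of_mem _ this.2⟩

theorem ad_fst_mem {u v x : ℂ × ℝ} (h : x ∈ segment ℝ u v) : x.1 ∈ segment ℝ u.1 v.1 := by
  obtain ⟨s, t, hs, ht, hst, rfl⟩ := h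
  exact ⟨s, t, hs, ht, hst, rfl⟩

theorem ad_snd_const {u v x : ℂ × ℝ} (h : x ∈ segment ℝ u v) (c : ℝ) (hu : u.2 = c)
    (hv : v.2 = c) : x.2 = c := by
  obtain ⟨s, t, hs, ht, hst, rfl⟩ := h
  simp only [Prod.snd_add, Prod.smul_snd, smul_eq_mul, hu, hv]
  rw [← add_mul, hst, one_mul]

theorem ad_end {u v x : ℂ × ℝ} {O : ℂ} (h : x ∈ segment ℝ u v) (hx : x.1 = O) (hu : u.1 = O)
    (hv : v.1 ≠ O) : x = u := by
  obtain ⟨s, t, hs, ht, hst, rfl⟩ := h
  have h1 : s • u.1 + t • v.1 = O := hx
  have hs1 : s = 1 - t := by linarith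
  have h2 : t • (v.1 - O) = 0 := by
    rw [hu] at h1
    have h3 : (1 - t) • O + t • v.1 = O := by rw [← hs1]; exact h1
    have h4 : t • (v.1 - O) = ((1 - t) • O + t • v.1) - O := by module
    rw [h4, h3, sub_self]
  have ht0 : t = 0 := by
    rcases smul_eq_zero.1 h2 with h5 | h5
    · exact h5
    · exact absurd (sub_eq_zero.1 h5) hv
  have hs0 : s = 1 := by linarith
  rw [ht0, hs0, one_smul, zero_smul, add_zero]

theorem ad_hull {a' O b' : ℂ} {g : ℝ} {x : ℂ × ℝ}
    (hx : x ∈ convexHull ℝ ({(a', g), (O, g), (b', g)} : Set (ℂ × ℝ))) :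
    x.1 ∈ convexHull ℝ ({O, a', b'} : Set ℂ) ∧ x.2 = g := by
  constructor
  · have h1 : (LinearMap.fst ℝ ℂ ℝ) x ∈ (LinearMap.fst ℝ ℂ ℝ) ''
        convexHull ℝ ({(a', g), (O, g), (b', g)} : Set (ℂ × ℝ)) := ⟨x, hx, rfl⟩
    rw [(LinearMap.fst ℝ ℂ ℝ).image_convexHull] at h1
    have h2 : (LinearMap.fst ℝ ℂ ℝ) '' ({(a', g), (O, g), (b', g)} : Set (ℂ × ℝ)) =
        ({O, a', b'} : Set ℂ) := by
      ext z
      simp only [Set.mem_image, Set.mem_insert_iff, Set.mem_singleton_iff]
      constructor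
      · rintro ⟨w, (rfl | rfl | rfl), rfl⟩
        · right; left; rfl
        · left; rfl
        · right; right; rfl
      · rintro (rfl | rfl | rfl)
        · exact ⟨_, Or.inr (Or.inl rfl), rfl⟩
        · exact ⟨_, Or.inl rfl, rfl⟩
        · exact ⟨_, Or.inr (Or.inr rfl), rfl⟩
    rw [h2] at h1
    exact h1
  · have h1 : convexHull ℝ ({(a', g), (O, g), (b', g)} : Set (ℂ × ℝ)) ⊆ {x | x.2 = g} := by
      apply convexHull_min
      · rintro w (rfl | rfl | rfl) <;> rfl
      · intro u hu v hv s t hs ht hst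
        simp only [Set.mem_ofPred_eq] at hu hv ⊢
        simp only [Prod.snd_add, Prod.smul_snd, smul_eq_mul, hu, hv]
        rw [← add_mul, hst, one_mul]
    exact h1 hx

theorem absorb_delta {O : ℂ} {h : ℝ} {y y2 : ℂ × ℝ} {X : List (ℂ × ℝ)} {a b : ℂ × ℝ}
    {Y : List (ℂ × ℝ)} {c : ℂ} (hy : y.1 ≠ O) (a' b' : ℂ) (hS : Spike O y.1 a.1 b.1 c ∅ [] a' b')
    (hrest : ∀ e ∈ pedges (y :: y2 :: (X ++ [a])) ++ pedges (b :: (Y ++ [(O, h)])), ∀ x ∈ segment ℝ e.1.1 e.2.1,
        x ∈ convexHull ℝ {O, a', b'} → x = O) (g : ℝ) (hg : h < g)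
    (hgO : ∀ w ∈ (O, h) :: y :: y2 :: (X ++ [a, b] ++ Y), w.1 = O → w.2 ≠ g)
    (hr : Reg O (((((O, h) :: []) ++ [(y.1, h), y2]) ++ X ++ [a, (a', g), (b', g), b] ++ Y) : List (ℂ × ℝ))) :
    Simple (((((O, h) :: []) ++ [(y.1, h), y2]) ++ X ++ [a, (a', g), (O, g), (b', g), b] ++ Y) : List (ℂ × ℝ)) ∧
      Eqv (((((O, h) :: []) ++ [(y.1, h), y2]) ++ X ++ [a, (a', g), (b', g), b] ++ Y) : List (ℂ × ℝ))
        ((((O, h) :: []) ++ [(y.1, h), y2]) ++ X ++ [a, (a', g), (O, g), (b', g), b] ++ Y) := by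
  obtain ⟨A, hA⟩ : ∃ A : List (ℂ × ℝ), A = (O, h) :: (y.1, h) :: y2 :: (X ++ [a]) := ⟨_, rfl⟩
  have hP : (((((O, h) :: []) ++ [(y.1, h), y2]) ++ X ++ [a, (a', g), (b', g), b] ++ Y) :
      List (ℂ × ℝ)) = A ++ ((a', g) :: (b', g) :: b :: Y) := by
    rw [hA]; simp
  have hP' : (((((O, h) :: []) ++ [(y.1, h), y2]) ++ X ++ [a, (a', g), (O, g), (b', g), b] ++ Y) :
      List (ℂ × ℝ)) = A ++ ((a', g) :: (O, g) :: (b', g) :: b :: Y) := by
    rw [hA]; simp
  have hrotP : (A ++ ((a', g) :: (b', g) :: b :: Y)).rotate A.length =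
      (a', g) :: (b', g) :: (b :: (Y ++ A)) := by
    rw [List.rotate_append_length_eq]; simp
  have hrotP' : (A ++ ((a', g) :: (O, g) :: (b', g) :: b :: Y)).rotate A.length =
      (a', g) :: (O, g) :: (b', g) :: (b :: (Y ++ A)) := by
    rw [List.rotate_append_length_eq]; simp
  -- the edges of P
  have hce := ready_edges0 (O := O) (h := h) (y.1, h) y2 X a (a', g) ((b', g) :: b :: Y)
  have hPe : (((((O, h) :: []) ++ [(y.1, h), y2]) ++ X ++ [a, (a', g)] ++ ((b', g) :: b :: Y)) :
      List (ℂ × ℝ)) =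
      ((((O, h) :: []) ++ [(y.1, h), y2]) ++ X ++ [a, (a', g), (b', g), b] ++ Y) := by
    simp
  rw [hPe] at hce
  have hsimple := hr.simple
  rw [hP, ← simple_rotate _ A.length, hrotP] at hsimple
  -- affine independence
  have hai : AffineIndependent ℝ ![((a', g) : ℂ × ℝ), (O, g), (b', g)] := by
    apply AffineIndependent.of_comp (LinearMap.fst ℝ ℂ ℝ).toAffineMap
    have h1 := hS.ai.comp_embedding (Equiv.swap (0 : Fin 3) 1).toEmbedding
    have h2 : (⇑(LinearMap.fst ℝ ℂ ℝ).toAffineMap ∘ ![((a', g) : ℂ × ℝ), (O, g), (b', g)]) =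
        ![O, a', b'] ∘ ⇑(Equiv.swap (0 : Fin 3) 1).toEmbedding := by
      funext i
      fin_cases i <;> simp [Equiv.swap_apply_def]
    rw [h2]
    exact h1
  -- rest edges
  have hrestE : ∀ e ∈ pedges (y2 :: (X ++ [a])) ++ pedges (b :: (Y ++ [(O, h)])),
      ∀ x ∈ segment ℝ e.1 e.2, x.1 ∈ convexHull ℝ ({O, a', b'} : Set ℂ) → x.2 = g → False := by
    intro e he x hx hx1 hx2
    have heR : e ∈ pedges (y :: y2 :: (X ++ [a])) ++ pedges (b :: (Y ++ [(O, h)])) := by
      rw [List.mem_append] at he ⊢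
      rcases he with he | he
      · left
        rw [pedges]
        exact List.mem_cons_of_mem _ he
      · exact Or.inr he
    have hxO := hrest e heR x.1 (ad_fst_mem hx) hx1
    have heP : e ∈ cedges (((((O, h) :: []) ++ [(y.1, h), y2]) ++ X ++
        [a, (a', g), (b', g), b] ++ Y) : List (ℂ × ℝ)) := by
      rw [hce]
      simp only [List.mem_append]
      rw [List.mem_append] at he
      rcases he with he | he
      · left; left; right
        rw [pedges]
        exact List.mem_cons_of_mem _ he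
      · right
        rw [List.cons_append, pedges, List.cons_append, pedges]
        exact List.mem_cons_of_mem _ (List.mem_cons_of_mem _ he)
    have hOs : O ∈ segment ℝ e.1.1 e.2.1 := by
      rw [← hxO]; exact ad_fst_mem hx
    have hnd := hr.nondeg e heP
    have hmem : e.1 ∈ (O, h) :: y :: y2 :: (X ++ [a, b] ++ Y) ∧
        e.2 ∈ (O, h) :: y :: y2 :: (X ++ [a, b] ++ Y) := by
      rw [List.mem_append] at he
      rcases he with he | he
      · obtain ⟨h1, h2⟩ := ad_mem_pedges _ e he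
        constructor
        · simp only [List.mem_cons, List.mem_append] at h1 ⊢
          tauto
        · simp only [List.mem_cons, List.mem_append] at h2 ⊢
          tauto
      · obtain ⟨h1, h2⟩ := ad_mem_pedges _ e he
        constructor
        · simp only [List.mem_cons, List.mem_append] at h1 ⊢
          tauto
        · simp only [List.mem_cons, List.mem_append] at h2 ⊢
          tauto
    rcases center_seg hr e heP hOs with hc | hc
    · have h1 : x = e.1 := ad_end hx hxO hc (fun h => hnd (hc.trans h.symm))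
      apply hgO e.1 hmem.1 hc
      rw [← h1]; exact hx2
    · rw [segment_symm] at hx
      have h1 : x = e.2 := ad_end hx hxO hc (fun h => hnd (h.trans hc.symm))
      apply hgO e.2 hmem.2 hc
      rw [← h1]; exact hx2
  have hdelta := delta ((a', g) : ℂ × ℝ) (b', g) (O, g) (b :: (Y ++ A)) hsimple hai (by
    intro e he x hx hxT
    obtain ⟨hx1, hx2⟩ := ad_hull hxT
    have hsplit : pedges ((b', g) :: (b :: (Y ++ A) ++ [(a', g)])) =
        ((b', g), b) :: (pedges (b :: (Y ++ [(O, h)])) ++ (((O, h), (y.1, h)) ::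
          ((y.1, h), y2) :: (pedges (y2 :: (X ++ [a])) ++ [(a, (a', g))]))) := by
      rw [hA]
      have h1 : (b', g) :: (b :: (Y ++ (O, h) :: (y.1, h) :: y2 :: (X ++ [a])) ++ [(a', g)]) =
          (b', g) :: b :: (Y ++ (O, h) :: ((y.1, h) :: y2 :: (X ++ [a, (a', g)]))) := by simp
      rw [h1, pedges]
      congr 1
      have h2 := pe_append (b :: Y) ((O, h) : ℂ × ℝ) ((y.1, h) :: y2 :: (X ++ [a, (a', g)]))
      rw [List.cons_append] at h2
      rw [h2, List.cons_append, pedges, pedges]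
      congr 3
      have h3 := pe_append (y2 :: X) a [(a', g)]
      rw [List.cons_append] at h3
      rw [h3]
      simp [pedges]
    rw [hsplit] at he
    simp only [List.mem_cons, List.mem_append, List.not_mem_nil, or_false] at he
    rcases he with rfl | he | rfl | rfl | he | rfl
    · right
      have h1 : x.1 ∈ segment ℝ b' b.1 := ad_fst_mem hx
      have h2 : x.1 = b' := hS.t2 ⟨h1, hx1⟩
      exact Prod.ext h2 hx2
    · exact (hrestE e (List.mem_append.2 (Or.inr he)) x hx hx1 hx2).elim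
    · have h1 : x.2 = h := ad_snd_const hx h rfl rfl
      exact absurd (h1.symm.trans hx2) hg.ne
    · have h1 : x.1 ∈ segment ℝ y.1 y2.1 := by
        have h0 := ad_fst_mem hx
        exact h0
      have hxO : x.1 = O := by
        refine hrest (y, y2) ?_ x.1 h1 hx1
        rw [List.mem_append]
        left
        rw [pedges]
        exact List.mem_cons_self
      have heP : ((y.1, h), y2) ∈ cedges (((((O, h) :: []) ++ [(y.1, h), y2]) ++ X ++
          [a, (a', g), (b', g), b] ++ Y) : List (ℂ × ℝ)) := by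
        rw [hce]
        simp only [List.mem_append]
        left; left; right
        rw [pedges]
        exact List.mem_cons_self
      have hOs : O ∈ segment ℝ y.1 y2.1 := by rw [← hxO]; exact h1
      rcases center_seg hr _ heP hOs with hc | hc
      · exact absurd hc hy
      · rw [segment_symm] at hx
        have h3 : x = y2 := ad_end hx hxO hc hy
        exfalso
        apply hgO y2 (by simp) hc
        rw [← h3]; exact hx2
    · exact (hrestE e (List.mem_append.2 (Or.inl he)) x hx hx1 hx2).elim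
    · left
      have h1 : x.1 ∈ segment ℝ a.1 a' := ad_fst_mem hx
      have h2 : x.1 = a' := hS.t1 ⟨h1, hx1⟩
      exact Prod.ext h2 hx2)
  obtain ⟨hd1, hd2⟩ := hdelta
  rw [hP, hP']
  constructor
  · rw [← simple_rotate _ A.length, hrotP']
    exact hd1
  · refine Relation.EqvGen.trans _ _ _ (eqv_rotate _ A.length) ?_
    rw [hrotP]
    refine Relation.EqvGen.trans _ _ _ hd2 ?_
    rw [← hrotP']
    exact Relation.EqvGen.symm _ _ (eqv_rotate _ A.length)
end Knot548
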