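import Pool.Agent.Helper548.Knot.Defs



namespace Knot548
open Set


theorem mult_ge_two {P : List (ℂ × ℝ)} (E3 : List ((ℂ × ℝ) × (ℂ × ℝ))) (e f : (ℂ × ℝ) × (ℂ × ℝ))
    (h : (cedges P).Perm (e :: f :: E3)) (x : ℂ) (he : x ∈ hseg e.1.1 e.2.1) (hf : x ∈ hseg f.1.1 f.2.1) :
    2 ≤ mult P x := by
  classical
  unfold mult cnt
  rw [h.countP_eq]
  rw [List.countP_cons_of_pos (by simpa using he), List.countP_cons_of_pos (by simpa using hf)]
  omega

end Knot548
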