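import Pool.Agent.Helper548.Knot.Defs
import Pool.Agent.Helper548.Knot.P_ce_rotate



namespace Knot548
open Set


theorem mult_rotate (P : List (ℂ × ℝ)) (k : ℕ) (x : ℂ) : mult (P.rotate k) x = mult P x := by
  unfold mult cnt
  rw [ce_rotate]
  exact (List.rotate_perm (cedges P) k).countP_eq _

end Knot548
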