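import Pool.Agent.Helper548.Knot.Defs
import Pool.Agent.Helper548.Knot.P_ce_rotate
import Pool.Agent.Helper548.Knot.P_simple_rotate
import Pool.Agent.Helper548.Knot.P_mult_rotate



namespace Knot548
open Set


theorem reg_rotate {O : ℂ} {P : List (ℂ × ℝ)} (k : ℕ) : Reg O (P.rotate k) ↔ Reg O P := by
  have hax : ax O (P.rotate k) = ax O P := by
    unfold ax
    exact (List.rotate_perm P k).countP_eq _
  constructor
  · intro h
    refine ⟨(simple_rotate P k).1 h.simple, ?_, ?_, ?_, ?_⟩
    · intro e he
      apply h.nondeg e
      rw [ce_rotate, List.mem_rotate]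
      exact he
    · have := h.center
      rwa [mult_rotate, hax] at this
    · intro x hx
      have := h.two x hx
      rwa [mult_rotate] at this
    · intro v hv hO
      have := h.vert v (List.mem_rotate.2 hv) hO
      rwa [mult_rotate] at this
  · intro h
    refine ⟨(simple_rotate P k).2 h.simple, ?_, ?_, ?_, ?_⟩
    · intro e he
      rw [ce_rotate, List.mem_rotate] at he
      exact h.nondeg e he
    · rw [mult_rotate, hax]
      exact h.center
    · intro x hx
      rw [mult_rotate]
      exact h.two x hx
    · intro v hv hO
      rw [mult_rotate]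
      exact h.vert v (List.mem_rotate.1 hv) hO

end Knot548
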