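import Pool.Agent.Helper548.Knot.Defs
import Pool.Agent.Helper548.Knot.P_ce_cons
import Pool.Agent.Helper548.Knot.P_pe_append
import Pool.Agent.Helper548.Knot.P_mult_rotate
import Pool.Agent.Helper548.Knot.P_reg_rotate



namespace Knot548
open Set


theorem vert_unique {O : ℂ} {P : List (ℂ × ℝ)} (hr : Reg O P) (A B : List (ℂ × ℝ)) (v : ℂ × ℝ)
    (h : P = A ++ v :: B) (hv : v.1 ≠ O) : ∀ w ∈ A ++ B, w.1 ≠ v.1 := by
  classical
  intro w hw hwv
  have h1 : mult P v.1 = 1 := hr.vert v (by rw [h]; simp) hv
  have h2 : P.countP (fun u => decide (u.1 = v.1)) ≤ mult P v.1 := by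
    have hm : (cedges P).map Prod.fst = P := by
      unfold cedges
      exact List.map_fst_zip (by simp)
    unfold mult cnt
    calc P.countP (fun u => decide (u.1 = v.1))
        = ((cedges P).map Prod.fst).countP (fun u => decide (u.1 = v.1)) := by rw [hm]
      _ = (cedges P).countP ((fun u => decide (u.1 = v.1)) ∘ Prod.fst) := List.countP_map
      _ ≤ (cedges P).countP (fun e => decide (v.1 ∈ hseg e.1.1 e.2.1)) := by
          refine List.countP_mono_left fun e _ he => ?_
          simp only [Function.comp_apply, decide_eq_true_eq] at he ⊢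
          exact ⟨0, le_rfl, one_pos, by rw [← he]; simp⟩
      _ ≤ _ := by
          refine List.countP_mono_left fun e _ he => ?_
          simpa using he
  have h3 : 2 ≤ P.countP (fun u => decide (u.1 = v.1)) := by
    rw [h, List.countP_append, List.countP_cons]
    have h4 : 1 ≤ (A ++ B).countP (fun u => decide (u.1 = v.1)) := by
      rw [Nat.one_le_iff_ne_zero, ← Nat.pos_iff_ne_zero, List.countP_pos_iff]
      exact ⟨w, hw, by simpa using hwv⟩
    rw [List.countP_append] at h4
    simp only [decide_true, if_true]
    omega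
  omega

end Knot548
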