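import Pool.Agent.Helper548.Knot.Defs
import Pool.Agent.Helper548.Knot.P_ce_cons
import Pool.Agent.Helper548.Knot.P_pe_append
import Pool.Agent.Helper548.Knot.P_hseg_split
import Pool.Agent.Helper548.Knot.P_center_seg
import Pool.Agent.Helper548.Knot.P_mult_ge_two
import Pool.Agent.Helper548.Knot.P_vert_unique
import Pool.Agent.Helper548.Knot.P_ready_edges0



namespace Knot548
open Set


theorem ar_cnt_cons (e : (ℂ × ℝ) × (ℂ × ℝ)) (L : List ((ℂ × ℝ) × (ℂ × ℝ))) (x : ℂ) :
    cnt (e :: L) x = (open Classical in if x ∈ hseg e.1.1 e.2.1 then 1 else 0) + cnt L x := by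
  classical
  unfold cnt
  rw [List.countP_cons, add_comm]
  simp only [decide_eq_true_eq]

theorem ar_cnt_nil (x : ℂ) : cnt [] x = 0 := by
  unfold cnt
  rfl

theorem ar_cnt_append (L M : List ((ℂ × ℝ) × (ℂ × ℝ))) (x : ℂ) :
    cnt (L ++ M) x = cnt L x + cnt M x := by
  unfold cnt
  rw [List.countP_append]

theorem ar_cnt_zero (L : List ((ℂ × ℝ) × (ℂ × ℝ))) (x : ℂ)
    (h : ∀ e ∈ L, x ∉ hseg e.1.1 e.2.1) : cnt L x = 0 := by
  unfold cnt
  rw [List.countP_eq_zero]
  intro e he
  simpa using h e he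

theorem ar_hseg_sub {E : Type*} [AddCommGroup E] [Module ℝ E] (p q : E) :
    hseg p q ⊆ segment ℝ p q := by
  rintro x ⟨s, h0, h1, rfl⟩
  exact ⟨1 - s, s, by linarith, h0, by ring, rfl⟩

theorem ar_left_mem {E : Type*} [AddCommGroup E] [Module ℝ E] (p q : E) : p ∈ hseg p q :=
  ⟨0, le_rfl, zero_lt_one, by simp⟩

theorem ar_right_not_mem {E : Type*} [AddCommGroup E] [Module ℝ E] (p q : E) (h : p ≠ q) :
    q ∉ hseg p q := by
  rintro ⟨s, h0, h1, h2⟩
  apply h
  have h3 : (1 - s) • (p - q) = 0 := by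
    have : (1 - s) • (p - q) = ((1 - s) • p + s • q) - q := by
      rw [smul_sub, sub_smul, sub_smul, one_smul, one_smul]
      abel
    rw [this, ← h2, sub_self]
  rcases smul_eq_zero.1 h3 with h4 | h4
  · linarith
  · exact sub_eq_zero.1 h4

theorem ar_end {α : Type*} (p q : α) (l : List α) :
    ∀ v ∈ p :: q :: l, ∃ e ∈ pedges (p :: q :: l), v = e.1 ∨ v = e.2 := by
  induction l generalizing p q with
  | nil =>
    intro v hv
    refine ⟨(p, q), by simp [pedges], ?_⟩
    simpa using hv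
  | cons r l ih =>
    intro v hv
    rcases List.mem_cons.1 hv with h | h
    · exact ⟨(p, q), by simp [pedges], Or.inl h⟩
    · obtain ⟨e, he, hev⟩ := ih q r v h
      refine ⟨e, ?_, hev⟩
      show e ∈ (p, q) :: pedges (q :: r :: l)
      exact List.mem_cons_of_mem _ he

theorem ar_end' {α : Type*} (p : α) (l : List α) (z : α) :
    ∀ v ∈ p :: l, ∃ e ∈ pedges (p :: (l ++ [z])), v = e.1 ∨ v = e.2 := by
  intro v hv
  cases l with
  | nil =>
    refine ⟨(p, z), by simp [pedges], Or.inl ?_⟩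
    simpa using hv
  | cons q l =>
    refine ar_end p q (l ++ [z]) v ?_
    rcases List.mem_cons.1 hv with h | h
    · exact h ▸ List.mem_cons_self
    · rcases List.mem_cons.1 h with h2 | h2
      · simp [h2]
      · simp [h2]

theorem absorb_reg {O : ℂ} {h : ℝ} {y y2 : ℂ × ℝ} {X : List (ℂ × ℝ)} {a b : ℂ × ℝ}
    {Y : List (ℂ × ℝ)} {c : ℂ} (R : Ready O h [] y y2 X a b Y c) (a' b' : ℂ) (hS : Spike O y.1 a.1 b.1 c ∅ [] a' b')
    (hrest : ∀ e ∈ pedges (y :: y2 :: (X ++ [a])) ++ pedges (b :: (Y ++ [(O, h)])), ∀ x ∈ segment ℝ e.1.1 e.2.1,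
        x ∈ convexHull ℝ {O, a', b'} → x = O) (g : ℝ)
    (hSi : Simple (((((O, h) :: []) ++ [(y.1, h), y2]) ++ X ++ [a, (a', g), (O, g), (b', g), b] ++ Y) : List (ℂ × ℝ))) :
    Reg O ((((O, h) :: []) ++ [(y.1, h), y2]) ++ X ++ [a, (a', g), (O, g), (b', g), b] ++ Y) ∧
    dbl O ((((O, h) :: []) ++ [(y.1, h), y2]) ++ X ++ [a, (a', g), (O, g), (b', g), b] ++ Y) =
      dbl O ((((O, h) :: []) ++ [y, y2]) ++ X ++ [a, b] ++ Y) \ {c} ∧
    ax O ((((O, h) :: []) ++ [(y.1, h), y2]) ++ X ++ [a, (a', g), (O, g), (b', g), b] ++ Y) =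
      ax O ((((O, h) :: []) ++ [y, y2]) ++ X ++ [a, b] ++ Y) + 1 := by
  classical
  obtain ⟨P0, hP0⟩ : ∃ P0 : List (ℂ × ℝ), P0 = (((O, h) :: []) ++ [y, y2]) ++ X ++ [a, b] ++ Y :=
    ⟨_, rfl⟩
  obtain ⟨P1, hP1⟩ : ∃ P1 : List (ℂ × ℝ), P1 = (((O, h) :: []) ++ [(y.1, h), y2]) ++ X ++
    [a, (a', g), (O, g), (b', g), b] ++ Y := ⟨_, rfl⟩
  rw [← hP1] at hSi
  rw [← hP0, ← hP1]
  have hreg : Reg O P0 := hP0 ▸ R.reg
  -- affine geometry
  have hai := hS.ai.injective
  have haO : a' ≠ O := by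
    intro hh
    have := @hai 0 1 (by simp [hh])
    exact absurd this (by decide)
  have hbO : b' ≠ O := by
    intro hh
    have := @hai 0 2 (by simp [hh])
    exact absurd this (by decide)
  have e0 : cedges P0 = [((O, h), y)] ++ pedges (y :: y2 :: (X ++ [a])) ++ [(a, b)] ++
      pedges (b :: (Y ++ [(O, h)])) := by
    rw [hP0]
    exact ready_edges0 y y2 X a b Y
  have e1 : cedges P1 = [((O, h), ((y.1, h) : ℂ × ℝ))] ++ pedges ((y.1, h) :: y2 :: (X ++ [a])) ++
      [(a, ((a', g) : ℂ × ℝ))] ++ (((a', g), (O, g)) :: ((O, g), (b', g)) :: ((b', g), b) ::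
      pedges (b :: (Y ++ [(O, h)]))) := by
    have h1 : P1 = (((O, h) :: []) ++ [(y.1, h), y2]) ++ X ++ [a, (a', g)] ++
        ((O, g) :: (b', g) :: b :: Y) := by
      rw [hP1]
      simp
    rw [h1, ready_edges0 (y.1, h) y2 X a (a', g) ((O, g) :: (b', g) :: b :: Y)]
    rfl
  have hab : a.1 ≠ b.1 := hreg.nondeg (a, b) (by rw [e0]; simp)
  have hyy : y.1 ≠ y2.1 := hreg.nondeg (y, y2) (by rw [e0]; simp [pedges])
  obtain ⟨μ, ν, hμ, hν, hμν, hc⟩ := R.cs
  obtain ⟨α, β, hα, hβ, hαβ, ha'⟩ := hS.ha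
  obtain ⟨γ, δ, hγ, hδ, hγδ, hb'⟩ := hS.hb
  have hμ' : μ = 1 - ν := by linarith
  have hα' : α = 1 - β := by linarith
  have hγ' : γ = 1 - δ := by linarith
  have hβν : β * ν < 1 := by nlinarith
  have hβν0 : 0 < β * ν := mul_pos hβ hν
  have ha1 : a' = (1 - β * ν) • a.1 + (β * ν) • b.1 := by
    rw [← ha', ← hc, hα', hμ']
    module
  have hspos : 0 < α * ν + δ * μ := by positivity
  obtain ⟨s, hs⟩ : ∃ s : ℝ, s = (α * ν + δ * μ) / (1 - β * ν) := ⟨_, rfl⟩
  have hs' : s * (1 - β * ν) = α * ν + δ * μ := by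
    rw [hs]
    exact div_mul_cancel₀ _ (by linarith)
  have hs0 : 0 < s := by
    rw [hs]
    exact div_pos hspos (by linarith)
  have hs1 : s < 1 := by
    rw [hs, div_lt_one (by linarith)]
    rw [hα', hμ']
    nlinarith
  have hb1 : b' = (1 - s) • a' + s • b.1 := by
    have h1 : b' - a' = (α * ν + δ * μ) • (b.1 - a.1) := by
      rw [← hb', ← ha', ← hc, hα', hμ', hγ']
      module
    have h2 : b.1 - a' = (1 - β * ν) • (b.1 - a.1) := by
      rw [ha1]
      module
    have h3 : b' - a' = s • (b.1 - a') := by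
      rw [h1, h2, smul_smul, hs']
    have h4 : b' = a' + s • (b.1 - a') := by
      rw [← h3]
      abel
    rw [h4]
    module
  obtain ⟨sp1, sp1d⟩ := hseg_split a.1 b.1 (β * ν) hβν0 hβν
  rw [← ha1] at sp1 sp1d
  obtain ⟨sp2, sp2d⟩ := hseg_split a' b.1 s hs0 hs1
  rw [← hb1] at sp2 sp2d
  have haa : a.1 ≠ a' := by
    intro hh
    have h2 : (β * ν) • (b.1 - a.1) = 0 := by
      have : (β * ν) • (b.1 - a.1) = a' - a.1 := by
        rw [ha1]
        module
      rw [this, ← hh, sub_self]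
    rcases smul_eq_zero.1 h2 with h3 | h3
    · linarith
    · exact hab (sub_eq_zero.1 h3).symm
  have hab' : a' ≠ b.1 := by
    intro hh
    have h2 : (1 - β * ν) • (b.1 - a.1) = 0 := by
      have : (1 - β * ν) • (b.1 - a.1) = b.1 - a' := by
        rw [ha1]
        module
      rw [this, hh, sub_self]
    rcases smul_eq_zero.1 h2 with h3 | h3
    · linarith
    · exact hab (sub_eq_zero.1 h3).symm
  have hbb : b' ≠ b.1 := by
    intro hh
    have h2 : (1 - s) • (b.1 - a') = 0 := by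
      have : (1 - s) • (b.1 - a') = b.1 - b' := by
        rw [hb1]
        module
      rw [this, hh, sub_self]
    rcases smul_eq_zero.1 h2 with h3 | h3
    · linarith
    · exact hab' (sub_eq_zero.1 h3).symm
  obtain ⟨T, hT⟩ : ∃ T : Set ℂ, T = convexHull ℝ {O, a', b'} := ⟨_, rfl⟩
  have hTc : Convex ℝ T := hT ▸ convex_convexHull ℝ _
  have hOT : O ∈ T := hT ▸ subset_convexHull ℝ _ (by simp)
  have haT : a' ∈ T := hT ▸ subset_convexHull ℝ _ (by simp)
  have hbT : b' ∈ T := hT ▸ subset_convexHull ℝ _ (by simp)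
  have hcT : c ∈ T := by
    have hne : α * ν + δ * μ ≠ 0 := hspos.ne'
    refine hTc.segment_subset haT hbT ⟨δ * μ / (α * ν + δ * μ), α * ν / (α * ν + δ * μ),
      by positivity, by positivity, ?_, ?_⟩
    · rw [← add_div, add_comm, div_self hne]
    · have h1 : a' = c + (-(α * ν)) • (b.1 - a.1) := by
        rw [← ha', ← hc, hα', hμ']
        module
      have h2 : b' = c + (δ * μ) • (b.1 - a.1) := by
        rw [← hb', ← hc, hγ', hμ']
        module
      rw [h1, h2]
      match_scalars <;> (field_simp; ring)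
  rw [← hT] at hrest
  have hrestS : ∀ e ∈ pedges (y :: y2 :: (X ++ [a])) ++ pedges (b :: (Y ++ [(O, h)])),
      ∀ x ∈ hseg e.1.1 e.2.1, x ∈ T → x = O := fun e he x hx hxT =>
    hrest e he x (ar_hseg_sub _ _ hx) hxT
  -- the counting function of the rest
  obtain ⟨S, hSd⟩ : ∃ S : ℂ → ℕ, ∀ x, S x = cnt (pedges (y :: y2 :: (X ++ [a]))) x +
      cnt (pedges (b :: (Y ++ [(O, h)]))) x := ⟨_, fun _ => rfl⟩
  have hST : ∀ x ∈ T, x ≠ O → S x = 0 := by
    intro x hx hxO
    rw [hSd, ar_cnt_zero, ar_cnt_zero]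
    · intro e he hxe
      exact hxO (hrestS e (List.mem_append_right _ he) x hxe hx)
    · intro e he hxe
      exact hxO (hrestS e (List.mem_append_left _ he) x hxe hx)
  have m0 : ∀ x, mult P0 x = (if x ∈ hseg O y.1 then 1 else 0) + S x +
      (if x ∈ hseg a.1 b.1 then 1 else 0) := by
    intro x
    unfold mult
    rw [e0]
    simp only [ar_cnt_append, ar_cnt_cons, ar_cnt_nil, hSd]
    omega
  have hpy : ∀ x, cnt (pedges ((y.1, h) :: y2 :: (X ++ [a]))) x =
      cnt (pedges (y :: y2 :: (X ++ [a]))) x := by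
    intro x
    show cnt ((((y.1, h) : ℂ × ℝ), y2) :: pedges (y2 :: (X ++ [a]))) x =
      cnt ((y, y2) :: pedges (y2 :: (X ++ [a]))) x
    rw [ar_cnt_cons, ar_cnt_cons]
  have m1 : ∀ x, mult P1 x = (if x ∈ hseg O y.1 then 1 else 0) + S x +
      (if x ∈ hseg a.1 a' then 1 else 0) + (if x ∈ hseg a' O then 1 else 0) +
      (if x ∈ hseg O b' then 1 else 0) + (if x ∈ hseg b' b.1 then 1 else 0) := by
    intro x
    unfold mult
    rw [e1]
    simp only [ar_cnt_append, ar_cnt_cons, ar_cnt_nil, hSd, hpy]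
    omega
  have hsegT : ∀ x, x ∈ hseg a' b' → x ∈ T := fun x hx =>
    hTc.segment_subset haT hbT (ar_hseg_sub _ _ hx)
  have hsegT1 : ∀ x, x ∈ hseg a' O → x ∈ T := fun x hx =>
    hTc.segment_subset haT hOT (ar_hseg_sub _ _ hx)
  have hsegT2 : ∀ x, x ∈ hseg O b' → x ∈ T := fun x hx =>
    hTc.segment_subset hOT hbT (ar_hseg_sub _ _ hx)
  have ht1 : ∀ x, x ∈ hseg a.1 a' → x ∉ T := by
    intro x hx hxT
    have h1 : x ∈ ({a'} : Set ℂ) := hS.t1 ⟨ar_hseg_sub _ _ hx, hT ▸ hxT⟩
    rw [mem_singleton_iff] at h1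
    rw [h1] at hx
    exact ar_right_not_mem _ _ haa hx
  have ht2 : ∀ x, x ∈ hseg b' b.1 → x ∈ T → x = b' := by
    intro x hx hxT
    exact hS.t2 ⟨ar_hseg_sub _ _ hx, hT ▸ hxT⟩
  have hout : ∀ x, x ∉ T → mult P1 x = mult P0 x := by
    intro x hx
    rw [m0, m1, if_neg (fun hh => hx (hsegT1 x hh)), if_neg (fun hh => hx (hsegT2 x hh))]
    by_cases h1 : x ∈ hseg a.1 a'
    · have h2 : x ∉ hseg a' b.1 := fun hh => (Set.disjoint_left.1 (sp1d hab)) h1 hh
      have h3 : x ∉ hseg b' b.1 := fun hh => h2 (sp2 ▸ Or.inr hh)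
      have h4 : x ∈ hseg a.1 b.1 := sp1 ▸ Or.inl h1
      rw [if_pos h1, if_neg h3, if_pos h4]
    · by_cases h2 : x ∈ hseg b' b.1
      · have h4 : x ∈ hseg a.1 b.1 := sp1 ▸ Or.inr (sp2 ▸ Or.inr h2)
        rw [if_neg h1, if_pos h2, if_pos h4]
      · have h4 : x ∉ hseg a.1 b.1 := by
          intro hh
          rw [sp1] at hh
          rcases hh with hh | hh
          · exact h1 hh
          · rw [sp2] at hh
            rcases hh with hh | hh
            · exact hx (hsegT x hh)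
            · exact h2 hh
        rw [if_neg h1, if_neg h2, if_neg h4]
  have hin : ∀ x ∈ T, x ≠ O → mult P1 x ≤ 1 := by
    intro x hxT hxO
    rw [m1, hST x hxT hxO, if_neg (fun hh => ht1 x hh hxT)]
    by_cases h1 : x ∈ hseg a' O
    · have h1' : x ∈ segment ℝ O a' := by
        rw [segment_symm]
        exact ar_hseg_sub _ _ h1
      have h2 : x ∉ hseg O y.1 := fun hh => hxO (hS.e1 ⟨h1', ar_hseg_sub _ _ hh⟩)
      have h3 : x ∉ hseg O b' := fun hh => hxO (hS.o1 ⟨h1', ar_hseg_sub _ _ hh⟩)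
      have h4 : x ∉ hseg b' b.1 := by
        intro hh
        have h5 := ht2 x hh hxT
        apply hxO
        refine hS.o1 ⟨h1', ?_⟩
        rw [h5]
        exact right_mem_segment ℝ _ _
      rw [if_neg h2, if_pos h1, if_neg h3, if_neg h4]
    · rw [if_neg h1]
      by_cases h2 : x ∈ hseg O b'
      · have h3 : x ∉ hseg O y.1 := fun hh =>
          hxO (hS.e2 ⟨ar_hseg_sub _ _ h2, ar_hseg_sub _ _ hh⟩)
        have h4 : x ∉ hseg b' b.1 := by
          intro hh
          have h5 := ht2 x hh hxT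
          rw [h5] at h2
          exact ar_right_not_mem _ _ (Ne.symm hbO) h2
        rw [if_neg h3, if_pos h2, if_neg h4]
      · rw [if_neg h2]
        by_cases h3 : x ∈ hseg b' b.1
        · have h5 := ht2 x h3 hxT
          have h4 : x ∉ hseg O y.1 := by
            intro hh
            apply hxO
            refine hS.e2 ⟨?_, ar_hseg_sub _ _ hh⟩
            rw [h5]
            exact right_mem_segment ℝ _ _
          rw [if_neg h4, if_pos h3]
        · rw [if_neg h3]
          split_ifs <;> norm_num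
  have hOab : O ∉ segment ℝ a.1 b.1 := by
    intro hh
    rcases center_seg hreg (a, b) (by rw [e0]; simp) hh with h1 | h1
    · exact R.aoff h1
    · exact R.boff h1
  have hO0 : O ∉ hseg a.1 b.1 := fun hh => hOab (ar_hseg_sub _ _ hh)
  have hax : ax O P1 = ax O P0 + 1 := by
    unfold ax
    rw [hP0, hP1]
    simp only [List.countP_append, List.countP_cons, List.countP_nil, decide_eq_true_eq]
    rw [if_neg haO, if_neg hbO]
    simp only [if_true]
    omega
  have hcen : mult P1 O = mult P0 O + 1 := by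
    rw [m0, m1, if_neg hO0]
    have h1 : O ∉ hseg a.1 a' := fun hh => hO0 (sp1 ▸ Or.inl hh)
    have h2 : O ∉ hseg a' O := ar_right_not_mem _ _ haO
    have h3 : O ∈ hseg O b' := ar_left_mem _ _
    have h4 : O ∉ hseg b' b.1 := fun hh => hO0 (sp1 ▸ Or.inr (sp2 ▸ Or.inr hh))
    rw [if_neg h1, if_neg h2, if_pos h3, if_neg h4]
  have hvT : ∀ v ∈ P0, v.1 ≠ O → v.1 ∉ T := by
    intro v hv hvO hvT
    apply hvO
    have h1 : v ∈ y :: y2 :: (X ++ [a]) ∨ v ∈ b :: Y := by
      rw [hP0] at hv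
      simp only [List.mem_append, List.mem_cons, List.not_mem_nil, or_false] at hv ⊢
      rcases hv with (((h1 | h1) | h1) | h1) | h1
      · exact absurd (by rw [h1]) hvO
      · rcases h1 with h1 | h1
        · exact Or.inl (Or.inl h1)
        · exact Or.inl (Or.inr (Or.inl h1))
      · exact Or.inl (Or.inr (Or.inr (Or.inl h1)))
      · rcases h1 with h1 | h1
        · exact Or.inl (Or.inr (Or.inr (Or.inr h1)))
        · exact Or.inr (Or.inl h1)
      · exact Or.inr (Or.inr h1)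
    rcases h1 with h1 | h1
    · obtain ⟨e, he, hev⟩ := ar_end y y2 (X ++ [a]) v h1
      refine hrest e (List.mem_append_left _ he) v.1 ?_ hvT
      rcases hev with hev | hev
      · rw [hev]
        exact left_mem_segment ℝ _ _
      · rw [hev]
        exact right_mem_segment ℝ _ _
    · obtain ⟨e, he, hev⟩ := ar_end' b Y (O, h) v h1
      refine hrest e (List.mem_append_right _ he) v.1 ?_ hvT
      rcases hev with hev | hev
      · rw [hev]
        exact left_mem_segment ℝ _ _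
      · rw [hev]
        exact right_mem_segment ℝ _ _
  have hvert0 : ∀ v ∈ P0, v.1 ≠ O → mult P1 v.1 = 1 := by
    intro v hv hvO
    rw [hout _ (hvT v hv hvO)]
    exact hreg.vert v hv hvO
  refine ⟨⟨hSi, ?_, ?_, ?_, ?_⟩, ?_, hax⟩
  · intro e he
    rw [e1] at he
    have hnd : ∀ e' ∈ cedges P0, e'.1.1 ≠ e'.2.1 := hreg.nondeg
    simp only [List.mem_append, List.mem_cons, List.not_mem_nil, or_false] at he
    rcases he with ((he | he) | he) | he | he | he | he
    · rw [he]
      exact Ne.symm R.yoff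
    · have he' : e ∈ (((y.1, h) : ℂ × ℝ), y2) :: pedges (y2 :: (X ++ [a])) := he
      rcases List.mem_cons.1 he' with he2 | he2
      · rw [he2]
        exact hyy
      · apply hnd
        rw [e0]
        have h3 : e ∈ pedges (y :: y2 :: (X ++ [a])) := List.mem_cons_of_mem _ he2
        simp [h3]
    · rw [he]
      exact haa
    · rw [he]
      exact haO
    · rw [he]
      exact Ne.symm hbO
    · rw [he]
      exact hbb
    · apply hnd
      rw [e0]
      simp [he]
  · rw [hcen, hreg.center, hax]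
  · intro x hx
    by_cases hxT : x ∈ T
    · exact (hin x hxT hx).trans (by norm_num)
    · rw [hout x hxT]
      exact hreg.two x hx
  · intro v hv hvO
    have h1 : v ∈ P0 ∨ v = (y.1, h) ∨ v = (a', g) ∨ v = (O, g) ∨ v = (b', g) := by
      rw [hP1] at hv
      rw [hP0]
      simp only [List.mem_append, List.mem_cons, List.not_mem_nil, or_false] at hv ⊢
      tauto
    rcases h1 with h1 | h1 | h1 | h1 | h1
    · exact hvert0 v h1 hvO
    · have h2 : v.1 = y.1 := by rw [h1]
      rw [h2]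
      exact hvert0 y (by rw [hP0]; simp) R.yoff
    · have h2 : v.1 = a' := by rw [h1]
      rw [h2]
      apply le_antisymm (hin a' haT haO)
      rw [m1, if_pos (ar_left_mem a' O)]
      omega
    · exact absurd (by rw [h1]) hvO
    · have h2 : v.1 = b' := by rw [h1]
      rw [h2]
      apply le_antisymm (hin b' hbT hbO)
      rw [m1, if_pos (ar_left_mem b' b.1)]
      omega
  · ext x
    simp only [dbl, mem_setOf_eq, mem_diff, mem_singleton_iff]
    by_cases hxT : x ∈ T
    · constructor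
      · rintro ⟨h1, h2⟩
        have := hin x hxT h1
        omega
      · rintro ⟨⟨h1, h2⟩, h3⟩
        exfalso
        rw [m0, hST x hxT h1] at h2
        have h4 : x ∈ hseg a.1 b.1 := by
          by_contra h4
          rw [if_neg h4] at h2
          split_ifs at h2 <;> omega
        have h5 := R.k5 x (ar_hseg_sub _ _ h4) h1 h3
        rw [← hP0, m0, hST x hxT h1] at h5
        omega
    · rw [hout x hxT]
      constructor
      · rintro ⟨h1, h2⟩
        refine ⟨⟨h1, h2⟩, ?_⟩
        rintro rfl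
        exact hxT hcT
      · rintro ⟨h1, h2⟩
        exact h1

end Knot548
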