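import Pool.Agent.Helper548.Knot.Defs
import Pool.Agent.Helper548.Knot.P_ce_cons
import Pool.Agent.Helper548.Knot.P_pe_append
import Pool.Agent.Helper548.Knot.P_mult_ge_two



namespace Knot548
open Set


theorem over_ord_pe_mem {α : Type*} : ∀ (l : List α) (e : α × α), e ∈ pedges l → e.1 ∈ l ∧ e.2 ∈ l
  | [], e, h => by simp [pedges] at h
  | [x], e, h => by simp [pedges] at h
  | a :: b :: l, e, h => by
    rw [pedges, List.mem_cons] at h
    rcases h with h | h
    · subst h; simp
    · have := over_ord_pe_mem (b :: l) e h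
      exact ⟨List.mem_cons_of_mem _ this.1, List.mem_cons_of_mem _ this.2⟩

theorem over_ord_open_hseg {p q c : ℂ} (h : c ∈ openSegment ℝ p q) : c ∈ hseg p q := by
  obtain ⟨s, t, hs, ht, hst, rfl⟩ := h
  exact ⟨t, ht.le, by linarith, by rw [← hst]; congr 2; ring⟩

theorem over_ord_seg_cases {p q c : ℂ} (h : c ∈ segment ℝ p q) : c ∈ hseg p q ∨ c = q := by
  obtain ⟨s, t, hs, ht, hst, rfl⟩ := h
  rcases lt_or_eq_of_le (show t ≤ 1 by linarith) with h | h
  · left
    exact ⟨t, ht, h, by rw [← hst]; congr 2; ring⟩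
  · right
    have : s = 0 := by linarith
    rw [this, h]; simp

theorem over_ord_cedges {α : Type*} (A' C : List α) (a b : α) (hA : A' ≠ []) :
    ∃ Q : List (α × α), cedges (A' ++ a :: b :: C) = pedges (A' ++ [a]) ++ (a, b) :: Q ∧
      pedges (b :: (C ++ A' ++ [a])) = Q ++ pedges (A' ++ [a]) := by
  obtain ⟨hd, tl, rfl⟩ := List.exists_cons_of_ne_nil hA
  refine ⟨pedges (b :: C ++ [hd]), ?_, ?_⟩
  · have h1 : (hd :: tl) ++ a :: b :: C = hd :: (tl ++ a :: b :: C) := rfl
    rw [h1, ce_cons]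
    have h2 : hd :: (tl ++ a :: b :: C ++ [hd]) = (hd :: tl) ++ a :: (b :: C ++ [hd]) := by simp
    rw [h2, pe_append]
    rfl
  · have h3 : b :: (C ++ (hd :: tl) ++ [a]) = (b :: C) ++ hd :: (tl ++ [a]) := by simp
    rw [h3, pe_append]
    rfl

theorem over_ord {O : ℂ} (A B C : List (ℂ × ℝ)) (u y a b : ℂ × ℝ) (c : ℂ)
    (hr : Reg O (A ++ [u, y] ++ B ++ [a, b] ++ C)) (hc : c ≠ O) (cm : mult (A ++ [u, y] ++ B ++ [a, b] ++ C) c = 2)
    (ce : c ∈ openSegment ℝ u.1 y.1) (cs : c ∈ openSegment ℝ a.1 b.1) (ho : Over u y a b c) :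
    ∀ e ∈ pedges (b :: (C ++ (A ++ [u, y] ++ B) ++ [a])), ∀ z w : ℝ, ((c, z) : ℂ × ℝ) ∈ segment ℝ e.1 e.2 →
      ((c, w) : ℂ × ℝ) ∈ segment ℝ a b → z < w := by
  classical
  intro e he z w hz hw
  have hL : A ++ [u, y] ++ B ++ [a, b] ++ C = (A ++ [u, y] ++ B) ++ a :: b :: C := by simp
  obtain ⟨Q, hQ1, hQ2⟩ := over_ord_cedges (A ++ [u, y] ++ B) C a b (by simp)
  have hP : pedges (A ++ [u, y] ++ B ++ [a]) =
      pedges (A ++ [u]) ++ (u, y) :: pedges (y :: (B ++ [a])) := by
    have h1 : A ++ [u, y] ++ B ++ [a] = A ++ u :: (y :: (B ++ [a])) := by simp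
    rw [h1, pe_append]
    rfl
  have hcseg : c ∈ segment ℝ e.1.1 e.2.1 := by
    obtain ⟨s, t, hs, ht, hst, h⟩ := hz
    exact ⟨s, t, hs, ht, hst, congrArg Prod.fst h⟩
  have hmem := over_ord_pe_mem _ e he
  rcases over_ord_seg_cases hcseg with h | h
  · -- interior point of a half open edge
    set pr : (ℂ × ℝ) × (ℂ × ℝ) → Bool := fun e => decide (c ∈ hseg e.1.1 e.2.1) with hpr
    have hm : (cedges (A ++ [u, y] ++ B ++ [a, b] ++ C)).countP pr = 2 := by
      have := cm
      unfold mult cnt at this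
      rw [hpr]
      convert this
    rw [hL, hQ1, hP] at hm
    have e1 : pr (a, b) = true := by simp [hpr, over_ord_open_hseg cs]
    have e2 : pr (u, y) = true := by simp [hpr, over_ord_open_hseg ce]
    simp only [List.countP_append, List.countP_cons, e1, e2, if_true] at hm
    have c1 : List.countP pr (pedges (A ++ [u])) = 0 := by omega
    have c2 : List.countP pr (pedges (y :: (B ++ [a]))) = 0 := by omega
    have c3 : List.countP pr Q = 0 := by omega
    rw [List.countP_eq_zero] at c1 c2 c3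
    have e3 : pr e = true := by simp [hpr, h]
    rw [hQ2, hP, List.mem_append, List.mem_append, List.mem_cons] at he
    rcases he with he | he | he | he
    · exact absurd e3 (c3 _ he)
    · exact absurd e3 (c1 _ he)
    · subst he
      exact ho z w hz hw
    · exact absurd e3 (c2 _ he)
  · exfalso
    have hv : e.2 ∈ A ++ [u, y] ++ B ++ [a, b] ++ C := by
      have := hmem.2
      simp only [List.mem_append, List.mem_cons, List.not_mem_nil, or_false] at this ⊢
      tauto
    have := hr.vert e.2 hv (by rw [← h]; exact hc)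
    rw [← h, cm] at this
    omega

end Knot548
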