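import Pool.Agent.Helper548.Knot.Defs
import Pool.Agent.Helper548.Knot.P_ce_cons
import Pool.Agent.Helper548.Knot.P_pe_append
import Pool.Agent.Helper548.Knot.P_hseg_split



namespace Knot548
open Set


theorem mi_key (a b : ℂ × ℝ) (hab : a.1 ≠ b.1) (s : ℝ) (h0 : 0 < s) (h1 : s < 1) (y : ℂ)
    (l : List ((ℂ × ℝ) × (ℂ × ℝ))) :
    cnt ((a, (1 - s) • a + s • b) :: ((1 - s) • a + s • b, b) :: l) y = cnt ((a, b) :: l) y := by
  classical
  obtain ⟨h2, h3⟩ := hseg_split a.1 b.1 s h0 h1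
  have h3 := h3 hab
  have hx : ((1 - s) • a + s • b).1 = (1 - s) • a.1 + s • b.1 := by simp
  unfold cnt
  simp only [List.countP_cons, hx, decide_eq_true_eq]
  rw [h2, add_assoc]
  congr 1
  clear hx h2
  generalize hseg a.1 ((1 - s) • a.1 + s • b.1) = S1 at *
  generalize hseg ((1 - s) • a.1 + s • b.1) b.1 = S2 at *
  by_cases h4 : y ∈ S1
  · have h5 : y ∉ S2 := fun h => Set.disjoint_left.1 h3 h4 h
    simp [h4, h5]
  · by_cases h5 : y ∈ S2
    · simp [h4, h5]
    · simp [h4, h5]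

theorem mi_app (A l : List ((ℂ × ℝ) × (ℂ × ℝ))) (y : ℂ) : cnt (A ++ l) y = cnt A y + cnt l y := by
  classical
  unfold cnt
  rw [List.countP_append]

theorem mult_insert (A B : List (ℂ × ℝ)) (a b : ℂ × ℝ) (hab : a.1 ≠ b.1) (s : ℝ) (h0 : 0 < s) (h1 : s < 1) (y : ℂ) :
    mult (A ++ a :: ((1 - s) • a + s • b) :: b :: B) y = mult (A ++ a :: b :: B) y := by
  unfold mult
  cases A with
  | nil =>
    rw [List.nil_append, List.nil_append, ce_cons, ce_cons]
    simp only [List.cons_append, pedges]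
    exact mi_key a b hab s h0 h1 y _
  | cons a0 A' =>
    rw [List.cons_append, List.cons_append, ce_cons, ce_cons]
    have e1 : a0 :: (A' ++ a :: ((1 - s) • a + s • b) :: b :: B ++ [a0]) =
        (a0 :: A') ++ a :: (((1 - s) • a + s • b) :: b :: (B ++ [a0])) := by simp
    have e2 : a0 :: (A' ++ a :: b :: B ++ [a0]) = (a0 :: A') ++ a :: (b :: (B ++ [a0])) := by simp
    rw [e1, e2, pe_append (a0 :: A') a (((1 - s) • a + s • b) :: b :: (B ++ [a0])),
      pe_append (a0 :: A') a (b :: (B ++ [a0])), mi_app, mi_app]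
    congr 1
    simp only [pedges]
    exact mi_key a b hab s h0 h1 y _

end Knot548
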