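import Pool.Agent.Helper548.Knot.Defs
import Pool.Agent.Helper548.Knot.P_ce_cons
import Pool.Agent.Helper548.Knot.P_pe_append
import Pool.Agent.Helper548.Knot.P_simple_insert
import Pool.Agent.Helper548.Knot.P_mult_insert



namespace Knot548
open Set


theorem reg_insert_edges {α : Type*} (A B : List α) (a b : α) :
    ∃ E1 E2, cedges (A ++ a :: b :: B) = E1 ++ (a, b) :: E2 ∧
      ∀ x, cedges (A ++ a :: x :: b :: B) = E1 ++ (a, x) :: (x, b) :: E2 := by
  cases A with
  | nil =>
    refine ⟨[], pedges (b :: (B ++ [a])), ?_, fun x => ?_⟩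
    · rw [List.nil_append, ce_cons]
      rfl
    · rw [List.nil_append, ce_cons]
      rfl
  | cons c A =>
    refine ⟨pedges ((c :: A) ++ [a]), pedges (b :: (B ++ [c])), ?_, fun x => ?_⟩
    · rw [List.cons_append, ce_cons]
      have h : c :: (A ++ a :: b :: B ++ [c]) = (c :: A) ++ a :: (b :: B ++ [c]) := by simp
      rw [h, pe_append]
      rfl
    · rw [List.cons_append, ce_cons]
      have h : c :: (A ++ a :: x :: b :: B ++ [c]) = (c :: A) ++ a :: (x :: b :: B ++ [c]) := by simp
      rw [h, pe_append]
      rfl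

theorem reg_insert {O : ℂ} (A B : List (ℂ × ℝ)) (a b : ℂ × ℝ) (s : ℝ) (h0 : 0 < s) (h1 : s < 1)
    (hr : Reg O (A ++ a :: b :: B)) (hO : ((1 - s) • a + s • b).1 ≠ O)
    (hm : mult (A ++ a :: b :: B) ((1 - s) • a + s • b).1 ≤ 1) :
    Reg O (A ++ a :: ((1 - s) • a + s • b) :: b :: B) := by
  obtain ⟨x, hx⟩ : ∃ x : ℂ × ℝ, x = (1 - s) • a + s • b := ⟨_, rfl⟩
  rw [← hx] at hO hm ⊢
  obtain ⟨E1, E2, he1, he2⟩ := reg_insert_edges A B a b
  have hx1 : x.1 = (1 - s) • a.1 + s • b.1 := by rw [hx]; rfl
  have hab : a.1 ≠ b.1 := by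
    have := hr.nondeg (a, b) (by rw [he1]; simp)
    exact this
  have hmi : ∀ y, mult (A ++ a :: x :: b :: B) y = mult (A ++ a :: b :: B) y := by
    intro y
    rw [hx]
    exact mult_insert A B a b hab s h0 h1 y
  refine ⟨?_, ?_, ?_, ?_, ?_⟩
  · rw [hx]
    exact (simple_insert A B a b s h0 h1).2 hr.simple
  · intro e he
    rw [he2 x] at he
    simp only [List.mem_append, List.mem_cons] at he
    rcases he with he | he | he | he
    · exact hr.nondeg e (by rw [he1]; simp [he])
    · rw [he]
      intro h
      simp only at h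
      rw [hx1] at h
      have h2 : s • (b.1 - a.1) = 0 := by
        have h3 : (1 - s) • a.1 + s • b.1 = a.1 + s • (b.1 - a.1) := by module
        rw [h3] at h
        exact left_eq_add.1 h
      rcases smul_eq_zero.1 h2 with h3 | h3
      · linarith
      · exact hab (sub_eq_zero.1 h3).symm
    · rw [he]
      intro h
      simp only at h
      rw [hx1] at h
      have h2 : (1 - s) • (a.1 - b.1) = 0 := by
        have h3 : (1 - s) • a.1 + s • b.1 = b.1 + (1 - s) • (a.1 - b.1) := by module
        rw [h3] at h
        exact add_eq_left.1 h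
      rcases smul_eq_zero.1 h2 with h3 | h3
      · linarith
      · exact hab (sub_eq_zero.1 h3)
    · exact hr.nondeg e (by rw [he1]; simp [he])
  · rw [hmi, hr.center]
    unfold ax
    rw [List.countP_append, List.countP_append, List.countP_cons, List.countP_cons (l := x :: b :: B),
      List.countP_cons (a := x)]
    simp [hO]
  · intro y hy
    rw [hmi]
    exact hr.two y hy
  · intro v hv hvO
    rw [hmi]
    by_cases hvx : v = x
    · rw [hvx]
      apply le_antisymm hm
      have h2 : 0 < mult (A ++ a :: b :: B) x.1 := by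
        unfold mult cnt
        rw [List.countP_pos_iff]
        refine ⟨(a, b), by rw [he1]; simp, ?_⟩
        exact @decide_eq_true _ (Classical.propDecidable _) ⟨s, h0.le, h1, hx1⟩
      exact h2
    · apply hr.vert v _ hvO
      simp only [List.mem_append, List.mem_cons] at hv ⊢
      rcases hv with h | h | h | h | h
      · exact Or.inl h
      · exact Or.inr (Or.inl h)
      · exact absurd h hvx
      · exact Or.inr (Or.inr (Or.inl h))
      · exact Or.inr (Or.inr (Or.inr h))

end Knot548
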