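import Pool.Agent.Helper548.Knot.Defs
import Pool.Agent.Helper548.Knot.P_ce_cons
import Pool.Agent.Helper548.Knot.P_pe_append
import Pool.Agent.Helper548.Knot.P_mult_rotate
import Pool.Agent.Helper548.Knot.P_reg_rotate
import Pool.Agent.Helper548.Knot.P_eqv_rotate
import Pool.Agent.Helper548.Knot.P_simple_insert
import Pool.Agent.Helper548.Knot.P_eqv_insert
import Pool.Agent.Helper548.Knot.P_mult_insert
import Pool.Agent.Helper548.Knot.P_reg_insert
import Pool.Agent.Helper548.Knot.P_vert2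



namespace Knot548
open Set


theorem raise_countP_lt {α : Type*} (l : List α) (p q : α → Bool)
    (hpq : ∀ e ∈ l, p e = true → q e = true) (e0 : α) (he0 : e0 ∈ l) (hq : q e0 = true)
    (hp : p e0 = false) : l.countP p < l.countP q := by
  induction l with
  | nil => simp at he0
  | cons x l ih =>
    have hle : l.countP p ≤ l.countP q :=
      List.countP_mono_left fun e he => hpq e (List.mem_cons_of_mem _ he)
    rw [List.countP_cons, List.countP_cons]
    rcases List.mem_cons.1 he0 with h | h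
    · subst h
      rw [hq, hp]
      simp
      omega
    · have h1 := ih (fun e he => hpq e (List.mem_cons_of_mem _ he)) h
      have h2 := hpq x List.mem_cons_self
      cases hpx : p x with
      | false => 
        cases hqx : q x with
        | false => simp; omega
        | true => simp; omega
      | true =>
        rw [h2 hpx]
        simp
        omega

theorem raise_ax (O : ℂ) (P : List (ℂ × ℝ)) :
    ax O P = (cedges P).countP (fun e => @decide (e.1.1 = O) (Classical.propDecidable _)) := by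
  classical
  have h1 : (cedges P).map Prod.fst = P := by
    unfold cedges
    rw [List.map_fst_zip]
    rw [List.length_rotate]
  unfold ax
  conv_lhs => rw [← h1]
  rw [List.countP_map]
  rfl

theorem raise_center {O : ℂ} {P : List (ℂ × ℝ)} (hr : Reg O P) {e : (ℂ × ℝ) × (ℂ × ℝ)}
    (he : e ∈ cedges P) (h1 : e.1.1 ≠ O) : O ∉ hseg e.1.1 e.2.1 := by
  classical
  intro hO
  have hc := hr.center
  rw [raise_ax] at hc
  unfold mult cnt at hc
  have := raise_countP_lt (cedges P)
    (fun e => @decide (e.1.1 = O) (Classical.propDecidable _))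
    (fun e => @decide (O ∈ hseg e.1.1 e.2.1) (Classical.propDecidable _)) (by
      intro e' _ h
      simp only [decide_eq_true_eq] at h ⊢
      exact ⟨0, le_rfl, one_pos, by simp [h]⟩) e he (by simpa using hO) (by simpa using h1)
  omega

theorem raise_mem_cedges {α : Type*} (A B : List α) (a b : α) :
    (a, b) ∈ cedges (A ++ [a, b] ++ B) := by
  cases A with
  | nil =>
    show (a, b) ∈ cedges (a :: (b :: B))
    rw [ce_cons]
    simp [pedges]
  | cons x A =>
    show (a, b) ∈ cedges (x :: (A ++ [a, b] ++ B))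
    rw [ce_cons]
    have e1 : x :: (A ++ [a, b] ++ B ++ [x]) = (x :: A) ++ a :: (b :: (B ++ [x])) := by simp
    rw [e1, pe_append]
    simp [pedges]

theorem raise {O : ℂ} (A B : List (ℂ × ℝ)) (a b : ℂ × ℝ) (c : ℂ) (hr : Reg O (A ++ [a, b] ++ B)) (aoff : a.1 ≠ O)
    (boff : b.1 ≠ O) (cs : c ∈ openSegment ℝ a.1 b.1)
    (k5 : ∀ x ∈ segment ℝ a.1 b.1, x ≠ O → x ≠ c → mult (A ++ [a, b] ++ B) x ≤ 1) (a' b' : ℂ)
    (ha' : a' ∈ openSegment ℝ a.1 c) (hb' : b' ∈ openSegment ℝ c b.1) (α β : ℝ)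
    (hord : ∀ e ∈ pedges (b :: (B ++ A ++ [a])), ∀ z w w' : ℝ, ((c, z) : ℂ × ℝ) ∈ segment ℝ e.1 e.2 →
      ((c, w) : ℂ × ℝ) ∈ segment ℝ a b → ((c, w') : ℂ × ℝ) ∈ segment ℝ (a', α) (b', β) →
      (z < w ∧ z < w') ∨ (w < z ∧ w' < z)) :
    Reg O (A ++ [a, (a', α), (b', β), b] ++ B) ∧ Eqv (A ++ [a, b] ++ B) (A ++ [a, (a', α), (b', β), b] ++ B) ∧
      (∀ x, mult (A ++ [a, (a', α), (b', β), b] ++ B) x = mult (A ++ [a, b] ++ B) x) ∧
      ax O (A ++ [a, (a', α), (b', β), b] ++ B) = ax O (A ++ [a, b] ++ B) := by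
  have hPe : A ++ [a, b] ++ B = A ++ a :: b :: B := by simp
  have hab : a.1 ≠ b.1 := hr.nondeg (a, b) (raise_mem_cedges A B a b)
  -- parameters
  have hinj : ∀ s t : ℝ, (1 - s) • a.1 + s • b.1 = (1 - t) • a.1 + t • b.1 → s = t := by
    intro s t h
    have h1 : (s - t) • (b.1 - a.1) = 0 := by
      have h2 : (s - t) • (b.1 - a.1) =
          ((1 - s) • a.1 + s • b.1) - ((1 - t) • a.1 + t • b.1) := by
        simp only [sub_smul, smul_sub, one_smul]
        abel
      rw [h2, h, sub_self]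
    rcases smul_eq_zero.1 h1 with h2 | h2
    · linarith
    · exact absurd (sub_eq_zero.1 h2).symm hab
  have hcv : ∀ (s t μ ν : ℝ), μ + ν = 1 → μ • ((1 - s) • a.1 + s • b.1) +
      ν • ((1 - t) • a.1 + t • b.1) = (1 - (μ * s + ν * t)) • a.1 + (μ * s + ν * t) • b.1 := by
    intro s t μ ν h
    have h2 : 1 - (μ * s + ν * t) = μ * (1 - s) + ν * (1 - t) := by
      linear_combination -h
    rw [h2]
    simp only [smul_add, smul_smul, add_smul]
    abel
  have hseg : ∀ s t : ℝ, s ≤ t → ∀ x ∈ segment ℝ ((1 - s) • a.1 + s • b.1)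
      ((1 - t) • a.1 + t • b.1), ∃ r, s ≤ r ∧ r ≤ t ∧ x = (1 - r) • a.1 + r • b.1 := by
    rintro s t hst x ⟨μ, ν, hμ, hν, hμν, rfl⟩
    refine ⟨μ * s + ν * t, ?_, ?_, hcv s t μ ν hμν⟩
    · have : μ = 1 - ν := by linarith
      rw [this]
      nlinarith
    · have : ν = 1 - μ := by linarith
      rw [this]
      nlinarith
  have hin : ∀ r : ℝ, 0 ≤ r → r ≤ 1 → (1 - r) • a.1 + r • b.1 ∈ segment ℝ a.1 b.1 := by
    intro r h0 h1
    exact ⟨1 - r, r, by linarith, h0, by ring, rfl⟩
  obtain ⟨γ0, γ, hγ0, hγ, hγs, hcγ⟩ := cs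
  have hγ0e : γ0 = 1 - γ := by linarith
  rw [hγ0e] at hcγ hγ0
  have hγ1 : γ < 1 := by linarith
  obtain ⟨s1, hs10, hs1γ, ha's⟩ : ∃ s1 : ℝ, 0 < s1 ∧ s1 < γ ∧ a' = (1 - s1) • a.1 + s1 • b.1 := by
    obtain ⟨μ, ν, hμ, hν, hμν, rfl⟩ := ha'
    refine ⟨ν * γ, by positivity, by nlinarith, ?_⟩
    have h1 := hcv 0 γ μ ν hμν
    rw [sub_zero, one_smul, zero_smul, add_zero, mul_zero, zero_add] at h1
    rw [← h1, hcγ]
  obtain ⟨s2, hs2γ, hs21, hb's⟩ : ∃ s2 : ℝ, γ < s2 ∧ s2 < 1 ∧ b' = (1 - s2) • a.1 + s2 • b.1 := by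
    obtain ⟨μ, ν, hμ, hν, hμν, rfl⟩ := hb'
    have hμe : μ = 1 - ν := by linarith
    refine ⟨μ * γ + ν, by rw [hμe]; nlinarith, by rw [hμe] at *; nlinarith, ?_⟩
    have h1 := hcv γ 1 μ ν hμν
    rw [sub_self, zero_smul, one_smul, zero_add, mul_one] at h1
    rw [← h1, hcγ]
  -- `O` is not on the segment
  have hOseg : ∀ r : ℝ, 0 ≤ r → r ≤ 1 → (1 - r) • a.1 + r • b.1 ≠ O := by
    intro r h0 h1 h
    rcases h1.lt_or_eq with h2 | h2
    · exact raise_center hr (raise_mem_cedges A B a b) aoff ⟨r, h0, h2, h.symm⟩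
    · rw [h2, sub_self, zero_smul, one_smul, zero_add] at h
      exact boff h
  have hk : ∀ r : ℝ, 0 ≤ r → r ≤ 1 → r ≠ γ → mult (A ++ [a, b] ++ B) ((1 - r) • a.1 + r • b.1) ≤ 1 := by
    intro r h0 h1 hne
    refine k5 _ (hin r h0 h1) (hOseg r h0 h1) ?_
    rw [← hcγ]
    exact fun h => hne (hinj _ _ h)
  -- the lifted points
  set as : ℂ × ℝ := (1 - s1) • a + s1 • b with has
  set bs : ℂ × ℝ := (1 - s2) • a + s2 • b with hbs
  have has1 : as.1 = a' := by rw [ha's]; rfl
  have hbs1 : bs.1 = b' := by rw [hb's]; rfl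
  have hs12 : s1 < s2 := by linarith
  have h1s1 : 0 < 1 - s1 := by linarith
  set s3 : ℝ := (s2 - s1) / (1 - s1) with hs3
  have hs30 : 0 < s3 := div_pos (by linarith) h1s1
  have hs31 : s3 < 1 := by rw [hs3, div_lt_one h1s1]; linarith
  have hbs3 : bs = (1 - s3) • as + s3 • b := by
    have e1 : (1 - s3) * (1 - s1) = 1 - s2 := by
      rw [hs3]
      field_simp
      ring
    have e2 : (1 - s3) * s1 + s3 = s2 := by
      rw [hs3]
      field_simp
      ring
    rw [has, hbs, smul_add, smul_smul, smul_smul, add_assoc, ← add_smul, e1, e2]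
  -- first insertion
  have hr1 : Reg O (A ++ a :: as :: b :: B) := by
    rw [hPe] at hr
    refine reg_insert A B a b s1 hs10 (by linarith) hr ?_ ?_
    · exact hOseg s1 hs10.le (by linarith)
    · rw [← hPe]
      exact hk s1 hs10.le (by linarith) (by linarith)
  have hm1 : ∀ y, mult (A ++ a :: as :: b :: B) y = mult (A ++ [a, b] ++ B) y := by
    intro y
    rw [hPe]
    exact mult_insert A B a b hab s1 hs10 (by linarith) y
  have hq1 : Eqv (A ++ [a, b] ++ B) (A ++ a :: as :: b :: B) := by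
    rw [hPe]
    exact eqv_insert A B a b s1 hs10 (by linarith)
  have hasb : as.1 ≠ b.1 := by
    intro h
    have h1 : (1 - s1) • a.1 + s1 • b.1 = (1 - (1 : ℝ)) • a.1 + (1 : ℝ) • b.1 := by
      rw [← ha's, ← has1, h]
      simp
    have := hinj _ _ h1
    linarith
  -- second insertion
  have hP1e : A ++ a :: as :: b :: B = (A ++ [a]) ++ as :: b :: B := by simp
  have hr2 : Reg O ((A ++ [a]) ++ as :: bs :: b :: B) := by
    rw [hP1e] at hr1
    rw [hbs3]
    refine reg_insert (A ++ [a]) B as b s3 hs30 hs31 hr1 ?_ ?_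
    · rw [← hbs3]
      exact hOseg s2 (by linarith) hs21.le
    · rw [← hbs3, ← hP1e, hm1]
      exact hk s2 (by linarith) hs21.le (by linarith)
  have hm2 : ∀ y, mult ((A ++ [a]) ++ as :: bs :: b :: B) y = mult (A ++ [a, b] ++ B) y := by
    intro y
    rw [← hm1, hP1e, hbs3]
    exact mult_insert (A ++ [a]) B as b hasb s3 hs30 hs31 y
  have hq2 : Eqv (A ++ [a, b] ++ B) ((A ++ [a]) ++ as :: bs :: b :: B) := by
    refine Relation.EqvGen.trans _ _ _ hq1 ?_
    rw [hP1e, hbs3]
    exact eqv_insert (A ++ [a]) B as b s3 hs30 hs31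
  -- rotation
  set R : List (ℂ × ℝ) := b :: (B ++ (A ++ [a])) with hRd
  have hrot : ((A ++ [a]) ++ as :: bs :: b :: B).rotate (A ++ [a]).length = as :: bs :: R := by
    rw [List.rotate_append_length_eq]
    simp [hRd]
  have hrot3 : ((A ++ [a]) ++ (a', α) :: (b', β) :: b :: B).rotate (A ++ [a]).length =
      (a', α) :: (b', β) :: R := by
    rw [List.rotate_append_length_eq]
    simp [hRd]
  have hP3e : A ++ [a, (a', α), (b', β), b] ++ B = (A ++ [a]) ++ (a', α) :: (b', β) :: b :: B := by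
    simp
  have hRne : R ≠ [] := by simp [hRd]
  have hRlast : R.getLast hRne = a := by
    simp only [hRd]
    rw [List.getLast_cons (by simp)]
    have h1 : ∀ (l : List (ℂ × ℝ)) (h : l ++ [a] ≠ []), (l ++ [a]).getLast h = a := by
      intro l h
      simp
    have h2 : B ++ (A ++ [a]) = (B ++ A) ++ [a] := by simp
    simp only [h2]
    exact h1 _ _
  have hRhead : R.head hRne = b := by simp [hRd]
  have hr2' : Reg O (as :: bs :: R) := by
    rw [← hrot]
    exact (reg_rotate _).2 hr2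
  have hmr : ∀ y, mult (as :: bs :: R) y = mult (A ++ [a, b] ++ B) y := by
    intro y
    rw [← hrot, mult_rotate, hm2]
  have hasO : as.1 ≠ O := hOseg s1 hs10.le (by linarith)
  have hbsO : bs.1 ≠ O := hOseg s2 (by linarith) hs21.le
  have hsegfst : ∀ (p q : ℂ × ℝ) (z : ℝ), ((c, z) : ℂ × ℝ) ∈ segment ℝ p q →
      c ∈ segment ℝ p.1 q.1 := by
    rintro p q z ⟨μ, ν, h1, h2, h3, h4⟩
    exact ⟨μ, ν, h1, h2, h3, congrArg Prod.fst h4⟩
  have hasab : as ∈ segment ℝ a b := ⟨1 - s1, s1, by linarith, hs10.le, by ring, rfl⟩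
  have hbsab : bs ∈ segment ℝ a b := ⟨1 - s2, s2, by linarith, by linarith, by ring, rfl⟩
  have hsub : segment ℝ as bs ⊆ segment ℝ a b := (convex_segment a b).segment_subset hasab hbsab
  have ea0 : a.1 = (1 - (0 : ℝ)) • a.1 + (0 : ℝ) • b.1 := by simp
  have eb1 : b.1 = (1 - (1 : ℝ)) • a.1 + (1 : ℝ) • b.1 := by simp
  obtain ⟨-, hR3, hE3, hM3⟩ := vert2 hr2' hRne α β (fun h => absurd h hasO) (fun h => absurd h hbsO) c
    (by
      intro _ x hx _
      rw [hRlast, has1, ha's] at hx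
      have hx' : x ∈ segment ℝ ((1 - (0 : ℝ)) • a.1 + (0 : ℝ) • b.1)
          ((1 - s1) • a.1 + s1 • b.1) := by
        rw [← ea0]
        exact hx
      obtain ⟨r, h1, h2, rfl⟩ := hseg 0 s1 hs10.le x hx'
      rw [hmr]
      exact hk r h1 (by linarith) (by linarith))
    (by
      intro _ x hx _
      rw [hRhead, hbs1, hb's] at hx
      have hx' : x ∈ segment ℝ ((1 - s2) • a.1 + s2 • b.1)
          ((1 - (1 : ℝ)) • a.1 + (1 : ℝ) • b.1) := by
        rw [← eb1]
        exact hx
      obtain ⟨r, h1, h2, rfl⟩ := hseg s2 1 hs21.le x hx'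
      rw [hmr]
      exact hk r (by linarith) h2 (by linarith))
    (by
      intro x hx hxO hxc
      rw [has1, hbs1, ha's, hb's] at hx
      obtain ⟨r, h1, h2, rfl⟩ := hseg s1 s2 hs12.le x hx
      rw [hmr]
      exact k5 _ (hin r (by linarith) (by linarith)) hxO hxc)
    (by
      intro f hf z w w' hz hw hw' _ _ _
      have e1 : bs :: (R ++ [as]) = [] ++ bs :: b :: ((B ++ A) ++ a :: [as]) := by
        simp [hRd]
      have e2 : pedges (bs :: (R ++ [as])) = (bs, b) :: (pedges (b :: (B ++ A ++ [a])) ++ [(a, as)]) := by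
        have e3 : bs :: (R ++ [as]) = bs :: b :: ((B ++ A) ++ a :: [as]) := by simp [hRd]
        rw [e3]
        show (bs, b) :: pedges (b :: ((B ++ A) ++ a :: [as])) = _
        have e4 : b :: ((B ++ A) ++ a :: [as]) = (b :: (B ++ A)) ++ a :: [as] := by simp
        rw [e4, pe_append]
        simp [pedges]
      rw [e2, List.mem_cons, List.mem_append, List.mem_singleton] at hf
      rcases hf with rfl | hf | rfl
      · exfalso
        have h1 := hsegfst _ _ _ hz
        simp only [hbs1, hb's] at h1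
        have h1' : c ∈ segment ℝ ((1 - s2) • a.1 + s2 • b.1)
            ((1 - (1 : ℝ)) • a.1 + (1 : ℝ) • b.1) := by
          rw [← eb1]
          exact h1
        obtain ⟨r, h2, h3, h4⟩ := hseg s2 1 hs21.le c h1'
        rw [← hcγ] at h4
        have := hinj _ _ h4
        linarith
      · refine hord f hf z w w' hz (hsub hw) ?_
        rw [has1, hbs1] at hw'
        exact hw'
      · exfalso
        have h1 := hsegfst _ _ _ hz
        simp only [has1, ha's] at h1
        have h1' : c ∈ segment ℝ ((1 - (0 : ℝ)) • a.1 + (0 : ℝ) • b.1)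
            ((1 - s1) • a.1 + s1 • b.1) := by
          rw [← ea0]
          exact h1
        obtain ⟨r, h2, h3, h4⟩ := hseg 0 s1 hs10.le c h1'
        rw [← hcγ] at h4
        have := hinj _ _ h4
        linarith)
  rw [has1, hbs1] at hR3 hE3 hM3
  refine ⟨?_, ?_, ?_, ?_⟩
  · rw [hP3e]
    rw [← hrot3] at hR3
    exact (reg_rotate _).1 hR3
  · rw [hP3e]
    refine Relation.EqvGen.trans _ _ _ hq2 ?_
    refine Relation.EqvGen.trans _ _ _ (eqv_rotate _ (A ++ [a]).length) ?_
    rw [hrot]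
    refine Relation.EqvGen.trans _ _ _ hE3 ?_
    refine Relation.EqvGen.symm _ _ ?_
    rw [← hrot3]
    exact eqv_rotate _ _
  · intro x
    rw [hP3e, ← mult_rotate _ (A ++ [a]).length, hrot3, hM3, hmr]
  · classical
    have ha'O : a' ≠ O := by rw [← has1]; exact hasO
    have hb'O : b' ≠ O := by rw [← hbs1]; exact hbsO
    unfold ax
    simp [List.countP_append, List.countP_cons, ha'O, hb'O]

end Knot548
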