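import Pool.Agent.Helper548.Knot.Defs
import Pool.Agent.Helper548.Knot.P_eqv_lin



namespace Knot548
open Set


private theorem vlem_cedges (P P' : List (ℂ × ℝ)) (hl : P.length = P'.length) (t : ℝ) :
    cedges (List.zipWith (fun a b => (1 - t) • a + t • b) P P') =
      ((cedges P).zip (cedges P')).map (fun p => ((1 - t) • p.1.1 + t • p.2.1,
        (1 - t) • p.1.2 + t • p.2.2)) := by
  unfold cedges
  rw [List.zipWith_rotate_distrib _ _ _ _ hl]
  apply List.ext_getElem
  · simp [hl]
  · intro i h1 h2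
    simp

private theorem vlem_planar (P P' : List (ℂ × ℝ)) (hP : P.map Prod.fst = P'.map Prod.fst)
    (p : ((ℂ × ℝ) × (ℂ × ℝ)) × ((ℂ × ℝ) × (ℂ × ℝ))) (hp : p ∈ (cedges P).zip (cedges P')) :
    p.1 ∈ cedges P ∧ p.1.1.1 = p.2.1.1 ∧ p.1.2.1 = p.2.2.1 := by
  have hl : P.length = P'.length := by
    have := congrArg List.length hP
    simpa using this
  refine ⟨(List.of_mem_zip hp).1, ?_⟩
  obtain ⟨i, hi, rfl⟩ := List.mem_iff_getElem.1 hp
  have hget : ∀ (j : ℕ) (h1 : j < P.length) (h2 : j < P'.length), (P[j]).1 = (P'[j]).1 := by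
    intro j h1 h2
    have h3 : (P.map Prod.fst)[j]'(by simpa using h1) = (P'.map Prod.fst)[j]'(by simpa using h2) := by
      simp only [hP]
    simpa using h3
  have hrot : (P.rotate 1).map Prod.fst = (P'.rotate 1).map Prod.fst := by
    rw [List.map_rotate, List.map_rotate, hP]
  have hget2 : ∀ (j : ℕ) (h1 : j < (P.rotate 1).length) (h2 : j < (P'.rotate 1).length),
      ((P.rotate 1)[j]).1 = ((P'.rotate 1)[j]).1 := by
    intro j h1 h2
    have h3 : ((P.rotate 1).map Prod.fst)[j]'(by simpa using h1) =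
        ((P'.rotate 1).map Prod.fst)[j]'(by simpa using h2) := by
      simp only [hrot]
    rw [List.getElem_map, List.getElem_map] at h3
    exact h3
  have hi' : i < P.length ∧ i < P'.length := by
    simp only [cedges, List.length_zip, List.length_rotate] at hi
    omega
  constructor
  · simp only [cedges, List.getElem_zip]
    exact hget i hi'.1 hi'.2
  · simp only [cedges, List.getElem_zip]
    exact hget2 i (by simpa using hi'.1) (by simpa using hi'.2)

theorem vlem (P P' : List (ℂ × ℝ)) (hP : P.map Prod.fst = P'.map Prod.fst) (hnd : ∀ e ∈ cedges P, e.1.1 ≠ e.2.1)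
    (H : ((cedges P).zip (cedges P')).Pairwise (fun p q => ∀ s t : ℝ, 0 ≤ s → s < 1 → 0 ≤ t → t < 1 →
      (1 - s) • p.1.1.1 + s • p.1.2.1 = (1 - t) • q.1.1.1 + t • q.1.2.1 →
      ((1 - s) * p.1.1.2 + s * p.1.2.2 < (1 - t) * q.1.1.2 + t * q.1.2.2 ∧
        (1 - s) * p.2.1.2 + s * p.2.2.2 < (1 - t) * q.2.1.2 + t * q.2.2.2) ∨
      ((1 - t) * q.1.1.2 + t * q.1.2.2 < (1 - s) * p.1.1.2 + s * p.1.2.2 ∧
        (1 - t) * q.2.1.2 + t * q.2.2.2 < (1 - s) * p.2.1.2 + s * p.2.2.2))) :
    Simple P' ∧ Eqv P P' := by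
  have hl : P.length = P'.length := by
    have := congrArg List.length hP
    simpa using this
  have key : ∀ t ∈ Icc (0 : ℝ) 1, Simple (List.zipWith (fun a b => (1 - t) • a + t • b) P P') := by
    intro t ht
    have hcomb : ∀ a b : ℂ, a = b → (1 - t) • a + t • b = a := by
      intro a b h
      rw [← h, ← add_smul]
      simp
    refine ⟨?_, ?_⟩
    · rw [vlem_cedges P P' hl t]
      intro e he hee
      obtain ⟨p, hp, rfl⟩ := List.mem_map.1 he
      obtain ⟨h1, h2, h3⟩ := vlem_planar P P' hP p hp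
      have h4 := congrArg Prod.fst hee
      simp only [Prod.fst_add, Prod.smul_fst] at h4
      rw [hcomb _ _ h2, hcomb _ _ h3] at h4
      exact hnd _ h1 h4
    · rw [vlem_cedges P P' hl t, List.pairwise_map]
      refine H.imp_of_mem ?_
      intro p q hp hq hpq
      obtain ⟨-, hp2, hp3⟩ := vlem_planar P P' hP p hp
      obtain ⟨-, hq2, hq3⟩ := vlem_planar P P' hP q hq
      rw [Set.disjoint_left]
      rintro x ⟨s, hs0, hs1, hx⟩ ⟨s', hs0', hs1', hx'⟩
      have h4 := congrArg Prod.fst (hx.symm.trans hx')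
      have h5 := congrArg Prod.snd (hx.symm.trans hx')
      simp only [Prod.fst_add, Prod.smul_fst] at h4
      simp only [Prod.snd_add, Prod.smul_snd, smul_eq_mul] at h5
      rw [hcomb _ _ hp2, hcomb _ _ hp3, hcomb _ _ hq2, hcomb _ _ hq3] at h4
      have ht0 := ht.1
      have ht1 : 0 ≤ 1 - t := by linarith [ht.2]
      rcases hpq s s' hs0 hs1 hs0' hs1' h4 with ⟨g1, g2⟩ | ⟨g1, g2⟩
      · rcases ht0.eq_or_lt with h0 | h0
        · rw [← h0] at h5
          linarith
        · nlinarith [mul_lt_mul_of_pos_left g2 h0, mul_le_mul_of_nonneg_left g1.le ht1]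
      · rcases ht0.eq_or_lt with h0 | h0
        · rw [← h0] at h5
          linarith
        · nlinarith [mul_lt_mul_of_pos_left g2 h0, mul_le_mul_of_nonneg_left g1.le ht1]
  refine ⟨?_, eqv_lin P P' hl key⟩
  have h1 := key 1 ⟨zero_le_one, le_rfl⟩
  have h2 : List.zipWith (fun a b => (1 - (1 : ℝ)) • a + (1 : ℝ) • b) P P' = P' := by
    apply List.ext_getElem
    · simp [hl]
    · intro i h1 h2
      simp
  rwa [h2] at h1

end Knot548
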