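import Pool.Agent.Helper548.Knot.Defs
import Pool.Agent.Helper548.Knot.P_ce_cons
import Pool.Agent.Helper548.Knot.P_pe_append
import Pool.Agent.Helper548.Knot.P_vlem



namespace Knot548
open Set


theorem v2_pair {β : Type*} (S : β → Set ℂ) (L : List β) :
    L.Pairwise (fun e e' => ∀ x, x ∈ S e → x ∈ S e' →
      2 ≤ (open Classical in L.countP (fun e => decide (x ∈ S e)))) := by
  classical
  induction L with
  | nil => exact List.Pairwise.nil
  | cons e0 L ih =>
    refine List.Pairwise.cons ?_ ?_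
    · intro e' he' x hx hx'
      rw [List.countP_cons]
      have h1 : 0 < L.countP (fun e => decide (x ∈ S e)) :=
        List.countP_pos_iff.2 ⟨e', he', by simpa using hx'⟩
      simp only [hx, decide_true, if_true]
      omega
    · refine ih.imp ?_
      intro e e' h x hx hx'
      have := h x hx hx'
      rw [List.countP_cons]
      omega

theorem v2_zipself {β : Type*} (L : List β) (p : β × β) (hp : p ∈ L.zip L) : p.2 = p.1 ∧ p.1 ∈ L := by
  induction L with
  | nil => simp at hp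
  | cons x L ih =>
    rw [List.zip_cons_cons, List.mem_cons] at hp
    rcases hp with h | h
    · subst h; simp
    · exact ⟨(ih h).1, List.mem_cons_of_mem _ (ih h).2⟩

theorem v2_count {β : Type*} (p q : β → Bool) (L : List β) (hpq : ∀ x, p x = true → q x = true)
    (h : L.countP p = L.countP q) : ∀ x ∈ L, q x = true → p x = true := by
  induction L with
  | nil => simp
  | cons y L ih =>
    have hle : L.countP p ≤ L.countP q := List.countP_mono_left (fun x _ => hpq x)
    rw [List.countP_cons, List.countP_cons] at h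
    intro x hx hq
    by_cases hpy : p y = true
    · have hqy := hpq y hpy
      simp only [hpy, hqy, if_true] at h
      rcases List.mem_cons.1 hx with hxy | hxL
      · rw [hxy]; exact hpy
      · exact ih (by omega) x hxL hq
    · by_cases hqy : q y = true
      · simp only [hpy, hqy, if_true] at h
        simp at h
        omega
      · simp only [hpy, hqy] at h
        simp at h
        rcases List.mem_cons.1 hx with hxy | hxL
        · rw [hxy] at hq; exact absurd hq hqy
        · exact ih h x hxL hq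

theorem v2_ced {α : Type*} (a b : α) (R : List α) (hR : R ≠ []) :
    cedges (a :: b :: R) = (a, b) :: (b, R.head hR) :: (pedges R ++ [(R.getLast hR, a)]) := by
  have h1 : cedges (a :: b :: R) = (a, b) :: pedges (b :: (R ++ [a])) := by
    rw [ce_cons]; rfl
  rw [h1]
  congr 1
  have h2 : pedges (R ++ [a]) = pedges R ++ [(R.getLast hR, a)] := by
    have h3 := pe_append (R.dropLast) (R.getLast hR) [a]
    have h4 : R.dropLast ++ [R.getLast hR] = R := List.dropLast_append_getLast hR
    have h5 : R.dropLast ++ R.getLast hR :: [a] = R ++ [a] := by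
      conv_rhs => rw [← h4]
      simp
    rw [h5, h4] at h3
    rw [h3]; rfl
  cases R with
  | nil => exact absurd rfl hR
  | cons r R1 =>
    show (b, r) :: pedges (r :: (R1 ++ [a])) = _
    rw [← h2]; rfl

theorem v2_ped {α : Type*} (a b : α) (R : List α) (hR : R ≠ []) :
    pedges (b :: (R ++ [a])) = (b, R.head hR) :: (pedges R ++ [(R.getLast hR, a)]) := by
  have h1 : cedges (a :: b :: R) = (a, b) :: pedges (b :: (R ++ [a])) := by
    rw [ce_cons]; rfl
  have h2 := v2_ced a b R hR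
  rw [h1] at h2
  exact (List.cons.inj h2).2

theorem v2_mapfst {α : Type*} (P : List α) : (cedges P).map Prod.fst = P := by
  unfold cedges
  exact List.map_fst_zip (by simp)

theorem v2_center (O : ℂ) (P : List (ℂ × ℝ)) (hc : mult P O = ax O P) (e) (he : e ∈ cedges P)
    (hO : O ∈ hseg e.1.1 e.2.1) : e.1.1 = O := by
  classical
  have h1 : ax O P = (cedges P).countP (fun e => decide (e.1.1 = O)) := by
    unfold ax
    conv_lhs => rw [← v2_mapfst P, List.countP_map]
    rfl
  unfold mult cnt at hc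
  rw [h1] at hc
  have := v2_count (fun e : (ℂ × ℝ) × (ℂ × ℝ) => decide (e.1.1 = O))
    (fun e => decide (O ∈ hseg e.1.1 e.2.1)) (cedges P) (by
      intro x hx
      simp only [decide_eq_true_eq] at hx ⊢
      exact ⟨0, le_rfl, one_pos, by simp [hx]⟩) (by
      rw [← hc]) e he (by simpa using hO)
  simpa using this

theorem v2_mult (P : List (ℂ × ℝ)) (x : ℂ) : mult P x =
    (open Classical in (cedges (P.map Prod.fst)).countP (fun e => decide (x ∈ hseg e.1 e.2))) := by
  classical
  unfold mult cnt cedges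
  rw [← List.map_rotate, List.zip_map, List.countP_map]
  rfl

theorem v2_ax (O : ℂ) (P : List (ℂ × ℝ)) : ax O P =
    (open Classical in (P.map Prod.fst).countP (fun v => decide (v = O))) := by
  classical
  unfold ax
  rw [List.countP_map]
  rfl

theorem vert2 {O : ℂ} {a b : ℂ × ℝ} {R : List (ℂ × ℝ)} (hr : Reg O (a :: b :: R)) (hR : R ≠ []) (α β : ℝ)
    (ha : a.1 = O → α = a.2) (hb : b.1 = O → β = b.2) (c : ℂ)
    (h1 : α ≠ a.2 → ∀ x ∈ segment ℝ (R.getLast hR).1 a.1, x ≠ O → mult (a :: b :: R) x ≤ 1)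
    (h2 : β ≠ b.2 → ∀ x ∈ segment ℝ b.1 (R.head hR).1, x ≠ O → mult (a :: b :: R) x ≤ 1)
    (h3 : ∀ x ∈ segment ℝ a.1 b.1, x ≠ O → x ≠ c → mult (a :: b :: R) x ≤ 1)
    (h4 : ∀ f ∈ pedges (b :: (R ++ [a])), ∀ z w w' : ℝ, ((c, z) : ℂ × ℝ) ∈ segment ℝ f.1 f.2 → 
      ((c, w) : ℂ × ℝ) ∈ segment ℝ a b → ((c, w') : ℂ × ℝ) ∈ segment ℝ (a.1, α) (b.1, β) → c ≠ O → c ≠ a.1 → c ≠ b.1 →
      (z < w ∧ z < w') ∨ (w < z ∧ w' < z)) :
    Simple ((a.1, α) :: (b.1, β) :: R) ∧ Reg O ((a.1, α) :: (b.1, β) :: R) ∧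
      Eqv (a :: b :: R) ((a.1, α) :: (b.1, β) :: R) ∧
      ∀ x, mult ((a.1, α) :: (b.1, β) :: R) x = mult (a :: b :: R) x := by
  classical
  set P := a :: b :: R with hPdef
  set P' := (a.1, α) :: (b.1, β) :: R with hP'def
  have hmap : P.map Prod.fst = P'.map Prod.fst := by simp [hPdef, hP'def]
  have hcP : cedges P = (a, b) :: (b, R.head hR) :: (pedges R ++ [(R.getLast hR, a)]) := v2_ced a b R hR
  have hcP' : cedges P' = ((a.1, α), (b.1, β)) :: ((b.1, β), R.head hR) ::
      (pedges R ++ [(R.getLast hR, (a.1, α))]) := v2_ced _ _ R hR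
  have hped := v2_ped a b R hR
  -- classification
  have hcl : ∀ p ∈ (cedges P).zip (cedges P'), p.1 ∈ cedges P ∧ (p.1.1.1 = O → p.2.1.2 = p.1.1.2) ∧
      (p = ((a, b), ((a.1, α), (b.1, β))) ∨ (p.1 ∈ pedges (b :: (R ++ [a])) ∧
        (p.2 = p.1 ∨ ∀ x ∈ segment ℝ p.1.1.1 p.1.2.1, x ≠ O → mult P x ≤ 1))) := by
    intro p hp
    refine ⟨(List.of_mem_zip hp).1, ?_⟩
    rw [hcP, hcP', List.zip_cons_cons, List.zip_cons_cons, List.zip_append rfl] at hp
    rw [hped]
    rcases List.mem_cons.1 hp with hp | hp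
    · subst hp
      exact ⟨ha, Or.inl rfl⟩
    rcases List.mem_cons.1 hp with hp | hp
    · subst hp
      refine ⟨hb, Or.inr ⟨by simp, ?_⟩⟩
      by_cases hβ : β = b.2
      · left; simp [hβ]
      · right; exact h2 hβ
    rcases List.mem_append.1 hp with hp | hp
    · obtain ⟨e1, e2⟩ := v2_zipself _ p hp
      refine ⟨fun _ => by rw [e1], Or.inr ⟨?_, Or.inl e1⟩⟩
      exact List.mem_cons_of_mem _ (List.mem_append_left _ e2)
    · have hp' : p = ((R.getLast hR, a), (R.getLast hR, (a.1, α))) := by simpa using hp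
      subst hp'
      refine ⟨fun _ => rfl, Or.inr ⟨by simp, ?_⟩⟩
      by_cases hα : α = a.2
      · left; simp [hα]
      · right; exact h1 hα
  have hfst : ((cedges P).zip (cedges P')).map Prod.fst = cedges P := by
    apply List.map_fst_zip
    rw [hcP, hcP']; simp
  have hA := v2_pair (fun e : (ℂ × ℝ) × (ℂ × ℝ) => hseg e.1.1 e.2.1) (cedges P)
  have hB := hr.simple.2
  have hAB := hA.and hB
  rw [← hfst, List.pairwise_map] at hAB
  -- ab against an unchanged edge
  have hab : ∀ f ∈ pedges (b :: (R ++ [a])), ∀ s t : ℝ, 0 ≤ s → s < 1 → 0 ≤ t → t < 1 →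
      ((1 - s) • a.1 + s • b.1 : ℂ) = (1 - t) • f.1.1 + t • f.2.1 →
      ((1 - s) • a.1 + s • b.1 : ℂ) ≠ O →
      2 ≤ mult P ((1 - s) • a.1 + s • b.1) →
      ((1 - t) * f.1.2 + t * f.2.2 < (1 - s) * a.2 + s * b.2 ∧
        (1 - t) * f.1.2 + t * f.2.2 < (1 - s) * α + s * β) ∨
      ((1 - s) * a.2 + s * b.2 < (1 - t) * f.1.2 + t * f.2.2 ∧
        (1 - s) * α + s * β < (1 - t) * f.1.2 + t * f.2.2) := by
    intro f hf s t hs0 hs1 ht0 ht1 hx hxO hm
    have hxs : ((1 - s) • a.1 + s • b.1 : ℂ) ∈ segment ℝ a.1 b.1 :=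
      ⟨1 - s, s, by linarith, hs0, by ring, rfl⟩
    have hxc : ((1 - s) • a.1 + s • b.1 : ℂ) = c := by
      by_contra hne
      have := h3 _ hxs hxO hne
      omega
    have hcO : c ≠ O := by rw [← hxc]; exact hxO
    have hca : c ≠ a.1 := by
      intro h
      have := hr.vert a (by simp [hPdef]) (by rw [← h]; exact hcO)
      rw [← h, ← hxc] at this
      omega
    have hcb : c ≠ b.1 := by
      intro h
      have := hr.vert b (by simp [hPdef]) (by rw [← h]; exact hcO)
      rw [← h, ← hxc] at this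
      omega
    refine h4 f hf _ _ _ ?_ ?_ ?_ hcO hca hcb
    · refine ⟨1 - t, t, by linarith, ht0, by ring, ?_⟩
      refine Prod.ext ?_ ?_
      · show (1 - t) • f.1.1 + t • f.2.1 = c
        rw [← hx, hxc]
      · show (1 - t) • f.1.2 + t • f.2.2 = _
        simp only [smul_eq_mul]
    · refine ⟨1 - s, s, by linarith, hs0, by ring, ?_⟩
      refine Prod.ext ?_ ?_
      · show (1 - s) • a.1 + s • b.1 = c
        exact hxc
      · show (1 - s) • a.2 + s • b.2 = _
        simp only [smul_eq_mul]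
    · refine ⟨1 - s, s, by linarith, hs0, by ring, ?_⟩
      refine Prod.ext ?_ ?_
      · show (1 - s) • a.1 + s • b.1 = c
        exact hxc
      · show (1 - s) • α + s • β = _
        simp only [smul_eq_mul]
  have hstart : ∀ e ∈ cedges P, ∀ s : ℝ, 0 ≤ s → s < 1 → (1 - s) • e.1.1 + s • e.2.1 = O →
      e.1.1 = O ∧ s = 0 := by
    intro e he s hs0 hs1 hx
    have h5 := v2_center O P hr.center e he ⟨s, hs0, hs1, hx.symm⟩
    refine ⟨h5, ?_⟩
    have h6 := hr.nondeg e he
    rw [h5] at hx h6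
    have h7 : s • (e.2.1 - O) = 0 := by
      rw [smul_sub, ← sub_eq_zero.2 hx, sub_smul, one_smul]
      ring
    rcases smul_eq_zero.1 h7 with h8 | h8
    · exact h8
    · exact absurd (sub_eq_zero.1 h8).symm h6
  have hH : ((cedges P).zip (cedges P')).Pairwise (fun p q => ∀ s t : ℝ, 0 ≤ s → s < 1 → 0 ≤ t → t < 1 →
      (1 - s) • p.1.1.1 + s • p.1.2.1 = (1 - t) • q.1.1.1 + t • q.1.2.1 →
      ((1 - s) * p.1.1.2 + s * p.1.2.2 < (1 - t) * q.1.1.2 + t * q.1.2.2 ∧
        (1 - s) * p.2.1.2 + s * p.2.2.2 < (1 - t) * q.2.1.2 + t * q.2.2.2) ∨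
      ((1 - t) * q.1.1.2 + t * q.1.2.2 < (1 - s) * p.1.1.2 + s * p.1.2.2 ∧
        (1 - t) * q.2.1.2 + t * q.2.2.2 < (1 - s) * p.2.1.2 + s * p.2.2.2)) := by
    refine hAB.imp_of_mem ?_
    rintro p q hp hq ⟨hm, hd⟩ s t hs0 hs1 ht0 ht1 hx
    obtain ⟨hp1, hp2, hp3⟩ := hcl p hp
    obtain ⟨hq1, hq2, hq3⟩ := hcl q hq
    have hxp : (1 - s) • p.1.1.1 + s • p.1.2.1 ∈ hseg p.1.1.1 p.1.2.1 := ⟨s, hs0, hs1, rfl⟩
    have hxq : (1 - s) • p.1.1.1 + s • p.1.2.1 ∈ hseg q.1.1.1 q.1.2.1 := ⟨t, ht0, ht1, hx⟩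
    have hm2 : 2 ≤ mult P ((1 - s) • p.1.1.1 + s • p.1.2.1) := by
      have h0 := hm _ hxp hxq
      rw [hfst] at h0
      exact h0
    have hne : (1 - s) * p.1.1.2 + s * p.1.2.2 ≠ (1 - t) * q.1.1.2 + t * q.1.2.2 := by
      intro h
      have hmem1 : (1 - s) • p.1.1 + s • p.1.2 ∈ hseg p.1.1 p.1.2 := ⟨s, hs0, hs1, rfl⟩
      have hmem2 : (1 - s) • p.1.1 + s • p.1.2 ∈ hseg q.1.1 q.1.2 := by
        refine ⟨t, ht0, ht1, ?_⟩
        refine Prod.ext ?_ ?_
        · exact hx
        · show (1 - s) • p.1.1.2 + s • p.1.2.2 = (1 - t) • q.1.1.2 + t • q.1.2.2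
          simpa only [smul_eq_mul] using h
      exact Set.disjoint_left.1 hd hmem1 hmem2
    by_cases hxO : (1 - s) • p.1.1.1 + s • p.1.2.1 = O
    · obtain ⟨e1, e2⟩ := hstart p.1 hp1 s hs0 hs1 hxO
      obtain ⟨e3, e4⟩ := hstart q.1 hq1 t ht0 ht1 (by rw [← hx]; exact hxO)
      have e5 := hp2 e1
      have e6 := hq2 e3
      subst e2 e4
      simp only [sub_zero, one_mul, zero_mul, add_zero] at hne ⊢
      rw [e5, e6]
      rcases lt_or_gt_of_ne hne with h | h
      · exact Or.inl ⟨h, h⟩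
      · exact Or.inr ⟨h, h⟩
    · have hsegp : (1 - s) • p.1.1.1 + s • p.1.2.1 ∈ segment ℝ p.1.1.1 p.1.2.1 :=
        ⟨1 - s, s, by linarith, hs0, by ring, rfl⟩
      have hsegq : (1 - s) • p.1.1.1 + s • p.1.2.1 ∈ segment ℝ q.1.1.1 q.1.2.1 := by
        rw [hx]; exact ⟨1 - t, t, by linarith, ht0, by ring, rfl⟩
      rcases hp3 with hpa | ⟨hpm, hpu | hpb⟩
      · rcases hq3 with hqa | ⟨hqm, hqu | hqb⟩
        · exfalso
          rw [hpa, hqa] at hd
          have hmem1 : a ∈ hseg a b := ⟨0, le_rfl, one_pos, by simp⟩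
          exact Set.disjoint_left.1 hd hmem1 hmem1
        · subst hpa
          rw [hqu]
          exact (hab q.1 hqm s t hs0 hs1 ht0 ht1 hx hxO hm2).symm
        · exfalso
          have := hqb _ hsegq hxO
          omega
      · rcases hq3 with hqa | ⟨hqm, hqu | hqb⟩
        · subst hqa
          rw [hpu]
          have h9 := hab p.1 hpm t s ht0 ht1 hs0 hs1 hx.symm (by
            intro h; exact hxO (hx.trans h)) (by
            have := hm2; rw [hx] at this; exact this)
          exact h9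
        · rw [hpu, hqu]
          rcases lt_or_gt_of_ne hne with h | h
          · exact Or.inl ⟨h, h⟩
          · exact Or.inr ⟨h, h⟩
        · exfalso
          have := hqb _ hsegq hxO
          omega
      · exfalso
        have := hpb _ hsegp hxO
        omega
  obtain ⟨hS, hE⟩ := vlem P P' hmap hr.nondeg hH
  have hmult : ∀ x, mult P' x = mult P x := by
    intro x
    rw [v2_mult, v2_mult, hmap]
  refine ⟨hS, ⟨hS, ?_, ?_, ?_, ?_⟩, hE, hmult⟩
  · intro e he
    rw [hcP'] at he
    have hnd := hr.nondeg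
    rw [hcP] at hnd
    rcases List.mem_cons.1 he with h | he
    · subst h; exact hnd (a, b) (by simp)
    rcases List.mem_cons.1 he with h | he
    · subst h; exact hnd (b, R.head hR) (by simp)
    rcases List.mem_append.1 he with he | he
    · exact hnd e (by simp [he])
    · have : e = (R.getLast hR, (a.1, α)) := by simpa using he
      subst this
      exact hnd (R.getLast hR, a) (by simp)
  · rw [hmult, hr.center, v2_ax, v2_ax, hmap]
  · intro x hx
    rw [hmult]; exact hr.two x hx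
  · intro v hv hvO
    rw [hmult]
    rcases List.mem_cons.1 hv with h | hv
    · subst h; exact hr.vert a (by simp [hPdef]) hvO
    rcases List.mem_cons.1 hv with h | hv
    · subst h; exact hr.vert b (by simp [hPdef]) hvO
    · exact hr.vert v (by simp [hPdef, hv]) hvO

end Knot548
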