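import Pool.Agent.Helper548.Knot.Defs
import Pool.Agent.Helper548.Knot.P_ce_cons
import Pool.Agent.Helper548.Knot.P_pe_append
import Pool.Agent.Helper548.Knot.P_mult_rotate
import Pool.Agent.Helper548.Knot.P_reg_rotate
import Pool.Agent.Helper548.Knot.P_eqv_rotate
import Pool.Agent.Helper548.Knot.P_vert2
import Pool.Agent.Helper548.Knot.P_ready_edges0
import Pool.Agent.Helper548.Knot.P_raise
import Pool.Agent.Helper548.Knot.P_over_ord



namespace Knot548
open Set


theorem bp_seg_fst {p q : ℂ × ℝ} {c : ℂ} {z : ℝ} (h : ((c, z) : ℂ × ℝ) ∈ segment ℝ p q) :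
    c ∈ segment ℝ p.1 q.1 := by
  obtain ⟨s, t, hs, ht, hst, e⟩ := h
  exact ⟨s, t, hs, ht, hst, congrArg Prod.fst e⟩

theorem bp_seg_lt {p q : ℂ × ℝ} {c : ℂ} {z H : ℝ} (h : ((c, z) : ℂ × ℝ) ∈ segment ℝ p q)
    (hp : p.2 < H) (hq : q.2 < H) : z < H := by
  obtain ⟨s, t, hs, ht, hst, e⟩ := h
  have e2 : s * p.2 + t * q.2 = z := congrArg Prod.snd e
  rcases hs.eq_or_lt with h0 | h0
  · have ht1 : t = 1 := by linarith
    rw [← h0, ht1] at e2
    linarith
  · have a1 : s * p.2 < s * H := by nlinarith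
    have a2 : t * q.2 ≤ t * H := by nlinarith
    have a3 : s * H + t * H = H := by rw [← add_mul, hst, one_mul]
    linarith

theorem bp_seg_eq {p q : ℂ × ℝ} {c : ℂ} {z H : ℝ} (h : ((c, z) : ℂ × ℝ) ∈ segment ℝ p q)
    (hp : p.2 = H) (hq : q.2 = H) : z = H := by
  obtain ⟨s, t, hs, ht, hst, e⟩ := h
  have e2 : s * p.2 + t * q.2 = z := congrArg Prod.snd e
  rw [hp, hq, ← add_mul, hst, one_mul] at e2
  exact e2.symm

theorem bp_uniq {O : ℂ} {P : List (ℂ × ℝ)} {c : ℂ} (hr : Reg O P) (hc : c ≠ O) (cm : mult P c = 2)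
    {e0 e1 f : (ℂ × ℝ) × (ℂ × ℝ)} {l : List ((ℂ × ℝ) × (ℂ × ℝ))} (hP : cedges P = e0 :: l)
    (h0 : c ∈ hseg e0.1.1 e0.2.1) (h1 : e1 ∈ l) (h1c : c ∈ hseg e1.1.1 e1.2.1) (hf : f ∈ l)
    (hfc : c ∈ segment ℝ f.1.1 f.2.1) : f = e1 := by
  classical
  have hv : c ≠ f.2.1 := by
    intro h
    have hfP : f ∈ cedges P := by rw [hP]; exact List.mem_cons_of_mem _ hf
    have h2 : f.2 ∈ P := by
      have := (List.of_mem_zip (show (f.1, f.2) ∈ P.zip (P.rotate 1) from hfP)).2
      exact List.mem_rotate.mp this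
    have := hr.vert f.2 h2 (by rw [← h]; exact hc)
    rw [← h, cm] at this
    omega
  have hfh : c ∈ hseg f.1.1 f.2.1 := by
    obtain ⟨s, t, hs, ht, hst, e⟩ := hfc
    have hs' : s = 1 - t := by linarith
    subst hs'
    refine ⟨t, ht, ?_, e.symm⟩
    rcases (show t ≤ 1 by linarith).eq_or_lt with h1 | h1
    · exfalso
      apply hv
      rw [← e, h1]
      simp
    · exact h1
  have hcount : (e0 :: l).countP (fun e => decide (c ∈ hseg e.1.1 e.2.1)) = 2 := by
    have h2 := cm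
    unfold mult cnt at h2
    rw [hP] at h2
    convert h2
  rw [List.countP_cons_of_pos (by simpa using h0)] at hcount
  have h1' : l.countP (fun e => decide (c ∈ hseg e.1.1 e.2.1)) = 1 := by omega
  rw [List.countP_eq_length_filter, List.length_eq_one_iff] at h1'
  obtain ⟨a, ha⟩ := h1'
  have m1 : e1 ∈ l.filter (fun e => decide (c ∈ hseg e.1.1 e.2.1)) :=
    List.mem_filter.mpr ⟨h1, by simpa using h1c⟩
  have m2 : f ∈ l.filter (fun e => decide (c ∈ hseg e.1.1 e.2.1)) :=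
    List.mem_filter.mpr ⟨hf, by simpa using hfh⟩
  rw [ha] at m1 m2
  rw [List.mem_singleton.mp m1, List.mem_singleton.mp m2]

theorem bp_mem_seg {a D x : ℂ} {p q : ℝ} (hpq : p ≤ q)
    (hx : x ∈ segment ℝ (a + (p : ℝ) • D) (a + (q : ℝ) • D)) : ∃ r : ℝ, p ≤ r ∧ r ≤ q ∧ x = a + r • D := by
  obtain ⟨s, t, hs, ht, hst, e⟩ := hx
  refine ⟨s * p + t * q, ?_, ?_, ?_⟩
  · have : s * p + t * p = p := by rw [← add_mul, hst, one_mul]
    nlinarith
  · have : s * q + t * q = q := by rw [← add_mul, hst, one_mul]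
    nlinarith
  · rw [← e]
    have hs' : s = 1 - t := by linarith
    subst hs'
    module

theorem bp_seg_mem {a b : ℂ} {r : ℝ} (h0 : 0 ≤ r) (h1 : r ≤ 1) :
    a + r • (b - a) ∈ segment ℝ a b := by
  refine ⟨1 - r, r, by linarith, h0, by ring, ?_⟩
  module

theorem bp_line {a b c a' b' : ℂ} (hab : a ≠ b) (cs : c ∈ openSegment ℝ a b)
    (ha' : a' ∈ openSegment ℝ a c) (hb' : b' ∈ openSegment ℝ c b) :
    c ∈ hseg a' b' ∧ (∀ x ∈ segment ℝ a' b', x ∈ segment ℝ a b) ∧
    (∀ x ∈ segment ℝ a a', x ∈ segment ℝ a b ∧ x ≠ c) ∧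
    (∀ x ∈ segment ℝ b' b, x ∈ segment ℝ a b ∧ x ≠ c) := by
  obtain ⟨v, u, hv, hu, hvu, ec⟩ := cs
  obtain ⟨s', s, hs', hs, hss, ea⟩ := ha'
  obtain ⟨t', t, ht', ht, htt, eb⟩ := hb'
  have hv' : v = 1 - u := by linarith
  have hs'' : s' = 1 - s := by linarith
  have ht'' : t' = 1 - t := by linarith
  subst hv' hs'' ht''
  have hD : b - a ≠ 0 := sub_ne_zero.mpr hab.symm
  have ec' : c = a + u • (b - a) := by rw [← ec]; module
  have ea' : a' = a + (s * u) • (b - a) := by rw [← ea, ec']; module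
  have eb' : b' = a + (u + t * (1 - u)) • (b - a) := by rw [← eb, ec']; module
  have hinj : ∀ r r' : ℝ, a + r • (b - a) = a + r' • (b - a) → r = r' := by
    intro r r' h
    have h2 : (r - r') • (b - a) = 0 := by
      rw [sub_smul]
      have := add_left_cancel h
      rw [this, sub_self]
    rcases smul_eq_zero.mp h2 with h3 | h3
    · linarith
    · exact absurd h3 hD
  have hsu : s * u < u := by nlinarith
  have hsu0 : 0 < s * u := by positivity
  have htu : u < u + t * (1 - u) := by nlinarith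
  have htu1 : u + t * (1 - u) < 1 := by nlinarith
  refine ⟨?_, ?_, ?_, ?_⟩
  · have hd : 0 < (u + t * (1 - u)) - s * u := by linarith
    refine ⟨(u - s * u) / ((u + t * (1 - u)) - s * u), by apply div_nonneg <;> linarith, ?_, ?_⟩
    · rw [div_lt_one hd]; linarith
    · rw [ec', ea', eb']
      set q := (u - s * u) / ((u + t * (1 - u)) - s * u) with hq
      have hq' : q * ((u + t * (1 - u)) - s * u) = u - s * u := by
        rw [hq]; exact div_mul_cancel₀ _ hd.ne'
      have e1 : u = (1 - q) * (s * u) + q * (u + t * (1 - u)) := by linear_combination -hq'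
      have e2 : (1 - q) • (a + (s * u) • (b - a)) + q • (a + (u + t * (1 - u)) • (b - a)) =
          a + ((1 - q) * (s * u) + q * (u + t * (1 - u))) • (b - a) := by module
      rw [e2, ← e1]
  · intro x hx
    rw [ea', eb'] at hx
    obtain ⟨r, hr1, hr2, rfl⟩ := bp_mem_seg (by linarith) hx
    exact bp_seg_mem (by linarith) (by linarith)
  · intro x hx
    rw [ea', show segment ℝ a (a + (s * u) • (b - a)) =
      segment ℝ (a + (0 : ℝ) • (b - a)) (a + (s * u) • (b - a)) by rw [zero_smul, add_zero]] at hx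
    obtain ⟨r, hr1, hr2, rfl⟩ := bp_mem_seg (by linarith) hx
    refine ⟨bp_seg_mem (by linarith) (by linarith), ?_⟩
    rw [ec']
    intro h
    have := hinj _ _ h
    linarith
  · intro x hx
    rw [eb', show segment ℝ (a + (u + t * (1 - u)) • (b - a)) b =
      segment ℝ (a + (u + t * (1 - u)) • (b - a)) (a + (1 : ℝ) • (b - a)) by
        rw [one_smul, add_sub_cancel]] at hx
    obtain ⟨r, hr1, hr2, rfl⟩ := bp_mem_seg (by linarith) hx
    refine ⟨bp_seg_mem (by linarith) (by linarith), ?_⟩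
    rw [ec']
    intro h
    have := hinj _ _ h
    linarith

theorem bp_pmem {α : Type*} (A B : List α) (p q : α) : (p, q) ∈ pedges (A ++ p :: q :: B) := by
  rw [pe_append]
  exact List.mem_append_right _ (List.mem_cons_self)

theorem bp_open_hseg {a b c : ℂ} (h : c ∈ openSegment ℝ a b) : c ∈ hseg a b := by
  obtain ⟨s, t, hs, ht, hst, e⟩ := h
  have hs' : s = 1 - t := by linarith
  subst hs'
  exact ⟨t, ht.le, by linarith, e.symm⟩

theorem absorb_vert {O : ℂ} {h : ℝ} {y y2 : ℂ × ℝ} {X : List (ℂ × ℝ)} {a b : ℂ × ℝ}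
    {Y : List (ℂ × ℝ)} {c : ℂ} (R : Ready O h [] y y2 X a b Y c) (ho : Over (O, h) y a b c) (a' b' : ℂ)
    (ha' : a' ∈ openSegment ℝ a.1 c) (hb' : b' ∈ openSegment ℝ c b.1) (g : ℝ) (hg : h < g) :
    Reg O (((((O, h) :: []) ++ [(y.1, h), y2]) ++ X ++ [a, (a', g), (b', g), b] ++ Y) : List (ℂ × ℝ)) ∧
      Eqv ((((O, h) :: []) ++ [y, y2]) ++ X ++ [a, b] ++ Y) ((((O, h) :: []) ++ [(y.1, h), y2]) ++ X ++ [a, (a', g), (b', g), b] ++ Y) ∧
      (∀ x, mult ((((O, h) :: []) ++ [(y.1, h), y2]) ++ X ++ [a, (a', g), (b', g), b] ++ Y) x =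
        mult ((((O, h) :: []) ++ [y, y2]) ++ X ++ [a, b] ++ Y) x) ∧
      ax O ((((O, h) :: []) ++ [(y.1, h), y2]) ++ X ++ [a, (a', g), (b', g), b] ++ Y) =
        ax O ((((O, h) :: []) ++ [y, y2]) ++ X ++ [a, b] ++ Y) := by
  obtain ⟨H, hHh, hHy, hHa, hHb⟩ : ∃ H : ℝ, h < H ∧ y.2 < H ∧ a.2 < H ∧ b.2 < H := by
    refine ⟨max (max h y.2) (max a.2 b.2) + 1, ?_, ?_, ?_, ?_⟩
    · have := (le_max_left h y.2).trans (le_max_left _ (max a.2 b.2)); linarith
    · have := (le_max_right h y.2).trans (le_max_left _ (max a.2 b.2)); linarith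
    · have := (le_max_left a.2 b.2).trans (le_max_right (max h y.2) _); linarith
    · have := (le_max_right a.2 b.2).trans (le_max_right (max h y.2) _); linarith
  have hc := R.coff
  have hab : a.1 ≠ b.1 := by
    have hm : (a, b) ∈ cedges ((((O, h) :: []) ++ [y, y2]) ++ X ++ [a, b] ++ Y) := by
      rw [ready_edges0]
      simp
    exact R.reg.nondeg _ hm
  obtain ⟨L1, L2, L3, L4⟩ := bp_line hab R.cs ha' hb'
  have ce : c ∈ openSegment ℝ O y.1 := R.ce
  have hcy : c ∈ hseg O y.1 := bp_open_hseg ce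
  -- step 1
  have hover := over_ord [] (y2 :: X) Y (O, h) y a b c R.reg hc R.cm ce R.cs ho
  obtain ⟨r1, r2, r3, r4⟩ := raise ((O, h) :: y :: y2 :: X) Y a b c R.reg R.aoff R.boff R.cs
    R.k5 a' b' ha' hb' H H (by
      intro e he z w w' hz hw hw'
      have h1 := hover e he z w hz hw
      have h2 := bp_seg_lt hw hHa hHb
      have h3 : w' = H := bp_seg_eq hw' rfl rfl
      left
      exact ⟨h1, by rw [h3]; linarith⟩)
  have hax : a' ≠ O ∧ b' ≠ O := by
    classical
    simp only [ax, List.countP_append, List.countP_cons, List.countP_nil] at r4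
    constructor
    · intro h0
      simp only [h0] at r4
      simp at r4
      omega
    · intro h0
      simp only [h0] at r4
      simp at r4
      omega
  -- step 2
  set R1 : List (ℂ × ℝ) := y2 :: X ++ [a, (a', H), (b', H), b] ++ Y with hR1
  have r1' : Reg O ((O, h) :: y :: R1) := r1
  have hR1ne : R1 ≠ [] := by simp [hR1]
  have m1 : ∀ x, mult ((O, h) :: y :: R1) x =
      mult ((((O, h) :: []) ++ [y, y2]) ++ X ++ [a, b] ++ Y) x := r3
  have c1 : cedges ((O, h) :: y :: R1) = ((O, h), y) :: pedges (y :: (R1 ++ [(O, h)])) :=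
    ce_cons _ _
  have me1 : (((a', H), (b', H)) : (ℂ × ℝ) × (ℂ × ℝ)) ∈ pedges (y :: (R1 ++ [(O, h)])) := by
    have := bp_pmem (y :: y2 :: X ++ [a]) (b :: Y ++ [(O, h)]) ((a', H) : ℂ × ℝ) (b', H)
    have e : y :: y2 :: X ++ [a] ++ (a', H) :: (b', H) :: (b :: Y ++ [(O, h)]) =
        y :: (R1 ++ [(O, h)]) := by simp [hR1]
    rw [e] at this
    exact this
  obtain ⟨_, q1, q2, q3⟩ := vert2 (a := (O, h)) (b := y) r1' hR1ne h h (fun _ => rfl)
    (fun h0 => absurd h0 R.yoff) c (fun h0 => absurd rfl h0)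
    (by
      intro _ x hx hxO
      rw [m1]
      exact R.k4 x hx hxO)
    (by
      intro x hx hxO hxc
      rw [m1]
      exact R.k3 x hx hxO hxc)
    (by
      intro f hf z w w' hz hw hw' _ _ _
      have hf1 := bp_uniq r1' hc ((m1 c).trans R.cm) c1 hcy me1 L1 hf (bp_seg_fst hz)
      rw [hf1] at hz
      have h1 : z = H := bp_seg_eq hz rfl rfl
      have h2 : w < H := bp_seg_lt hw hHh hHy
      have h3 : w' = h := bp_seg_eq hw' rfl rfl
      right
      exact ⟨by rw [h1]; exact h2, by rw [h1, h3]; exact hHh⟩)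
  -- step 3
  set L : List (ℂ × ℝ) := (O, h) :: (y.1, h) :: y2 :: X ++ [a] with hL
  set R2 : List (ℂ × ℝ) := b :: Y ++ L with hR2
  have hR2ne : R2 ≠ [] := by simp [hR2]
  have P2e : (O, h) :: (y.1, h) :: R1 = L ++ ((a', H) :: (b', H) :: b :: Y) := by
    simp [hR1, hL]
  have P2r : ((O, h) :: (y.1, h) :: R1).rotate L.length = (a', H) :: (b', H) :: R2 := by
    rw [P2e, List.rotate_append_length_eq]
    simp [hR2]
  have P3e : ((((O, h) :: []) ++ [(y.1, h), y2]) ++ X ++ [a, (a', g), (b', g), b] ++ Y) =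
      L ++ ((a', g) :: (b', g) :: b :: Y) := by
    simp [hL]
  have P3r : ((((O, h) :: []) ++ [(y.1, h), y2]) ++ X ++ [a, (a', g), (b', g), b] ++ Y).rotate
      L.length = (a', g) :: (b', g) :: R2 := by
    rw [P3e, List.rotate_append_length_eq]
    simp [hR2]
  have q1' : Reg O ((a', H) :: (b', H) :: R2) := by
    rw [← P2r, reg_rotate]; exact q1
  have m2 : ∀ x, mult ((a', H) :: (b', H) :: R2) x =
      mult ((((O, h) :: []) ++ [y, y2]) ++ X ++ [a, b] ++ Y) x := by
    intro x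
    rw [← P2r, mult_rotate, ← m1, ← q3]
  have hhead : R2.head hR2ne = b := by simp [hR2]
  have hlast : R2.getLast hR2ne = a := by simp [hR2, hL]
  have c2 : cedges ((a', H) :: (b', H) :: R2) =
      ((a', H), (b', H)) :: pedges ((b', H) :: (R2 ++ [(a', H)])) := ce_cons _ _
  have me2 : (((O, h), (y.1, h)) : (ℂ × ℝ) × (ℂ × ℝ)) ∈
      pedges ((b', H) :: (R2 ++ [(a', H)])) := by
    have := bp_pmem ((b', H) :: b :: Y) (y2 :: X ++ [a] ++ [(a', H)]) ((O, h) : ℂ × ℝ) (y.1, h)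
    have e : (b', H) :: b :: Y ++ (O, h) :: (y.1, h) :: (y2 :: X ++ [a] ++ [(a', H)]) =
        (b', H) :: (R2 ++ [(a', H)]) := by simp [hR2, hL]
    rw [e] at this
    exact this
  obtain ⟨_, s1, s2, s3⟩ := vert2 (a := (a', H)) (b := (b', H)) q1' hR2ne g g
    (fun h0 => absurd h0 hax.1) (fun h0 => absurd h0 hax.2) c
    (by
      intro _ x hx hxO
      rw [m2]
      rw [hlast] at hx
      exact R.k5 x (L3 x hx).1 hxO (L3 x hx).2)
    (by
      intro _ x hx hxO
      rw [m2]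
      rw [hhead] at hx
      exact R.k5 x (L4 x hx).1 hxO (L4 x hx).2)
    (by
      intro x hx hxO hxc
      rw [m2]
      exact R.k5 x (L2 x hx) hxO hxc)
    (by
      intro f hf z w w' hz hw hw' _ _ _
      have hf1 := bp_uniq q1' hc ((m2 c).trans R.cm) c2 L1 me2 hcy hf (bp_seg_fst hz)
      rw [hf1] at hz
      have h1 : z = h := bp_seg_eq hz rfl rfl
      have h2 : w = H := bp_seg_eq hw rfl rfl
      have h3 : w' = g := bp_seg_eq hw' rfl rfl
      left
      rw [h1, h2, h3]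
      exact ⟨hHh, hg⟩)
  have E0 : Eqv ((((O, h) :: []) ++ [y, y2]) ++ X ++ [a, b] ++ Y) ((O, h) :: y :: R1) := r2
  have E1 : Eqv ((O, h) :: (y.1, h) :: R1) ((a', H) :: (b', H) :: R2) := by
    rw [← P2r]; exact eqv_rotate _ _
  have E2 : Eqv ((((O, h) :: []) ++ [(y.1, h), y2]) ++ X ++ [a, (a', g), (b', g), b] ++ Y)
      ((a', g) :: (b', g) :: R2) := by
    rw [← P3r]; exact eqv_rotate _ _
  refine ⟨?_, ?_, ?_, ?_⟩
  · rw [← reg_rotate L.length, P3r]
    exact s1
  · exact Relation.EqvGen.trans _ _ _ E0 (Relation.EqvGen.trans _ _ _ q2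
      (Relation.EqvGen.trans _ _ _ E1 (Relation.EqvGen.trans _ _ _ s2
        (Relation.EqvGen.symm _ _ E2))))
  · intro x
    rw [← mult_rotate _ L.length, P3r, ← m2, ← s3]
  · refine Eq.trans ?_ r4
    classical
    simp only [ax, List.countP_append, List.countP_cons, List.countP_nil]
    omega

end Knot548
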