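import Pool.Agent.Helper548.Knot.Defs
import Pool.Agent.Helper548.Knot.P_ce_rotate
import Pool.Agent.Helper548.Knot.P_mult_ge_two
import Pool.Agent.Helper548.Knot.P_vert_unique



namespace Knot548
open Set


theorem ci390_fst {α : Type*} (L : List α) : (cedges L).map Prod.fst = L := by
  unfold cedges
  exact List.map_fst_zip (by simp)

theorem ci390_snd {α : Type*} (L : List α) : (cedges L).map Prod.snd = L.rotate 1 := by
  unfold cedges
  exact List.map_snd_zip (by simp)

theorem ci390_next {α : Type*} {L : List α} {v : α} (hv : v ∈ L) : ∃ g ∈ cedges L, g.1 = v := by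
  have h : v ∈ (cedges L).map Prod.fst := by rw [ci390_fst]; exact hv
  simpa using List.mem_map.1 h

theorem ci390_mem2 {α : Type*} {L : List α} {e : α × α} (he : e ∈ cedges L) : e.2 ∈ L := by
  have h : e.2 ∈ (cedges L).map Prod.snd := List.mem_map_of_mem he
  rw [ci390_snd] at h
  simpa using h

theorem ci390_left {E : Type*} [AddCommGroup E] [Module ℝ E] (a b : E) : a ∈ hseg a b :=
  ⟨0, le_refl _, by norm_num, by simp⟩

theorem ci390_seg {E : Type*} [AddCommGroup E] [Module ℝ E] {a b x : E} (h : x ∈ segment ℝ a b) :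
    x ∈ hseg a b ∨ x = b := by
  obtain ⟨s, t, hs, ht, hst, rfl⟩ := h
  rcases eq_or_lt_of_le (show t ≤ 1 by linarith) with h1 | h1
  · right
    have : s = 0 := by linarith
    subst this; subst h1; simp
  · left
    exact ⟨t, ht, h1, by rw [show 1 - t = s by linarith]⟩

theorem ci390_pos {l : List ((ℂ × ℝ) × (ℂ × ℝ))} {g : (ℂ × ℝ) × (ℂ × ℝ)} {x : ℂ} (hg : g ∈ l)
    (hx : x ∈ hseg g.1.1 g.2.1) : 1 ≤ cnt l x := by
  unfold cnt
  have := List.countP_pos_iff (p := fun e : (ℂ × ℝ) × (ℂ × ℝ) =>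
    (open Classical in decide (x ∈ hseg e.1.1 e.2.1))) (l := l)
  exact this.2 ⟨g, hg, by simpa using hx⟩

theorem ci390_cons (l : List ((ℂ × ℝ) × (ℂ × ℝ))) (g : (ℂ × ℝ) × (ℂ × ℝ)) (x : ℂ) :
    cnt (g :: l) x = cnt l x + (open Classical in if x ∈ hseg g.1.1 g.2.1 then 1 else 0) := by
  classical
  unfold cnt
  rw [List.countP_cons]
  simp

theorem ci390_perm {l l' : List ((ℂ × ℝ) × (ℂ × ℝ))} (h : l.Perm l') (x : ℂ) : cnt l x = cnt l' x := by
  unfold cnt
  exact h.countP_eq _

/-- the mixed case -/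
theorem ci390_mixed {O : ℂ} {P : List (ℂ × ℝ)} (hr : Reg O P) (E3 : List ((ℂ × ℝ) × (ℂ × ℝ)))
    (e f : (ℂ × ℝ) × (ℂ × ℝ)) (hp : (cedges P).Perm (e :: f :: E3)) (x : ℂ) (hx : x ≠ O)
    (he : x = e.2.1) (hf : x ∈ hseg f.1.1 f.2.1) : e.2 = f.1 := by
  classical
  have heP : e ∈ cedges P := hp.mem_iff.2 (by simp)
  have hfP : f ∈ cedges P := hp.mem_iff.2 (by simp)
  have he2 : e.2 ∈ P := ci390_mem2 heP
  have hm : mult P x = 1 := by rw [he]; exact hr.vert _ he2 (by rw [← he]; exact hx)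
  obtain ⟨g, hg, hg1⟩ := ci390_next he2
  have hxg : x ∈ hseg g.1.1 g.2.1 := by rw [hg1, he]; exact ci390_left _ _
  have hm' : mult P x = cnt (e :: f :: E3) x := ci390_perm hp x
  have hg' : g ∈ e :: f :: E3 := hp.mem_iff.1 hg
  rw [hm, ci390_cons, ci390_cons] at hm'
  rcases List.mem_cons.1 hg' with h | h
  · exact absurd (by rw [← h] at hg1 ⊢; rw [hg1]) (hr.nondeg e heP)
  rcases List.mem_cons.1 h with h | h
  · rw [← h, hg1]
  · exfalso
    have h1 := ci390_pos h hxg
    rw [if_pos hf] at hm'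
    omega

theorem closed_inter {O : ℂ} {P : List (ℂ × ℝ)} (hr : Reg O P) (E3 : List ((ℂ × ℝ) × (ℂ × ℝ)))
    (e f : (ℂ × ℝ) × (ℂ × ℝ)) (hp : (cedges P).Perm (e :: f :: E3)) (x : ℂ) (hx : x ≠ O)
    (he : x ∈ segment ℝ e.1.1 e.2.1) (hf : x ∈ segment ℝ f.1.1 f.2.1) :
    mult P x = 2 ∨ (x = e.2.1 ∧ e.2 = f.1) ∨ (x = f.2.1 ∧ f.2 = e.1) := by
  classical
  have heP : e ∈ cedges P := hp.mem_iff.2 (by simp)
  have hfP : f ∈ cedges P := hp.mem_iff.2 (by simp)
  rcases ci390_seg he with he1 | he1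
  · rcases ci390_seg hf with hf1 | hf1
    · left
      exact le_antisymm (hr.two x hx) (mult_ge_two E3 e f hp x he1 hf1)
    · right; right
      exact ⟨hf1, ci390_mixed hr E3 f e (hp.trans (List.Perm.swap _ _ _)) x hx hf1 he1⟩
  · rcases ci390_seg hf with hf1 | hf1
    · right; left
      exact ⟨he1, ci390_mixed hr E3 e f hp x hx he1 hf1⟩
    · exfalso
      have he2 : e.2 ∈ P := ci390_mem2 heP
      have hm : mult P x = 1 := by rw [he1]; exact hr.vert _ he2 (by rw [← he1]; exact hx)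
      have h1 : P.countP (fun v => decide (v.1 = x)) ≤ mult P x := by
        conv_lhs => rw [← ci390_fst P]
        rw [List.countP_map]
        unfold mult cnt
        refine List.countP_mono_left (fun g _ hg => ?_)
        have hg' : g.1.1 = x := by simpa using hg
        have : x ∈ hseg g.1.1 g.2.1 := by rw [← hg']; exact ci390_left _ _
        simpa using this
      have h2 : 2 ≤ P.countP (fun v => decide (v.1 = x)) := by
        rw [← (List.rotate_perm P 1).countP_eq, ← ci390_snd P, List.countP_map, hp.countP_eq]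
        rw [List.countP_cons, List.countP_cons]
        have e1 : ((fun v : ℂ × ℝ => decide (v.1 = x)) ∘ Prod.snd) e = true := by
          simp [he1]
        have f1 : ((fun v : ℂ × ℝ => decide (v.1 = x)) ∘ Prod.snd) f = true := by
          simp [hf1]
        rw [if_pos e1, if_pos f1]
        omega
      omega

end Knot548
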