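import Pool.Agent.Helper548.Knot.Defs



namespace Knot548
open Set


theorem psegs_closed (ed : List ((ℂ × ℝ) × (ℂ × ℝ))) : IsClosed (psegs ed) := by
  have hseg : ∀ a b : ℂ, IsClosed (segment ℝ a b) := by
    intro a b
    rw [segment_eq_image]
    refine (IsCompact.image isCompact_Icc ?_).isClosed
    fun_prop
  induction ed with
  | nil =>
    have : psegs ([] : List ((ℂ × ℝ) × (ℂ × ℝ))) = ∅ := by
      ext x; simp [psegs]
    rw [this]; exact isClosed_empty
  | cons e t ih =>
    have : psegs (e :: t) = segment ℝ e.1.1 e.2.1 ∪ psegs t := by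
      ext x
      simp only [psegs, Set.mem_setOf_eq, Set.mem_union, List.mem_cons, exists_eq_or_imp]
    rw [this]
    exact (hseg _ _).union ih

end Knot548
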