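import Pool.Agent.Helper548.Knot.Defs



namespace Knot548
open Set


theorem sp_list (Ws : List ℂ) (f g : ℂ → ℝ) :
    ∃ η0 : ℝ, 0 < η0 ∧ ∀ z ∈ Ws, g z ≠ 0 → η0 * |f z| < |g z| := by
  induction Ws with
  | nil => exact ⟨1, one_pos, fun z hz => absurd hz List.not_mem_nil⟩
  | cons z0 l ih =>
    obtain ⟨e, he, h⟩ := ih
    by_cases h0 : g z0 = 0
    · refine ⟨e, he, ?_⟩
      intro z hz hg
      rcases List.mem_cons.1 hz with rfl | hz
      · exact absurd h0 hg
      · exact h z hz hg
    · have hpos : 0 < |g z0| := abs_pos.2 h0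
      refine ⟨min e (|g z0| / (|f z0| + 1)), lt_min he (by positivity), ?_⟩
      intro z hz hg
      rcases List.mem_cons.1 hz with rfl | hz
      · calc min e (|g z| / (|f z| + 1)) * |f z| ≤ (|g z| / (|f z| + 1)) * |f z| :=
              mul_le_mul_of_nonneg_right (min_le_right _ _) (abs_nonneg _)
          _ < |g z| := by
            rw [div_mul_eq_mul_div, div_lt_iff₀ (by positivity)]
            nlinarith [abs_nonneg (f z)]
      · exact lt_of_le_of_lt (mul_le_mul_of_nonneg_right (min_le_left _ _) (abs_nonneg _))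
          (h z hz hg)

/-- the determinant of `c - O` and `b - a` is not zero -/
theorem sp_det (O y a b c : ℂ) (hyO : y ≠ O) (hab : a ≠ b) (hc : c ∈ openSegment ℝ O y)
    (hcab : c ∈ openSegment ℝ a b) (hnp : segment ℝ a b ∩ segment ℝ O y = {c}) :
    (c - O).re * (b - a).im - (c - O).im * (b - a).re ≠ 0 := by
  intro hD
  obtain ⟨m, n, hm, hn, hmn, hc'⟩ := hc
  obtain ⟨p, q, hp, hq, hpq, hcab'⟩ := hcab
  have hv : c - O = n • (y - O) := by
    rw [← hc']
    have : m = 1 - n := by linarith
    rw [this, sub_smul, one_smul, smul_sub]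
    abel
  have hw0 : b - a ≠ 0 := sub_ne_zero.2 (Ne.symm hab)
  have hy0 : y - O ≠ 0 := sub_ne_zero.2 hyO
  have hv0 : c - O ≠ 0 := by
    rw [hv]
    exact smul_ne_zero hn.ne' hy0
  -- parallel
  set v := c - O with hvd
  set w := b - a with hwd
  have hnv : 0 < v.re ^ 2 + v.im ^ 2 := by
    have := Complex.normSq_pos.2 hv0
    rw [Complex.normSq_apply] at this
    nlinarith
  let k : ℝ := (v.re * w.re + v.im * w.im) / (v.re ^ 2 + v.im ^ 2)
  have hwk : w = k • v := by
    apply Complex.ext
    · rw [Complex.smul_re, smul_eq_mul]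
      show w.re = (v.re * w.re + v.im * w.im) / (v.re ^ 2 + v.im ^ 2) * v.re
      rw [div_mul_eq_mul_div, eq_div_iff hnv.ne']
      linear_combination (-v.im) * hD
    · rw [Complex.smul_im, smul_eq_mul]
      show w.im = (v.re * w.re + v.im * w.im) / (v.re ^ 2 + v.im ^ 2) * v.im
      rw [div_mul_eq_mul_div, eq_div_iff hnv.ne']
      linear_combination v.re * hD
  let ε : ℝ := min p (m / (|k| + 1))
  have hε : 0 < ε := lt_min hp (by positivity)
  have hεp : ε ≤ p := min_le_left _ _
  have hεk : |ε * k| ≤ m := by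
    rw [abs_mul, abs_of_pos hε]
    calc ε * |k| ≤ (m / (|k| + 1)) * |k| :=
          mul_le_mul_of_nonneg_right (min_le_right _ _) (abs_nonneg _)
      _ ≤ m := by
        rw [div_mul_eq_mul_div, div_le_iff₀ (by positivity)]
        nlinarith [abs_nonneg k]
  have h1 : c + ε • w ∈ segment ℝ a b := by
    refine ⟨p - ε, q + ε, by linarith, by linarith, by linarith, ?_⟩
    rw [← hcab', hwd, sub_smul, add_smul, smul_sub]
    abel
  have h2 : c + ε • w ∈ segment ℝ O y := by
    have hk' := abs_le.1 hεk
    have hn1 : n ≤ 1 := by linarith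
    refine ⟨1 - n * (1 + ε * k), n * (1 + ε * k), ?_, ?_, by ring, ?_⟩
    · nlinarith
    · have : 0 ≤ 1 + ε * k := by linarith
      positivity
    · have e1 : c = O + v := by rw [hvd]; abel
      have e2 : v = n • (y - O) := hv
      rw [hwk]
      conv_rhs => rw [e1, e2]
      apply Complex.ext
      · simp
        ring
      · simp
        ring
  have h3 : c + ε • w ∈ ({c} : Set ℂ) := by
    rw [← hnp]
    exact ⟨h1, h2⟩
  have h4 : ε • w = 0 := by
    have : c + ε • w = c := h3
    exact left_eq_add.1 this.symm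
  exact (smul_ne_zero hε.ne' hw0) h4

/- NOTE: the statement without `hyO` and `hab` is FALSE: for `y = O` (so `c = O`) take
`O = y = c = 0, a = -1, b = 1, F = ∅, Ws = []`, and for `a = b` take `c = a = b`: then the field `ai`
(affine independence) fails.  Two hypotheses were added. -/
set_option maxHeartbeats 4000000 in
theorem spike_planar (O y a b c : ℂ) (hyO : y ≠ O) (hab : a ≠ b) (hc : c ∈ openSegment ℝ O y) (hcab : c ∈ openSegment ℝ a b)
    (hnp : segment ℝ a b ∩ segment ℝ O y = {c}) (F : Set ℂ) (hF : IsClosed F) (hFd : Disjoint F (segment ℝ O c))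
    (Ws : List ℂ) (hW : ∀ w ∈ Ws, w ≠ O ∧ segment ℝ O w ∩ segment ℝ O y ⊆ {O}) :
    ∃ a' b' : ℂ, Spike O y a b c F Ws a' b' := by
  obtain ⟨m, n, hm, hn, hmn, hc'⟩ := hc
  obtain ⟨p, q, hp, hq, hpq, hcab'⟩ := hcab
  have hD := sp_det O y a b c hyO hab ⟨m, n, hm, hn, hmn, hc'⟩ ⟨p, q, hp, hq, hpq, hcab'⟩ hnp
  set v := c - O with hv
  set w := b - a with hw
  set D := v.re * w.im - v.im * w.re with hDd
  let fx : ℂ → ℝ := fun z => ((z - O).re * w.im - (z - O).im * w.re) / D
  let ft : ℂ → ℝ := fun z => (v.re * (z - O).im - v.im * (z - O).re) / D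
  have hfx : ∀ (r1 r2 : ℝ) (P Q : ℂ), r1 + r2 = 1 →
      fx (r1 • P + r2 • Q) = r1 * fx P + r2 * fx Q := by
    intro r1 r2 P Q h
    have : r1 = 1 - r2 := by linarith
    subst this
    simp only [fx, Complex.sub_re, Complex.sub_im, Complex.add_re, Complex.add_im,
      Complex.smul_re, Complex.smul_im, smul_eq_mul]
    field_simp
    ring
  have hft : ∀ (r1 r2 : ℝ) (P Q : ℂ), r1 + r2 = 1 →
      ft (r1 • P + r2 • Q) = r1 * ft P + r2 * ft Q := by
    intro r1 r2 P Q h
    have : r1 = 1 - r2 := by linarith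
    subst this
    simp only [ft, Complex.sub_re, Complex.sub_im, Complex.add_re, Complex.add_im,
      Complex.smul_re, Complex.smul_im, smul_eq_mul]
    field_simp
    ring
  have hxv : ∀ x t : ℝ, fx (O + x • v + t • w) = x := by
    intro x t
    simp only [fx, Complex.sub_re, Complex.sub_im, Complex.add_re, Complex.add_im,
      Complex.smul_re, Complex.smul_im, smul_eq_mul]
    rw [div_eq_iff hD, hDd]
    ring
  have htv : ∀ x t : ℝ, ft (O + x • v + t • w) = t := by
    intro x t
    simp only [ft, Complex.sub_re, Complex.sub_im, Complex.add_re, Complex.add_im,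
      Complex.smul_re, Complex.smul_im, smul_eq_mul]
    rw [div_eq_iff hD, hDd]
    ring
  have hrep : ∀ z, z = O + fx z • v + ft z • w := by
    intro z
    apply Complex.ext
    · simp only [fx, ft, Complex.add_re, Complex.smul_re, smul_eq_mul]
      rw [div_mul_eq_mul_div, div_mul_eq_mul_div, add_assoc, ← add_div, ← sub_eq_iff_eq_add',
        eq_div_iff hD, hDd]
      simp only [Complex.sub_re, Complex.sub_im]
      ring
    · simp only [fx, ft, Complex.add_im, Complex.smul_im, smul_eq_mul]
      rw [div_mul_eq_mul_div, div_mul_eq_mul_div, add_assoc, ← add_div, ← sub_eq_iff_eq_add',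
        eq_div_iff hD, hDd]
      simp only [Complex.sub_re, Complex.sub_im]
      ring
  have hext : ∀ z z', fx z = fx z' → ft z = ft z' → z = z' := by
    intro z z' h1 h2
    rw [hrep z, hrep z', h1, h2]
  have hO : O = O + (0:ℝ) • v + (0:ℝ) • w := by simp
  have fO : fx O = 0 := by conv_lhs => rw [hO]; exact hxv 0 0
  have gO : ft O = 0 := by conv_lhs => rw [hO]; exact htv 0 0
  have hcr : c = O + (1:ℝ) • v + (0:ℝ) • w := by rw [hv]; simp
  have har : a = O + (1:ℝ) • v + (-q) • w := by
    have e : c - q • w = a := by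
      rw [← hcab', hw]
      have : p = 1 - q := by linarith
      rw [this, sub_smul, one_smul, smul_sub]
      abel
    rw [← e, neg_smul, one_smul, hv]
    abel
  have hbr : b = O + (1:ℝ) • v + p • w := by
    have e : c + p • w = b := by
      rw [← hcab', hw]
      have : q = 1 - p := by linarith
      rw [this, sub_smul, one_smul, smul_sub]
      abel
    rw [← e, one_smul, hv]
    abel
  -- y
  have hyr : ft y = 0 := by
    have h1 := hft m n O y hmn
    rw [hc', gO] at h1
    have h2 : ft c = 0 := by conv_lhs => rw [hcr]; exact htv 1 0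
    rw [h2] at h1
    have h3 : n * ft y = 0 := by linarith
    rcases mul_eq_zero.1 h3 with h | h
    · exact absurd h hn.ne'
    · exact h
  have hyx : 0 < fx y := by
    have h1 := hfx m n O y hmn
    rw [hc', fO] at h1
    have h2 : fx c = 1 := by conv_lhs => rw [hcr]; exact hxv 1 0
    rw [h2] at h1
    by_contra hcon
    push Not at hcon
    nlinarith
  -- choice of η
  obtain ⟨η0, hη0, hη0'⟩ := sp_list Ws fx ft
  obtain ⟨δ, hδ, hδd⟩ := (hFd.symm).exists_thickenings
    (by rw [segment_eq_image]
        exact isCompact_Icc.image (by fun_prop)) hF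
  let η : ℝ := min (min (p / 2) (q / 2)) (min η0 (δ / (2 * (‖w‖ + 1))))
  have hη : 0 < η := lt_min (lt_min (by linarith) (by linarith)) (lt_min hη0 (by positivity))
  have hηp : η < p := lt_of_le_of_lt (le_trans (min_le_left _ _) (min_le_left _ _)) (by linarith)
  have hηq : η < q := lt_of_le_of_lt (le_trans (min_le_left _ _) (min_le_right _ _)) (by linarith)
  have hηη : η ≤ η0 := le_trans (min_le_right _ _) (min_le_left _ _)
  have hηδ : η * ‖w‖ < δ := by
    have h1 : η ≤ δ / (2 * (‖w‖ + 1)) := le_trans (min_le_right _ _) (min_le_right _ _)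
    have h2 : 0 ≤ ‖w‖ := norm_nonneg _
    calc η * ‖w‖ ≤ δ / (2 * (‖w‖ + 1)) * ‖w‖ := mul_le_mul_of_nonneg_right h1 h2
      _ < δ := by
        rw [div_mul_eq_mul_div, div_lt_iff₀ (by positivity)]
        nlinarith
  let a' : ℂ := O + (1:ℝ) • v + (-η) • w
  let b' : ℂ := O + (1:ℝ) • v + η • w
  have fa' : fx a' = 1 := hxv 1 (-η)
  have ga' : ft a' = -η := htv 1 (-η)
  have fb' : fx b' = 1 := hxv 1 η
  have gb' : ft b' = η := htv 1 η
  have fa : fx a = 1 := by conv_lhs => rw [har]; exact hxv 1 (-q)
  have ga : ft a = -q := by conv_lhs => rw [har]; exact htv 1 (-q)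
  have fb : fx b = 1 := by conv_lhs => rw [hbr]; exact hxv 1 p
  have gb : ft b = p := by conv_lhs => rw [hbr]; exact htv 1 p
  have fc : fx c = 1 := by conv_lhs => rw [hcr]; exact hxv 1 0
  have gc : ft c = 0 := by conv_lhs => rw [hcr]; exact htv 1 0
  -- the triangle
  have htri : ∀ z ∈ convexHull ℝ ({O, a', b'} : Set ℂ), 0 ≤ fx z ∧ fx z ≤ 1 ∧
      ft z ≤ η * fx z ∧ -(η * fx z) ≤ ft z := by
    have hsub : convexHull ℝ ({O, a', b'} : Set ℂ) ⊆
        {z | 0 ≤ fx z ∧ fx z ≤ 1 ∧ ft z ≤ η * fx z ∧ -(η * fx z) ≤ ft z} := by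
      apply convexHull_min
      · intro z hz
        rcases hz with h | h | h
        · rw [h]
          refine ⟨?_, ?_, ?_, ?_⟩ <;> simp [fO, gO]
        · rw [h]
          refine ⟨?_, ?_, ?_, ?_⟩ <;> simp only [fa', ga'] <;> linarith
        · have h' : z = b' := h
          rw [h']
          refine ⟨?_, ?_, ?_, ?_⟩ <;> simp only [fb', gb'] <;> linarith
      · intro z hz z' hz' r1 r2 h1 h2 h12
        obtain ⟨z1, z2, z3, z4⟩ := hz
        obtain ⟨y1, y2, y3, y4⟩ := hz'
        refine ⟨?_, ?_, ?_, ?_⟩
        · rw [hfx r1 r2 z z' h12]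
          positivity
        · rw [hfx r1 r2 z z' h12]
          have := mul_le_mul_of_nonneg_left z2 h1
          have := mul_le_mul_of_nonneg_left y2 h2
          linarith
        · rw [hfx r1 r2 z z' h12, hft r1 r2 z z' h12]
          have := mul_le_mul_of_nonneg_left z3 h1
          have := mul_le_mul_of_nonneg_left y3 h2
          linarith
        · rw [hfx r1 r2 z z' h12, hft r1 r2 z z' h12]
          have := mul_le_mul_of_nonneg_left z4 h1
          have := mul_le_mul_of_nonneg_left y4 h2
          linarith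
    exact fun z hz => hsub hz
  refine ⟨a', b', ?_⟩
  constructor
  · -- ha
    refine ⟨η / q, 1 - η / q, by positivity, by rw [sub_pos, div_lt_one hq]; exact hηq, by ring, ?_⟩
    apply hext
    · rw [hfx _ _ _ _ (by ring), fa, fc, fa']
      ring
    · rw [hft _ _ _ _ (by ring), ga, gc, ga']
      field_simp
      ring
  · -- hb
    refine ⟨1 - η / p, η / p, by rw [sub_pos, div_lt_one hp]; exact hηp, by positivity, by ring, ?_⟩
    apply hext
    · rw [hfx _ _ _ _ (by ring), fb, fc, fb']
      ring
    · rw [hft _ _ _ _ (by ring), gb, gc, gb']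
      field_simp
      ring
  · -- f
    rw [Set.disjoint_left]
    intro z hz hzF
    obtain ⟨z1, z2, z3, z4⟩ := htri z hz
    have hz0 : z ∈ Metric.thickening δ F := Metric.self_subset_thickening hδ F hzF
    have hz1 : z ∈ Metric.thickening δ (segment ℝ O c) := by
      rw [Metric.mem_thickening_iff]
      refine ⟨O + fx z • v, ?_, ?_⟩
      · refine ⟨1 - fx z, fx z, by linarith, z1, by ring, ?_⟩
        rw [hv, sub_smul, one_smul, smul_sub]
        abel
      · rw [dist_eq_norm]
        have e : z - (O + fx z • v) = ft z • w := by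
          conv_lhs => rw [hrep z]
          rw [hxv]
          abel
        rw [e, norm_smul, Real.norm_eq_abs]
        have h1 : |ft z| ≤ η := by
          rw [abs_le]
          constructor
          · nlinarith
          · nlinarith
        exact lt_of_le_of_lt (mul_le_mul_of_nonneg_right h1 (norm_nonneg _)) hηδ
    exact Set.disjoint_left.1 hδd hz1 hz0
  · -- w
    intro z0 hz0 z hz
    obtain ⟨hz1, hz2⟩ := hz
    obtain ⟨z1, z2, z3, z4⟩ := htri z hz1
    obtain ⟨r, s, hr, hs, hrs, hzz⟩ := hz2
    obtain ⟨hne, hsub⟩ := hW z0 hz0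
    have e1 : fx z = s * fx z0 := by
      rw [← hzz, hfx _ _ _ _ hrs, fO]
      ring
    have e2 : ft z = s * ft z0 := by
      rw [← hzz, hft _ _ _ _ hrs, gO]
      ring
    rw [Set.mem_singleton_iff]
    rcases hs.eq_or_lt with h | h
    · apply hext
      · rw [e1, ← h, fO, zero_mul]
      · rw [e2, ← h, gO, zero_mul]
    · exfalso
      rw [e1] at z1 z3 z4
      rw [e2] at z3 z4
      have w1 : 0 ≤ fx z0 := by
        by_contra hcon
        push Not at hcon
        nlinarith
      have w3 : ft z0 ≤ η * fx z0 := by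
        have : s * ft z0 ≤ s * (η * fx z0) := by linarith
        exact le_of_mul_le_mul_left this h
      have w4 : -(η * fx z0) ≤ ft z0 := by
        have : s * (-(η * fx z0)) ≤ s * ft z0 := by linarith
        exact le_of_mul_le_mul_left this h
      by_cases ht0 : ft z0 = 0
      · -- then fx z0 > 0 and segments overlap
        have hx0 : 0 < fx z0 := by
          rcases w1.eq_or_lt with h5 | h5
          · exact absurd (hext z0 O (by rw [fO, ← h5]) (by rw [gO, ht0])) hne
          · exact h5
        let τ : ℝ := min (fx z0) (fx y)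
        have hτ : 0 < τ := lt_min hx0 hyx
        have k1 : O + τ • v + (0:ℝ) • w ∈ segment ℝ O z0 := by
          refine ⟨1 - τ / fx z0, τ / fx z0, ?_, by positivity, by ring, ?_⟩
          · rw [sub_nonneg, div_le_one hx0]
            exact min_le_left _ _
          · apply hext
            · rw [hfx _ _ _ _ (by ring), hxv, fO]
              field_simp
              ring
            · rw [hft _ _ _ _ (by ring), htv, gO, ht0]
              ring
        have k2 : O + τ • v + (0:ℝ) • w ∈ segment ℝ O y := by
          refine ⟨1 - τ / fx y, τ / fx y, ?_, by positivity, by ring, ?_⟩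
          · rw [sub_nonneg, div_le_one hyx]
            exact min_le_right _ _
          · apply hext
            · rw [hfx _ _ _ _ (by ring), hxv, fO]
              field_simp
              ring
            · rw [hft _ _ _ _ (by ring), htv, gO, hyr]
              ring
        have k3 : O + τ • v + (0:ℝ) • w = O := hsub ⟨k1, k2⟩
        have k4 := congrArg fx k3
        rw [hxv, fO] at k4
        exact hτ.ne' k4
      · have h5 := hη0' z0 hz0 ht0
        rw [abs_of_nonneg w1] at h5
        have h6 : |ft z0| ≤ η * fx z0 := abs_le.2 ⟨w4, w3⟩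
        have h7 : η * fx z0 ≤ η0 * fx z0 := mul_le_mul_of_nonneg_right hηη w1
        linarith
  · -- e1
    rintro z ⟨⟨r, s, hr, hs, hrs, hzz⟩, ⟨r', s', hr', hs', hrs', hzz'⟩⟩
    have e2 : ft z = s * (-η) := by
      rw [← hzz, hft _ _ _ _ hrs, gO, ga']
      ring
    have e2' : ft z = 0 := by
      rw [← hzz', hft _ _ _ _ hrs', gO, hyr]
      ring
    have e1 : fx z = s * 1 := by
      rw [← hzz, hfx _ _ _ _ hrs, fO, fa']
      ring
    have hs0 : s = 0 := by
      rw [e2] at e2'
      rcases mul_eq_zero.1 e2' with h | h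
      · exact h
      · linarith
    apply hext
    · rw [e1, hs0, fO, zero_mul]
    · rw [e2', gO]
  · -- e2
    rintro z ⟨⟨r, s, hr, hs, hrs, hzz⟩, ⟨r', s', hr', hs', hrs', hzz'⟩⟩
    have e2 : ft z = s * η := by
      rw [← hzz, hft _ _ _ _ hrs, gO, gb']
      ring
    have e2' : ft z = 0 := by
      rw [← hzz', hft _ _ _ _ hrs', gO, hyr]
      ring
    have e1 : fx z = s * 1 := by
      rw [← hzz, hfx _ _ _ _ hrs, fO, fb']
      ring
    have hs0 : s = 0 := by
      rw [e2] at e2'
      rcases mul_eq_zero.1 e2' with h | h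
      · exact h
      · linarith
    apply hext
    · rw [e1, hs0, fO, zero_mul]
    · rw [e2', gO]
  · -- t1
    rintro z ⟨⟨r, s, hr, hs, hrs, hzz⟩, hz1⟩
    obtain ⟨z1, z2, z3, z4⟩ := htri z hz1
    have e1 : fx z = 1 := by
      rw [← hzz, hfx _ _ _ _ hrs, fa, fa']
      linarith
    have e2 : ft z = r * (-q) + s * (-η) := by
      rw [← hzz, hft _ _ _ _ hrs, ga, ga']
    have hr0 : r = 0 := by
      rw [e1, e2] at z4
      by_contra hne
      have hrp : 0 < r := lt_of_le_of_ne hr (Ne.symm hne)
      have : s = 1 - r := by linarith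
      rw [this] at z4
      nlinarith
    have hs1 : s = 1 := by linarith
    show z = a'
    rw [← hzz, hr0, hs1, zero_smul, one_smul, zero_add]
  · -- t2
    rintro z ⟨⟨s, r, hs, hr, hrs, hzz⟩, hz1⟩
    obtain ⟨z1, z2, z3, z4⟩ := htri z hz1
    have e1 : fx z = 1 := by
      rw [← hzz, hfx _ _ _ _ hrs, fb, fb']
      linarith
    have e2 : ft z = s * η + r * p := by
      rw [← hzz, hft _ _ _ _ hrs, gb, gb']
    have hr0 : r = 0 := by
      rw [e1, e2] at z3
      by_contra hne
      have hrp : 0 < r := lt_of_le_of_ne hr (Ne.symm hne)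
      have : s = 1 - r := by linarith
      rw [this] at z3
      nlinarith
    have hs1 : s = 1 := by linarith
    show z = b'
    rw [← hzz, hr0, hs1, zero_smul, one_smul, add_zero]
  · -- o1
    rintro z ⟨⟨r, s, hr, hs, hrs, hzz⟩, ⟨r', s', hr', hs', hrs', hzz'⟩⟩
    have e1 : fx z = s * 1 := by
      rw [← hzz, hfx _ _ _ _ hrs, fO, fa']
      ring
    have e2 : ft z = s * (-η) := by
      rw [← hzz, hft _ _ _ _ hrs, gO, ga']
      ring
    have e1' : fx z = s' * 1 := by
      rw [← hzz', hfx _ _ _ _ hrs', fO, fb']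
      ring
    have e2' : ft z = s' * η := by
      rw [← hzz', hft _ _ _ _ hrs', gO, gb']
      ring
    have hss : s = s' := by linarith
    have hs0 : s = 0 := by
      rw [← hss, e2] at e2'
      have : s * η = 0 := by linarith
      rcases mul_eq_zero.1 this with h | h
      · exact h
      · exact absurd h hη.ne'
    apply hext
    · rw [e1, hs0, fO, zero_mul]
    · rw [e2, hs0, gO, zero_mul]
  · -- ai
    rw [affineIndependent_iff_not_collinear_set]
    intro hcol
    rw [collinear_iff_of_mem (p₀ := O) (by simp)] at hcol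
    obtain ⟨u, hu⟩ := hcol
    obtain ⟨r1, hr1⟩ := hu a' (by simp)
    obtain ⟨r2, hr2⟩ := hu b' (by simp)
    have hlin : ∀ r : ℝ, fx (r • u +ᵥ O) = r * fx (u + O) ∧ ft (r • u +ᵥ O) = r * ft (u + O) := by
      intro r
      constructor
      · simp only [fx, vadd_eq_add, Complex.sub_re, Complex.sub_im, Complex.add_re, Complex.add_im,
          Complex.smul_re, Complex.smul_im, smul_eq_mul]
        field_simp
        ring
      · simp only [ft, vadd_eq_add, Complex.sub_re, Complex.sub_im, Complex.add_re, Complex.add_im,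
          Complex.smul_re, Complex.smul_im, smul_eq_mul]
        field_simp
        ring
    have h1 : r1 * fx (u + O) = 1 := by rw [← (hlin r1).1, ← hr1, fa']
    have h2 : r2 * fx (u + O) = 1 := by rw [← (hlin r2).1, ← hr2, fb']
    have h3 : r1 * ft (u + O) = -η := by rw [← (hlin r1).2, ← hr1, ga']
    have h4 : r2 * ft (u + O) = η := by rw [← (hlin r2).2, ← hr2, gb']
    have h5 : fx (u + O) ≠ 0 := by
      intro h
      rw [h, mul_zero] at h1
      exact zero_ne_one h1
    have h6 : r1 = r2 := mul_right_cancel₀ h5 (by rw [h1, h2])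
    rw [h6, h4] at h3
    linarith

end Knot548
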