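import Pool.Agent.Helper548.Knot.Defs
import Pool.Agent.Helper548.Knot.P_center_seg
import Pool.Agent.Helper548.Knot.P_mult_ge_two
import Pool.Agent.Helper548.Knot.P_spike_planar
import Pool.Agent.Helper548.Knot.P_psegs_closed
import Pool.Agent.Helper548.Knot.P_vert_unique
import Pool.Agent.Helper548.Knot.P_closed_inter
import Pool.Agent.Helper548.Knot.P_ready_edges0



namespace Knot548
open Set


lemma sp_pedges_mem {α : Type*} : ∀ (L : List α) (e : α × α), e ∈ pedges L → e.1 ∈ L ∧ e.2 ∈ L
  | [], e, h => by simp [pedges] at h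
  | [_], e, h => by simp [pedges] at h
  | a :: b :: l, e, h => by
    simp only [pedges, List.mem_cons] at h
    rcases h with rfl | h
    · simp
    · have := sp_pedges_mem (b :: l) e h
      exact ⟨List.mem_cons_of_mem _ this.1, List.mem_cons_of_mem _ this.2⟩

lemma sp_cedges_mem {α : Type*} (L : List α) (e : α × α) (h : e ∈ cedges L) : e.1 ∈ L ∧ e.2 ∈ L := by
  unfold cedges at h
  have h1 : (e.1, e.2) ∈ L.zip (L.rotate 1) := h
  have := List.of_mem_zip h1
  exact ⟨this.1, List.mem_rotate.1 this.2⟩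

lemma sp_open_hseg {E : Type*} [AddCommGroup E] [Module ℝ E] {a b x : E}
    (h : x ∈ openSegment ℝ a b) : x ∈ hseg a b := by
  obtain ⟨s, t, hs, ht, hst, rfl⟩ := h
  exact ⟨t, ht.le, by linarith, by rw [← hst]; simp⟩

lemma sp_seg_hseg {E : Type*} [AddCommGroup E] [Module ℝ E] {a b x : E}
    (h : x ∈ segment ℝ a b) : x = b ∨ x ∈ hseg a b := by
  obtain ⟨s, t, hs, ht, hst, rfl⟩ := h
  rcases hs.eq_or_lt with h0 | h0
  · left
    have : t = 1 := by linarith
    rw [← h0, this]; simp
  · right
    exact ⟨t, ht, by linarith, by rw [← hst]; simp⟩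

lemma sp_three {P : List (ℂ × ℝ)} (E3 : List ((ℂ × ℝ) × (ℂ × ℝ))) (e f g : (ℂ × ℝ) × (ℂ × ℝ))
    (h : (cedges P).Perm (e :: f :: g :: E3)) (x : ℂ) (he : x ∈ hseg e.1.1 e.2.1)
    (hf : x ∈ hseg f.1.1 f.2.1) (hg : x ∈ hseg g.1.1 g.2.1) : 3 ≤ mult P x := by
  classical
  unfold mult cnt
  rw [h.countP_eq, List.countP_cons_of_pos (by simpa using he),
    List.countP_cons_of_pos (by simpa using hf), List.countP_cons_of_pos (by simpa using hg)]
  omega

/-- a point strictly between cannot have the end beyond it -/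
lemma sp_end {O y c : ℂ} (hc : c ∈ openSegment ℝ O y) (hy : y ∈ segment ℝ O c) : y = O := by
  obtain ⟨s, t, hs, ht, hst, rfl⟩ := hc
  obtain ⟨s', t', hs', ht', hst', h⟩ := hy
  have e1 : s = 1 - t := by linarith
  have e2 : s' = 1 - t' := by linarith
  subst e1 e2
  have h2 : (1 - t' * t) • (y - O) = 0 := by
    have : y - O = (t' * t) • (y - O) := by
      conv_lhs => rw [← h]
      simp only [smul_add, smul_sub, smul_smul, sub_smul, one_smul]
      module
    rw [sub_smul, one_smul, ← this, sub_self]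
  rcases smul_eq_zero.1 h2 with h3 | h3
  · exfalso
    have : t' * t < 1 := by nlinarith
    linarith
  · exact sub_eq_zero.1 h3

theorem spike_prep {O : ℂ} {h : ℝ} {y y2 : ℂ × ℝ} {X : List (ℂ × ℝ)} {a b : ℂ × ℝ}
    {Y : List (ℂ × ℝ)} {c : ℂ} (R : Ready O h [] y y2 X a b Y c) :
    ∃ a' b' : ℂ, Spike O y.1 a.1 b.1 c ∅ [] a' b' ∧
      ∀ e ∈ pedges (y :: y2 :: (X ++ [a])) ++ pedges (b :: (Y ++ [(O, h)])), ∀ x ∈ segment ℝ e.1.1 e.2.1,
        x ∈ convexHull ℝ {O, a', b'} → x = O := by
  classical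
  set rest := pedges (y :: y2 :: (X ++ [a])) ++ pedges (b :: (Y ++ [(O, h)])) with hrest
  set P : List (ℂ × ℝ) := ((((O, h) :: []) ++ [y, y2]) ++ X ++ [a, b] ++ Y) with hP
  have hreg : Reg O P := R.reg
  have hperm : (cedges P).Perm (((O, h), y) :: (a, b) :: rest) := by
    rw [hP, ready_edges0 (O := O) (h := h) y y2 X a b Y, hrest]
    have e : [((O, h), y)] ++ pedges (y :: y2 :: (X ++ [a])) ++ [(a, b)] ++
        pedges (b :: (Y ++ [(O, h)])) = ((O, h), y) :: (pedges (y :: y2 :: (X ++ [a])) ++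
          (a, b) :: pedges (b :: (Y ++ [(O, h)]))) := by simp
    rw [e]
    exact List.Perm.cons _ List.perm_middle
  have hperm3 : ∀ e ∈ rest, ∃ E3, (cedges P).Perm (((O, h), y) :: (a, b) :: e :: E3) := by
    intro e he
    exact ⟨rest.erase e, hperm.trans (((List.perm_cons_erase he).cons _).cons _)⟩
  have hperm2 : ∀ e ∈ rest, ∃ E3, (cedges P).Perm (((O, h), y) :: e :: E3) := by
    intro e he
    obtain ⟨E3, h3⟩ := hperm3 e he
    exact ⟨(a, b) :: E3, h3.trans ((List.Perm.swap _ _ _).cons _)⟩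
  have hmem : ∀ e ∈ rest, e ∈ cedges P := fun e he => by
    rw [hperm.mem_iff]
    exact List.mem_cons_of_mem _ (List.mem_cons_of_mem _ he)
  have hab : ((a, b) : (ℂ × ℝ) × (ℂ × ℝ)) ∈ cedges P := by rw [hperm.mem_iff]; simp
  have hc : c ∈ openSegment ℝ O y.1 := R.ce
  have hcab : c ∈ openSegment ℝ a.1 b.1 := R.cs
  have hk3 : ∀ x ∈ segment ℝ O y.1, x ≠ O → x ≠ c → mult P x ≤ 1 := R.k3
  have hcm : mult P c = 2 := R.cm
  have hvy : ∀ w ∈ [(O, h)] ++ (y2 :: (X ++ ([a, b] ++ Y))), w.1 ≠ y.1 :=
    vert_unique hreg _ _ y (by rw [hP]; simp) R.yoff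
  -- the point c is on no rest edge
  have hthree : ∀ e ∈ rest, c ∉ segment ℝ e.1.1 e.2.1 := by
    intro e he hce
    rcases sp_seg_hseg hce with h1 | h1
    · have h2 := (sp_cedges_mem _ _ (hmem e he)).2
      have h3 := hreg.vert e.2 h2 (by rw [← h1]; exact R.coff)
      rw [← h1, hcm] at h3
      omega
    · obtain ⟨E3, h3⟩ := hperm3 e he
      have := sp_three E3 _ _ _ h3 c (sp_open_hseg hc) (sp_open_hseg hcab) h1
      omega
  have hnp : segment ℝ a.1 b.1 ∩ segment ℝ O y.1 = {c} := by
    apply Set.Subset.antisymm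
    · rintro x ⟨hx1, hx2⟩
      rw [Set.mem_singleton_iff]
      by_contra hxc
      have hxO : x ≠ O := by
        rintro rfl
        rcases center_seg hreg (a, b) hab hx1 with h1 | h1
        · exact R.aoff h1
        · exact R.boff h1
      have hle := hk3 x hx2 hxO hxc
      rcases closed_inter hreg rest ((O, h), y) (a, b) hperm x hxO hx2 hx1 with h1 | h1 | h1
      · omega
      · have h4 : y = a := h1.2
        exact hvy a (by simp) (by rw [h4])
      · apply R.boff
        have := h1.2
        simp only at this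
        rw [this]
    · rintro x rfl
      exact ⟨openSegment_subset_segment ℝ _ _ hcab, openSegment_subset_segment ℝ _ _ hc⟩
  set F : Set ℂ := psegs (rest.filter (fun e => decide (e.1.1 ≠ O ∧ e.2.1 ≠ O))) with hF
  have hFc : IsClosed F := psegs_closed _
  have hOc : segment ℝ O c ⊆ segment ℝ O y.1 :=
    (convex_segment O y.1).segment_subset (left_mem_segment ℝ _ _)
      (openSegment_subset_segment ℝ _ _ hc)
  have hFd : Disjoint F (segment ℝ O c) := by
    rw [Set.disjoint_left]
    rintro x ⟨e, he, hxe⟩ hxc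
    rw [List.mem_filter] at he
    obtain ⟨he, he2⟩ := he
    have he3 : e.1.1 ≠ O ∧ e.2.1 ≠ O := by simpa using he2
    have hxO : x ≠ O := by
      rintro rfl
      rcases center_seg hreg e (hmem e he) hxe with h1 | h1
      · exact he3.1 h1
      · exact he3.2 h1
    obtain ⟨E3, h3⟩ := hperm2 e he
    rcases closed_inter hreg E3 _ _ h3 x hxO (hOc hxc) hxe with h1 | h1 | h1
    · by_cases hx : x = c
      · exact hthree e he (hx ▸ hxe)
      · have := hk3 x (hOc hxc) hxO hx
        omega
    · have h4 : x = y.1 := h1.1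
      rw [h4] at hxc
      exact R.yoff (sp_end hc hxc)
    · exact he3.2 (by rw [h1.2])
  set Ws : List ℂ := (rest.filter (fun e => decide (e.1.1 = O))).map (fun e => e.2.1) ++
    (rest.filter (fun e => decide (e.2.1 = O))).map (fun e => e.1.1) with hWs
  have hW : ∀ w ∈ Ws, w ≠ O ∧ segment ℝ O w ∩ segment ℝ O y.1 ⊆ {O} := by
    intro w hw
    rw [hWs, List.mem_append, List.mem_map, List.mem_map] at hw
    rcases hw with ⟨e, he, rfl⟩ | ⟨e, he, rfl⟩
    · rw [List.mem_filter] at he
      obtain ⟨he, he2⟩ := he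
      have he3 : e.1.1 = O := by simpa using he2
      have hnd := hreg.nondeg e (hmem e he)
      refine ⟨fun h1 => hnd (by rw [he3, h1]), ?_⟩
      rintro x ⟨hx1, hx2⟩
      rw [Set.mem_singleton_iff]
      by_contra hxO
      have hxe : x ∈ segment ℝ e.1.1 e.2.1 := by rw [he3]; exact hx1
      obtain ⟨E3, h3⟩ := hperm2 e he
      rcases closed_inter hreg E3 _ _ h3 x hxO hx2 hxe with h1 | h1 | h1
      · by_cases hx : x = c
        · exact hthree e he (hx ▸ hxe)
        · have := hk3 x hx2 hxO hx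
          omega
      · apply R.yoff
        have := h1.2
        simp only at this
        rw [this, he3]
      · apply hxO
        rw [h1.1, h1.2]
    · rw [List.mem_filter] at he
      obtain ⟨he, he2⟩ := he
      have he3 : e.2.1 = O := by simpa using he2
      have hnd := hreg.nondeg e (hmem e he)
      refine ⟨fun h1 => hnd (by rw [he3, h1]), ?_⟩
      rintro x ⟨hx1, hx2⟩
      rw [Set.mem_singleton_iff]
      by_contra hxO
      have hxe : x ∈ segment ℝ e.1.1 e.2.1 := by rw [he3, segment_symm]; exact hx1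
      obtain ⟨E3, h3⟩ := hperm2 e he
      rcases closed_inter hreg E3 _ _ h3 x hxO hx2 hxe with h1 | h1 | h1
      · by_cases hx : x = c
        · exact hthree e he (hx ▸ hxe)
        · have := hk3 x hx2 hxO hx
          omega
      · have hye : e.1 = y := h1.2.symm
        rw [hrest, List.mem_append] at he
        rcases he with he | he
        · rw [pedges, List.mem_cons] at he
          rcases he with he | he
          · rw [he] at he3
            exact R.y2off he3
          · have h5 := (sp_pedges_mem _ _ he).1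
            rw [hye] at h5
            refine hvy y ?_ rfl
            simp only [List.mem_cons, List.mem_append, List.not_mem_nil, or_false] at h5 ⊢
            tauto
        · have h5 := (sp_pedges_mem _ _ he).1
          rw [hye] at h5
          refine hvy y ?_ rfl
          simp only [List.mem_cons, List.mem_append, List.not_mem_nil, or_false] at h5 ⊢
          tauto
      · apply hxO
        rw [h1.1, h1.2]
  have hab1 : a.1 ≠ b.1 := R.reg.nondeg (a, b) (by rw [ready_edges0]; simp)
  obtain ⟨a', b', S⟩ := spike_planar O y.1 a.1 b.1 c R.yoff hab1 hc hcab hnp F hFc hFd Ws hW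
  refine ⟨a', b', ⟨S.ha, S.hb, by simp, by simp, S.e1, S.e2, S.t1, S.t2, S.o1, S.ai⟩, ?_⟩
  intro e he x hxe hxh
  by_cases h1 : e.1.1 = O
  · have hw : e.2.1 ∈ Ws := by
      rw [hWs, List.mem_append, List.mem_map]
      left
      exact ⟨e, List.mem_filter.2 ⟨he, by simpa using h1⟩, rfl⟩
    exact S.w _ hw ⟨hxh, by rw [← h1]; exact hxe⟩
  · by_cases h2 : e.2.1 = O
    · have hw : e.1.1 ∈ Ws := by
        rw [hWs, List.mem_append, List.mem_map, List.mem_map]
        right
        exact ⟨e, List.mem_filter.2 ⟨he, by simpa using h2⟩, rfl⟩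
      exact S.w _ hw ⟨hxh, by rw [← h2, segment_symm]; exact hxe⟩
    · exfalso
      refine Set.disjoint_left.1 S.f hxh ⟨e, List.mem_filter.2 ⟨he, ?_⟩, hxe⟩
      simp [h1, h2]

end Knot548
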