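import Pool.Agent.Helper548.Knot.Defs
import Pool.Agent.Helper548.Knot.P_spike_prep
import Pool.Agent.Helper548.Knot.P_absorb_vert
import Pool.Agent.Helper548.Knot.P_absorb_delta
import Pool.Agent.Helper548.Knot.P_absorb_reg



namespace Knot548
open Set


theorem absorb {O : ℂ} {h : ℝ} {y y2 : ℂ × ℝ} {X : List (ℂ × ℝ)} {a b : ℂ × ℝ}
    {Y : List (ℂ × ℝ)} {c : ℂ} (R : Ready O h [] y y2 X a b Y c) (ho : Over (O, h) y a b c)
    (hfin : (dbl O ((((O, h) :: []) ++ [y, y2]) ++ X ++ [a, b] ++ Y)).Finite) :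
    ∃ P' : List (ℂ × ℝ), Reg O P' ∧ Eqv ((((O, h) :: []) ++ [y, y2]) ++ X ++ [a, b] ++ Y) P' ∧
      (dbl O P').ncard + 1 = (dbl O ((((O, h) :: []) ++ [y, y2]) ++ X ++ [a, b] ++ Y)).ncard ∧
      ax O P' = ax O ((((O, h) :: []) ++ [y, y2]) ++ X ++ [a, b] ++ Y) + 1 ∧ (dbl O P').Finite := by
  obtain ⟨a', b', hS, hrest⟩ := spike_prep R
  obtain ⟨g0, hg0⟩ : ∃ g0 : ℝ, ∀ w ∈ (O, h) :: y :: y2 :: (X ++ [a, b] ++ Y), w.2 ≤ g0 := by
    obtain ⟨g0, h0⟩ := Finset.bddAbove (((((O, h) :: y :: y2 :: (X ++ [a, b] ++ Y)) : List (ℂ × ℝ)).map Prod.snd).toFinset)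
    refine ⟨g0, fun w hw => h0 ?_⟩
    rw [Finset.mem_coe, List.mem_toFinset, List.mem_map]
    exact ⟨w, hw, rfl⟩
  have hg : h < g0 + 1 := by
    have := hg0 (O, h) (by simp)
    simp only at this
    linarith
  have hgO : ∀ w ∈ (O, h) :: y :: y2 :: (X ++ [a, b] ++ Y), w.1 = O → w.2 ≠ g0 + 1 := by
    intro w hw _ he
    have := hg0 w hw
    linarith
  obtain ⟨hr, heq, -, -⟩ := absorb_vert R ho a' b' hS.ha hS.hb (g0 + 1) hg
  obtain ⟨hSi, heq2⟩ := absorb_delta R.yoff a' b' hS hrest (g0 + 1) hg hgO hr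
  obtain ⟨h1, h2, h3⟩ := absorb_reg R a' b' hS hrest (g0 + 1) hSi
  refine ⟨_, h1, Relation.EqvGen.trans _ _ _ heq heq2, ?_, h3, ?_⟩
  · rw [h2]
    exact Set.ncard_sdiff_singleton_add_one ⟨R.coff, R.cm⟩ hfin
  · rw [h2]
    exact hfin.sdiff

end Knot548
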