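import Pool.Agent.Helper548.Knot.Defs
import Pool.Agent.Helper548.Knot.P_eqv_rotate



namespace Knot548
open Set


theorem loops_rotate {O : ℂ} {W : List (ℝ × List (ℂ × ℝ))} (h : Loops O W) (k : ℕ) :
    Loops O (W.rotate k) ∧ Eqv (poly O W) (poly O (W.rotate k)) := by
  have hp : (W.rotate k).Perm W := List.rotate_perm W k
  refine ⟨⟨?_, ?_, ?_, ?_, ?_, ?_⟩, ?_⟩
  · rcases h.len with h1 | ⟨p, hp1, hp2⟩
    · left
      rw [hp.length_eq]
      exact h1
    · exact Or.inr ⟨p, hp.mem_iff.2 hp1, hp2⟩
  · intro p hp1
    exact h.ne p (hp.mem_iff.1 hp1)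
  · intro p hp1
    exact h.off p (hp.mem_iff.1 hp1)
  · exact (hp.map Prod.fst).nodup_iff.2 h.nod
  · intro p hp1
    exact h.simp p (hp.mem_iff.1 hp1)
  · refine (hp.pairwise_iff ?_).2 h.disj
    intro p q hpq
    rw [Set.inter_comm]
    exact hpq
  · have e1 : W = W.take (k % W.length) ++ W.drop (k % W.length) :=
      (List.take_append_drop _ _).symm
    have e2 : W.rotate k = W.drop (k % W.length) ++ W.take (k % W.length) :=
      List.rotate_eq_drop_append_take_mod
    have e3 : poly O W = poly O (W.take (k % W.length)) ++ poly O (W.drop (k % W.length)) := by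
      conv_lhs => rw [e1]
      simp only [poly, List.flatMap_append]
    have e4 : poly O (W.rotate k) =
        poly O (W.drop (k % W.length)) ++ poly O (W.take (k % W.length)) := by
      rw [e2]
      simp only [poly, List.flatMap_append]
    have e5 : poly O (W.rotate k) =
        (poly O W).rotate (poly O (W.take (k % W.length))).length := by
      rw [e4, e3, List.rotate_append_length_eq]
    rw [e5]
    exact eqv_rotate _ _

end Knot548
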