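import Pool.Agent.Helper548.Knot.Defs
import Pool.Agent.Helper548.Knot.P_ce_cons
import Pool.Agent.Helper548.Knot.P_pe_append
import Pool.Agent.Helper548.Knot.P_delta



namespace Knot548
open Set


theorem delta_inv {E : Type*} [AddCommGroup E] [Module ℝ E] [TopologicalSpace E] [IsTopologicalAddGroup E]
    [ContinuousSMul ℝ E] (a b Y : E) (R : List E) (hs : Simple (a :: Y :: b :: R))
    (hai : AffineIndependent ℝ ![a, Y, b])
    (hT : ∀ e ∈ pedges (b :: (R ++ [a])), ∀ x ∈ segment ℝ e.1 e.2, x ∈ convexHull ℝ {a, Y, b} → x = a ∨ x = b) :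
    Simple (a :: b :: R) ∧ Eqv (a :: Y :: b :: R) (a :: b :: R) := by
  have hab : a ≠ b := by
    intro h
    have := hai.injective.ne (show (0 : Fin 3) ≠ 2 by decide)
    apply this
    simpa using h
  have e1 : cedges (a :: b :: R) = (a, b) :: pedges (b :: (R ++ [a])) := by
    rw [ce_cons]; simp [pedges]
  have e2 : cedges (a :: Y :: b :: R) = (a, Y) :: (Y, b) :: pedges (b :: (R ++ [a])) := by
    rw [ce_cons]; simp [pedges]
  have hsim : Simple (a :: b :: R) := by
    obtain ⟨h1, h2⟩ := hs
    rw [e2] at h1 h2
    rw [List.pairwise_cons, List.pairwise_cons] at h2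
    obtain ⟨h2a, h2b, h2c⟩ := h2
    refine ⟨?_, ?_⟩
    · rw [e1]
      intro e he
      rcases List.mem_cons.1 he with rfl | he
      · exact hab
      · exact h1 e (List.mem_cons_of_mem _ (List.mem_cons_of_mem _ he))
    · rw [e1, List.pairwise_cons]
      refine ⟨?_, h2c⟩
      intro e he
      rw [Set.disjoint_left]
      intro x hx hx'
      have hxab : x ∈ segment ℝ a b := by
        obtain ⟨s, h0, h1, rfl⟩ := hx
        exact ⟨1 - s, s, by linarith, h0, by ring, rfl⟩
      have hxe : x ∈ segment ℝ e.1 e.2 := by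
        obtain ⟨s, h0, h1, hh⟩ := hx'
        exact ⟨1 - s, s, by linarith, h0, by ring, hh.symm⟩
      have hxc : x ∈ convexHull ℝ ({a, Y, b} : Set E) := by
        have : segment ℝ a b ⊆ convexHull ℝ ({a, Y, b} : Set E) :=
          segment_subset_convexHull (by simp) (by simp)
        exact this hxab
      rcases hT e he x hxe hxc with h | h
      · have h3 := h2a e (List.mem_cons_of_mem _ he)
        rw [Set.disjoint_left] at h3
        refine h3 ?_ hx'
        rw [h]
        exact ⟨0, le_refl _, one_pos, by simp⟩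
      · obtain ⟨s, h0, h1, hh⟩ := hx
        rw [h] at hh
        have h4 : (1 - s) • (b - a) = 0 := by
          have : (1 - s) • (b - a) = b - ((1 - s) • a + s • b) := by
            rw [smul_sub, sub_smul, sub_smul, one_smul, one_smul]; abel
          rw [this, ← hh, sub_self]
        rcases smul_eq_zero.1 h4 with h5 | h5
        · linarith
        · exact hab (sub_eq_zero.1 h5).symm
  exact ⟨hsim, Relation.EqvGen.symm _ _ (delta a b Y R hsim hai hT).2⟩

end Knot548
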