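import Pool.Agent.Helper548.Knot.Defs
import Pool.Agent.Helper548.Knot.P_ce_cons
import Pool.Agent.Helper548.Knot.P_pe_append



namespace Knot548
open Set


theorem h170_pedges_map {α β : Type*} (f : α → β) (L : List α) :
    pedges (L.map f) = (pedges L).map (Prod.map f f) := by
  induction L with
  | nil => rfl
  | cons a L ih =>
    cases L with
    | nil => rfl
    | cons b l =>
      show (f a, f b) :: pedges ((b :: l).map f) = Prod.map f f (a, b) :: (pedges (b :: l)).map _
      rw [ih]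
      rfl

theorem h170_pedges_mem {α : Type*} (L : List α) (w : α) :
    ∀ e ∈ pedges (L ++ [w]), e.1 ∈ L ∧ e.2 ∈ L ++ [w] := by
  induction L with
  | nil =>
    intro e he
    simp [pedges] at he
  | cons a L ih =>
    intro e he
    cases L with
    | nil =>
      have he' : e ∈ [(a, w)] := he
      rw [List.mem_singleton] at he'
      subst he'
      simp
    | cons b l =>
      have he' : e ∈ (a, b) :: pedges ((b :: l) ++ [w]) := he
      rw [List.mem_cons] at he'
      rcases he' with rfl | he'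
      · simp
      · have h := ih e he'
        exact ⟨List.mem_cons_of_mem _ h.1, List.mem_cons_of_mem _ h.2⟩

theorem h170_hseg_H (p q : ℂ) (H : ℝ) (x : ℂ × ℝ)
    (hx : x ∈ hseg ((p, H) : ℂ × ℝ) ((q, H) : ℂ × ℝ)) : x.1 ∈ hseg p q ∧ x.2 = H := by
  obtain ⟨s, hs0, hs1, rfl⟩ := hx
  constructor
  · exact ⟨s, hs0, hs1, rfl⟩
  · show (1 - s) * H + s * H = H
    ring

theorem simple_top (a b : ℂ) (R : List (ℂ × ℝ)) (H : ℝ) (hs : Simple ((a, H) :: (b, H) :: R)) (hR0 : R ≠ [])
    (hR : ∀ v ∈ R, v.2 < H) (M : List ℂ) (hN : PathSimple (a :: (M ++ [b]))) :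
    Simple ((a :: (M ++ [b])).map (fun z => ((z, H) : ℂ × ℝ)) ++ R) := by
  have hce0 : cedges (((a, H) : ℂ × ℝ) :: (b, H) :: R) =
      (((a, H) : ℂ × ℝ), ((b, H) : ℂ × ℝ)) :: pedges (((b, H) : ℂ × ℝ) :: (R ++ [((a, H) : ℂ × ℝ)])) := by
    rw [ce_cons]
    rfl
  have hce1 : cedges ((a :: (M ++ [b])).map (fun z => ((z, H) : ℂ × ℝ)) ++ R) =
      (pedges (a :: (M ++ [b]))).map (Prod.map (fun z => ((z, H) : ℂ × ℝ)) (fun z => ((z, H) : ℂ × ℝ))) ++
        pedges (((b, H) : ℂ × ℝ) :: (R ++ [((a, H) : ℂ × ℝ)])) := by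
    rw [← h170_pedges_map]
    have h1 : (a :: (M ++ [b])).map (fun z => ((z, H) : ℂ × ℝ)) =
        ((a, H) : ℂ × ℝ) :: (M.map (fun z => ((z, H) : ℂ × ℝ)) ++ [((b, H) : ℂ × ℝ)]) := by
      simp
    rw [h1, List.cons_append, ce_cons]
    have h2 : ((a, H) : ℂ × ℝ) :: (M.map (fun z => ((z, H) : ℂ × ℝ)) ++ [((b, H) : ℂ × ℝ)] ++ R ++
        [((a, H) : ℂ × ℝ)]) = (((a, H) : ℂ × ℝ) :: M.map (fun z => ((z, H) : ℂ × ℝ))) ++
          ((b, H) : ℂ × ℝ) :: (R ++ [((a, H) : ℂ × ℝ)]) := by
      simp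
    rw [h2, pe_append]
    rfl
  obtain ⟨hs1, hs2⟩ := hs
  rw [hce0] at hs1 hs2
  rw [List.pairwise_cons] at hs2
  obtain ⟨hN1, hN2, hN3⟩ := hN
  have hlast : (a :: (M ++ [b])).getLast? = some b := by
    rw [← List.cons_append, List.getLast?_append]
    simp
  have hb : ∀ e ∈ pedges (a :: (M ++ [b])), b ∉ hseg e.1 e.2 := hN3 b (by rw [hlast]; rfl)
  -- heights
  have hheight : ∀ e ∈ pedges (((b, H) : ℂ × ℝ) :: (R ++ [((a, H) : ℂ × ℝ)])), ∀ x ∈ hseg e.1 e.2,
      x.2 = H → x.1 = b := by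
    obtain ⟨r, R', rfl⟩ : ∃ r R', R = r :: R' := by
      cases R with
      | nil => exact absurd rfl hR0
      | cons r R' => exact ⟨r, R', rfl⟩
    intro e he x hx hxH
    have he' : e ∈ (((b, H) : ℂ × ℝ), r) :: pedges ((r :: R') ++ [((a, H) : ℂ × ℝ)]) := he
    rw [List.mem_cons] at he'
    obtain ⟨s, h0, h1, rfl⟩ := hx
    rcases he' with rfl | he'
    · have hxH' : (1 - s) * H + s * r.2 = H := hxH
      have hr := hR r List.mem_cons_self
      have hs0 : s = 0 := by
        by_contra hne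
        have hpos : 0 < s := lt_of_le_of_ne h0 (Ne.symm hne)
        nlinarith
      subst hs0
      show (1 - 0 : ℝ) • b + (0 : ℝ) • r.1 = b
      simp
    · exfalso
      have h2 := h170_pedges_mem _ _ e he'
      have h3 := hR _ h2.1
      have h4 : e.2.2 ≤ H := by
        rcases List.mem_append.1 h2.2 with h5 | h5
        · exact (hR _ h5).le
        · rw [List.mem_singleton] at h5
          rw [h5]
      have hxH' : (1 - s) * e.1.2 + s * e.2.2 = H := hxH
      nlinarith
  constructor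
  · intro e he
    rw [hce1, List.mem_append] at he
    rcases he with he | he
    · rw [List.mem_map] at he
      obtain ⟨e', he', rfl⟩ := he
      intro h
      apply hN1 e' he'
      have h2 := congrArg Prod.fst h
      exact h2
    · exact hs1 e (List.mem_cons_of_mem _ he)
  · rw [hce1, List.pairwise_append]
    refine ⟨?_, hs2.2, ?_⟩
    · rw [List.pairwise_map]
      apply hN2.imp
      intro e e' hd
      rw [Set.disjoint_left] at hd ⊢
      intro x hx hx'
      have h1 := h170_hseg_H _ _ _ _ hx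
      have h2 := h170_hseg_H _ _ _ _ hx'
      exact hd h1.1 h2.1
    · intro e he e' he'
      rw [List.mem_map] at he
      obtain ⟨e0, he0, rfl⟩ := he
      rw [Set.disjoint_left]
      intro x hx hx'
      have h1 := h170_hseg_H _ _ _ _ hx
      have h2 := hheight e' he' x hx' h1.2
      apply hb e0 he0
      rw [← h2]
      exact h1.1

end Knot548
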