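import Pool.Agent.Helper548.Knot.Defs
import Pool.Agent.Helper548.Knot.P_ce_cons
import Pool.Agent.Helper548.Knot.P_pe_append
import Pool.Agent.Helper548.Knot.P_delta
import Pool.Agent.Helper548.Knot.P_delta_inv
import Pool.Agent.Helper548.Knot.P_simple_top



namespace Knot548
open Set


theorem cn_seg_cases {E : Type*} [AddCommGroup E] [Module ℝ E] {a b x : E}
    (h : x ∈ segment ℝ a b) : x ∈ hseg a b ∨ x = b := by
  obtain ⟨s, t, hs, ht, hst, rfl⟩ := h
  rcases eq_or_lt_of_le hs with h0 | h0
  · right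
    have ht1 : t = 1 := by linarith
    rw [← h0, ht1]; simp
  · left
    exact ⟨t, ht, by linarith, by rw [show 1 - t = s by linarith]⟩

theorem cn_left_mem {E : Type*} [AddCommGroup E] [Module ℝ E] (a b : E) : a ∈ hseg a b :=
  ⟨0, le_refl _, one_pos, by simp⟩

theorem cn_simple_rotate {E : Type*} [AddCommGroup E] [Module ℝ E] (L : List E) :
    Simple (L.rotate 1) ↔ Simple L := by
  have h1 : cedges (L.rotate 1) = (cedges L).rotate 1 := by
    unfold cedges
    unfold List.zip
    exact (List.zipWith_rotate_distrib _ L (L.rotate 1) 1 (by simp)).symm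
  have hp : (cedges (L.rotate 1)).Perm (cedges L) := by
    rw [h1]; exact List.rotate_perm _ _
  unfold Simple
  refine and_congr ?_ ?_
  · constructor
    · intro h e he; exact h e (hp.mem_iff.mpr he)
    · intro h e he; exact h e (hp.mem_iff.mp he)
  · exact hp.pairwise_iff (fun h => h.symm)

theorem cn_mem_append {α : Type*} (A B : List α) (e : α × α) (h : e ∈ pedges (A ++ B)) :
    e ∈ pedges A ∨ e ∈ pedges B ∨ (A.getLast? = some e.1 ∧ B.head? = some e.2) := by
  induction A with
  | nil => right; left; exact h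
  | cons x A ih =>
    cases A with
    | nil =>
      cases B with
      | nil => left; simpa [pedges] using h
      | cons y B =>
        simp only [List.cons_append, List.nil_append, pedges, List.mem_cons] at h
        rcases h with rfl | h
        · right; right; simp
        · right; left; exact h
    | cons y A =>
      simp only [List.cons_append, pedges, List.mem_cons] at h
      rcases h with rfl | h
      · left; simp [pedges]
      · rcases ih h with h | h | h
        · left; simp only [pedges, List.mem_cons]; right; exact h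
        · right; left; exact h
        · right; right
          refine ⟨?_, h.2⟩
          rw [← h.1]
          simp

theorem cn_mem {α : Type*} (L : List α) (e : α × α) (h : e ∈ pedges L) : e.1 ∈ L ∧ e.2 ∈ L := by
  induction L with
  | nil => simp [pedges] at h
  | cons x L ih =>
    cases L with
    | nil => simp [pedges] at h
    | cons y L =>
      simp only [pedges, List.mem_cons] at h
      rcases h with rfl | h
      · simp
      · have := ih h
        exact ⟨List.mem_cons_of_mem _ this.1, List.mem_cons_of_mem _ this.2⟩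

theorem cn_vertex {α : Type*} (L : List α) (v : α) (h : v ∈ L) :
    (∃ e ∈ pedges L, e.1 = v) ∨ L.getLast? = some v := by
  induction L with
  | nil => simp at h
  | cons x L ih =>
    cases L with
    | nil =>
      right
      simp only [List.mem_singleton] at h
      simp [h]
    | cons y L =>
      rcases List.mem_cons.mp h with rfl | h
      · left; exact ⟨(v, y), by simp [pedges], rfl⟩
      · rcases ih h with ⟨e, he, hv⟩ | h
        · left; exact ⟨e, by simp only [pedges, List.mem_cons]; right; exact he, hv⟩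
        · right; rw [← h]; simp

theorem cn_map {α β : Type*} (f : α → β) (L : List α) :
    pedges (L.map f) = (pedges L).map (fun p => (f p.1, f p.2)) := by
  induction L with
  | nil => simp [pedges]
  | cons x L ih =>
    cases L with
    | nil => simp [pedges]
    | cons y L =>
      simp only [List.map_cons, pedges]
      simp only [List.map_cons] at ih
      rw [ih]

theorem cn_tail {x y : ℂ} {l : List ℂ} (h : PathSimple (x :: y :: l)) : PathSimple (y :: l) := by
  obtain ⟨h1, h2, h3⟩ := h
  simp only [pedges] at h1 h2 h3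
  refine ⟨fun e he => h1 e (List.mem_cons_of_mem _ he), (List.pairwise_cons.mp h2).2, ?_⟩
  intro z hz e he
  exact h3 z (by simpa using hz) e (List.mem_cons_of_mem _ he)

theorem cn_vert_nmem {x y : ℂ} {l : List ℂ} (h : PathSimple (x :: y :: l)) (v : ℂ)
    (hv : v ∈ y :: l) : v ∉ hseg x y := by
  obtain ⟨h1, h2, h3⟩ := h
  simp only [pedges] at h1 h2 h3
  rcases cn_vertex _ v hv with ⟨e, he, rfl⟩ | hl
  · intro hh
    have := (List.pairwise_cons.mp h2).1 e he
    exact Set.disjoint_left.mp this hh (cn_left_mem _ _)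
  · exact h3 v (by rw [Option.mem_def, ← hl]; simp) _ List.mem_cons_self

theorem cn_meet {x y : ℂ} {l : List ℂ} (h : PathSimple (x :: y :: l)) (e : ℂ × ℂ)
    (he : e ∈ pedges (y :: l)) (z : ℂ) (hz : z ∈ segment ℝ x y) (hz2 : z ∈ segment ℝ e.1 e.2) :
    z = y := by
  rcases cn_seg_cases hz with h1 | h1
  · exfalso
    rcases cn_seg_cases hz2 with h2 | h2
    · obtain ⟨_, hp, _⟩ := h
      simp only [pedges] at hp
      exact Set.disjoint_left.mp ((List.pairwise_cons.mp hp).1 e he) h1 h2
    · rw [h2] at h1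
      exact cn_vert_nmem h e.2 (cn_mem _ e he).2 h1
  · exact h1

theorem cn_start {x y : ℂ} {l : List ℂ} (h : PathSimple (x :: y :: l)) (e : ℂ × ℂ)
    (he : e ∈ pedges (y :: l)) : x ∉ segment ℝ e.1 e.2 := by
  intro hx
  have h1 := cn_meet h e he x (left_mem_segment ℝ x y) hx
  obtain ⟨hn, _, _⟩ := h
  simp only [pedges] at hn
  exact hn (x, y) List.mem_cons_self h1

theorem cn_seg_lt {p q x : ℂ × ℝ} {H : ℝ} (hp : p.2 < H) (hq : q.2 ≤ H)
    (hx : x ∈ segment ℝ p q) (hH : H ≤ x.2) : x = q := by
  obtain ⟨s, t, hs, ht, hst, rfl⟩ := hx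
  simp only [Prod.snd_add, Prod.smul_snd, smul_eq_mul] at hH
  have hs0 : s = 0 := by
    by_contra hne
    have hpos : 0 < s := lt_of_le_of_ne hs (Ne.symm hne)
    have e1 : s * p.2 < s * H := mul_lt_mul_of_pos_left hp hpos
    have e2 : t * q.2 ≤ t * H := mul_le_mul_of_nonneg_left hq ht
    have e3 : s * H + t * H = H := by rw [← add_mul, hst, one_mul]
    linarith
  have ht1 : t = 1 := by linarith
  rw [hs0, ht1]; simp

/-- points of height at least `H` on the edges of the polygon -/
theorem cn_edges (a b : ℂ) (N : List ℂ) (R : List (ℂ × ℝ)) (H : ℝ) (hR0 : R ≠ [])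
    (hR : ∀ v ∈ R, v.2 < H) (hl : N.getLast? = some b) (e : (ℂ × ℝ) × (ℂ × ℝ))
    (he : e ∈ pedges (N.map (fun z => ((z, H) : ℂ × ℝ)) ++ (R ++ [(a, H)]))) (x : ℂ × ℝ)
    (hx : x ∈ segment ℝ e.1 e.2) (hH : H ≤ x.2) :
    (∃ p ∈ pedges N, x.1 ∈ segment ℝ p.1 p.2 ∧ x.2 = H) ∨ x = (a, H) ∨ x = (b, H) := by
  rcases cn_mem_append _ _ e he with h | h | h
  · left
    rw [cn_map] at h
    obtain ⟨p, hp, rfl⟩ := List.mem_map.mp h
    refine ⟨p, hp, ?_⟩
    obtain ⟨s, t, hs, ht, hst, rfl⟩ := hx
    refine ⟨⟨s, t, hs, ht, hst, rfl⟩, ?_⟩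
    simp only [Prod.snd_add, Prod.smul_snd, smul_eq_mul]
    rw [← add_mul, hst, one_mul]
  · right; left
    rcases cn_mem_append _ _ e h with h' | h' | h'
    · have hm := cn_mem _ e h'
      have := cn_seg_lt (hR _ hm.1) (hR _ hm.2).le hx hH
      rw [this] at hH
      exact absurd hH (not_le.mpr (hR _ hm.2))
    · simp [pedges] at h'
    · have h1 : e.1 ∈ R := List.mem_of_getLast? h'.1
      have h2 : e.2 = (a, H) := by simpa using h'.2.symm
      have := cn_seg_lt (hR _ h1) (by rw [h2]) hx hH
      rw [this, h2]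
  · right; right
    have h1 : e.1 = (b, H) := by
      have := h.1
      rw [List.getLast?_map, hl] at this
      simpa using this.symm
    have h2 : e.2 ∈ R := by
      cases R with
      | nil => exact absurd rfl hR0
      | cons r R =>
        have := h.2
        simp only [List.cons_append, List.head?_cons, Option.some.injEq] at this
        rw [← this]; exact List.mem_cons_self
    rw [segment_symm] at hx
    have := cn_seg_lt (hR _ h2) (by rw [h1]) hx hH
    rw [this, h1]

theorem cn_hull {E : Type*} [AddCommGroup E] [Module ℝ E] {p q r x : E}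
    (hx : x ∈ convexHull ℝ {p, q, r}) :
    ∃ α β γ : ℝ, 0 ≤ α ∧ 0 ≤ β ∧ 0 ≤ γ ∧ α + β + γ = 1 ∧ x = α • p + β • q + γ • r := by
  rw [convexHull_insert (by simp), convexHull_pair, mem_convexJoin] at hx
  obtain ⟨p', hp', y, ⟨s, t, hs, ht, hst, rfl⟩, ⟨s', t', hs', ht', hst', rfl⟩⟩ := hx
  rw [Set.mem_singleton_iff] at hp'
  subst hp'
  refine ⟨s', t' * s, t' * t, hs', mul_nonneg ht' hs, mul_nonneg ht' ht, ?_, ?_⟩
  · have : t' * s + t' * t = t' := by rw [← mul_add, hst, mul_one]
    linarith
  · rw [smul_add, smul_smul, smul_smul, add_assoc]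

/-- points of the triangle -/
theorem cn_tri (p q Yo : ℂ) (H T : ℝ) (hT : H < T) (α β γ : ℝ) (hα : 0 ≤ α) (hβ : 0 ≤ β)
    (hγ : 0 ≤ γ) (hs : α + β + γ = 1) (x : ℂ × ℝ)
    (hx : x = α • ((p, H) : ℂ × ℝ) + β • ((Yo, T) : ℂ × ℝ) + γ • ((q, H) : ℂ × ℝ)) :
    H ≤ x.2 ∧ (x.2 = H → x.1 ∈ segment ℝ p q) := by
  have h2 : x.2 = H + β * (T - H) := by
    rw [hx]
    simp only [Prod.snd_add, Prod.smul_snd, smul_eq_mul]
    have : α = 1 - β - γ := by linarith
    rw [this]; ring
  refine ⟨?_, ?_⟩
  · rw [h2]
    have := mul_nonneg hβ (sub_pos.mpr hT).le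
    linarith
  · intro h
    rw [h2] at h
    have hb0 : β * (T - H) = 0 := by linarith
    have hb : β = 0 := (mul_eq_zero.mp hb0).resolve_right (sub_pos.mpr hT).ne'
    refine ⟨α, γ, hα, hγ, by linarith, ?_⟩
    rw [hx, hb]
    simp

theorem cn_ai1 (p q Yo : ℂ) (H T : ℝ) (hT : H < T) (hpq : p ≠ q) :
    AffineIndependent ℝ ![((p, H) : ℂ × ℝ), (Yo, T), (q, H)] := by
  rw [affineIndependent_iff_of_fintype]
  intro w hw hv
  rw [Finset.weightedVSub_eq_linear_combination _ hw] at hv
  rw [Fin.sum_univ_three] at hw hv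
  simp only [Matrix.cons_val_zero, Matrix.cons_val_one, Matrix.cons_val] at hv
  have h1 := congrArg Prod.fst hv
  have h2 := congrArg Prod.snd hv
  simp only [Prod.fst_add, Prod.smul_fst, Prod.snd_add, Prod.smul_snd, Prod.fst_zero,
    Prod.snd_zero, smul_eq_mul] at h1 h2
  have hw1 : w 1 = 0 := by
    have h3 : w 1 * (T - H) = 0 := by
      have : w 0 = - w 1 - w 2 := by linarith
      rw [this] at h2; linarith
    exact (mul_eq_zero.mp h3).resolve_right (sub_pos.mpr hT).ne'
  have hw0 : w 0 = 0 := by
    have h4 : w 2 = - w 0 := by linarith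
    rw [hw1, h4] at h1
    have h5 : w 0 • (p - q) = 0 := by
      rw [smul_sub]
      simp only [zero_smul, add_zero, neg_smul] at h1
      rw [sub_eq_add_neg]; exact h1
    exact (smul_eq_zero.mp h5).resolve_right (sub_ne_zero.mpr hpq)
  have hw2 : w 2 = 0 := by linarith
  intro i
  fin_cases i
  · exact hw0
  · exact hw1
  · exact hw2

theorem cn_ai2 (p q Yo : ℂ) (H T : ℝ) (hT : H < T) (hpq : p ≠ q) :
    AffineIndependent ℝ ![((Yo, T) : ℂ × ℝ), (p, H), (q, H)] := by
  have h := cn_ai1 p q Yo H T hT hpq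
  rw [affineIndependent_iff_of_fintype] at h ⊢
  intro w hw hv
  have h' := h ![w 1, w 0, w 2] (by
    rw [Fin.sum_univ_three] at hw ⊢
    simp only [Matrix.cons_val_zero, Matrix.cons_val_one, Matrix.cons_val]
    linarith) (by
    rw [Finset.weightedVSub_eq_linear_combination _ hw, Fin.sum_univ_three] at hv
    rw [Finset.weightedVSub_eq_linear_combination _ (by
      rw [Fin.sum_univ_three] at hw ⊢
      simp only [Matrix.cons_val_zero, Matrix.cons_val_one, Matrix.cons_val]
      linarith), Fin.sum_univ_three]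
    simp only [Matrix.cons_val_zero, Matrix.cons_val_one, Matrix.cons_val] at hv ⊢
    rw [← hv]
    abel)
  intro i
  fin_cases i
  · exact h' 1
  · exact h' 0
  · exact h' 2

theorem cn_last (M : List ℂ) (b n : ℂ) (rest : List ℂ) (h : M ++ [b] = n :: rest) :
    (n :: rest).getLast? = some b ∧ b ∈ n :: rest := by
  rw [← h]
  simp

theorem cn_aux (a b : ℂ) (R : List (ℂ × ℝ)) (H T : ℝ) (Yo : ℂ) (hT : H < T) (hR0 : R ≠ [])
    (hR : ∀ v ∈ R, v.2 < H) : ∀ M' : List ℂ, PathSimple (M' ++ [b]) →
      (∀ e ∈ pedges (M' ++ [b]), a ∉ segment ℝ e.1 e.2) →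
      Simple ((a, H) :: (Yo, T) :: ((M' ++ [b]).map (fun z => ((z, H) : ℂ × ℝ)) ++ R)) →
      Simple ((a, H) :: (Yo, T) :: (b, H) :: R) ∧
        Eqv ((a, H) :: (Yo, T) :: ((M' ++ [b]).map (fun z => ((z, H) : ℂ × ℝ)) ++ R))
          ((a, H) :: (Yo, T) :: (b, H) :: R) := by
  intro M'
  induction M' with
  | nil =>
    intro _ _ hs
    exact ⟨hs, Relation.EqvGen.refl _⟩
  | cons n M' ih =>
    intro hP hA hs
    obtain ⟨n', rest, hr⟩ : ∃ n' rest, M' ++ [b] = n' :: rest := by
      cases M' with
      | nil => exact ⟨b, [], rfl⟩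
      | cons m M' => exact ⟨m, M' ++ [b], rfl⟩
    obtain ⟨hlast, hbm⟩ := cn_last M' b n' rest hr
    simp only [List.cons_append, hr] at hP hA hs ih ⊢
    have hne : n ≠ n' := by
      have := hP.1 (n, n') (by simp [pedges])
      exact this
    -- rotate
    have hrot : ((a, H) :: (Yo, T) :: ((n :: n' :: rest).map (fun z => ((z, H) : ℂ × ℝ)) ++ R)).rotate 1
        = (Yo, T) :: (n, H) :: (n', H) ::
          (rest.map (fun z => ((z, H) : ℂ × ℝ)) ++ (R ++ [(a, H)])) := by
      simp
    have hrot2 : ((a, H) :: (Yo, T) :: ((n' :: rest).map (fun z => ((z, H) : ℂ × ℝ)) ++ R)).rotate 1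
        = (Yo, T) :: (n', H) ::
          (rest.map (fun z => ((z, H) : ℂ × ℝ)) ++ (R ++ [(a, H)])) := by
      simp
    have hs1 : Simple ((Yo, T) :: (n, H) :: (n', H) ::
          (rest.map (fun z => ((z, H) : ℂ × ℝ)) ++ (R ++ [(a, H)]))) := by
      rw [← hrot]
      exact (cn_simple_rotate _).mpr hs
    have hd := delta_inv ((Yo, T) : ℂ × ℝ) (n', H) (n, H)
      (rest.map (fun z => ((z, H) : ℂ × ℝ)) ++ (R ++ [(a, H)])) hs1
      (cn_ai2 n n' Yo H T hT hne) (by
        intro e he x hx hxh
        obtain ⟨α, β, γ, hα, hβ, hγ, hsum, hxe⟩ := cn_hull hxh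
        obtain ⟨hH, hseg⟩ := cn_tri n n' Yo H T hT β α γ hβ hα hγ (by linarith) x (by
          rw [hxe]; abel)
        have heq : (n', H) :: ((rest.map (fun z => ((z, H) : ℂ × ℝ)) ++ (R ++ [(a, H)])) ++ [(Yo, T)])
            = ((n' :: rest).map (fun z => ((z, H) : ℂ × ℝ)) ++ (R ++ [(a, H)])) ++ [(Yo, T)] := by
          simp
        rw [heq] at he
        have hanseg : a ∉ segment ℝ n n' := hA (n, n') (by simp [pedges])
        rcases cn_mem_append _ _ e he with h | h | h
        · rcases cn_edges a b (n' :: rest) R H hR0 hR hlast e h x hx hH with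
            ⟨p, hp, hx1, hx2⟩ | hxa | hxb
          · right
            have := cn_meet hP p hp x.1 (hseg hx2) hx1
            exact Prod.ext this hx2
          · exfalso
            have := hseg (by rw [hxa])
            rw [hxa] at this
            exact hanseg this
          · right
            have := hseg (by rw [hxb])
            rw [hxb] at this
            rcases cn_seg_cases this with h' | h'
            · exact absurd h' (cn_vert_nmem hP b hbm)
            · rw [hxb]
              exact Prod.ext h' rfl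
        · simp [pedges] at h
        · have h1 : e.1 = (a, H) := by
            have := h.1
            rw [← List.append_assoc, List.getLast?_append] at this
            simpa using this.symm
          have h2 : e.2 = (Yo, T) := by simpa using h.2.symm
          rw [h1, h2] at hx
          obtain ⟨s, t, hs', ht', hst', hxs⟩ := hx
          by_cases hs0 : s = 0
          · left
            have ht1 : t = 1 := by linarith
            rw [← hxs, hs0, ht1]; simp
          · exfalso
            have hspos : 0 < s := lt_of_le_of_ne hs' (Ne.symm hs0)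
            have e2 : t = α := by
              have h3 := congrArg Prod.snd (hxs.trans hxe)
              simp only [Prod.snd_add, Prod.smul_snd, smul_eq_mul] at h3
              have h4 : (t - α) * (T - H) = 0 := by
                have e3 : s = 1 - t := by linarith
                have e4 : β = 1 - α - γ := by linarith
                rw [e3, e4] at h3
                linarith
              have := (mul_eq_zero.mp h4).resolve_right (sub_pos.mpr hT).ne'
              linarith
            have e5 : s • a = β • n + γ • n' := by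
              have h3 := congrArg Prod.fst (hxs.trans hxe)
              simp only [Prod.fst_add, Prod.smul_fst] at h3
              rw [e2] at h3
              have : s • a + α • Yo = (β • n + γ • n') + α • Yo := by
                rw [h3]; abel
              exact add_right_cancel this
            apply hanseg
            refine ⟨β / s, γ / s, by positivity, by positivity, ?_, ?_⟩
            · rw [← add_div]
              have : β + γ = s := by linarith
              rw [this]
              exact div_self hs0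
            · have : a = s⁻¹ • (s • a) := by rw [smul_smul, inv_mul_cancel₀ hs0, one_smul]
              rw [this, e5, smul_add, smul_smul, smul_smul, div_eq_inv_mul, div_eq_inv_mul])
    obtain ⟨hd1, hd2⟩ := hd
    have hs2 : Simple ((a, H) :: (Yo, T) ::
        ((n' :: rest).map (fun z => ((z, H) : ℂ × ℝ)) ++ R)) := by
      rw [← cn_simple_rotate, hrot2]
      exact hd1
    obtain ⟨hf1, hf2⟩ := ih (cn_tail hP)
      (fun e he => hA e (by simp only [pedges, List.mem_cons]; right; exact he)) hs2
    refine ⟨hf1, ?_⟩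
    have g1 : Eqv ((a, H) :: (Yo, T) :: ((n :: n' :: rest).map (fun z => ((z, H) : ℂ × ℝ)) ++ R))
        ((Yo, T) :: (n, H) :: (n', H) ::
          (rest.map (fun z => ((z, H) : ℂ × ℝ)) ++ (R ++ [(a, H)]))) := by
      rw [← hrot]
      exact Relation.EqvGen.rel _ _ (Move.rotate _)
    have g2 : Eqv ((a, H) :: (Yo, T) :: ((n' :: rest).map (fun z => ((z, H) : ℂ × ℝ)) ++ R))
        ((Yo, T) :: (n', H) ::
          (rest.map (fun z => ((z, H) : ℂ × ℝ)) ++ (R ++ [(a, H)]))) := by
      rw [← hrot2]
      exact Relation.EqvGen.rel _ _ (Move.rotate _)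
    exact Relation.EqvGen.trans _ _ _ g1 (Relation.EqvGen.trans _ _ _ hd2
      (Relation.EqvGen.trans _ _ _ (Relation.EqvGen.symm _ _ g2) hf2))

theorem cone (a b : ℂ) (M : List ℂ) (R : List (ℂ × ℝ)) (H T : ℝ) (Yo : ℂ) (hT : H < T)
    (hN : PathSimple (a :: (M ++ [b]))) (hR0 : R ≠ []) (hR : ∀ v ∈ R, v.2 < H)
    (hs : Simple ((a :: (M ++ [b])).map (fun z => ((z, H) : ℂ × ℝ)) ++ R)) :
    Simple ((a, H) :: (Yo, T) :: (b, H) :: R) ∧
      Eqv ((a :: (M ++ [b])).map (fun z => ((z, H) : ℂ × ℝ)) ++ R) ((a, H) :: (Yo, T) :: (b, H) :: R) := by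
  obtain ⟨n, rest, hr⟩ : ∃ n rest, M ++ [b] = n :: rest := by
    cases M with
    | nil => exact ⟨b, [], rfl⟩
    | cons m M => exact ⟨m, M ++ [b], rfl⟩
  obtain ⟨hlast, hbm⟩ := cn_last M b n rest hr
  have hN' := hN
  have hs' := hs
  rw [hr] at hN' hs'
  have hne : a ≠ n := hN'.1 (a, n) (by simp [pedges])
  have hs1 : Simple ((a, H) :: (n, H) :: (rest.map (fun z => ((z, H) : ℂ × ℝ)) ++ R)) := by
    simpa using hs'
  have hd := delta ((a, H) : ℂ × ℝ) (n, H) (Yo, T)
    (rest.map (fun z => ((z, H) : ℂ × ℝ)) ++ R) hs1 (cn_ai1 a n Yo H T hT hne) (by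
      intro e he x hx hxh
      obtain ⟨α, β, γ, hα, hβ, hγ, hsum, hxe⟩ := cn_hull hxh
      obtain ⟨hH, hseg⟩ := cn_tri a n Yo H T hT α β γ hα hβ hγ hsum x hxe
      have heq : (n, H) :: ((rest.map (fun z => ((z, H) : ℂ × ℝ)) ++ R) ++ [(a, H)])
          = (n :: rest).map (fun z => ((z, H) : ℂ × ℝ)) ++ (R ++ [(a, H)]) := by
        simp
      rw [heq] at he
      rcases cn_edges a b (n :: rest) R H hR0 hR hlast e he x hx hH with
        ⟨p, hp, hx1, hx2⟩ | hxa | hxb
      · right
        have := cn_meet hN' p hp x.1 (hseg hx2) hx1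
        exact Prod.ext this hx2
      · left; exact hxa
      · right
        have := hseg (by rw [hxb])
        rw [hxb] at this
        rcases cn_seg_cases this with h' | h'
        · exact absurd h' (cn_vert_nmem hN' b hbm)
        · rw [hxb]
          exact Prod.ext h' rfl)
  obtain ⟨hd1, hd2⟩ := hd
  have hs2 : Simple ((a, H) :: (Yo, T) :: ((M ++ [b]).map (fun z => ((z, H) : ℂ × ℝ)) ++ R)) := by
    rw [hr]; simpa using hd1
  have hPt : PathSimple (M ++ [b]) := by
    rw [hr]; exact cn_tail hN'
  have hA : ∀ e ∈ pedges (M ++ [b]), a ∉ segment ℝ e.1 e.2 := by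
    rw [hr]
    intro e he
    exact cn_start hN' e he
  obtain ⟨hf1, hf2⟩ := cn_aux a b R H T Yo hT hR0 hR M hPt hA hs2
  refine ⟨hf1, ?_⟩
  have e1 : (a :: (M ++ [b])).map (fun z => ((z, H) : ℂ × ℝ)) ++ R =
      (a, H) :: (n, H) :: (rest.map (fun z => ((z, H) : ℂ × ℝ)) ++ R) := by
    rw [hr]; simp
  have e2 : (a, H) :: (Yo, T) :: ((M ++ [b]).map (fun z => ((z, H) : ℂ × ℝ)) ++ R) =
      (a, H) :: (Yo, T) :: (n, H) :: (rest.map (fun z => ((z, H) : ℂ × ℝ)) ++ R) := by
    rw [hr]; simp
  rw [e1]
  rw [e2] at hf2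
  exact Relation.EqvGen.trans _ _ _ hd2 hf2

end Knot548
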