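import Pool.Agent.Helper548.Knot.Defs
import Pool.Agent.Helper548.Knot.P_ce_cons
import Pool.Agent.Helper548.Knot.P_pe_append



namespace Knot548
open Set


theorem poly_edges {O : ℂ} (h : ℝ) (L : List (ℂ × ℝ)) (W : List (ℝ × List (ℂ × ℝ))) :
    ∃ h' : ℝ, cedges (poly O ((h, L) :: W)) = pedges (((O, h) :: L) ++ [(O, h')]) ++
      pedges (poly O W ++ [(O, h)]) := by
  have e1 : poly O ((h, L) :: W) = (O, h) :: (L ++ poly O W) := by
    simp [poly]
  rw [e1, ce_cons]
  cases W with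
  | nil =>
    refine ⟨h, ?_⟩
    have e2 : poly O ([] : List (ℝ × List (ℂ × ℝ))) = [] := rfl
    rw [e2]
    simp [pedges]
  | cons w W' =>
    obtain ⟨h', L'⟩ := w
    refine ⟨h', ?_⟩
    have e2 : poly O ((h', L') :: W') = (O, h') :: (L' ++ poly O W') := by
      simp [poly]
    rw [e2]
    have e3 := pe_append ((O, h) :: L) (O, h') (L' ++ poly O W' ++ [(O, h)])
    rw [show (O, h) :: (L ++ (O, h') :: (L' ++ poly O W') ++ [(O, h)]) =
      ((O, h) :: L) ++ (O, h') :: (L' ++ poly O W' ++ [(O, h)]) by simp, e3]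
    simp

end Knot548
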