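import Pool.Agent.Helper548.Knot.Defs
import Pool.Agent.Helper548.Knot.P_ce_cons
import Pool.Agent.Helper548.Knot.P_pe_append
import Pool.Agent.Helper548.Knot.P_poly_edges



namespace Knot548
open Set


theorem poly_edges_open21391 {O : ℂ} (W : List (ℝ × List (ℂ × ℝ))) (h : ℝ) :
    pedges (poly O W ++ [((O, h) : ℂ × ℝ)]) = (W.zip ((W.map Prod.fst).tail ++ [h])).flatMap
      (fun p => pedges ((((O, p.1.1) : ℂ × ℝ) :: p.1.2) ++ [(O, p.2)])) := by
  induction W with
  | nil => simp [poly, pedges]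
  | cons p W' ih =>
    cases W' with
    | nil => simp [poly]
    | cons q W'' =>
      have e1 : poly O (p :: q :: W'') ++ [((O, h) : ℂ × ℝ)] =
          (((O, p.1) : ℂ × ℝ) :: p.2) ++ ((O, q.1) : ℂ × ℝ) :: (q.2 ++ poly O W'' ++ [((O, h) : ℂ × ℝ)]) := by
        simp [poly]
      have e2 : ((O, q.1) : ℂ × ℝ) :: (q.2 ++ poly O W'' ++ [((O, h) : ℂ × ℝ)]) =
          poly O (q :: W'') ++ [((O, h) : ℂ × ℝ)] := by
        simp [poly]
      rw [e1, pe_append, e2, ih]
      simp

theorem poly_edges_all {O : ℂ} (W : List (ℝ × List (ℂ × ℝ))) :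
    cedges (poly O W) = (W.zip ((W.map Prod.fst).rotate 1)).flatMap
      (fun p => pedges ((((O, p.1.1) : ℂ × ℝ) :: p.1.2) ++ [(O, p.2)])) := by
  cases W with
  | nil => simp [poly, cedges]
  | cons p W' =>
    have e1 : poly O (p :: W') = ((O, p.1) : ℂ × ℝ) :: (p.2 ++ poly O W') := by
      simp [poly]
    have e2 : cedges (poly O (p :: W')) = pedges (poly O (p :: W') ++ [((O, p.1) : ℂ × ℝ)]) := by
      rw [e1, ce_cons]
      rfl
    rw [e2, poly_edges_open21391]
    simp

end Knot548
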