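import Pool.Agent.Helper548.Knot.Defs
import Pool.Agent.Helper548.Knot.P_ce_cons
import Pool.Agent.Helper548.Knot.P_pe_append
import Pool.Agent.Helper548.Knot.P_poly_edges
import Pool.Agent.Helper548.Knot.P_poly_edges_all



namespace Knot548
open Set


theorem ls_pedges_map {α β : Type*} (f : α → β) : ∀ L : List α,
    pedges (L.map f) = (pedges L).map (fun e => (f e.1, f e.2))
  | [] => rfl
  | [_] => rfl
  | a :: b :: l => by
    have ih := ls_pedges_map f (b :: l)
    simp only [List.map_cons] at ih ⊢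
    simp only [pedges, List.map_cons]
    rw [ih]

theorem ls_proj (O : ℂ) (h h' : ℝ) (L : List (ℂ × ℝ)) :
    (pedges ((((O, h) : ℂ × ℝ) :: L) ++ [((O, h') : ℂ × ℝ)])).map (fun e => (e.1.1, e.2.1)) =
      cedges (O :: L.map Prod.fst) := by
  rw [ce_cons]
  have := ls_pedges_map (Prod.fst : ℂ × ℝ → ℂ) ((((O, h) : ℂ × ℝ) :: L) ++ [((O, h') : ℂ × ℝ)])
  rw [← this]
  simp

theorem ls_hseg_fst {a b z : ℂ × ℝ} (h : z ∈ hseg a b) : z.1 ∈ hseg a.1 b.1 := by
  obtain ⟨s, h0, h1, h2⟩ := h
  exact ⟨s, h0, h1, congrArg Prod.fst h2⟩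

theorem ls_hseg_seg {a b z : ℂ} (h : z ∈ hseg a b) : z ∈ segment ℝ a b := by
  obtain ⟨s, h0, h1, h2⟩ := h
  exact ⟨1 - s, s, by linarith, h0, by ring, h2.symm⟩

theorem ls_eq_of {O v : ℂ} {s : ℝ} (hv : v ≠ O) (h : O = (1 - s) • O + s • v) : s = 0 := by
  have h1 : s • (v - O) = 0 := by
    have h2 : s • (v - O) = ((1 - s) • O + s • v) - O := by module
    rw [h2, ← h, sub_self]
  rcases smul_eq_zero.mp h1 with h3 | h3
  · exact h3
  · exact absurd (sub_eq_zero.mp h3) hv

/-- points over the centre -/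
theorem ls_over {O : ℂ} {h h' : ℝ} {L : List (ℂ × ℝ)} (hne : L ≠ []) (hoff : ∀ v ∈ L, v.1 ≠ O)
    (hsimp : 2 ≤ L.length → Simple (O :: L.map Prod.fst)) :
    ∀ e ∈ pedges ((((O, h) : ℂ × ℝ) :: L) ++ [((O, h') : ℂ × ℝ)]), ∀ t : ℝ,
      ((O, t) : ℂ × ℝ) ∈ hseg e.1 e.2 → t = h := by
  intro e he t ht
  obtain ⟨v, L', rfl⟩ := List.exists_cons_of_ne_nil hne
  have e1 : pedges ((((O, h) : ℂ × ℝ) :: v :: L') ++ [((O, h') : ℂ × ℝ)]) =
      ((O, h), v) :: pedges (v :: L' ++ [((O, h') : ℂ × ℝ)]) := rfl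
  have hproj := ls_proj O h h' (v :: L')
  rw [e1] at he hproj
  have hv : v.1 ≠ O := hoff v (List.mem_cons_self)
  rcases List.mem_cons.mp he with rfl | he'
  · obtain ⟨s, h0, h1, h2⟩ := ht
    have h3 := congrArg Prod.fst h2
    have h4 := congrArg Prod.snd h2
    simp only [Prod.fst_add, Prod.smul_fst] at h3
    have hs := ls_eq_of hv h3
    rw [hs] at h4
    simpa using h4
  · exfalso
    have hO := ls_hseg_fst ht
    cases L' with
    | nil =>
      have e2 : pedges ([v] ++ [((O, h') : ℂ × ℝ)]) = [(v, (O, h'))] := rfl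
      rw [e2, List.mem_singleton] at he'
      subst he'
      obtain ⟨s, h0, h1, h2⟩ := hO
      simp only at h2
      have h3 : O = (1 - (1 - s)) • O + (1 - s) • v.1 := by
        rw [sub_sub_cancel, add_comm]; exact h2
      have := ls_eq_of hv h3
      linarith
    | cons w L'' =>
      have hs := (hsimp (by simp)).2
      rw [← hproj, List.map_cons, List.pairwise_cons] at hs
      have h1 := hs.1 (e.1.1, e.2.1) (List.mem_map.mpr ⟨e, he', rfl⟩)
      rw [Set.disjoint_left] at h1
      exact h1 (a := O) ⟨0, le_rfl, one_pos, by simp⟩ hO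

/-- one loop -/
theorem ls_loop {O : ℂ} {h h' : ℝ} {L : List (ℂ × ℝ)} (hne : L ≠ []) (hoff : ∀ v ∈ L, v.1 ≠ O)
    (hsimp : 2 ≤ L.length → Simple (O :: L.map Prod.fst)) (hh : L.length = 1 → h ≠ h') :
    (∀ e ∈ pedges ((((O, h) : ℂ × ℝ) :: L) ++ [((O, h') : ℂ × ℝ)]), e.1 ≠ e.2) ∧
    (pedges ((((O, h) : ℂ × ℝ) :: L) ++ [((O, h') : ℂ × ℝ)])).Pairwise
      (fun e e' => Disjoint (hseg e.1 e.2) (hseg e'.1 e'.2)) := by
  rcases Nat.lt_or_ge L.length 2 with hlt | hge
  · have hl : L.length = 1 := by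
      have := List.length_pos_iff.mpr hne
      omega
    obtain ⟨v, rfl⟩ := List.length_eq_one_iff.mp hl
    have hv : v.1 ≠ O := hoff v (List.mem_cons_self)
    have e1 : pedges ((((O, h) : ℂ × ℝ) :: [v]) ++ [((O, h') : ℂ × ℝ)]) =
      [((O, h), v), (v, (O, h'))] := rfl
    rw [e1]
    constructor
    · intro e he
      simp only [List.mem_cons, List.not_mem_nil, or_false] at he
      rcases he with rfl | rfl
      · intro hc; exact hv (congrArg Prod.fst hc).symm
      · intro hc; exact hv (congrArg Prod.fst hc)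
    · rw [List.pairwise_cons]
      refine ⟨?_, List.pairwise_singleton _ _⟩
      intro e he
      rw [List.mem_singleton] at he
      subst he
      rw [Set.disjoint_left]
      rintro z ⟨s, h0, h1, h2⟩ ⟨s', h0', h1', h2'⟩
      simp only at h2 h2'
      rw [h2] at h2'
      have h3 := congrArg Prod.fst h2'
      have h4 := congrArg Prod.snd h2'
      simp only [Prod.fst_add, Prod.smul_fst] at h3
      simp only [Prod.snd_add, Prod.smul_snd, smul_eq_mul] at h4
      have h5 : (s + s' - 1) • (v.1 - O) = 0 := by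
        have : (s + s' - 1) • (v.1 - O) = ((1 - s) • O + s • v.1) - ((1 - s') • v.1 + s' • O) := by
          module
        rw [this, h3, sub_self]
      rcases smul_eq_zero.mp h5 with h6 | h6
      · have h7 : s' = 1 - s := by linarith
        rw [h7] at h4
        have h8 : (1 - s) * (h - h') = 0 := by linarith
        rcases mul_eq_zero.mp h8 with h9 | h9
        · linarith
        · exact hh rfl (sub_eq_zero.mp h9)
      · exact hv (sub_eq_zero.mp h6)
  · have hs := hsimp hge
    have hproj := ls_proj O h h' L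
    constructor
    · intro e he hc
      have h1 : (e.1.1, e.2.1) ∈ cedges (O :: L.map Prod.fst) := by
        rw [← hproj]; exact List.mem_map.mpr ⟨e, he, rfl⟩
      exact hs.1 _ h1 (congrArg Prod.fst hc)
    · have h1 := hs.2
      rw [← hproj, List.pairwise_map] at h1
      refine h1.imp ?_
      intro e e' hd
      rw [Set.disjoint_left] at hd ⊢
      intro z hz hz'
      exact hd (ls_hseg_fst hz) (ls_hseg_fst hz')

theorem loops_simple {O : ℂ} {W : List (ℝ × List (ℂ × ℝ))} (h : Loops O W) : Simple (poly O W) := by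
  have hlen : W.length = ((W.map Prod.fst).rotate 1).length := by simp
  have hzip : (W.zip ((W.map Prod.fst).rotate 1)).map Prod.fst = W :=
    List.map_fst_zip hlen.le
  have hmem : ∀ p ∈ W.zip ((W.map Prod.fst).rotate 1), p.1 ∈ W := by
    intro p hp
    rw [← hzip]
    exact List.mem_map.mpr ⟨p, hp, rfl⟩
  have hnext : ∀ p ∈ W.zip ((W.map Prod.fst).rotate 1), p.1.2.length = 1 → p.1.1 ≠ p.2 := by
    intro p hp hl
    have h2 : 2 ≤ W.length := by
      rcases h.len with h1 | ⟨q, hq, hq2⟩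
      · exact h1
      · by_contra hc
        have hpos : 0 < W.length := List.length_pos_of_mem (hmem p hp)
        have h1 : W.length = 1 := by omega
        obtain ⟨r, hr⟩ := List.length_eq_one_iff.mp h1
        have hpW := hmem p hp
        rw [hr, List.mem_singleton] at hq hpW
        rw [hpW, ← hq] at hl
        omega
    obtain ⟨i, hi, hpi⟩ := List.mem_iff_getElem.mp hp
    rw [List.length_zip] at hi
    rw [List.getElem_zip] at hpi
    intro hc
    rw [← hpi] at hc
    simp only [List.getElem_rotate, List.length_map] at hc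
    have hiW : i < W.length := by omega
    have h3 : (W.map Prod.fst)[i]'(by simpa using hiW) =
        (W.map Prod.fst)[(i + 1) % W.length]'(by
          rw [List.length_map]; exact Nat.mod_lt _ (by omega)) := by
      rw [List.getElem_map]; exact hc
    rw [h.nod.getElem_inj_iff] at h3
    rcases Nat.lt_or_ge (i + 1) W.length with h4 | h4
    · rw [Nat.mod_eq_of_lt h4] at h3; omega
    · have h5 : i + 1 = W.length := by omega
      rw [h5, Nat.mod_self] at h3
      omega
  have hloop : ∀ p ∈ W.zip ((W.map Prod.fst).rotate 1),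
      (∀ e ∈ pedges ((((O, p.1.1) : ℂ × ℝ) :: p.1.2) ++ [((O, p.2) : ℂ × ℝ)]), e.1 ≠ e.2) ∧
      (pedges ((((O, p.1.1) : ℂ × ℝ) :: p.1.2) ++ [((O, p.2) : ℂ × ℝ)])).Pairwise
        (fun e e' => Disjoint (hseg e.1 e.2) (hseg e'.1 e'.2)) := by
    intro p hp
    exact ls_loop (h.ne _ (hmem p hp)) (h.off _ (hmem p hp)) (h.simp _ (hmem p hp)) (hnext p hp)
  constructor
  · intro e he
    rw [poly_edges_all, List.mem_flatMap] at he
    obtain ⟨p, hp, hpe⟩ := he
    exact (hloop p hp).1 e hpe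
  · rw [poly_edges_all, List.pairwise_flatMap]
    refine ⟨fun p hp => (hloop p hp).2, ?_⟩
    have h1 : W.Pairwise (fun p q => p.1 ≠ q.1 ∧ img O p.2 ∩ img O q.2 ⊆ {O}) := by
      have h2 : W.Pairwise (fun p q => p.1 ≠ q.1) := by
        have := h.nod
        rw [List.Nodup, List.pairwise_map] at this
        exact this
      exact h2.and h.disj
    have h3 : (W.zip ((W.map Prod.fst).rotate 1)).Pairwise
        (fun p q => p.1.1 ≠ q.1.1 ∧ img O p.1.2 ∩ img O q.1.2 ⊆ {O}) := by
      rw [← hzip, List.pairwise_map] at h1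
      exact h1
    refine h3.imp_of_mem ?_
    intro p q hp hq hpq e he e' he'
    rw [Set.disjoint_left]
    intro z hz hz'
    have hpW := hmem p hp
    have hqW := hmem q hq
    have h4 : z.1 ∈ img O p.1.2 := by
      refine ⟨(e.1.1, e.2.1), ?_, ls_hseg_seg (ls_hseg_fst hz)⟩
      rw [← ls_proj O p.1.1 p.2 p.1.2]
      exact List.mem_map.mpr ⟨e, he, rfl⟩
    have h5 : z.1 ∈ img O q.1.2 := by
      refine ⟨(e'.1.1, e'.2.1), ?_, ls_hseg_seg (ls_hseg_fst hz')⟩
      rw [← ls_proj O q.1.1 q.2 q.1.2]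
      exact List.mem_map.mpr ⟨e', he', rfl⟩
    have h6 : z.1 = O := hpq.2 ⟨h4, h5⟩
    have h7 : z = (O, z.2) := Prod.ext h6 rfl
    rw [h7] at hz hz'
    have h8 := ls_over (h.ne _ hpW) (h.off _ hpW) (h.simp _ hpW) e he _ hz
    have h9 := ls_over (h.ne _ hqW) (h.off _ hqW) (h.simp _ hqW) e' he' _ hz'
    exact hpq.1 (h8.symm.trans h9)

end Knot548
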