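import Pool.Agent.Helper548.Knot.Defs
import Pool.Agent.Helper548.Knot.P_ce_cons
import Pool.Agent.Helper548.Knot.P_pe_append
import Pool.Agent.Helper548.Knot.P_simple_rotate
import Pool.Agent.Helper548.Knot.P_eqv_rotate
import Pool.Agent.Helper548.Knot.P_cone
import Pool.Agent.Helper548.Knot.P_loops_simple



namespace Knot548
open Set


theorem cone_loop {O : ℂ} {h : ℝ} {a b : ℂ} {M : List ℂ} {W : List (ℝ × List (ℂ × ℝ))} (t' t : ℝ) (ht : t' < t)
    (hl : Loops O ((h, (a :: (M ++ [b])).map (fun z => ((z, t') : ℂ × ℝ))) :: W)) (hh : h < t')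
    (hW : ∀ v ∈ poly O W, v.2 < t') :
    Eqv (poly O ((h, (a :: (M ++ [b])).map (fun z => ((z, t') : ℂ × ℝ))) :: W))
      (poly O ((h, [(a, t')]) :: (t, [(b, t')]) :: W)) := by
  have hlen : 2 ≤ ((a :: (M ++ [b])).map (fun z => ((z, t') : ℂ × ℝ))).length := by simp
  have hs0 := hl.simp _ List.mem_cons_self hlen
  have hmap : ((a :: (M ++ [b])).map (fun z => ((z, t') : ℂ × ℝ))).map Prod.fst =
      a :: (M ++ [b]) := by
    rw [List.map_map]
    have : (Prod.fst ∘ fun z => ((z, t') : ℂ × ℝ)) = id := rfl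
    rw [this, List.map_id]
  have hs1 : Simple (O :: (a :: (M ++ [b]))) := by
    have h := hs0
    simp only [hmap] at h
    exact h
  have hce : cedges (O :: (a :: (M ++ [b]))) =
      (O, a) :: (pedges (a :: (M ++ [b])) ++ [(b, O)]) := by
    rw [ce_cons]
    have h1 : O :: ((a :: (M ++ [b])) ++ [O]) = O :: a :: ((M ++ [b]) ++ [O]) := rfl
    have h2 : a :: ((M ++ [b]) ++ [O]) = (a :: M) ++ b :: [O] := by simp
    rw [h1]
    show (O, a) :: pedges (a :: ((M ++ [b]) ++ [O])) = _
    rw [h2, pe_append]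
    rfl
  obtain ⟨hn, hp⟩ := hs1
  rw [hce] at hn hp
  have hp2 := (List.pairwise_cons.1 hp).2
  rw [List.pairwise_append] at hp2
  have hN : PathSimple (a :: (M ++ [b])) := by
    refine ⟨fun e he => hn e (List.mem_cons_of_mem _ (List.mem_append_left _ he)), hp2.1, ?_⟩
    intro x hx e he hxe
    have hx' : x = b := by
      have : (a :: (M ++ [b])).getLast? = some b := by
        rw [show a :: (M ++ [b]) = (a :: M) ++ [b] from rfl, List.getLast?_append]
        simp
      rw [this] at hx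
      simpa using hx.symm
    subst hx'
    have hd := hp2.2.2 e he (x, O) (by simp)
    refine Set.disjoint_left.1 hd hxe ⟨0, le_rfl, one_pos, ?_⟩
    simp
  have hR0 : poly O W ++ [((O, h) : ℂ × ℝ)] ≠ [] := by simp
  have hR : ∀ v ∈ poly O W ++ [((O, h) : ℂ × ℝ)], v.2 < t' := by
    intro v hv
    rcases List.mem_append.1 hv with hv | hv
    · exact hW v hv
    · rw [List.mem_singleton.1 hv]; exact hh
  have hpoly : poly O ((h, (a :: (M ++ [b])).map (fun z => ((z, t') : ℂ × ℝ))) :: W) =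
      (O, h) :: ((a :: (M ++ [b])).map (fun z => ((z, t') : ℂ × ℝ)) ++ poly O W) := by
    unfold poly
    rw [List.flatMap_cons]
    rfl
  have hrot : (poly O ((h, (a :: (M ++ [b])).map (fun z => ((z, t') : ℂ × ℝ))) :: W)).rotate 1 =
      (a :: (M ++ [b])).map (fun z => ((z, t') : ℂ × ℝ)) ++ (poly O W ++ [((O, h) : ℂ × ℝ)]) := by
    rw [hpoly, List.rotate_cons_succ, List.rotate_zero, List.append_assoc]
  have hpoly2 : poly O ((h, [(a, t')]) :: (t, [(b, t')]) :: W) =
      (O, h) :: ((a, t') :: (O, t) :: (b, t') :: poly O W) := by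
    unfold poly
    rw [List.flatMap_cons, List.flatMap_cons]
    rfl
  have hrot2 : (poly O ((h, [(a, t')]) :: (t, [(b, t')]) :: W)).rotate 1 =
      (a, t') :: (O, t) :: (b, t') :: (poly O W ++ [((O, h) : ℂ × ℝ)]) := by
    rw [hpoly2, List.rotate_cons_succ, List.rotate_zero]
    rfl
  have hs : Simple ((a :: (M ++ [b])).map (fun z => ((z, t') : ℂ × ℝ)) ++
      (poly O W ++ [((O, h) : ℂ × ℝ)])) := by
    rw [← hrot, simple_rotate]
    exact loops_simple hl
  have hc := (cone a b M (poly O W ++ [((O, h) : ℂ × ℝ)]) t' t O ht hN hR0 hR hs).2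
  have e1 := eqv_rotate (poly O ((h, (a :: (M ++ [b])).map (fun z => ((z, t') : ℂ × ℝ))) :: W)) 1
  have e2 := eqv_rotate (poly O ((h, [(a, t')]) :: (t, [(b, t')]) :: W)) 1
  rw [hrot] at e1
  rw [hrot2] at e2
  exact (e1.trans _ _ _ hc).trans _ _ _ e2.symm

end Knot548
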