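import Pool.Agent.Helper548.Knot.Defs
import Pool.Agent.Helper548.Knot.P_ce_cons
import Pool.Agent.Helper548.Knot.P_pe_append



namespace Knot548
open Set


theorem lp_map (L : List ℂ) (t' : ℝ) :
    (L.map (fun z => ((z, t') : ℂ × ℝ))).map Prod.fst = L := by
  rw [List.map_map]
  have : (Prod.fst ∘ fun z => ((z, t') : ℂ × ℝ)) = id := rfl
  rw [this, List.map_id]

theorem lp_edges (O a b : ℂ) (M : List ℂ) : ∃ (y : ℂ) (R : List (ℂ × ℂ)),
    cedges (O :: a :: (M ++ [b])) = ((O, a) :: (a, y) :: R) ++ [(b, O)] := by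
  have h1 : cedges (O :: a :: (M ++ [b])) = pedges ((O :: a :: M) ++ b :: [O]) := by
    rw [ce_cons]
    simp
  have h2 : pedges ((O :: a :: M) ++ b :: [O]) = pedges ((O :: a :: M) ++ [b]) ++ pedges (b :: [O]) :=
    pe_append _ _ _
  have h3 : pedges (b :: [O]) = [(b, O)] := rfl
  have h4 : ∃ (y : ℂ) (R : List (ℂ × ℂ)), pedges (a :: (M ++ [b])) = (a, y) :: R := by
    cases M with
    | nil => exact ⟨b, _, rfl⟩
    | cons m M' => exact ⟨m, _, rfl⟩
  obtain ⟨y, R, hR⟩ := h4
  refine ⟨y, R, ?_⟩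
  rw [h1, h2, h3]
  have h5 : pedges ((O :: a :: M) ++ [b]) = (O, a) :: pedges (a :: (M ++ [b])) := rfl
  rw [h5, hR]

theorem lp_img (O a : ℂ) (t' : ℝ) (x : ℂ) (hx : x ∈ img O [((a, t') : ℂ × ℝ)]) :
    x ∈ segment ℝ O a := by
  obtain ⟨e, he, hxe⟩ := hx
  have h1 : cedges (O :: ([((a, t') : ℂ × ℝ)].map Prod.fst)) = [(O, a), (a, O)] := rfl
  rw [h1] at he
  rcases List.mem_cons.1 he with h | h
  · subst h
    exact hxe
  · rcases List.mem_cons.1 h with h | h
    · subst h
      rw [segment_symm]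
      exact hxe
    · exact absurd h (List.not_mem_nil)

theorem lp_seg {a b x : ℂ} (h : x ∈ segment ℝ a b) : x = b ∨ x ∈ hseg a b := by
  obtain ⟨u, v, hu, hv, huv, hx⟩ := h
  by_cases h1 : v = 1
  · left
    have hu0 : u = 0 := by linarith
    rw [← hx, hu0, h1]
    simp
  · right
    refine ⟨v, hv, ?_, ?_⟩
    · have : v ≤ 1 := by linarith
      exact lt_of_le_of_ne this h1
    · have : u = 1 - v := by linarith
      rw [← hx, this]

theorem lp_two {O a b : ℂ} {M : List ℂ} (hs : Simple (O :: a :: (M ++ [b]))) {x : ℂ}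
    (h1 : x ∈ segment ℝ O a) (h2 : x ∈ segment ℝ O b) : x = O := by
  obtain ⟨y, R, hR⟩ := lp_edges O a b M
  have hp := hs.2
  rw [hR, List.pairwise_append] at hp
  obtain ⟨_, _, hp3⟩ := hp
  have d1 := hp3 (O, a) (by simp) (b, O) (by simp)
  have d2 := hp3 (a, y) (by simp) (b, O) (by simp)
  rw [segment_symm] at h2
  rcases lp_seg h2 with h | h
  · exact h
  · exfalso
    rcases lp_seg h1 with h' | h'
    · subst h'
      have h3 : x ∈ hseg x y := ⟨0, le_rfl, one_pos, by simp⟩
      exact Set.disjoint_left.1 d2 h3 h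
    · exact Set.disjoint_left.1 d1 h' h

theorem loops_process {O : ℂ} {h : ℝ} {a b : ℂ} {M : List ℂ} {W : List (ℝ × List (ℂ × ℝ))} (t' t : ℝ)
    (hl : Loops O ((h, (a :: (M ++ [b])).map (fun z => ((z, t') : ℂ × ℝ))) :: W)) (hh : h ≠ t)
    (hW : ∀ p ∈ W, p.1 ≠ t) : Loops O ((h, [(a, t')]) :: (t, [(b, t')]) :: W) := by
  have hS : Simple (O :: a :: (M ++ [b])) := by
    have h1 := hl.simp _ List.mem_cons_self (by simp)
    rw [lp_map] at h1
    exact h1
  have ha : a ≠ O := hl.off _ List.mem_cons_self (a, t') (by simp)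
  have hb : b ≠ O := hl.off _ List.mem_cons_self (b, t') (by simp)
  obtain ⟨y, R, hR⟩ := lp_edges O a b M
  have himg : ∀ x, (∃ e ∈ cedges (O :: a :: (M ++ [b])), x ∈ segment ℝ e.1 e.2) →
      x ∈ img O ((a :: (M ++ [b])).map (fun z => ((z, t') : ℂ × ℝ))) := by
    intro x hx
    unfold img
    rw [lp_map]
    exact hx
  have ia : ∀ x ∈ img O [((a, t') : ℂ × ℝ)],
      x ∈ img O ((a :: (M ++ [b])).map (fun z => ((z, t') : ℂ × ℝ))) := by
    intro x hx
    apply himg
    refine ⟨(O, a), ?_, lp_img O a t' x hx⟩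
    rw [hR]
    simp
  have ib : ∀ x ∈ img O [((b, t') : ℂ × ℝ)],
      x ∈ img O ((a :: (M ++ [b])).map (fun z => ((z, t') : ℂ × ℝ))) := by
    intro x hx
    apply himg
    refine ⟨(b, O), ?_, ?_⟩
    · rw [hR]
      simp
    · have h1 := lp_img O b t' x hx
      rw [segment_symm] at h1
      exact h1
  have hdis := hl.disj
  rw [List.pairwise_cons] at hdis
  have hnod := hl.nod
  rw [List.map_cons, List.nodup_cons] at hnod
  constructor
  · left
    simp
  · intro p hp
    rcases List.mem_cons.1 hp with h1 | h1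
    · subst h1; simp
    · rcases List.mem_cons.1 h1 with h2 | h2
      · subst h2; simp
      · exact hl.ne p (List.mem_cons_of_mem _ h2)
  · intro p hp
    rcases List.mem_cons.1 hp with h1 | h1
    · subst h1
      intro v hv
      rw [List.mem_singleton] at hv
      subst hv
      exact ha
    · rcases List.mem_cons.1 h1 with h2 | h2
      · subst h2
        intro v hv
        rw [List.mem_singleton] at hv
        subst hv
        exact hb
      · exact hl.off p (List.mem_cons_of_mem _ h2)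
  · rw [List.map_cons, List.map_cons, List.nodup_cons, List.nodup_cons]
    refine ⟨?_, ?_, hnod.2⟩
    · intro h1
      rcases List.mem_cons.1 h1 with h2 | h2
      · exact hh h2
      · exact hnod.1 h2
    · intro h1
      rw [List.mem_map] at h1
      obtain ⟨p, hp, hpe⟩ := h1
      exact hW p hp hpe
  · intro p hp hlen
    rcases List.mem_cons.1 hp with h1 | h1
    · subst h1
      simp at hlen
    · rcases List.mem_cons.1 h1 with h2 | h2
      · subst h2
        simp at hlen
      · exact hl.simp p (List.mem_cons_of_mem _ h2) hlen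
  · rw [List.pairwise_cons, List.pairwise_cons]
    refine ⟨?_, ?_, hdis.2⟩
    · intro q hq
      rcases List.mem_cons.1 hq with h1 | h1
      · subst h1
        intro x hx
        exact lp_two hS (lp_img O a t' x hx.1) (lp_img O b t' x hx.2)
      · intro x hx
        exact hdis.1 q h1 ⟨ia x hx.1, hx.2⟩
    · intro q hq x hx
      exact hdis.1 q hq ⟨ib x hx.1, hx.2⟩

end Knot548
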