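import Pool.Agent.Helper548.Knot.Defs



namespace Knot548
open Set


theorem loops_heights {O : ℂ} {h : ℝ} {L L' : List (ℂ × ℝ)} {W : List (ℝ × List (ℂ × ℝ))} (hl : Loops O ((h, L) :: W))
    (hL : L'.map Prod.fst = L.map Prod.fst) : Loops O ((h, L') :: W) := by
  have hlen : L'.length = L.length := by
    have := congrArg List.length hL
    simpa using this
  have himg : img O L' = img O L := by unfold img; rw [hL]
  have hmem : ∀ p ∈ ((h, L') :: W : List (ℝ × List (ℂ × ℝ))), p = (h, L') ∨ p ∈ W := fun p hp =>
    List.mem_cons.1 hp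
  refine ⟨?_, ?_, ?_, ?_, ?_, ?_⟩
  · rcases hl.len with h1 | ⟨p, hp, h2⟩
    · left; simpa using h1
    · right
      rcases List.mem_cons.1 hp with rfl | hp
      · exact ⟨(h, L'), List.mem_cons_self, by simpa [hlen] using h2⟩
      · exact ⟨p, List.mem_cons_of_mem _ hp, h2⟩
  · intro p hp
    rcases hmem p hp with rfl | hp
    · have h1 := hl.ne (h, L) List.mem_cons_self
      intro h2
      apply h1
      simp only at h2 ⊢
      rw [← List.length_eq_zero_iff] at h2 ⊢
      omega
    · exact hl.ne p (List.mem_cons_of_mem _ hp)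
  · intro p hp
    rcases hmem p hp with rfl | hp
    · intro v hv
      have h1 : v.1 ∈ L.map Prod.fst := by
        rw [← hL]
        exact List.mem_map_of_mem hv
      obtain ⟨u, hu, huv⟩ := List.mem_map.1 h1
      rw [← huv]
      exact hl.off (h, L) List.mem_cons_self u hu
    · exact hl.off p (List.mem_cons_of_mem _ hp)
  · simpa using hl.nod
  · intro p hp h2
    rcases hmem p hp with rfl | hp
    · have h3 := hl.simp (h, L) List.mem_cons_self
      simp only at h2 h3 ⊢
      rw [hL]
      exact h3 (by omega)
    · exact hl.simp p (List.mem_cons_of_mem _ hp) h2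
  · have h1 := hl.disj
    rw [List.pairwise_cons] at h1 ⊢
    refine ⟨fun q hq => ?_, h1.2⟩
    have h2 := h1.1 q hq
    simp only at h2 ⊢
    rw [himg]
    exact h2

end Knot548
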