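import Pool.Agent.Helper548.Knot.Defs
import Pool.Agent.Helper548.Knot.P_eqv_lin
import Pool.Agent.Helper548.Knot.P_loops_simple
import Pool.Agent.Helper548.Knot.P_loops_heights



namespace Knot548
open Set


theorem raise_loop {O : ℂ} {h : ℝ} {L : List (ℂ × ℝ)} {W : List (ℝ × List (ℂ × ℝ))} (hl : Loops O ((h, L) :: W))
    (t : ℝ) : Loops O ((h, L.map (fun v => (v.1, t))) :: W) ∧
      Eqv (poly O ((h, L) :: W)) (poly O ((h, L.map (fun v => (v.1, t))) :: W)) := by
  constructor
  · refine loops_heights hl ?_
    rw [List.map_map]
    rfl
  · have hpoly : ∀ K : List (ℂ × ℝ), poly O ((h, K) :: W) = (O, h) :: (K ++ poly O W) := by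
      intro K
      unfold poly
      rw [List.flatMap_cons]
      rfl
    rw [hpoly, hpoly]
    apply eqv_lin
    · simp
    · intro s _
      have haa : ∀ a : ℂ × ℝ, (1 - s) • a + s • a = a := by
        intro a
        rw [← add_smul, sub_add_cancel, one_smul]
      have hz : List.zipWith (fun a b : ℂ × ℝ => (1 - s) • a + s • b) ((O, h) :: (L ++ poly O W))
          ((O, h) :: (L.map (fun v => (v.1, t)) ++ poly O W)) =
          poly O ((h, L.map (fun v => (v.1, (1 - s) * v.2 + s * t))) :: W) := by
        rw [hpoly, List.zipWith_cons_cons, haa, List.zipWith_append (by simp)]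
        congr 2
        · rw [List.zipWith_map_right, List.zipWith_self]
          refine List.map_congr_left fun v _ => ?_
          refine Prod.ext ?_ ?_
          · show (1 - s) • v.1 + s • v.1 = v.1
            rw [← add_smul, sub_add_cancel, one_smul]
          · rfl
        · rw [List.zipWith_self]
          conv_rhs => rw [← List.map_id (poly O W)]
          exact List.map_congr_left fun v _ => haa v
      rw [hz]
      refine loops_simple (loops_heights hl ?_)
      rw [List.map_map]
      rfl

end Knot548
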