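import Pool.Agent.Helper548.Knot.Defs
import Pool.Agent.Helper548.Knot.P_raise_loop
import Pool.Agent.Helper548.Knot.P_cone_loop
import Pool.Agent.Helper548.Knot.P_loops_process



namespace Knot548
open Set


theorem process_bound (l : List (ℂ × ℝ)) : ∃ B : ℝ, ∀ v ∈ l, v.2 < B := by
  induction l with
  | nil => exact ⟨0, by simp⟩
  | cons a l ih =>
    obtain ⟨B, hB⟩ := ih
    refine ⟨max B (a.2 + 1), fun v hv => ?_⟩
    rcases List.mem_cons.1 hv with rfl | hv
    · exact lt_of_lt_of_le (lt_add_one _) (le_max_right _ _)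
    · exact lt_of_lt_of_le (hB v hv) (le_max_left _ _)

theorem process_dec {α : Type*} (K : List α) (hK : 2 ≤ K.length) :
    ∃ a M b, K = a :: (M ++ [b]) := by
  cases K with
  | nil => simp at hK
  | cons a K =>
    have hne : K ≠ [] := by
      rintro rfl
      simp at hK
    exact ⟨a, K.dropLast, K.getLast hne, by rw [List.dropLast_append_getLast]⟩

theorem process {O : ℂ} {h : ℝ} {L : List (ℂ × ℝ)} {W : List (ℝ × List (ℂ × ℝ))} (hl : Loops O ((h, L) :: W))
    (hL : 2 ≤ L.length) : ∃ (p q : ℂ × ℝ) (t : ℝ), Loops O ((h, [p]) :: (t, [q]) :: W) ∧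
      Eqv (poly O ((h, L) :: W)) (poly O ((h, [p]) :: (t, [q]) :: W)) := by
  obtain ⟨a, M, b, hab⟩ := process_dec (L.map Prod.fst) (by simpa using hL)
  obtain ⟨B, hB⟩ := process_bound (poly O W)
  set t' : ℝ := max B (h + 1) with ht'
  have hh : h < t' := lt_of_lt_of_le (lt_add_one _) (le_max_right _ _)
  have hW : ∀ v ∈ poly O W, v.2 < t' := fun v hv => lt_of_lt_of_le (hB v hv) (le_max_left _ _)
  have hmap : L.map (fun v => ((v.1, t') : ℂ × ℝ))
      = (a :: (M ++ [b])).map (fun z => ((z, t') : ℂ × ℝ)) := by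
    rw [← hab, List.map_map]
    rfl
  obtain ⟨h1, h2⟩ := raise_loop hl t'
  rw [hmap] at h1 h2
  have h3 := cone_loop t' (t' + 1) (lt_add_one _) h1 hh hW
  refine ⟨(a, t'), (b, t'), t' + 1, ?_, ?_⟩
  · apply loops_process t' (t' + 1) h1 (by linarith)
    intro p hp
    have hmem : ((O, p.1) : ℂ × ℝ) ∈ poly O W := by
      unfold poly
      rw [List.mem_flatMap]
      exact ⟨p, hp, List.mem_cons_self⟩
    have h4 : p.1 < t' := hW _ hmem
    linarith
  · exact Relation.EqvGen.trans _ _ _ h2 h3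

end Knot548
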