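import Pool.Agent.Helper548.Knot.Defs
import Pool.Agent.Helper548.Knot.P_process
import Pool.Agent.Helper548.Knot.P_loops_rotate



namespace Knot548
open Set


theorem allpages_aux {O : ℂ} : ∀ (b : ℕ) (W : List (ℝ × List (ℂ × ℝ))), Loops O W →
    W.countP (fun p => decide (2 ≤ p.2.length)) = b →
    ∃ W' : List (ℝ × List (ℂ × ℝ)), Loops O W' ∧ (∀ p ∈ W', p.2.length = 1) ∧
      W'.length ≤ W.length + b ∧ Eqv (poly O W) (poly O W') := by
  intro b
  induction b with
  | zero =>
    intro W h hb
    refine ⟨W, h, ?_, le_rfl, Relation.EqvGen.refl _⟩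
    intro p hp
    have h1 := h.ne p hp
    rw [List.countP_eq_zero] at hb
    have h2 := hb p hp
    simp only [decide_eq_true_eq, not_le] at h2
    have h3 : p.2.length ≠ 0 := fun e => h1 (List.length_eq_zero_iff.1 e)
    omega
  | succ b ih =>
    intro W h hb
    have hpos : 0 < W.countP (fun p => decide (2 ≤ p.2.length)) := by omega
    rw [List.countP_pos_iff] at hpos
    obtain ⟨p, hp, hp2⟩ := hpos
    have hp2' : 2 ≤ p.2.length := by simpa using hp2
    obtain ⟨W1, W2, rfl⟩ := List.append_of_mem hp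
    have hrot := loops_rotate h W1.length
    rw [List.rotate_append_length_eq, List.cons_append] at hrot
    obtain ⟨hl, he⟩ := hrot
    obtain ⟨h0, L⟩ := p
    obtain ⟨p', q', t, hl', he'⟩ := process hl hp2'
    have hcount : List.countP (fun p : ℝ × List (ℂ × ℝ) => decide (2 ≤ p.2.length))
        ((h0, [p']) :: (t, [q']) :: (W2 ++ W1)) = b := by
      rw [List.countP_append, List.countP_cons_of_pos
        (p := fun p : ℝ × List (ℂ × ℝ) => decide (2 ≤ p.2.length)) (by simpa using hp2')] at hb
      rw [List.countP_cons_of_neg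
        (p := fun p : ℝ × List (ℂ × ℝ) => decide (2 ≤ p.2.length)) (by simp),
        List.countP_cons_of_neg
        (p := fun p : ℝ × List (ℂ × ℝ) => decide (2 ≤ p.2.length)) (by simp), List.countP_append]
      omega
    obtain ⟨W', hW1, hW2, hW3, hW4⟩ := ih _ hl' hcount
    refine ⟨W', hW1, hW2, ?_, ?_⟩
    · simp only [List.length_cons, List.length_append] at hW3 ⊢
      omega
    · exact Relation.EqvGen.trans _ _ _ he (Relation.EqvGen.trans _ _ _ he' hW4)

theorem allpages {O : ℂ} {W : List (ℝ × List (ℂ × ℝ))} (h : Loops O W) :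
    ∃ W' : List (ℝ × List (ℂ × ℝ)), Loops O W' ∧ (∀ p ∈ W', p.2.length = 1) ∧ W'.length ≤ 2 * W.length ∧
      Eqv (poly O W) (poly O W') := by
  obtain ⟨W', h1, h2, h3, h4⟩ := allpages_aux _ W h rfl
  have h5 : W.countP (fun p => decide (2 ≤ p.2.length)) ≤ W.length := List.countP_le_length
  exact ⟨W', h1, h2, by omega, h4⟩

end Knot548
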