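import Pool.Agent.Helper548.Knot.Defs
import Pool.Agent.Helper548.Knot.P_ce_cons
import Pool.Agent.Helper548.Knot.P_pe_append
import Pool.Agent.Helper548.Knot.P_mult_ge_two
import Pool.Agent.Helper548.Knot.P_ready_edges0



namespace Knot548
open Set


theorem over_or_under_par {x y c : ℂ} (hxy : x ≠ y) {s t s' t' : ℝ} (h1 : s + t = 1)
    (h2 : s' + t' = 1) (h3 : s • x + t • y = c) (h4 : s' • x + t' • y = c) : s = s' ∧ t = t' := by
  have ht : t = 1 - s := by linarith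
  have ht' : t' = 1 - s' := by linarith
  subst ht ht'
  have h5 : (s - s') • (x - y) = 0 := by
    have h6 : s • x + (1 - s) • y - (s' • x + (1 - s') • y) = 0 := by rw [h3, h4, sub_self]
    rw [← h6]
    module
  rcases smul_eq_zero.1 h5 with h6 | h6
  · have : s = s' := by linarith
    subst this
    exact ⟨rfl, rfl⟩
  · exact absurd (sub_eq_zero.1 h6) hxy

theorem over_or_under_height (p q : ℂ × ℝ) (hpq : p.1 ≠ q.1) (c : ℂ)
    (hc : c ∈ openSegment ℝ p.1 q.1) :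
    ∃ z0 : ℝ, ((c, z0) : ℂ × ℝ) ∈ hseg p q ∧
      (∀ z : ℝ, ((c, z) : ℂ × ℝ) ∈ segment ℝ p q → z = z0) ∧
      (∀ z : ℝ, ((c, z) : ℂ × ℝ) ∈ segment ℝ ((p.1, -p.2) : ℂ × ℝ) (q.1, -q.2) → z = -z0) := by
  obtain ⟨s, t, hs, ht, hst, hc⟩ := hc
  refine ⟨s * p.2 + t * q.2, ⟨t, ht.le, by linarith, ?_⟩, ?_, ?_⟩
  · have h1 : 1 - t = s := by linarith
    rw [h1]
    apply Prod.ext
    · exact hc.symm
    · rfl
  · rintro z ⟨s', t', hs', ht', hst', hz⟩
    have h1 : s' • p.1 + t' • q.1 = c := congrArg Prod.fst hz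
    have h2 : s' * p.2 + t' * q.2 = z := congrArg Prod.snd hz
    obtain ⟨h3, h4⟩ := over_or_under_par hpq hst hst' hc h1
    rw [← h2, h3, h4]
  · rintro z ⟨s', t', hs', ht', hst', hz⟩
    have h1 : s' • p.1 + t' • q.1 = c := congrArg Prod.fst hz
    have h2 : s' * (-p.2) + t' * (-q.2) = z := congrArg Prod.snd hz
    obtain ⟨h3, h4⟩ := over_or_under_par hpq hst hst' hc h1
    rw [← h2, h3, h4]
    ring

theorem over_or_under_split {α : Type*} (w : α) (M : List α) (u y y2 : α) (D X : List α) (a b : α)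
    (Y : List α) (hD : w :: M = D ++ [u]) :
    cedges (((w :: M) ++ [y, y2]) ++ X ++ [a, b] ++ Y) =
      pedges (D ++ [u]) ++ (u, y) :: (pedges ((y :: y2 :: X) ++ [a]) ++ (a, b) ::
        pedges (b :: (Y ++ [w]))) := by
  have h1 : ((w :: M) ++ [y, y2]) ++ X ++ [a, b] ++ Y =
      w :: (M ++ [y, y2] ++ X ++ [a, b] ++ Y) := by simp
  rw [h1, ce_cons]
  have h2 : w :: (M ++ [y, y2] ++ X ++ [a, b] ++ Y ++ [w]) =
      D ++ u :: (y :: ((y2 :: X) ++ a :: (b :: (Y ++ [w])))) := by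
    have h3 : w :: (M ++ [y, y2] ++ X ++ [a, b] ++ Y ++ [w]) =
      (w :: M) ++ ([y, y2] ++ X ++ [a, b] ++ Y ++ [w]) := by simp
    rw [h3, hD]
    simp
  rw [h2, pe_append]
  have h4 : pedges (u :: (y :: ((y2 :: X) ++ a :: (b :: (Y ++ [w]))))) =
      (u, y) :: pedges ((y :: y2 :: X) ++ a :: (b :: (Y ++ [w]))) := rfl
  rw [h4, pe_append (y :: y2 :: X) a]
  rfl

theorem over_or_under {O : ℂ} {h : ℝ} {M : List (ℂ × ℝ)} {y y2 : ℂ × ℝ} {X : List (ℂ × ℝ)} {a b : ℂ × ℝ}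
    {Y : List (ℂ × ℝ)} {c : ℂ} (R : Ready O h M y y2 X a b Y c) :
    Over (((O, h) :: M).getLast (by simp)) y a b c ∨
      Over ((((O, h) :: M).getLast (by simp)).1, -(((O, h) :: M).getLast (by simp)).2) (y.1, -y.2) (a.1, -a.2) (b.1, -b.2) c := by
  obtain ⟨u, hu⟩ : ∃ u, u = ((O, h) :: M).getLast (by simp) := ⟨_, rfl⟩
  have hD : (O, h) :: M = ((O, h) :: M).dropLast ++ [u] := by
    rw [hu]
    exact (List.dropLast_append_getLast _).symm
  have hs := over_or_under_split (O, h) M u y y2 _ X a b Y hD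
  have hR := R.reg.simple.2
  have hn := R.reg.nondeg
  rw [hs] at hR hn
  have hdis : Disjoint (hseg u y) (hseg a b) := by
    have h1 := (List.pairwise_append.1 hR).2.1
    exact (List.pairwise_cons.1 h1).1 (a, b) (by simp)
  have huy : u.1 ≠ y.1 := hn (u, y) (by simp)
  have hab : a.1 ≠ b.1 := hn (a, b) (by simp)
  have hce := R.ce
  rw [← hu] at hce ⊢
  obtain ⟨z0, h0, h1, h2⟩ := over_or_under_height u y huy c hce
  obtain ⟨z0', h0', h1', h2'⟩ := over_or_under_height a b hab c R.cs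
  have hne : z0 ≠ z0' := by
    intro he
    rw [← he] at h0'
    exact Set.disjoint_left.1 hdis h0 h0'
  rcases lt_or_gt_of_ne hne with hlt | hlt
  · left
    intro z z' hz hz'
    rw [h1 z hz, h1' z' hz']
    exact hlt
  · right
    intro z z' hz hz'
    rw [h2 z hz, h2' z' hz']
    linarith

end Knot548
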