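import Pool.Agent.Helper548.Knot.Defs
import Pool.Agent.Helper548.Knot.P_ce_cons
import Pool.Agent.Helper548.Knot.P_pe_append
import Pool.Agent.Helper548.Knot.P_ce_rotate
import Pool.Agent.Helper548.Knot.P_mult_rotate
import Pool.Agent.Helper548.Knot.P_reg_rotate
import Pool.Agent.Helper548.Knot.P_mult_ge_two



namespace Knot548
open Set


theorem p84_hseg_seg {a b x : ℂ} (h : x ∈ hseg a b) : x ∈ segment ℝ a b := by
  obtain ⟨s, h0, h1, rfl⟩ := h
  exact ⟨1 - s, s, by linarith, h0, by ring, rfl⟩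

theorem p84_seg_hseg {a b x : ℂ} (h : x ∈ segment ℝ a b) (hx : x ≠ b) : x ∈ hseg a b := by
  obtain ⟨p, s, hp, hs, hps, rfl⟩ := h
  have hp' : p = 1 - s := by linarith
  subst hp'
  refine ⟨s, hs, ?_, rfl⟩
  rcases lt_or_eq_of_le (by linarith : s ≤ 1) with h | h
  · exact h
  · exfalso
    apply hx
    subst h
    simp

theorem p84_split {α : Type*} : ∀ (N : List α) (E1 : List (α × α)) (e : α × α) (E2 : List (α × α)),
    pedges N = E1 ++ e :: E2 → ∃ A B, N = A ++ e.1 :: e.2 :: B ∧ pedges (A ++ [e.1]) = E1 := by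
  intro N
  induction N with
  | nil => intro E1 e E2 h; simp [pedges] at h
  | cons a N ih =>
    intro E1 e E2 h
    cases N with
    | nil => simp [pedges] at h
    | cons b N =>
      simp only [pedges] at h
      cases E1 with
      | nil =>
        simp only [List.nil_append, List.cons.injEq] at h
        obtain ⟨h1, h2⟩ := h
        subst h1
        exact ⟨[], N, rfl, by simp [pedges]⟩
      | cons f E1 =>
        simp only [List.cons_append, List.cons.injEq] at h
        obtain ⟨h1, h2⟩ := h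
        obtain ⟨A, B, hA, hB⟩ := ih E1 e E2 h2
        subst h1
        cases A with
        | nil =>
          simp only [List.nil_append, List.cons.injEq] at hA
          refine ⟨[a], B, ?_, ?_⟩
          · rw [List.cons_append, List.nil_append, ← hA.1, ← hA.2]
          · simp only [List.nil_append, pedges] at hB
            simp [pedges, ← hA.1, ← hB]
        | cons c A =>
          simp only [List.cons_append, List.cons.injEq] at hA
          refine ⟨a :: b :: A, B, ?_, ?_⟩
          · rw [List.cons_append, List.cons_append, ← hA.2]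
          · rw [← hB]
            simp only [List.cons_append, pedges]
            rw [hA.1]

theorem p84_last {O : ℂ} : ∀ (L : List (ℂ × ℝ)), (∃ v ∈ L, v.1 = O) →
    ∃ C h M, L = C ++ ((O, h) : ℂ × ℝ) :: M ∧ ∀ w ∈ M, w.1 ≠ O := by
  intro L
  induction L with
  | nil => rintro ⟨v, hv, _⟩; simp at hv
  | cons a L ih =>
    rintro ⟨v, hv, hvO⟩
    by_cases hL : ∃ v ∈ L, v.1 = O
    · obtain ⟨C, h, M, hC, hM⟩ := ih hL
      exact ⟨a :: C, h, M, by rw [hC]; rfl, hM⟩
    · have hva : v = a := by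
        rcases List.mem_cons.1 hv with h | h
        · exact h
        · exact absurd ⟨v, h, hvO⟩ hL
      subst hva
      refine ⟨[], v.2, L, ?_, ?_⟩
      · rw [← hvO]; rfl
      · intro w hw hwO
        exact hL ⟨w, hw, hwO⟩

theorem p84_first {α : Type*} (D : α → Prop) : ∀ (L : List α), (∃ e ∈ L, D e) →
    ∃ E1 e E2, L = E1 ++ e :: E2 ∧ D e ∧ ∀ f ∈ E1, ¬ D f := by
  intro L
  induction L with
  | nil => rintro ⟨v, hv, _⟩; simp at hv
  | cons a L ih =>
    rintro ⟨v, hv, hvD⟩
    by_cases ha : D a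
    · exact ⟨[], a, L, rfl, ha, by simp⟩
    · have hvL : v ∈ L := by
        rcases List.mem_cons.1 hv with h | h
        · subst h; exact absurd hvD ha
        · exact h
      obtain ⟨E1, e, E2, h1, h2, h3⟩ := ih ⟨v, hvL, hvD⟩
      refine ⟨a :: E1, e, E2, by rw [h1]; rfl, h2, ?_⟩
      intro f hf
      rcases List.mem_cons.1 hf with h | h
      · subst h; exact ha
      · exact h3 f h

theorem p84_main {O : ℂ} {h0 : ℝ} {P1 : List (ℂ × ℝ)} (hr : Reg O (((O, h0) : ℂ × ℝ) :: P1))
    (hd : (dbl O (((O, h0) : ℂ × ℝ) :: P1)).Nonempty) :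
    ∃ (h : ℝ) (M : List (ℂ × ℝ)) (v : ℂ × ℝ) (R : List (ℂ × ℝ)) (k : ℕ),
      (((O, h0) : ℂ × ℝ) :: P1).rotate k = ((O, h) :: M) ++ v :: R ∧ (∀ w ∈ M, w.1 ≠ O) ∧
      (∀ x ∈ psegs (pedges ((O, h) :: M)), x ≠ O → mult (((O, h0) : ℂ × ℝ) :: P1) x ≤ 1) ∧
      ∃ x ∈ dbl O (((O, h0) : ℂ × ℝ) :: P1), x ∈ segment ℝ (((O, h) :: M).getLast (by simp)).1 v.1 := by
  classical
  set P := ((O, h0) : ℂ × ℝ) :: P1 with hP
  have hce : cedges P = pedges ((O, h0) :: (P1 ++ [(O, h0)])) := ce_cons _ _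
  let D : ((ℂ × ℝ) × (ℂ × ℝ)) → Prop := fun e => ∃ x ∈ dbl O P, x ∈ segment ℝ e.1.1 e.2.1
  have hex : ∃ e ∈ cedges P, D e := by
    obtain ⟨x, hx⟩ := hd
    have h2 : mult P x = 2 := hx.2
    have hpos : 0 < (cedges P).countP (fun e => decide (x ∈ hseg e.1.1 e.2.1)) := by
      have : (cedges P).countP (fun e => decide (x ∈ hseg e.1.1 e.2.1)) = 2 := by
        rw [← h2]; rfl
      omega
    obtain ⟨e, he, hxe⟩ := List.countP_pos_iff.1 hpos
    exact ⟨e, he, x, hx, p84_hseg_seg (by simpa using hxe)⟩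
  obtain ⟨E1, e, E2, hE, hDe, hE1⟩ := p84_first D _ hex
  rw [hce] at hE
  obtain ⟨A, B, hN, hA⟩ := p84_split _ _ _ _ hE
  -- the edge is not the closing edge
  have hB : B ≠ [] := by
    intro hB
    subst hB
    have hlen : E2 = [] := by
      have h1 : pedges (A ++ e.1 :: e.2 :: []) = E1 ++ e :: E2 := by rw [← hN]; exact hE
      rw [pe_append, hA] at h1
      simp only [pedges] at h1
      have := List.append_cancel_left h1
      simp at this
      exact this
    subst hlen
    obtain ⟨x, hx, hxs⟩ := hDe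
    have h2 : mult P x = 2 := hx.2
    have hm : (E1 ++ [e]).countP (fun e => decide (x ∈ hseg e.1.1 e.2.1)) = 2 := by
      rw [← hE, ← hce, ← h2]; rfl
    rw [List.countP_append] at hm
    have h1 : ([e] : List ((ℂ × ℝ) × (ℂ × ℝ))).countP (fun e => decide (x ∈ hseg e.1.1 e.2.1)) ≤ 1 := by
      have := List.countP_le_length (p := fun e : (ℂ × ℝ) × (ℂ × ℝ) => decide (x ∈ hseg e.1.1 e.2.1)) (l := [e])
      simpa using this
    have hpos : 0 < E1.countP (fun e => decide (x ∈ hseg e.1.1 e.2.1)) := by omega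
    obtain ⟨f, hf, hxf⟩ := List.countP_pos_iff.1 hpos
    exact hE1 f hf ⟨x, hx, p84_hseg_seg (by simpa using hxf)⟩
  obtain ⟨B', z, rfl⟩ : ∃ B' z, B = B' ++ [z] := by
    refine ⟨B.dropLast, B.getLast hB, ?_⟩
    exact (List.dropLast_append_getLast hB).symm
  -- P = A ++ u :: v :: B'
  have hPe : P = A ++ e.1 :: e.2 :: B' := by
    have h1 : P ++ [(O, h0)] = (A ++ e.1 :: e.2 :: B') ++ [z] := by
      have : (O, h0) :: (P1 ++ [(O, h0)]) = P ++ [(O, h0)] := by rw [hP]; rfl
      rw [← this, hN]; simp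
    exact (List.append_inj' h1 rfl).1
  have hexO : ∃ v ∈ A ++ [e.1], v.1 = O := by
    have h1 : P.head? = some (O, h0) := by rw [hP]; rfl
    have h2 : P = (A ++ [e.1]) ++ (e.2 :: B') := by rw [hPe]; simp
    rw [h2, List.head?_append] at h1
    have h3 : (A ++ [e.1]).head? ≠ none := by simp
    obtain ⟨w, hw⟩ := Option.ne_none_iff_exists'.1 h3
    rw [hw] at h1
    simp at h1
    refine ⟨w, List.mem_of_head? hw, by rw [h1]⟩
  obtain ⟨C, h, M, hC, hM⟩ := p84_last _ hexO
  have hPC : P = C ++ (((O, h) :: M) ++ e.2 :: B') := by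
    have h2 : P = (A ++ [e.1]) ++ (e.2 :: B') := by rw [hPe]; simp
    rw [h2, hC]; simp
  refine ⟨h, M, e.2, B' ++ C, C.length, ?_, hM, ?_, ?_⟩
  · conv_lhs => rw [hPC]
    rw [List.rotate_append_length_eq]
    simp
  · intro x hx hxO
    obtain ⟨f, hf, hxf⟩ := hx
    have hfE : f ∈ E1 := by
      rw [← hA, hC, pe_append]
      exact List.mem_append_right _ hf
    have hle := hr.two x hxO
    by_contra hcon
    have h2 : mult P x = 2 := by omega
    exact hE1 f hfE ⟨x, ⟨hxO, h2⟩, hxf⟩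
  · obtain ⟨x, hx, hxs⟩ := hDe
    refine ⟨x, hx, ?_⟩
    have hl : ((O, h) :: M).getLast (by simp) = e.1 := by
      have h1 := congrArg List.getLast? hC
      have h2 : (A ++ [e.1]).getLast? = some e.1 := by simp
      have h3 : (C ++ (O, h) :: M).getLast? = some (((O, h) :: M).getLast (by simp)) := by
        rw [List.getLast?_append_of_ne_nil _ (by simp)]
        exact List.getLast?_eq_some_getLast (by simp)
      rw [h2, h3] at h1
      exact (Option.some.inj h1).symm
    rw [hl]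
    exact hxs

theorem prep1 {O : ℂ} {P : List (ℂ × ℝ)} (hr : Reg O P) (hax : 1 ≤ ax O P) (hd : (dbl O P).Nonempty) :
    ∃ (h : ℝ) (M : List (ℂ × ℝ)) (v : ℂ × ℝ) (R : List (ℂ × ℝ)) (k : ℕ),
      P.rotate k = ((O, h) :: M) ++ v :: R ∧ (∀ w ∈ M, w.1 ≠ O) ∧
      (∀ x ∈ psegs (pedges ((O, h) :: M)), x ≠ O → mult P x ≤ 1) ∧
      ∃ x ∈ dbl O P, x ∈ segment ℝ (((O, h) :: M).getLast (by simp)).1 v.1 := by
  classical
  have hpos : 0 < P.countP (fun v => decide (v.1 = O)) := by
    have : ax O P = P.countP (fun v => decide (v.1 = O)) := rfl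
    omega
  obtain ⟨v0, hv0, hv0O⟩ := List.countP_pos_iff.1 hpos
  have hv0O' : v0.1 = O := by simpa using hv0O
  obtain ⟨C, P2, rfl⟩ := List.append_of_mem hv0
  set P := C ++ v0 :: P2 with hP
  have hrot : P.rotate C.length = ((O, v0.2) : ℂ × ℝ) :: (P2 ++ C) := by
    rw [hP, List.rotate_append_length_eq, ← hv0O']
    rfl
  have hr' : Reg O (P.rotate C.length) := (reg_rotate _).2 hr
  have hmul : ∀ x, mult (P.rotate C.length) x = mult P x := fun x => mult_rotate _ _ _
  have hdbl : dbl O (P.rotate C.length) = dbl O P := by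
    ext x
    simp only [dbl, Set.mem_ofPred_eq, hmul]
  have hd' : (dbl O (P.rotate C.length)).Nonempty := by rw [hdbl]; exact hd
  rw [hrot] at hr' hd' hdbl hmul
  obtain ⟨h, M, v, R, k, h1, h2, h3, h4⟩ := p84_main hr' hd'
  refine ⟨h, M, v, R, C.length + k, ?_, h2, ?_, ?_⟩
  · rw [← List.rotate_rotate, hrot]; exact h1
  · intro x hx hxO
    rw [← hmul]; exact h3 x hx hxO
  · rw [← hdbl]; exact h4

end Knot548
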