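import Pool.Agent.Helper548.Knot.Defs
import Pool.Agent.Helper548.Knot.P_ce_cons
import Pool.Agent.Helper548.Knot.P_pe_append
import Pool.Agent.Helper548.Knot.P_eqv_insert
import Pool.Agent.Helper548.Knot.P_mult_insert
import Pool.Agent.Helper548.Knot.P_reg_insert
import Pool.Agent.Helper548.Knot.P_center_seg



namespace Knot548
open Set


/-- the point of the segment with parameter `t` -/
noncomputable def prep2_p (u v : ℂ × ℝ) (t : ℝ) : ℂ × ℝ := (1 - t) • u + t • v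

theorem prep2_p_fst (u v : ℂ × ℝ) (t : ℝ) : (prep2_p u v t).1 = (1 - t) • u.1 + t • v.1 := by
  simp [prep2_p]

theorem prep2_inj (u v : ℂ × ℝ) (h : u.1 ≠ v.1) (s t : ℝ) (hst : (prep2_p u v s).1 = (prep2_p u v t).1) :
    s = t := by
  rw [prep2_p_fst, prep2_p_fst] at hst
  have h1 : (s - t) • (v.1 - u.1) = 0 := by
    have : (s - t) • (v.1 - u.1) = ((1 - s) • u.1 + s • v.1) - ((1 - t) • u.1 + t • v.1) := by
      module
    rw [this, hst, sub_self]
  rcases smul_eq_zero.mp h1 with h2 | h2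
  · linarith
  · exact absurd (sub_eq_zero.mp h2).symm h

theorem prep2_seg (u v : ℂ × ℝ) (a b : ℝ) (hab : a ≤ b) (x : ℂ)
    (hx : x ∈ segment ℝ (prep2_p u v a).1 (prep2_p u v b).1) :
    ∃ t, a ≤ t ∧ t ≤ b ∧ x = (prep2_p u v t).1 := by
  obtain ⟨p, q, hp, hq, hpq, rfl⟩ := hx
  refine ⟨p * a + q * b, ?_, ?_, ?_⟩
  · have : p = 1 - q := by linarith
    subst this
    nlinarith
  · have : q = 1 - p := by linarith
    subst this
    nlinarith
  · have : p = 1 - q := by linarith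
    subst this
    rw [prep2_p_fst, prep2_p_fst, prep2_p_fst]
    module

theorem prep2_zero (u v : ℂ × ℝ) : prep2_p u v 0 = u := by simp [prep2_p]

theorem prep2_one (u v : ℂ × ℝ) : prep2_p u v 1 = v := by simp [prep2_p]

theorem prep2_edge {α : Type*} (a : α) (M A' : List α) (u v : α) (R : List α) (hA : a :: M = A' ++ [u]) :
    (u, v) ∈ cedges ((a :: M) ++ v :: R) := by
  have h1 : cedges ((a :: M) ++ v :: R) = pedges (A' ++ u :: v :: (R ++ [a])) := by
    rw [List.cons_append, ce_cons]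
    have : a :: ((M ++ v :: R) ++ [a]) = (a :: M) ++ (v :: (R ++ [a])) := by simp
    rw [this, hA]
    simp
  rw [h1, pe_append]
  simp [pedges]

/-- core version with `A' ++ u :: v :: R` -/
theorem prep2_core {O : ℂ} {A' : List (ℂ × ℝ)} {u v : ℂ × ℝ} {R : List (ℂ × ℝ)} (hr : Reg O (A' ++ u :: v :: R))
    (hfd : (dbl O (A' ++ u :: v :: R)).Finite)
    (he : (u, v) ∈ cedges (A' ++ u :: v :: R))
    (hx : ∃ x ∈ dbl O (A' ++ u :: v :: R), x ∈ segment ℝ u.1 v.1) :
    ∃ (y y2 : ℂ × ℝ) (c : ℂ), c ∈ dbl O (A' ++ u :: v :: R) ∧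
      c ∈ openSegment ℝ u.1 y.1 ∧ y.1 ≠ O ∧ y2.1 ≠ O ∧
      (∀ x ∈ segment ℝ u.1 y.1, x ≠ O → x ≠ c → mult (A' ++ u :: v :: R) x ≤ 1) ∧
      (∀ x ∈ segment ℝ y.1 y2.1, x ≠ O → mult (A' ++ u :: v :: R) x ≤ 1) ∧
      Reg O (A' ++ u :: y :: y2 :: v :: R) ∧
      Eqv (A' ++ u :: v :: R) (A' ++ u :: y :: y2 :: v :: R) ∧
      (∀ x, mult (A' ++ u :: y :: y2 :: v :: R) x = mult (A' ++ u :: v :: R) x) ∧
      ax O (A' ++ u :: y :: y2 :: v :: R) = ax O (A' ++ u :: v :: R) := by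
  classical
  have huv : u.1 ≠ v.1 := hr.nondeg _ he
  set P := A' ++ u :: v :: R with hP
  have huP : u ∈ P := by simp [hP]
  have hvP : v ∈ P := by simp [hP]
  have hpinj : Function.Injective (fun t => (prep2_p u v t).1) := fun s t hst => prep2_inj u v huv s t hst
  have hfin : {t : ℝ | (prep2_p u v t).1 ∈ dbl O P}.Finite :=
    hfd.preimage hpinj.injOn
  let T : Set ℝ := {t : ℝ | (prep2_p u v t).1 ∈ dbl O P ∧ 0 ≤ t ∧ t ≤ 1}
  have hTfin : T.Finite := hfin.subset fun t ht => ht.1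
  have hTne : T.Nonempty := by
    obtain ⟨x, hx1, hx2⟩ := hx
    have hx3 : x ∈ segment ℝ (prep2_p u v 0).1 (prep2_p u v 1).1 := by
      rwa [prep2_zero, prep2_one]
    obtain ⟨t, h0, h1, rfl⟩ := prep2_seg u v 0 1 zero_le_one x hx3
    exact ⟨t, hx1, h0, h1⟩
  have hT0 : ∀ t ∈ T, 0 < t := by
    rintro t ⟨h1, h2, h3⟩
    rcases h2.lt_or_eq with h | h
    · exact h
    · subst h
      rw [prep2_zero] at h1
      have := hr.vert u huP h1.1
      have h4 := h1.2
      omega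
  have hT1 : ∀ t ∈ T, t < 1 := by
    rintro t ⟨h1, h2, h3⟩
    rcases h3.lt_or_eq with h | h
    · exact h
    · subst h
      rw [prep2_one] at h1
      have := hr.vert v hvP h1.1
      have h4 := h1.2
      omega
  obtain ⟨t0, ht0, hmin0⟩ := hTfin.exists_minimal hTne
  have hmin0' : ∀ t ∈ T, t0 ≤ t := by
    intro t ht
    rcases le_total t0 t with h | h
    · exact h
    · exact hmin0 ht h
  let T' : Set ℝ := insert 1 {t ∈ T | t0 < t}
  have hT'fin : T'.Finite := (hTfin.subset fun t ht => ht.1).insert 1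
  have hT'ne : T'.Nonempty := ⟨1, mem_insert _ _⟩
  obtain ⟨t1, ht1, hmin1⟩ := hT'fin.exists_minimal hT'ne
  have hmin1' : ∀ t ∈ T', t1 ≤ t := by
    intro t ht
    rcases le_total t1 t with h | h
    · exact h
    · exact hmin1 ht h
  have ht01 : t0 < t1 := by
    rcases ht1 with h | h
    · rw [h]; exact hT1 _ ht0
    · exact h.2
  have ht1le : t1 ≤ 1 := hmin1' 1 (mem_insert _ _)
  have ht0pos := hT0 t0 ht0
  obtain ⟨s1, hs1⟩ : ∃ s1, s1 = t0 + (t1 - t0) / 3 := ⟨_, rfl⟩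
  obtain ⟨s2, hs2⟩ : ∃ s2, s2 = t0 + 2 * (t1 - t0) / 3 := ⟨_, rfl⟩
  have l1 : t0 < s1 := by rw [hs1]; linarith
  have l2 : s1 < s2 := by rw [hs1, hs2]; linarith
  have l3 : s2 < t1 := by rw [hs2]; linarith
  have hne : ∀ t, 0 < t → t < 1 → (prep2_p u v t).1 ≠ O := by
    intro t h0 h1 hO
    have hseg : O ∈ segment ℝ u.1 v.1 := by
      rw [← hO, prep2_p_fst]
      exact ⟨1 - t, t, by linarith, by linarith, by ring, rfl⟩
    rcases center_seg hr _ he hseg with h | h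
    · simp only at h
      have : (prep2_p u v t).1 = (prep2_p u v 0).1 := by rw [hO, prep2_zero, h]
      have := hpinj this
      linarith
    · simp only at h
      have : (prep2_p u v t).1 = (prep2_p u v 1).1 := by rw [hO, prep2_one, h]
      have := hpinj this
      linarith
  have key : ∀ t, 0 ≤ t → t < t1 → t ≠ t0 → (prep2_p u v t).1 ≠ O → mult P (prep2_p u v t).1 ≤ 1 := by
    intro t h0 h1 h2 hO
    have h3 := hr.two _ hO
    by_contra hcon
    have h4 : mult P (prep2_p u v t).1 = 2 := by omega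
    have h5 : t ∈ T := ⟨⟨hO, h4⟩, h0, by linarith⟩
    have h6 := hmin0' t h5
    have h7 : t0 < t := lt_of_le_of_ne h6 (Ne.symm h2)
    have h8 := hmin1' t (mem_insert_of_mem _ ⟨h5, h7⟩)
    linarith
  have hy1 : (prep2_p u v s1).1 ≠ O := hne _ (by linarith) (by linarith)
  have hy2 : (prep2_p u v s2).1 ≠ O := hne _ (by linarith) (by linarith)
  have hs2pos : 0 < s2 := by linarith
  -- first insertion
  have m1 : ∀ x, mult (A' ++ u :: prep2_p u v s2 :: v :: R) x = mult P x := fun x =>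
    mult_insert A' R u v huv s2 (by linarith) (by linarith) x
  have r1 : Reg O (A' ++ u :: prep2_p u v s2 :: v :: R) :=
    reg_insert A' R u v s2 (by linarith) (by linarith) hr hy2 (key s2 (by linarith) l3 (by linarith) hy2)
  have e1 : Eqv P (A' ++ u :: prep2_p u v s2 :: v :: R) :=
    eqv_insert A' R u v s2 (by linarith) (by linarith)
  have hyy : prep2_p u v s1 = (1 - s1 / s2) • u + (s1 / s2) • prep2_p u v s2 := by
    unfold prep2_p
    have h1 : (s1 / s2) * s2 = s1 := div_mul_cancel₀ _ hs2pos.ne'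
    have h2 : (1 - s1 / s2) • u + (s1 / s2) • ((1 - s2) • u + s2 • v) =
        (1 - (s1 / s2) * s2) • u + ((s1 / s2) * s2) • v := by module
    rw [h2, h1]
  have hs' : 0 < s1 / s2 := div_pos (by linarith) hs2pos
  have hs'' : s1 / s2 < 1 := (div_lt_one hs2pos).mpr l2
  have hu2 : u.1 ≠ (prep2_p u v s2).1 := by
    intro h
    have : (prep2_p u v 0).1 = (prep2_p u v s2).1 := by rw [prep2_zero, ← h]
    have := hpinj this
    linarith
  have m2 : ∀ x, mult (A' ++ u :: prep2_p u v s1 :: prep2_p u v s2 :: v :: R) x =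
      mult (A' ++ u :: prep2_p u v s2 :: v :: R) x := by
    intro x
    rw [hyy]
    exact mult_insert A' (v :: R) u (prep2_p u v s2) hu2 (s1 / s2) hs' hs'' x
  have r2 : Reg O (A' ++ u :: prep2_p u v s1 :: prep2_p u v s2 :: v :: R) := by
    have h := reg_insert A' (v :: R) u (prep2_p u v s2) (s1 / s2) hs' hs'' r1
      (by rw [← hyy]; exact hy1)
      (by rw [← hyy, m1]; exact key s1 (by linarith) (by linarith) (by linarith) hy1)
    rwa [← hyy] at h
  have e2 : Eqv (A' ++ u :: prep2_p u v s2 :: v :: R)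
      (A' ++ u :: prep2_p u v s1 :: prep2_p u v s2 :: v :: R) := by
    have h := eqv_insert A' (v :: R) u (prep2_p u v s2) (s1 / s2) hs' hs''
    rwa [← hyy] at h
  refine ⟨prep2_p u v s1, prep2_p u v s2, (prep2_p u v t0).1, ht0.1, ?_, hy1, hy2, ?_, ?_, r2,
    Relation.EqvGen.trans _ _ _ e1 e2, ?_, ?_⟩
  · refine ⟨1 - t0 / s1, t0 / s1, ?_, ?_, by ring, ?_⟩
    · have : t0 / s1 < 1 := (div_lt_one (by linarith)).mpr l1
      linarith
    · exact div_pos ht0pos (by linarith)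
    · rw [prep2_p_fst, prep2_p_fst]
      have hs1pos : s1 ≠ 0 := by linarith
      have h1 : (t0 / s1) * s1 = t0 := div_mul_cancel₀ _ hs1pos
      have h2 : (1 - t0 / s1) • u.1 + (t0 / s1) • ((1 - s1) • u.1 + s1 • v.1) =
          (1 - (t0 / s1) * s1) • u.1 + ((t0 / s1) * s1) • v.1 := by module
      rw [h2, h1]
  · intro x hx1 hxO hxc
    have hx2 : x ∈ segment ℝ (prep2_p u v 0).1 (prep2_p u v s1).1 := by rwa [prep2_zero]
    obtain ⟨t, h0, h1, rfl⟩ := prep2_seg u v 0 s1 (by linarith) x hx2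
    exact key t h0 (by linarith) (fun h => hxc (by rw [h])) hxO
  · intro x hx1 hxO
    obtain ⟨t, h0, h1, rfl⟩ := prep2_seg u v s1 s2 l2.le x hx1
    exact key t (by linarith) (by linarith) (by linarith) hxO
  · intro x
    rw [m2, m1]
  · unfold ax
    rw [hP]
    simp [List.countP_append, List.countP_cons, hy1, hy2]

theorem prep2 {O : ℂ} {h : ℝ} {M : List (ℂ × ℝ)} {v : ℂ × ℝ} {R : List (ℂ × ℝ)} (hr : Reg O (((O, h) :: M) ++ v :: R))
    (hfd : (dbl O (((O, h) :: M) ++ v :: R)).Finite)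
    (moff : ∀ w ∈ M, w.1 ≠ O)
    (hx : ∃ x ∈ dbl O (((O, h) :: M) ++ v :: R), x ∈ segment ℝ (((O, h) :: M).getLast (by simp)).1 v.1) :
    ∃ (y y2 : ℂ × ℝ) (c : ℂ), c ∈ dbl O (((O, h) :: M) ++ v :: R) ∧
      c ∈ openSegment ℝ (((O, h) :: M).getLast (by simp)).1 y.1 ∧ y.1 ≠ O ∧ y2.1 ≠ O ∧
      (∀ x ∈ segment ℝ (((O, h) :: M).getLast (by simp)).1 y.1, x ≠ O → x ≠ c → mult (((O, h) :: M) ++ v :: R) x ≤ 1) ∧
      (∀ x ∈ segment ℝ y.1 y2.1, x ≠ O → mult (((O, h) :: M) ++ v :: R) x ≤ 1) ∧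
      Reg O (((O, h) :: M) ++ y :: y2 :: v :: R) ∧
      Eqv (((O, h) :: M) ++ v :: R) (((O, h) :: M) ++ y :: y2 :: v :: R) ∧
      (∀ x, mult (((O, h) :: M) ++ y :: y2 :: v :: R) x = mult (((O, h) :: M) ++ v :: R) x) ∧
      ax O (((O, h) :: M) ++ y :: y2 :: v :: R) = ax O (((O, h) :: M) ++ v :: R) := by
  obtain ⟨A', u, hA⟩ : ∃ (A' : List (ℂ × ℝ)) (u : ℂ × ℝ), (O, h) :: M = A' ++ [u] :=
    ⟨((O, h) :: M).dropLast, ((O, h) :: M).getLast (by simp), (List.dropLast_append_getLast (by simp)).symm⟩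
  have hu : ((O, h) :: M).getLast (by simp) = u := by
    simp [hA]
  have he : (u, v) ∈ cedges (((O, h) :: M) ++ v :: R) := prep2_edge (O, h) M A' u v R hA
  have hl : ∀ L : List (ℂ × ℝ), ((O, h) :: M) ++ L = A' ++ u :: L := by
    intro L
    rw [hA]
    simp
  rw [hu] at hx ⊢
  simp only [hl] at hr hfd hx he ⊢
  exact prep2_core hr hfd he hx

end Knot548
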