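import Pool.Agent.Helper548.Knot.Defs
import Pool.Agent.Helper548.Knot.P_ce_cons
import Pool.Agent.Helper548.Knot.P_pe_append
import Pool.Agent.Helper548.Knot.P_eqv_insert
import Pool.Agent.Helper548.Knot.P_mult_insert
import Pool.Agent.Helper548.Knot.P_reg_insert
import Pool.Agent.Helper548.Knot.P_center_seg
import Pool.Agent.Helper548.Knot.P_mult_ge_two
import Pool.Agent.Helper548.Knot.P_vert_unique



namespace Knot548
open Set


theorem p3_mem_pedges {α : Type*} (e : α × α) : ∀ (L : List α), e ∈ pedges L →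
    ∃ A B : List α, L = A ++ e.1 :: e.2 :: B
  | [], h => by simp [pedges] at h
  | [_], h => by simp [pedges] at h
  | a :: b :: l, h => by
    rw [pedges, List.mem_cons] at h
    rcases h with h | h
    · subst h
      exact ⟨[], l, rfl⟩
    · obtain ⟨A, B, hAB⟩ := p3_mem_pedges e (b :: l) h
      exact ⟨a :: A, B, by rw [hAB]; rfl⟩

theorem p3_ce_rotate {α : Type*} (L : List α) (k : ℕ) :
    cedges (L.rotate k) = (cedges L).rotate k := by
  unfold cedges
  rw [List.rotate_rotate, Nat.add_comm, ← List.rotate_rotate]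
  unfold List.zip
  rw [List.zipWith_rotate_distrib _ _ _ _ (by simp)]

theorem p3_ce_perm {α : Type*} {L L' : List α} (h : L ~r L') : (cedges L).Perm (cedges L') := by
  obtain ⟨k, rfl⟩ := h
  rw [p3_ce_rotate]
  exact (List.rotate_perm _ _).symm

theorem p3_mult {L L' : List (ℂ × ℝ)} (h : L ~r L') (x : ℂ) : mult L x = mult L' x := by
  unfold mult cnt
  exact (p3_ce_perm h).countP_eq _

theorem p3_ax {O : ℂ} {L L' : List (ℂ × ℝ)} (h : L ~r L') : ax O L = ax O L' := by
  unfold ax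
  exact h.perm.countP_eq _

theorem p3_eqv {E : Type*} [AddCommGroup E] [Module ℝ E] [TopologicalSpace E] {L L' : List E}
    (h : L ~r L') : Eqv L L' := by
  obtain ⟨k, rfl⟩ := h
  induction k with
  | zero => rw [List.rotate_zero]; exact Relation.EqvGen.refl _
  | succ k ih =>
    rw [← List.rotate_rotate]
    exact Relation.EqvGen.trans _ _ _ ih (Relation.EqvGen.rel _ _ (Move.rotate _))

theorem p3_reg {O : ℂ} {L L' : List (ℂ × ℝ)} (h : L ~r L') (hr : Reg O L) : Reg O L' := by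
  have hp := p3_ce_perm h
  refine ⟨⟨fun e he => hr.simple.1 e (hp.mem_iff.2 he), ?_⟩,
    fun e he => hr.nondeg e (hp.mem_iff.2 he), ?_, fun x hx => ?_, fun v hv hvO => ?_⟩
  · exact (hp.pairwise_iff (fun {_ _} hxy => Disjoint.symm hxy)).1 hr.simple.2
  · rw [← p3_mult h, ← p3_ax h]; exact hr.center
  · rw [← p3_mult h]; exact hr.two x hx
  · rw [← p3_mult h]; exact hr.vert v (h.perm.mem_iff.2 hv) hvO

theorem p3_decomp {O : ℂ} {h : ℝ} {M : List (ℂ × ℝ)} {y y2 : ℂ × ℝ} {Z : List (ℂ × ℝ)}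
    {p q : ℂ × ℝ} {A B : List (ℂ × ℝ)} (hL : y2 :: (Z ++ [(O, h)]) = A ++ p :: q :: B) :
    ∃ X Y R : List (ℂ × ℝ), (((O, h) :: M) ++ y :: y2 :: Z) ~r (p :: q :: R) ∧
      ∀ a b : ℂ × ℝ, ((((O, h) :: M) ++ [y, y2]) ++ X ++ [a, b] ++ Y) ~r (p :: a :: b :: q :: R) := by
  rcases List.eq_nil_or_concat B with hB | ⟨B', z, hB⟩
  · subst hB
    -- q = (O,h), y2 :: Z = A ++ [p]
    have h1 : (y2 :: Z) ++ [(O, h)] = (A ++ [p]) ++ [q] := by
      rw [List.cons_append, hL]; simp
    obtain ⟨h2, h3⟩ := List.append_inj' h1 rfl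
    have h4 : q = (O, h) := by simpa using h3.symm
    subst h4
    obtain ⟨X, hX⟩ : ∃ X, A ++ [p] = y2 :: X := ⟨Z, h2.symm⟩
    refine ⟨X, [], M ++ y :: A, ?_, ?_⟩
    · have e1 : (((O, h) :: M) ++ y :: y2 :: Z) = ((O, h) :: (M ++ y :: A)) ++ [p] := by
        rw [h2]; simp
      rw [e1]
      exact List.isRotated_append
    · intro a b
      have e1 : ((((O, h) :: M) ++ [y, y2]) ++ X ++ [a, b] ++ []) =
          ((O, h) :: (M ++ y :: A)) ++ [p, a, b] := by
        have : ((((O, h) :: M) ++ [y, y2]) ++ X ++ [a, b] ++ []) =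
          (((O, h) :: M) ++ [y]) ++ (y2 :: X) ++ [a, b] := by simp
        rw [this, ← hX]; simp
      rw [e1]
      exact List.isRotated_append
  · subst hB
    have h1 : (y2 :: Z) ++ [(O, h)] = (A ++ p :: q :: B') ++ [z] := by
      rw [List.cons_append, hL]; simp
    obtain ⟨h2, h3⟩ := List.append_inj' h1 rfl
    obtain ⟨X, hX⟩ : ∃ X, A ++ [p] = y2 :: X := by
      cases A with
      | nil =>
        simp only [List.nil_append, List.cons.injEq] at h2
        exact ⟨[], by rw [h2.1]; rfl⟩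
      | cons a A' =>
        simp only [List.cons_append, List.cons.injEq] at h2
        exact ⟨A' ++ [p], by rw [h2.1]; rfl⟩
    refine ⟨X, q :: B', B' ++ (((O, h) :: M) ++ y :: A), ?_, ?_⟩
    · have e1 : (((O, h) :: M) ++ y :: y2 :: Z) = (((O, h) :: M) ++ y :: A) ++ (p :: q :: B') := by
        rw [h2]; simp
      rw [e1]
      have e2 : p :: q :: (B' ++ (((O, h) :: M) ++ y :: A)) =
        (p :: q :: B') ++ (((O, h) :: M) ++ y :: A) := by simp
      rw [e2]
      exact List.isRotated_append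
    · intro a b
      have e1 : ((((O, h) :: M) ++ [y, y2]) ++ X ++ [a, b] ++ (q :: B')) =
          (((O, h) :: M) ++ y :: A) ++ (p :: a :: b :: q :: B') := by
        have : ((((O, h) :: M) ++ [y, y2]) ++ X ++ [a, b] ++ (q :: B')) =
          (((O, h) :: M) ++ [y]) ++ (y2 :: X) ++ (a :: b :: q :: B') := by simp
        rw [this, ← hX]; simp
      rw [e1]
      have e2 : p :: a :: b :: q :: (B' ++ (((O, h) :: M) ++ y :: A)) =
        (p :: a :: b :: q :: B') ++ (((O, h) :: M) ++ y :: A) := by simp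
      rw [e2]
      exact List.isRotated_append

theorem p3_hseg_sub (a b : ℂ) : hseg a b ⊆ segment ℝ a b := by
  rintro x ⟨s, h0, h1, rfl⟩
  exact ⟨1 - s, s, by linarith, h0, by ring, rfl⟩

theorem p3_ce_decomp {O : ℂ} {h : ℝ} {M : List (ℂ × ℝ)} {y y2 : ℂ × ℝ} {Z : List (ℂ × ℝ)} :
    cedges (((O, h) :: M) ++ y :: y2 :: Z) = pedges ((O, h) :: M) ++
      ((((O, h) :: M).getLast (by simp)), y) :: (y, y2) :: pedges (y2 :: (Z ++ [(O, h)])) := by
  have e0 : ((O, h) :: M) ++ y :: y2 :: Z = (O, h) :: (M ++ y :: y2 :: Z) := rfl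
  rw [e0, ce_cons]
  have hne : ((O, h) :: M) ≠ [] := by simp
  have e1 : ((O, h) :: M) = ((O, h) :: M).dropLast ++ [((O, h) :: M).getLast hne] :=
    (List.dropLast_append_getLast hne).symm
  have e2 : (O, h) :: ((M ++ y :: y2 :: Z) ++ [(O, h)]) = ((O, h) :: M).dropLast ++
      (((O, h) :: M).getLast hne) :: (y :: y2 :: (Z ++ [(O, h)])) := by
    calc (O, h) :: ((M ++ y :: y2 :: Z) ++ [(O, h)]) =
        ((O, h) :: M) ++ (y :: y2 :: (Z ++ [(O, h)])) := by simp
      _ = (((O, h) :: M).dropLast ++ [((O, h) :: M).getLast hne]) ++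
          (y :: y2 :: (Z ++ [(O, h)])) := by rw [← e1]
      _ = _ := by simp
  rw [e2, pe_append, ← e1]
  rfl

theorem prep3 {O : ℂ} {h : ℝ} {M : List (ℂ × ℝ)} {y y2 : ℂ × ℝ} {Z : List (ℂ × ℝ)} {c : ℂ}
    (hr : Reg O (((O, h) :: M) ++ y :: y2 :: Z))
    (hfd : (dbl O (((O, h) :: M) ++ y :: y2 :: Z)).Finite) (moff : ∀ w ∈ M, w.1 ≠ O)
    (k1 : ∀ x ∈ psegs (pedges ((O, h) :: M)), x ≠ O → mult (((O, h) :: M) ++ y :: y2 :: Z) x ≤ 1)
    (hc : c ∈ dbl O (((O, h) :: M) ++ y :: y2 :: Z))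
    (ce : c ∈ openSegment ℝ (((O, h) :: M).getLast (by simp)).1 y.1) (yoff : y.1 ≠ O) (y2off : y2.1 ≠ O)
    (k3 : ∀ x ∈ segment ℝ (((O, h) :: M).getLast (by simp)).1 y.1, x ≠ O → x ≠ c →
      mult (((O, h) :: M) ++ y :: y2 :: Z) x ≤ 1)
    (k4 : ∀ x ∈ segment ℝ y.1 y2.1, x ≠ O → mult (((O, h) :: M) ++ y :: y2 :: Z) x ≤ 1) :
    ∃ (X : List (ℂ × ℝ)) (a b : ℂ × ℝ) (Y : List (ℂ × ℝ)), Ready O h M y y2 X a b Y c ∧
      Eqv (((O, h) :: M) ++ y :: y2 :: Z) ((((O, h) :: M) ++ [y, y2]) ++ X ++ [a, b] ++ Y) ∧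
      (∀ x, mult ((((O, h) :: M) ++ [y, y2]) ++ X ++ [a, b] ++ Y) x = mult (((O, h) :: M) ++ y :: y2 :: Z) x) ∧
      ax O ((((O, h) :: M) ++ [y, y2]) ++ X ++ [a, b] ++ Y) = ax O (((O, h) :: M) ++ y :: y2 :: Z) := by
  classical
  obtain ⟨hcO, hc2⟩ := hc
  -- the second edge through `c`
  obtain ⟨e, he, hce⟩ : ∃ e ∈ pedges (y2 :: (Z ++ [(O, h)])), c ∈ hseg e.1.1 e.2.1 := by
    by_contra hcon
    push Not at hcon
    have h1 := hc2
    unfold mult cnt at h1
    rw [p3_ce_decomp, List.countP_append, List.countP_cons, List.countP_cons] at h1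
    have z1 : (pedges ((O, h) :: M)).countP (fun e => decide (c ∈ hseg e.1.1 e.2.1)) = 0 := by
      rw [List.countP_eq_zero]
      intro e he
      simp only [decide_eq_true_eq]
      intro hh
      have := k1 c ⟨e, he, p3_hseg_sub _ _ hh⟩ hcO
      omega
    have z2 : (pedges (y2 :: (Z ++ [(O, h)]))).countP
        (fun e => decide (c ∈ hseg e.1.1 e.2.1)) = 0 := by
      rw [List.countP_eq_zero]
      intro e he
      simp only [decide_eq_true_eq]
      exact hcon e he
    have z3 : ¬ (c ∈ hseg y.1 y2.1) := by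
      intro hh
      have := k4 c (p3_hseg_sub _ _ hh) hcO
      omega
    rw [z1, z2] at h1
    simp only [z3, decide_false] at h1
    split_ifs at h1 <;> first | contradiction | omega | simp at h1
  obtain ⟨A, B, hAB⟩ := p3_mem_pedges e _ he
  obtain ⟨p, q⟩ := e
  simp only at hce hAB
  have hece : (p, q) ∈ cedges (((O, h) :: M) ++ y :: y2 :: Z) := by
    rw [p3_ce_decomp]
    apply List.mem_append_right
    exact List.mem_cons_of_mem _ (List.mem_cons_of_mem _ he)
  have hpq : p.1 ≠ q.1 := hr.nondeg (p, q) hece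
  obtain ⟨X, Y, R, hrot, hrot2⟩ := p3_decomp (M := M) (y := y) hAB
  -- the parameter of c
  obtain ⟨s, hs0, hs1, hcs⟩ := hce
  have hpmem : p ∈ (((O, h) :: M) ++ y :: y2 :: Z) := hrot.perm.mem_iff.2 (by simp)
  have hs0' : 0 < s := by
    rcases hs0.lt_or_eq with h' | h'
    · exact h'
    · exfalso
      rw [← h'] at hcs
      have hcp : c = p.1 := by rw [hcs]; simp
      have := hr.vert p hpmem (by rw [← hcp]; exact hcO)
      rw [← hcp] at this
      omega
  let f : ℝ → ℂ := fun t => (1 - t) • p.1 + t • q.1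
  have hf : ∀ t t', f t = f t' → t = t' := by
    intro t t' htt
    have h1 : (t - t') • (q.1 - p.1) = 0 := by
      have : (t - t') • (q.1 - p.1) = f t - f t' := by simp only [f]; module
      rw [this, htt, sub_self]
    rcases smul_eq_zero.1 h1 with h2 | h2
    · linarith
    · exact absurd (sub_eq_zero.1 h2).symm hpq
  have hfO : ∀ t, 0 < t → t < 1 → f t ≠ O := by
    intro t h0 h1 hO
    have h2 : O ∈ segment ℝ p.1 q.1 := ⟨1 - t, t, by linarith, h0.le, by ring, hO⟩
    rcases center_seg hr (p, q) hece h2 with h3 | h3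
    · have h4 : f t = f 0 := by rw [hO]; simp only [f]; simpa using h3.symm
      have := hf _ _ h4
      linarith
    · have h4 : f t = f 1 := by rw [hO]; simp only [f]; simpa using h3.symm
      have := hf _ _ h4
      linarith
  have hfs : f s = c := hcs.symm
  have hfin : {t | f t ∈ dbl O (((O, h) :: M) ++ y :: y2 :: Z)}.Finite :=
    hfd.preimage (fun t _ t' _ htt => hf t t' htt)
  obtain ⟨ε, hε, hball⟩ : ∃ ε > 0, ∀ t, |t - s| < ε → t ≠ s →
      f t ∉ dbl O (((O, h) :: M) ++ y :: y2 :: Z) := by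
    have hcl : IsClosed ({t | f t ∈ dbl O (((O, h) :: M) ++ y :: y2 :: Z)} \ {s}) :=
      (hfin.subset Set.sdiff_subset).isClosed
    have hmem : ({t | f t ∈ dbl O (((O, h) :: M) ++ y :: y2 :: Z)} \ {s})ᶜ ∈ nhds s :=
      hcl.isOpen_compl.mem_nhds (by simp)
    obtain ⟨ε, hε, hb⟩ := Metric.mem_nhds_iff.1 hmem
    refine ⟨ε, hε, fun t ht hts hd => ?_⟩
    exact hb (Metric.mem_ball.2 (by rw [Real.dist_eq]; exact ht)) ⟨hd, hts⟩
  set δ := min (ε / 2) (min (s / 2) ((1 - s) / 2)) with hδ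
  have hδ0 : 0 < δ := by
    rw [hδ]
    exact lt_min (by linarith) (lt_min (by linarith) (by linarith))
  have hδ1 : δ ≤ ε / 2 := min_le_left _ _
  have hδ2 : δ ≤ s / 2 := (min_le_right _ _).trans (min_le_left _ _)
  have hδ3 : δ ≤ (1 - s) / 2 := (min_le_right _ _).trans (min_le_right _ _)
  set α := s - δ with hα
  set β := s + δ with hβ
  have hα0 : 0 < α := by linarith
  have hβ1 : β < 1 := by linarith
  have hαβ : α < β := by linarith
  have hβ0 : 0 < β := by linarith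
  have hm1 : ∀ t, α ≤ t → t ≤ β → t ≠ s → mult (((O, h) :: M) ++ y :: y2 :: Z) (f t) ≤ 1 := by
    intro t h1 h2 h3
    have h4 := hball t (by rw [abs_lt]; constructor <;> linarith) h3
    have h5 : f t ≠ O := hfO t (by linarith) (by linarith)
    have h6 := hr.two _ h5
    have h7 : mult (((O, h) :: M) ++ y :: y2 :: Z) (f t) ≠ 2 := fun h8 => h4 ⟨h5, h8⟩
    omega
  let b : ℂ × ℝ := (1 - β) • p + β • q
  let a : ℂ × ℝ := (1 - α / β) • p + (α / β) • b
  have hb1 : b.1 = f β := by simp [b, f]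
  have ha1 : a.1 = f α := by
    have : a = (1 - α) • p + α • q := by
      have h9 : α / β * β = α := by field_simp
      simp only [a, b]
      rw [smul_add, smul_smul, smul_smul, h9]
      have h10 : (α / β) * (1 - β) = α / β - α := by
        rw [mul_sub, h9]; ring
      rw [h10]
      module
    rw [this]
    simp [f]
  have hg0 : 0 < α / β := div_pos hα0 hβ0
  have hg1 : α / β < 1 := by rw [div_lt_one hβ0]; exact hαβ
  -- the chain of polygons
  have hr0 : Reg O (p :: q :: R) := p3_reg hrot hr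
  have hmu0 : ∀ x, mult (p :: q :: R) x = mult (((O, h) :: M) ++ y :: y2 :: Z) x :=
    fun x => (p3_mult hrot x).symm
  have hr1 : Reg O (p :: b :: q :: R) := by
    apply reg_insert [] R p q β hβ0 hβ1 hr0
    · show b.1 ≠ O
      rw [hb1]; exact hfO β hβ0 hβ1
    · show mult (p :: q :: R) b.1 ≤ 1
      rw [hmu0, hb1]
      exact hm1 β hαβ.le le_rfl (by linarith)
  have hmu1 : ∀ x, mult (p :: b :: q :: R) x = mult (((O, h) :: M) ++ y :: y2 :: Z) x := by
    intro x
    rw [← hmu0]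
    exact mult_insert [] R p q hpq β hβ0 hβ1 x
  have hpb : p.1 ≠ b.1 := by
    rw [hb1]
    intro h1
    have h2 : f 0 = f β := by rw [← h1]; simp [f]
    have := hf _ _ h2
    linarith
  have hr2 : Reg O (p :: a :: b :: q :: R) := by
    apply reg_insert [] (q :: R) p b (α / β) hg0 hg1 hr1
    · show a.1 ≠ O
      rw [ha1]; exact hfO α hα0 (by linarith)
    · show mult (p :: b :: q :: R) a.1 ≤ 1
      rw [hmu1, ha1]
      exact hm1 α le_rfl hαβ.le (by linarith)
  have hmu2 : ∀ x, mult (p :: a :: b :: q :: R) x = mult (((O, h) :: M) ++ y :: y2 :: Z) x := by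
    intro x
    rw [← hmu1]
    exact mult_insert [] (q :: R) p b hpb (α / β) hg0 hg1 x
  have hmu3 : ∀ x, mult ((((O, h) :: M) ++ [y, y2]) ++ X ++ [a, b] ++ Y) x =
      mult (((O, h) :: M) ++ y :: y2 :: Z) x := by
    intro x
    rw [p3_mult (hrot2 a b) x, hmu2]
  have hr3 : Reg O ((((O, h) :: M) ++ [y, y2]) ++ X ++ [a, b] ++ Y) :=
    p3_reg (hrot2 a b).symm hr2
  have haO : a.1 ≠ O := by rw [ha1]; exact hfO α hα0 (by linarith)
  have hbO : b.1 ≠ O := by rw [hb1]; exact hfO β hβ0 hβ1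
  refine ⟨X, a, b, Y, ⟨hr3, moff, yoff, y2off, haO, hbO, hcO, ?_, ce, ?_, ?_, ?_, ?_, ?_⟩, ?_,
    hmu3, ?_⟩
  · rw [hmu3]; exact hc2
  · rw [ha1, hb1, ← hfs]
    refine ⟨1 / 2, 1 / 2, by norm_num, by norm_num, by norm_num, ?_⟩
    simp only [f, hα, hβ]
    module
  · intro x hx hxO
    rw [hmu3]; exact k1 x hx hxO
  · intro x hx hxO hxc
    rw [hmu3]; exact k3 x hx hxO hxc
  · intro x hx hxO
    rw [hmu3]; exact k4 x hx hxO
  · intro x hx hxO hxc
    rw [hmu3]
    rw [ha1, hb1] at hx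
    obtain ⟨u, v, hu, hv, huv, hx⟩ := hx
    have hxt : x = f (u * α + v * β) := by
      rw [← hx]
      simp only [f]
      have : u = 1 - v := by linarith
      subst this
      module
    rw [hxt]
    apply hm1
    · nlinarith
    · nlinarith
    · intro h1
      apply hxc
      rw [hxt, h1, hfs]
  · have t1 : Eqv (((O, h) :: M) ++ y :: y2 :: Z) (p :: q :: R) := p3_eqv hrot
    have t2 : Eqv (p :: q :: R) (p :: b :: q :: R) := eqv_insert [] R p q β hβ0 hβ1
    have t3 : Eqv (p :: b :: q :: R) (p :: a :: b :: q :: R) :=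
      eqv_insert [] (q :: R) p b (α / β) hg0 hg1
    have t4 : Eqv (p :: a :: b :: q :: R) ((((O, h) :: M) ++ [y, y2]) ++ X ++ [a, b] ++ Y) :=
      p3_eqv (hrot2 a b).symm
    exact Relation.EqvGen.trans _ _ _ t1 (Relation.EqvGen.trans _ _ _ t2
      (Relation.EqvGen.trans _ _ _ t3 t4))
  · rw [p3_ax (hrot2 a b), p3_ax hrot]
    unfold ax
    simp [List.countP_cons, haO, hbO]

end Knot548
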