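import Pool.Agent.Helper548.Knot.Defs
import Pool.Agent.Helper548.Knot.P_mult_rotate
import Pool.Agent.Helper548.Knot.P_reg_rotate
import Pool.Agent.Helper548.Knot.P_eqv_rotate
import Pool.Agent.Helper548.Knot.P_prep1
import Pool.Agent.Helper548.Knot.P_prep2
import Pool.Agent.Helper548.Knot.P_prep3



namespace Knot548
open Set


theorem prep_dbl {O : ℂ} {P Q : List (ℂ × ℝ)} (h : ∀ x, mult P x = mult Q x) : dbl O P = dbl O Q := by
  ext x
  simp only [dbl, Set.mem_setOf_eq, h]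

theorem prep_ax (O : ℂ) (P : List (ℂ × ℝ)) (k : ℕ) : ax O (P.rotate k) = ax O P := by
  unfold ax
  exact List.Perm.countP_eq _ (List.rotate_perm P k)

theorem prep {O : ℂ} {P : List (ℂ × ℝ)} (hr : Reg O P) (hax : 1 ≤ ax O P) (hd : (dbl O P).Nonempty)
    (hfin : (dbl O P).Finite) :
    ∃ (h : ℝ) (M : List (ℂ × ℝ)) (y y2 : ℂ × ℝ) (X : List (ℂ × ℝ)) (a b : ℂ × ℝ) (Y : List (ℂ × ℝ)) (c : ℂ),
      Ready O h M y y2 X a b Y c ∧ Eqv P ((((O, h) :: M) ++ [y, y2]) ++ X ++ [a, b] ++ Y) ∧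
      dbl O ((((O, h) :: M) ++ [y, y2]) ++ X ++ [a, b] ++ Y) = dbl O P ∧
      ax O ((((O, h) :: M) ++ [y, y2]) ++ X ++ [a, b] ++ Y) = ax O P := by
  
  obtain ⟨h, M, v, R, k, hk, moff, k1, x0, hx0, hx0'⟩ := prep1 hr hax hd
  have hm1 : ∀ x, mult (((O, h) :: M) ++ v :: R) x = mult P x := by
    intro x
    rw [← hk]
    exact mult_rotate P k x
  have hr1 : Reg O (((O, h) :: M) ++ v :: R) := by
    rw [← hk]
    exact (reg_rotate k).2 hr
  have ha1 : ax O (((O, h) :: M) ++ v :: R) = ax O P := by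
    rw [← hk]
    exact prep_ax O P k
  have he1 : Eqv P (((O, h) :: M) ++ v :: R) := by
    rw [← hk]
    exact eqv_rotate P k
  have hd1 : dbl O (((O, h) :: M) ++ v :: R) = dbl O P := prep_dbl hm1
  obtain ⟨y, y2, c, hc, ce, yoff, y2off, k3, k4, hr2, he2, hm2, ha2⟩ :=
    prep2 hr1 (by rw [hd1]; exact hfin) moff ⟨x0, by rw [hd1]; exact hx0, hx0'⟩
  have hd2 : dbl O (((O, h) :: M) ++ y :: y2 :: v :: R) = dbl O (((O, h) :: M) ++ v :: R) :=
    prep_dbl hm2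
  obtain ⟨X, a, b, Y, hR, he3, hm3, ha3⟩ := prep3 (Z := v :: R) hr2 (by rw [hd2, hd1]; exact hfin) moff
    (by intro x hx hxO; rw [hm2, hm1]; exact k1 x hx hxO)
    (by rw [hd2]; exact hc) ce yoff y2off
    (by intro x hx hxO hxc; rw [hm2]; exact k3 x hx hxO hxc)
    (by intro x hx hxO; rw [hm2]; exact k4 x hx hxO)
  refine ⟨h, M, y, y2, X, a, b, Y, c, hR, ?_, ?_, ?_⟩
  · exact Relation.EqvGen.trans _ _ _ (Relation.EqvGen.trans _ _ _ he1 he2) he3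
  · rw [prep_dbl hm3, hd2, hd1]
  · rw [ha3, ha2, ha1]

end Knot548
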