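import Pool.Agent.Helper548.Knot.Defs



namespace Knot548
open Set


theorem eqvm_cedges {α β : Type*} (f : α → β) (L : List α) :
    cedges (L.map f) = (cedges L).map (Prod.map f f) := by
  unfold cedges
  rw [← List.map_rotate, List.zip_map]

theorem eqvm_hseg {E F : Type*} [AddCommGroup E] [Module ℝ E] [TopologicalSpace E] [AddCommGroup F]
    [Module ℝ F] [TopologicalSpace F] (e : E ≃L[ℝ] F) (a b : E) :
    hseg (e a) (e b) = e '' hseg a b := by
  ext x
  constructor
  · rintro ⟨s, h0, h1, rfl⟩
    refine ⟨(1 - s) • a + s • b, ⟨s, h0, h1, rfl⟩, ?_⟩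
    rw [map_add, map_smul, map_smul]
  · rintro ⟨y, ⟨s, h0, h1, rfl⟩, rfl⟩
    refine ⟨s, h0, h1, ?_⟩
    rw [map_add, map_smul, map_smul]

theorem eqvm_simple {E F : Type*} [AddCommGroup E] [Module ℝ E] [TopologicalSpace E] [AddCommGroup F]
    [Module ℝ F] [TopologicalSpace F] (e : E ≃L[ℝ] F) {L : List E} (h : Simple L) :
    Simple (L.map e) := by
  unfold Simple
  rw [eqvm_cedges]
  constructor
  · intro p hp
    rw [List.mem_map] at hp
    obtain ⟨q, hq, rfl⟩ := hp
    intro heq
    exact h.1 q hq (e.injective heq)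
  · rw [List.pairwise_map]
    refine h.2.imp ?_
    intro p q hpq
    show Disjoint (hseg (e p.1) (e p.2)) (hseg (e q.1) (e q.2))
    rw [eqvm_hseg, eqvm_hseg, Set.disjoint_image_iff e.injective]
    exact hpq

theorem eqvm_move {E F : Type*} [AddCommGroup E] [Module ℝ E] [TopologicalSpace E] [AddCommGroup F]
    [Module ℝ F] [TopologicalSpace F] (e : E ≃L[ℝ] F) {P Q : List E} (h : Move P Q) :
    Move (P.map e) (Q.map e) := by
  cases h with
  | motion v hv hs =>
    rw [List.map_ofFn, List.map_ofFn]
    refine Move.motion (fun t => e ∘ v t) ?_ ?_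
    · refine continuous_pi fun i => ?_
      exact e.continuous.comp ((continuous_apply i).comp hv)
    · intro t ht
      rw [← List.map_ofFn]
      exact eqvm_simple e (hs t ht)
  | insert a b L s h0 h1 =>
    simp only [List.map_cons, map_add, map_smul]
    exact Move.insert (e a) (e b) (L.map e) s h0 h1
  | rotate =>
    rw [List.map_rotate]
    exact Move.rotate _

theorem eqv_map {E F : Type*} [AddCommGroup E] [Module ℝ E] [TopologicalSpace E] [AddCommGroup F] [Module ℝ F]
    [TopologicalSpace F] (e : E ≃L[ℝ] F) {P Q : List E} (h : Eqv P Q) : Eqv (P.map e) (Q.map e) := by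
  unfold Eqv at h ⊢
  induction h with
  | rel x y h => exact Relation.EqvGen.rel _ _ (eqvm_move e h)
  | refl x => exact Relation.EqvGen.refl _
  | symm x y _ ih => exact Relation.EqvGen.symm _ _ ih
  | trans x y z _ _ ih1 ih2 => exact Relation.EqvGen.trans _ _ _ ih1 ih2

end Knot548
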