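import Pool.Agent.Helper548.Knot.Defs
import Pool.Agent.Helper548.Knot.P_eqv_map



namespace Knot548
open Set


theorem refl_eqv {P Q : List (ℂ × ℝ)} (h : Eqv P Q) : Eqv (refl P) (refl Q) := by
  have h1 := eqv_map ((ContinuousLinearEquiv.refl ℝ ℂ).prodCongr (ContinuousLinearEquiv.neg ℝ (M := ℝ))) h
  exact h1

end Knot548
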