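import Pool.Agent.Helper548.Knot.Defs
import Pool.Agent.Helper548.Knot.P_ce_cons



namespace Knot548
open Set


/-- reflection of a point -/
def refl_facts_f (v : ℂ × ℝ) : ℂ × ℝ := (v.1, -v.2)

theorem refl_facts_ff (v : ℂ × ℝ) : refl_facts_f (refl_facts_f v) = v := by
  unfold refl_facts_f; simp

theorem refl_facts_inj : Function.Injective refl_facts_f := by
  intro a b h
  rw [← refl_facts_ff a, h, refl_facts_ff]

theorem refl_facts_refl (P : List (ℂ × ℝ)) : refl P = P.map refl_facts_f := rfl

theorem refl_facts_ce (P : List (ℂ × ℝ)) :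
    cedges (refl P) = (cedges P).map (Prod.map refl_facts_f refl_facts_f) := by
  rw [refl_facts_refl]
  unfold cedges
  rw [← List.map_rotate, List.zip_map]

theorem refl_facts_rr (P : List (ℂ × ℝ)) : refl (refl P) = P := by
  rw [refl_facts_refl, refl_facts_refl, List.map_map]
  have : refl_facts_f ∘ refl_facts_f = id := by
    funext v; exact refl_facts_ff v
  rw [this, List.map_id]

theorem refl_facts_mult (P : List (ℂ × ℝ)) (x : ℂ) : mult (refl P) x = mult P x := by
  unfold mult cnt
  rw [refl_facts_ce, List.countP_map]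
  rfl

theorem refl_facts_ax (P : List (ℂ × ℝ)) (O : ℂ) : ax O (refl P) = ax O P := by
  unfold ax
  rw [refl_facts_refl, List.countP_map]
  rfl

theorem refl_facts_hseg (a b x : ℂ × ℝ) (h : x ∈ hseg (refl_facts_f a) (refl_facts_f b)) :
    refl_facts_f x ∈ hseg a b := by
  obtain ⟨s, h0, h1, rfl⟩ := h
  refine ⟨s, h0, h1, ?_⟩
  unfold refl_facts_f
  apply Prod.ext
  · simp
  · simp
    ring

theorem refl_facts_simple (P : List (ℂ × ℝ)) (h : Simple P) : Simple (refl P) := by
  obtain ⟨h1, h2⟩ := h
  refine ⟨?_, ?_⟩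
  · rw [refl_facts_ce]
    intro e he
    obtain ⟨e', he', rfl⟩ := List.mem_map.1 he
    exact fun h => h1 e' he' (refl_facts_inj h)
  · rw [refl_facts_ce, List.pairwise_map]
    refine h2.imp ?_
    intro e e' hd
    rw [Set.disjoint_left] at hd ⊢
    intro x hx hx'
    exact hd (refl_facts_hseg _ _ _ hx) (refl_facts_hseg _ _ _ hx')

theorem refl_facts_reg (O : ℂ) (P : List (ℂ × ℝ)) (h : Reg O P) : Reg O (refl P) where
  simple := refl_facts_simple P h.simple
  nondeg := by
    rw [refl_facts_ce]
    intro e he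
    obtain ⟨e', he', rfl⟩ := List.mem_map.1 he
    exact h.nondeg e' he'
  center := by rw [refl_facts_mult, refl_facts_ax]; exact h.center
  two := by
    intro x hx
    rw [refl_facts_mult]; exact h.two x hx
  vert := by
    intro v hv hvO
    rw [refl_facts_refl] at hv
    obtain ⟨u, hu, rfl⟩ := List.mem_map.1 hv
    rw [refl_facts_mult]
    exact h.vert u hu hvO

theorem refl_facts (P : List (ℂ × ℝ)) : refl (refl P) = P ∧ (∀ x, mult (refl P) x = mult P x) ∧
    (Simple (refl P) ↔ Simple P) ∧ (∀ O, ax O (refl P) = ax O P) ∧ (∀ O, Reg O (refl P) ↔ Reg O P) ∧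
    (∀ O, dbl O (refl P) = dbl O P) := by
  refine ⟨refl_facts_rr P, refl_facts_mult P, ⟨fun h => ?_, refl_facts_simple P⟩,
    refl_facts_ax P, fun O => ⟨fun h => ?_, refl_facts_reg O P⟩, fun O => ?_⟩
  · have := refl_facts_simple _ h
    rwa [refl_facts_rr] at this
  · have := refl_facts_reg O _ h
    rwa [refl_facts_rr] at this
  · unfold dbl
    simp only [refl_facts_mult]

end Knot548
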