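import Pool.Agent.Helper548.Knot.Defs
import Pool.Agent.Helper548.Knot.P_refl_facts



namespace Knot548
open Set


theorem pedges_map_aux {α β : Type*} (g : α → β) :
    ∀ l : List α, pedges (l.map g) = (pedges l).map (fun e => (g e.1, g e.2))
  | [] => rfl
  | [_] => rfl
  | a :: b :: l => by
    have ih := pedges_map_aux g (b :: l)
    simp only [List.map_cons] at ih
    simp only [List.map_cons, pedges]
    rw [ih]

theorem refl_ready {O : ℂ} {h : ℝ} {M : List (ℂ × ℝ)} {y y2 : ℂ × ℝ} {X : List (ℂ × ℝ)} {a b : ℂ × ℝ}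
    {Y : List (ℂ × ℝ)} {c : ℂ} (R : Ready O h M y y2 X a b Y c) :
    Ready O (-h) (refl M) (y.1, -y.2) (y2.1, -y2.2) (refl X) (a.1, -a.2) (b.1, -b.2) (refl Y) c := by
  have heq : ((((O, -h) :: refl M) ++ [((y.1, -y.2) : ℂ × ℝ), (y2.1, -y2.2)]) ++ refl X ++
      [((a.1, -a.2) : ℂ × ℝ), (b.1, -b.2)] ++ refl Y) =
      refl ((((O, h) :: M) ++ [y, y2]) ++ X ++ [a, b] ++ Y) := by
    simp [refl]
  have hmult : ∀ x, mult ((((O, -h) :: refl M) ++ [((y.1, -y.2) : ℂ × ℝ), (y2.1, -y2.2)]) ++ refl X ++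
      [((a.1, -a.2) : ℂ × ℝ), (b.1, -b.2)] ++ refl Y) x =
      mult ((((O, h) :: M) ++ [y, y2]) ++ X ++ [a, b] ++ Y) x := by
    intro x
    rw [heq]
    exact (refl_facts _).2.1 x
  have hcons : ((O, -h) :: refl M : List (ℂ × ℝ)) = ((O, h) :: M).map (fun v => (v.1, -v.2)) := by
    simp [refl]
  have hlast : (((O, -h) :: refl M).getLast (by simp)).1 = (((O, h) :: M).getLast (by simp)).1 := by
    have : ((O, -h) :: refl M).getLast (by simp) =
        (((O, h) :: M).map (fun v : ℂ × ℝ => ((v.1, -v.2) : ℂ × ℝ))).getLast (by simp) := by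
      congr 1
    rw [this, List.getLast_map]
  have hps : psegs (pedges ((O, -h) :: refl M)) = psegs (pedges ((O, h) :: M)) := by
    rw [hcons, pedges_map_aux]
    ext x
    simp only [psegs, Set.mem_ofPred_eq, List.mem_map]
    constructor
    · rintro ⟨e, ⟨e', he', rfl⟩, hx⟩
      exact ⟨e', he', hx⟩
    · rintro ⟨e, he, hx⟩
      exact ⟨_, ⟨e, he, rfl⟩, hx⟩
  refine ⟨?_, ?_, R.yoff, R.y2off, R.aoff, R.boff, R.coff, ?_, ?_, R.cs, ?_, ?_, ?_, ?_⟩
  · rw [heq]
    exact ((refl_facts _).2.2.2.2.1 O).2 R.reg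
  · intro v hv
    simp only [refl, List.mem_map] at hv
    obtain ⟨w, hw, rfl⟩ := hv
    exact R.moff w hw
  · rw [hmult]
    exact R.cm
  · rw [hlast]
    exact R.ce
  · intro x hx hxO
    rw [hmult]
    rw [hps] at hx
    exact R.k1 x hx hxO
  · intro x hx hxO hxc
    rw [hmult]
    rw [hlast] at hx
    exact R.k3 x hx hxO hxc
  · intro x hx hxO
    rw [hmult]
    exact R.k4 x hx hxO
  · intro x hx hxO hxc
    rw [hmult]
    exact R.k5 x hx hxO hxc

end Knot548
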