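import Pool.Agent.Helper548.Knot.Defs
import Pool.Agent.Helper548.Knot.P_ce_cons
import Pool.Agent.Helper548.Knot.P_pe_append



namespace Knot548
open Set


theorem ready_edges_last {α : Type*} (A : List α) (hA : A ≠ []) (v : α) :
    pedges (A ++ [v]) = pedges A ++ [(A.getLast hA, v)] := by
  have h1 : A.dropLast ++ [A.getLast hA] = A := List.dropLast_append_getLast hA
  have h2 : A ++ [v] = A.dropLast ++ A.getLast hA :: [v] := by
    conv_lhs => rw [← h1]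
    simp
  rw [h2, pe_append, h1]
  rfl

theorem ready_edges {O : ℂ} {h : ℝ} (M : List (ℂ × ℝ)) (v y y2 : ℂ × ℝ) (X : List (ℂ × ℝ)) (a b : ℂ × ℝ)
    (Y : List (ℂ × ℝ)) :
    cedges ((((O, h) :: (M ++ [v])) ++ [y, y2]) ++ X ++ [a, b] ++ Y) =
      pedges ((O, h) :: M) ++ [(((O, h) :: M).getLast (by simp), v), (v, y)] ++ pedges (y :: y2 :: (X ++ [a])) ++
        [(a, b)] ++ pedges (b :: (Y ++ [(O, h)])) := by
  have h0 : (((O, h) :: (M ++ [v])) ++ [y, y2]) ++ X ++ [a, b] ++ Y =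
      (O, h) :: (M ++ [v] ++ [y, y2] ++ X ++ [a, b] ++ Y) := by simp
  rw [h0, ce_cons]
  have h1 : (O, h) :: (M ++ [v] ++ [y, y2] ++ X ++ [a, b] ++ Y ++ [(O, h)]) =
      ((O, h) :: M) ++ v :: (y :: y2 :: (X ++ a :: b :: (Y ++ [(O, h)]))) := by simp
  rw [h1, pe_append, ready_edges_last _ (by simp)]
  have h2 : pedges (v :: y :: y2 :: (X ++ a :: b :: (Y ++ [(O, h)]))) =
      (v, y) :: (pedges (y :: y2 :: (X ++ [a])) ++ (a, b) :: pedges (b :: (Y ++ [(O, h)]))) := by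
    have h3 : y :: y2 :: (X ++ a :: b :: (Y ++ [(O, h)])) =
      (y :: y2 :: X) ++ a :: (b :: (Y ++ [(O, h)])) := by simp
    have h4 : pedges (v :: y :: y2 :: (X ++ a :: b :: (Y ++ [(O, h)]))) =
      (v, y) :: pedges (y :: y2 :: (X ++ a :: b :: (Y ++ [(O, h)]))) := rfl
    rw [h4, h3, pe_append]
    rfl
  rw [h2]
  simp

end Knot548
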