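import Pool.Agent.Helper548.Knot.Defs



namespace Knot548
open Set


/-- the planar detour in a general real vector space -/
structure SP_D {E : Type*} [AddCommGroup E] [Module ℝ E] (v0 v1 v2 a b c : E) (F : Set E)
    (a' b' l r c' : E) : Prop where
  ha : a' ∈ openSegment ℝ a c
  hb : b' ∈ openSegment ℝ c b
  hc : c' ∈ openSegment ℝ v0 v1
  hc2 : c' ∈ openSegment ℝ l r
  m1 : segment ℝ l r ∩ segment ℝ v0 v1 = {c'}
  m2 : Disjoint (segment ℝ l r) (segment ℝ v1 v2)
  d1 : Disjoint (segment ℝ a' l) (segment ℝ v0 v1)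
  d2 : Disjoint (segment ℝ a' l) (segment ℝ v1 v2)
  d3 : Disjoint (segment ℝ r b') (segment ℝ v0 v1)
  d4 : Disjoint (segment ℝ r b') (segment ℝ v1 v2)
  f1 : Disjoint (segment ℝ a' l) F
  f2 : Disjoint (segment ℝ l r) F
  f3 : Disjoint (segment ℝ r b') F
  n1 : a' ≠ l
  n2 : l ≠ r
  n3 : r ≠ b'
  s1 : segment ℝ a' l ∩ segment ℝ l r = {l}
  s2 : segment ℝ l r ∩ segment ℝ r b' = {r}
  s3 : Disjoint (segment ℝ a' l) (segment ℝ r b')
  t1 : segment ℝ a a' ∩ segment ℝ a' l = {a'}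
  t2 : Disjoint (segment ℝ a a') (segment ℝ l r)
  t3 : Disjoint (segment ℝ a a') (segment ℝ r b')
  t4 : segment ℝ r b' ∩ segment ℝ b' b = {b'}
  t5 : Disjoint (segment ℝ b' b) (segment ℝ l r)
  t6 : Disjoint (segment ℝ b' b) (segment ℝ a' l)

theorem SP_to {v0 v1 v2 a b c : ℂ} {F : Set ℂ} {a' b' l r c' : ℂ}
    (h : SP_D v0 v1 v2 a b c F a' b' l r c') : Detour v0 v1 v2 a b c F a' b' l r c' :=
  ⟨h.ha, h.hb, h.hc, h.hc2, h.m1, h.m2, h.d1, h.d2, h.d3, h.d4, h.f1, h.f2, h.f3, h.n1, h.n2, h.n3,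
    h.s1, h.s2, h.s3, h.t1, h.t2, h.t3, h.t4, h.t5, h.t6⟩

theorem SP_map {E E' : Type*} [AddCommGroup E] [Module ℝ E] [AddCommGroup E'] [Module ℝ E']
    (T : E →ᵃ[ℝ] E') (hT : Function.Injective T) {v0 v1 v2 a b c : E} {F : Set E'}
    {a' b' l r c' : E} (h : SP_D v0 v1 v2 a b c (T ⁻¹' F) a' b' l r c') :
    SP_D (T v0) (T v1) (T v2) (T a) (T b) (T c) F (T a') (T b') (T l) (T r) (T c') := by
  have ho : ∀ {x y z : E}, x ∈ openSegment ℝ y z → T x ∈ openSegment ℝ (T y) (T z) := by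
    intro x y z hx
    rw [← image_openSegment]
    exact Set.mem_image_of_mem T hx
  have hi : ∀ {x y z w p : E}, segment ℝ x y ∩ segment ℝ z w = {p} →
      segment ℝ (T x) (T y) ∩ segment ℝ (T z) (T w) = {T p} := by
    intro x y z w p hx
    rw [← image_segment, ← image_segment, ← Set.image_inter hT, hx, Set.image_singleton]
  have hd : ∀ {x y z w : E}, Disjoint (segment ℝ x y) (segment ℝ z w) →
      Disjoint (segment ℝ (T x) (T y)) (segment ℝ (T z) (T w)) := by
    intro x y z w hx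
    rw [← image_segment, ← image_segment]
    exact (Set.disjoint_image_iff hT).2 hx
  have hf : ∀ {x y : E}, Disjoint (segment ℝ x y) (T ⁻¹' F) →
      Disjoint (segment ℝ (T x) (T y)) F := by
    intro x y hx
    rw [← image_segment, Set.disjoint_left]
    rintro _ ⟨z, hz, rfl⟩ hF
    exact Set.disjoint_left.1 hx hz hF
  exact ⟨ho h.ha, ho h.hb, ho h.hc, ho h.hc2, hi h.m1, hd h.m2, hd h.d1, hd h.d2, hd h.d3, hd h.d4,
    hf h.f1, hf h.f2, hf h.f3, hT.ne h.n1, hT.ne h.n2, hT.ne h.n3, hi h.s1, hi h.s2, hd h.s3,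
    hi h.t1, hd h.t2, hd h.t3, hi h.t4, hd h.t5, hd h.t6⟩

theorem SP_rev {E : Type*} [AddCommGroup E] [Module ℝ E] {v0 v1 v2 a b c : E} {F : Set E}
    {a' b' l r c' : E} (h : SP_D v0 v1 v2 a b c F a' b' l r c') :
    SP_D v0 v1 v2 b a c F b' a' r l c' where
  ha := by rw [openSegment_symm]; exact h.hb
  hb := by rw [openSegment_symm]; exact h.ha
  hc := h.hc
  hc2 := by rw [openSegment_symm]; exact h.hc2
  m1 := by rw [segment_symm ℝ r l]; exact h.m1
  m2 := by rw [segment_symm ℝ r l]; exact h.m2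
  d1 := by rw [segment_symm ℝ b' r]; exact h.d3
  d2 := by rw [segment_symm ℝ b' r]; exact h.d4
  d3 := by rw [segment_symm ℝ l a']; exact h.d1
  d4 := by rw [segment_symm ℝ l a']; exact h.d2
  f1 := by rw [segment_symm ℝ b' r]; exact h.f3
  f2 := by rw [segment_symm ℝ r l]; exact h.f2
  f3 := by rw [segment_symm ℝ l a']; exact h.f1
  n1 := h.n3.symm
  n2 := h.n2.symm
  n3 := h.n1.symm
  s1 := by rw [segment_symm ℝ b' r, segment_symm ℝ r l, Set.inter_comm]; exact h.s2
  s2 := by rw [segment_symm ℝ l a', segment_symm ℝ r l, Set.inter_comm]; exact h.s1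
  s3 := by rw [segment_symm ℝ b' r, segment_symm ℝ l a']; exact h.s3.symm
  t1 := by rw [segment_symm ℝ b' r, segment_symm ℝ b b', Set.inter_comm]; exact h.t4
  t2 := by rw [segment_symm ℝ b b', segment_symm ℝ r l]; exact h.t5
  t3 := by rw [segment_symm ℝ b b', segment_symm ℝ l a']; exact h.t6
  t4 := by rw [segment_symm ℝ l a', segment_symm ℝ a' a, Set.inter_comm]; exact h.t1
  t5 := by rw [segment_symm ℝ a' a, segment_symm ℝ r l]; exact h.t2
  t6 := by rw [segment_symm ℝ a' a, segment_symm ℝ b' r]; exact h.t3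

theorem SP_seg {P Q x : ℝ × ℝ} (h : x ∈ segment ℝ P Q) : ∃ s : ℝ, 0 ≤ s ∧ s ≤ 1 ∧
    x.1 = (1 - s) * P.1 + s * Q.1 ∧ x.2 = (1 - s) * P.2 + s * Q.2 := by
  rw [segment_eq_image] at h
  obtain ⟨s, hs, rfl⟩ := h
  exact ⟨s, hs.1, hs.2, by simp, by simp⟩

theorem SP_oseg {P Q x : ℝ × ℝ} (s : ℝ) (h0 : 0 < s) (h1 : s < 1)
    (e1 : x.1 = (1 - s) * P.1 + s * Q.1) (e2 : x.2 = (1 - s) * P.2 + s * Q.2) :
    x ∈ openSegment ℝ P Q := by
  rw [openSegment_eq_image]
  exact ⟨s, ⟨h0, h1⟩, Prod.ext (by simp [e1]) (by simp [e2])⟩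

theorem SP_lt {P Q x : ℝ × ℝ} (h : x ∈ segment ℝ P Q) (A B C : ℝ)
    (hP : A * P.1 + B * P.2 + C < 0) (hQ : A * Q.1 + B * Q.2 + C < 0) :
    A * x.1 + B * x.2 + C < 0 := by
  obtain ⟨s, h0, h1, e1, e2⟩ := SP_seg h
  obtain ⟨m, hm⟩ : ∃ m, m = max (A * P.1 + B * P.2 + C) (A * Q.1 + B * Q.2 + C) := ⟨_, rfl⟩
  have m1 : A * P.1 + B * P.2 + C ≤ m := by rw [hm]; exact le_max_left _ _
  have m2 : A * Q.1 + B * Q.2 + C ≤ m := by rw [hm]; exact le_max_right _ _
  have m3 : m < 0 := by rw [hm]; exact max_lt hP hQ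
  have e3 : A * x.1 + B * x.2 + C = (1 - s) * (A * P.1 + B * P.2 + C) +
      s * (A * Q.1 + B * Q.2 + C) := by rw [e1, e2]; ring
  have q1 := mul_le_mul_of_nonneg_left m1 (by linarith : 0 ≤ 1 - s)
  have q2 := mul_le_mul_of_nonneg_left m2 h0
  rw [e3]
  linarith

theorem SP_ge {P Q x : ℝ × ℝ} (h : x ∈ segment ℝ P Q) (A B C : ℝ)
    (hP : 0 ≤ A * P.1 + B * P.2 + C) (hQ : 0 ≤ A * Q.1 + B * Q.2 + C) :
    0 ≤ A * x.1 + B * x.2 + C := by
  obtain ⟨s, h0, h1, e1, e2⟩ := SP_seg h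
  have e3 : A * x.1 + B * x.2 + C = (1 - s) * (A * P.1 + B * P.2 + C) +
      s * (A * Q.1 + B * Q.2 + C) := by rw [e1, e2]; ring
  have q1 := mul_nonneg (by linarith : 0 ≤ 1 - s) hP
  have q2 := mul_nonneg h0 hQ
  rw [e3]
  linarith

theorem SP_disj {P Q R S : ℝ × ℝ} (A B C : ℝ)
    (hP : A * P.1 + B * P.2 + C < 0) (hQ : A * Q.1 + B * Q.2 + C < 0)
    (hR : 0 ≤ A * R.1 + B * R.2 + C) (hS : 0 ≤ A * S.1 + B * S.2 + C) :
    Disjoint (segment ℝ P Q) (segment ℝ R S) := by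
  rw [Set.disjoint_left]
  intro x hx hx2
  have h1 := SP_lt hx A B C hP hQ
  have h2 := SP_ge hx2 A B C hR hS
  linarith

theorem SP_corner {P Q R : ℝ × ℝ} (A B C : ℝ)
    (hP : A * P.1 + B * P.2 + C < 0) (hQ : A * Q.1 + B * Q.2 + C = 0)
    (hR : 0 ≤ A * R.1 + B * R.2 + C) :
    segment ℝ P Q ∩ segment ℝ Q R = {Q} := by
  apply Set.Subset.antisymm
  · rintro x ⟨hx1, hx2⟩
    have h2 := SP_ge hx2 A B C hQ.ge hR
    obtain ⟨s, h0, h1, e1, e2⟩ := SP_seg hx1
    have e3 : A * x.1 + B * x.2 + C = (1 - s) * (A * P.1 + B * P.2 + C) +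
        s * (A * Q.1 + B * Q.2 + C) := by rw [e1, e2]; ring
    rw [e3, hQ, mul_zero, add_zero] at h2
    have hs : s = 1 := by
      by_contra hne
      have : s < 1 := lt_of_le_of_ne h1 hne
      have := mul_neg_of_pos_of_neg (by linarith : 0 < 1 - s) hP
      linarith
    rw [Set.mem_singleton_iff]
    rw [hs] at e1 e2
    exact Prod.ext (by linarith) (by linarith)
  · rintro x rfl
    exact ⟨right_mem_segment ℝ _ _, left_mem_segment ℝ _ _⟩

theorem SP_corner2 {P Q R : ℝ × ℝ} (A B C : ℝ)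
    (hP : 0 ≤ A * P.1 + B * P.2 + C) (hQ : A * Q.1 + B * Q.2 + C = 0)
    (hR : A * R.1 + B * R.2 + C < 0) :
    segment ℝ P Q ∩ segment ℝ Q R = {Q} := by
  rw [Set.inter_comm, segment_symm ℝ Q R, segment_symm ℝ P Q]
  exact SP_corner A B C hR hQ hP

theorem SP_core (p q B lam mu η : ℝ) (l r c' : ℝ × ℝ) (F K : Set (ℝ × ℝ)) (hη : 0 < η)
    (hηl : η < lam) (hηm : η < mu) (hl2 : l.2 < 0) (hr2 : 0 < r.2) (hl1 : l.1 < 1)
    (hr1 : r.1 < 1) (hq : 0 ≤ q)
    (A1 A2 A3 : ℝ) (hhl : A1 * l.1 + A2 * l.2 + A3 = 0) (hhr : A1 * r.1 + A2 * r.2 + A3 = 0)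
    (hha : A1 * 1 + A2 * (-η) + A3 < 0) (hhb : A1 * 1 + A2 * η + A3 < 0)
    (hhv1 : A3 < 0) (hhv2 : A1 * B + A3 < 0)
    (C1 C2 C3 : ℝ) (hkr : C1 * r.1 + C2 * r.2 + C3 < 0) (hkb : C1 * 1 + C2 * η + C3 < 0)
    (hkv0 : 0 ≤ C1 * p + C2 * q + C3) (hkv1 : 0 ≤ C3)
    (hc : c' ∈ openSegment ℝ ((p, q) : ℝ × ℝ) (0, 0)) (hc2 : c' ∈ openSegment ℝ l r)
    (hm1 : segment ℝ l r ∩ segment ℝ ((p, q) : ℝ × ℝ) (0, 0) ⊆ {c'})
    (hK : Convex ℝ K) (hKF : Disjoint K F) (ka : ((1, -η) : ℝ × ℝ) ∈ K)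
    (kb : ((1, η) : ℝ × ℝ) ∈ K) (kl : l ∈ K) (kr : r ∈ K) :
    SP_D ((p, q) : ℝ × ℝ) (0, 0) (B, 0) (1, -lam) (1, mu) (1, 0) F (1, -η) (1, η) l r c' where
  ha := by
    have hlam : 0 < lam := by linarith
    refine SP_oseg (1 - η / lam) ?_ ?_ ?_ ?_
    · rw [sub_pos, div_lt_one hlam]; exact hηl
    · have : 0 < η / lam := by positivity
      linarith
    · simp
    · field_simp
      ring
  hb := by
    have hmu : 0 < mu := by linarith
    refine SP_oseg (η / mu) (by positivity) ?_ ?_ ?_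
    · rw [div_lt_one hmu]; exact hηm
    · simp
    · field_simp
      ring
  hc := hc
  hc2 := hc2
  m1 := by
    apply Set.Subset.antisymm hm1
    rintro x rfl
    exact ⟨openSegment_subset_segment ℝ _ _ hc2, openSegment_subset_segment ℝ _ _ hc⟩
  m2 := (SP_disj A1 A2 A3 (by simpa using hhv1) (by simpa using hhv2) hhl.ge hhr.ge).symm
  d1 := SP_disj 0 1 0 (by simpa using hη) (by simpa using hl2) (by simpa using hq) (by simp)
  d2 := SP_disj 0 1 0 (by simpa using hη) (by simpa using hl2) (by simp) (by simp)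
  d3 := SP_disj C1 C2 C3 hkr (by simpa using hkb) hkv0 (by simpa using hkv1)
  d4 := SP_disj 0 (-1) 0 (by simpa using hr2) (by simpa using hη) (by simp) (by simp)
  f1 := hKF.mono_left (hK.segment_subset ka kl)
  f2 := hKF.mono_left (hK.segment_subset kl kr)
  f3 := hKF.mono_left (hK.segment_subset kr kb)
  n1 := by
    intro h
    rw [← h] at hl1
    simp at hl1
  n2 := by
    intro h
    rw [h] at hl2
    linarith
  n3 := by
    intro h
    rw [h] at hr1
    simp at hr1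
  s1 := SP_corner A1 A2 A3 (by simpa using hha) hhl hhr.ge
  s2 := SP_corner2 A1 A2 A3 hhl.ge hhr (by simpa using hhb)
  s3 := SP_disj 0 1 0 (by simpa using hη) (by simpa using hl2) (by simpa using hr2.le)
    (by simpa using hη.le)
  t1 := SP_corner2 1 0 (-1) (by simp) (by simp) (by simpa using hl1)
  t2 := (SP_disj 1 0 (-1) (by simpa using hl1) (by simpa using hr1) (by simp) (by simp)).symm
  t3 := SP_disj 0 1 0 (by simp; linarith) (by simpa using hη) (by simpa using hr2.le)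
    (by simpa using hη.le)
  t4 := SP_corner 1 0 (-1) (by simpa using hr1) (by simp) (by simp)
  t5 := (SP_disj 1 0 (-1) (by simpa using hl1) (by simpa using hr1) (by simp) (by simp)).symm
  t6 := SP_disj 0 (-1) 0 (by simpa using hη) (by simp; linarith) (by simpa using hη.le)
    (by simpa using hl2.le)

theorem SP_mem {δ : ℝ} (x : ℝ × ℝ) (t : ℝ) (ht : t = 0 ∨ t = 1) (h1 : |x.1 - t| < δ)
    (h2 : |x.2| < δ) : x ∈ Metric.thickening δ (segment ℝ ((0, 0) : ℝ × ℝ) (1, 0)) := by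
  rw [Metric.mem_thickening_iff]
  refine ⟨(t, 0), ?_, ?_⟩
  · rcases ht with rfl | rfl
    · exact left_mem_segment ℝ _ _
    · exact right_mem_segment ℝ _ _
  · rw [Prod.dist_eq, max_lt_iff, Real.dist_eq, Real.dist_eq]
    exact ⟨h1, by simpa using h2⟩

theorem SP_thick (F : Set (ℝ × ℝ)) (hF : IsClosed F)
    (hFd : Disjoint F (segment ℝ ((0, 0) : ℝ × ℝ) (1, 0))) :
    ∃ δ : ℝ, 0 < δ ∧
      Disjoint (Metric.thickening δ (segment ℝ ((0, 0) : ℝ × ℝ) (1, 0))) F := by
  have hc : IsCompact (segment ℝ ((0, 0) : ℝ × ℝ) (1, 0)) := by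
    rw [segment_eq_image]
    exact isCompact_Icc.image (by fun_prop)
  obtain ⟨δ, hδ, h⟩ := hFd.symm.exists_thickenings hc hF
  exact ⟨δ, hδ, h.mono_right (Metric.self_subset_thickening hδ F)⟩

theorem SP_pos (p q B lam mu : ℝ) (hq : 0 < q) (hB : 1 < B) (hlam : 0 < lam) (hmu : 0 < mu)
    (F : Set (ℝ × ℝ)) (hF : IsClosed F)
    (hFd : Disjoint F (segment ℝ ((0, 0) : ℝ × ℝ) (1, 0))) :
    ∃ a' b' l r c' : ℝ × ℝ,
      SP_D ((p, q) : ℝ × ℝ) (0, 0) (B, 0) (1, -lam) (1, mu) (1, 0) F a' b' l r c' := by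
  obtain ⟨δ, hδ, hKF⟩ := SP_thick F hF hFd
  obtain ⟨w, hw⟩ : ∃ w, w = min 1 δ / 2 := ⟨_, rfl⟩
  have w1 : w ≤ 1 / 2 := by
    have := min_le_left 1 δ
    rw [hw]
    linarith
  have w2 : w < δ := by
    have := min_le_right 1 δ
    rw [hw]
    linarith
  have w0 : 0 < w := by
    have : 0 < min 1 δ := lt_min one_pos hδ
    rw [hw]
    linarith
  have hp0 := abs_nonneg p
  obtain ⟨M, hM⟩ : ∃ M, M = 2 * |p| + 2 * q + 2 := ⟨_, rfl⟩
  have hM0 : 0 < M := by rw [hM]; linarith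
  obtain ⟨ε, hε⟩ : ∃ ε, ε = w / M := ⟨_, rfl⟩
  have hε0 : 0 < ε := by rw [hε]; positivity
  have hεM : ε * M = w := by rw [hε]; field_simp
  have hεw : 2 * (ε * |p|) + 2 * (ε * q) + 2 * ε = w := by rw [← hεM, hM]; ring
  have hP1 : ε * p ≤ ε * |p| := mul_le_mul_of_nonneg_left (le_abs_self p) hε0.le
  have hP2 : -(ε * |p|) ≤ ε * p := by
    have := mul_le_mul_of_nonneg_left (neg_abs_le p) hε0.le
    linarith
  have hP3 : 0 ≤ ε * |p| := by positivity
  have hQ : 0 < ε * q := by positivity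
  have hN : 0 < 2 + 3 * |p| := by linarith
  obtain ⟨η, hη⟩ : ∃ η, η = min (min (lam / 2) (mu / 2)) (min (δ / 2) (q / (2 + 3 * |p|))) :=
    ⟨_, rfl⟩
  have η1 : η ≤ lam / 2 := by rw [hη]; exact (min_le_left _ _).trans (min_le_left _ _)
  have η2 : η ≤ mu / 2 := by rw [hη]; exact (min_le_left _ _).trans (min_le_right _ _)
  have η3 : η ≤ δ / 2 := by rw [hη]; exact (min_le_right _ _).trans (min_le_left _ _)
  have η4 : η ≤ q / (2 + 3 * |p|) := by
    rw [hη]; exact (min_le_right _ _).trans (min_le_right _ _)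
  have η0 : 0 < η := by
    rw [hη]
    exact lt_min (lt_min (by linarith) (by linarith)) (lt_min (by linarith) (by positivity))
  have η5 : η * (2 + 3 * |p|) ≤ q := by rwa [le_div_iff₀ hN] at η4
  have hE1 : η * p ≤ η * |p| := mul_le_mul_of_nonneg_left (le_abs_self p) η0.le
  have hE2 : -(η * |p|) ≤ η * p := by
    have := mul_le_mul_of_nonneg_left (neg_abs_le p) η0.le
    linarith
  have hE3 : 2 * η + 3 * (η * |p|) ≤ q := by linarith
  have hE4 : 0 ≤ η * |p| := by positivity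
  refine ⟨(1, -η), (1, η), (-(ε * p) - ε, -(ε * q)), (2 * (ε * p) + ε, 2 * (ε * q)),
    (ε * p / 2, ε * q / 2), ?_⟩
  refine SP_core p q B lam mu η _ _ _ F _ η0 (by linarith) (by linarith) (by simp; linarith)
    (by simp; linarith) (by simp only; linarith) (by simp only; linarith) hq.le
    (-3 * q) (2 + 3 * p) (-(ε * q)) (by simp only; ring) (by simp only; ring) (by linarith)
    (by linarith) (by linarith) ?_ (-q) p 0 ?_ (by linarith) (by linarith) le_rfl ?_ ?_ ?_
    ((convex_segment _ _).thickening δ) hKF ?_ ?_ ?_ ?_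
  · have : 0 < q * B := by positivity
    linarith
  · simp only
    have : -q * (2 * (ε * p) + ε) + p * (2 * (ε * q)) + 0 = -(ε * q) := by ring
    rw [this]
    linarith
  · refine SP_oseg (1 - ε / 2) (by linarith) (by linarith) ?_ ?_
    · simp only; ring
    · simp only; ring
  · refine SP_oseg (1 / 2) (by norm_num) (by norm_num) ?_ ?_
    · simp only; ring
    · simp only; ring
  · rintro x ⟨hx1, hx2⟩
    obtain ⟨s, -, -, e1, e2⟩ := SP_seg hx1
    obtain ⟨t, -, -, e3, e4⟩ := SP_seg hx2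
    simp only at e1 e2 e3 e4
    have h1 : q * x.1 - p * x.2 = 0 := by rw [e3, e4]; ring
    rw [e1, e2] at h1
    have h2 : (ε * q) * (2 * s - 1) = 0 := by linarith
    have h3 : s = 1 / 2 := by
      rcases mul_eq_zero.1 h2 with h | h
      · exact absurd h hQ.ne'
      · linarith
    rw [Set.mem_singleton_iff]
    rw [h3] at e1 e2
    exact Prod.ext (by simp only; linarith) (by simp only; linarith)
  · exact SP_mem _ 1 (Or.inr rfl) (by simpa using hδ) (by
      simp only; rw [abs_neg, abs_of_pos η0]; linarith)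
  · exact SP_mem _ 1 (Or.inr rfl) (by simpa using hδ) (by
      simp only; rw [abs_of_pos η0]; linarith)
  · exact SP_mem _ 0 (Or.inl rfl) (by simp only; rw [abs_lt]; constructor <;> linarith) (by
      simp only; rw [abs_lt]; constructor <;> linarith)
  · exact SP_mem _ 0 (Or.inl rfl) (by simp only; rw [abs_lt]; constructor <;> linarith) (by
      simp only; rw [abs_lt]; constructor <;> linarith)

theorem SP_zero (p B lam mu : ℝ) (hp : p < 0) (hB : 1 < B) (hlam : 0 < lam) (hmu : 0 < mu)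
    (F : Set (ℝ × ℝ)) (hF : IsClosed F)
    (hFd : Disjoint F (segment ℝ ((0, 0) : ℝ × ℝ) (1, 0))) :
    ∃ a' b' l r c' : ℝ × ℝ,
      SP_D ((p, 0) : ℝ × ℝ) (0, 0) (B, 0) (1, -lam) (1, mu) (1, 0) F a' b' l r c' := by
  obtain ⟨δ, hδ, hKF⟩ := SP_thick F hF hFd
  obtain ⟨ε, hε⟩ : ∃ ε, ε = min (-p / 2) (δ / 2) := ⟨_, rfl⟩
  have ε1 : ε ≤ -p / 2 := by rw [hε]; exact min_le_left _ _
  have ε2 : ε ≤ δ / 2 := by rw [hε]; exact min_le_right _ _
  have ε0 : 0 < ε := by rw [hε]; exact lt_min (by linarith) (by linarith)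
  obtain ⟨η, hη⟩ : ∃ η, η = min (min (lam / 2) (mu / 2)) (δ / 2) :=
    ⟨_, rfl⟩
  have η1 : η ≤ lam / 2 := by rw [hη]; exact (min_le_left _ _).trans (min_le_left _ _)
  have η2 : η ≤ mu / 2 := by rw [hη]; exact (min_le_left _ _).trans (min_le_right _ _)
  have η3 : η ≤ δ / 2 := by rw [hη]; exact min_le_right _ _
  have η0 : 0 < η := by
    rw [hη]
    exact lt_min (lt_min (by linarith) (by linarith)) (by linarith)
  refine ⟨(1, -η), (1, η), (-ε, -η), (-ε, η), (-ε, 0), ?_⟩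
  refine SP_core p 0 B lam mu η _ _ _ F _ η0 (by linarith) (by linarith) (by simp; linarith)
    (by simp; linarith) (by simp only; linarith) (by simp only; linarith) le_rfl
    (-1) 0 (-ε) (by simp only; ring) (by simp only; ring) (by linarith)
    (by linarith) (by linarith) (by linarith) 0 (-1) 0 (by simp only; linarith) (by linarith)
    (by linarith) le_rfl ?_ ?_ ?_
    ((convex_segment _ _).thickening δ) hKF ?_ ?_ ?_ ?_
  · have hp' : 0 < -p := by linarith
    have h1 : 0 < ε / -p := by positivity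
    have h2 : ε / -p < 1 := by rw [div_lt_one hp']; linarith
    have h3 : p ≠ 0 := hp.ne
    refine SP_oseg (1 - ε / -p) (by linarith) (by linarith) ?_ ?_
    · simp only; field_simp; ring
    · simp only; ring
  · refine SP_oseg (1 / 2) (by norm_num) (by norm_num) ?_ ?_
    · simp only; ring
    · simp only; ring
  · rintro x ⟨hx1, hx2⟩
    obtain ⟨s, -, -, e1, e2⟩ := SP_seg hx1
    obtain ⟨t, -, -, e3, e4⟩ := SP_seg hx2
    simp only at e1 e2 e3 e4
    rw [Set.mem_singleton_iff]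
    exact Prod.ext (by simp only; linarith) (by simp only; linarith)
  · exact SP_mem _ 1 (Or.inr rfl) (by simpa using hδ) (by
      simp only; rw [abs_neg, abs_of_pos η0]; linarith)
  · exact SP_mem _ 1 (Or.inr rfl) (by simpa using hδ) (by
      simp only; rw [abs_of_pos η0]; linarith)
  · exact SP_mem _ 0 (Or.inl rfl) (by simp only; rw [abs_lt]; constructor <;> linarith) (by
      simp only; rw [abs_lt]; constructor <;> linarith)
  · exact SP_mem _ 0 (Or.inl rfl) (by simp only; rw [abs_lt]; constructor <;> linarith) (by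
      simp only; rw [abs_lt]; constructor <;> linarith)

/-- reflection in the first axis -/
noncomputable def SP_R : (ℝ × ℝ) →ᵃ[ℝ] (ℝ × ℝ) :=
  (LinearMap.prodMap (LinearMap.id : ℝ →ₗ[ℝ] ℝ) (-LinearMap.id : ℝ →ₗ[ℝ] ℝ)).toAffineMap

theorem SP_R_apply (x : ℝ × ℝ) : SP_R x = (x.1, -x.2) := rfl

theorem SP_nf (p q B lam mu : ℝ) (hq : q = 0 → p < 0) (hB : 1 < B) (hlam : 0 < lam)
    (hmu : 0 < mu) (F : Set (ℝ × ℝ)) (hF : IsClosed F)
    (hFd : Disjoint F (segment ℝ ((0, 0) : ℝ × ℝ) (1, 0))) :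
    ∃ a' b' l r c' : ℝ × ℝ,
      SP_D ((p, q) : ℝ × ℝ) (0, 0) (B, 0) (1, -lam) (1, mu) (1, 0) F a' b' l r c' := by
  rcases lt_trichotomy q 0 with h | h | h
  · have hRi : Function.Injective SP_R := by
      intro x y hxy
      rw [SP_R_apply, SP_R_apply, Prod.mk.injEq] at hxy
      exact Prod.ext hxy.1 (neg_injective hxy.2)
    have hRc : Continuous (SP_R : ℝ × ℝ → ℝ × ℝ) := by
      change Continuous (fun x : ℝ × ℝ => (x.1, -x.2))
      fun_prop
    have hseg : Disjoint (SP_R ⁻¹' F) (segment ℝ ((0, 0) : ℝ × ℝ) (1, 0)) := by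
      rw [Set.disjoint_left]
      intro x hx hx2
      obtain ⟨s, -, -, e1, e2⟩ := SP_seg hx2
      simp only at e1 e2
      have h0 : x.2 = 0 := by linarith
      have h1 : SP_R x = x := by
        rw [SP_R_apply]
        exact Prod.ext rfl (by simp only; linarith)
      have h2 : SP_R x ∈ F := hx
      rw [h1] at h2
      exact Set.disjoint_left.1 hFd h2 hx2
    obtain ⟨a', b', l, r, c', hD⟩ := SP_pos p (-q) B mu lam (by linarith) hB hmu hlam
      (SP_R ⁻¹' F) (hF.preimage hRc) hseg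
    have h2 := SP_rev (SP_map SP_R hRi hD)
    simp only [SP_R_apply, neg_neg, neg_zero] at h2
    exact ⟨_, _, _, _, _, h2⟩
  · subst h
    exact SP_zero p B lam mu (hq rfl) hB hlam hmu F hF hFd
  · exact SP_pos p q B lam mu h hB hlam hmu F hF hFd

/-- the affine chart with origin `v` and basis `u`, `d` -/
noncomputable def SP_T (v u d : ℂ) : (ℝ × ℝ) →ᵃ[ℝ] ℂ :=
  ((LinearMap.fst ℝ ℝ ℝ).smulRight u + (LinearMap.snd ℝ ℝ ℝ).smulRight d).toAffineMap +
    AffineMap.const ℝ (ℝ × ℝ) v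

theorem SP_T_apply (v u d : ℂ) (x : ℝ × ℝ) : SP_T v u d x = x.1 • u + x.2 • d + v := rfl

theorem SP_T_re (v u d : ℂ) (x : ℝ × ℝ) :
    (SP_T v u d x).re = x.1 * u.re + x.2 * d.re + v.re := by
  rw [SP_T_apply]; simp

theorem SP_T_im (v u d : ℂ) (x : ℝ × ℝ) :
    (SP_T v u d x).im = x.1 * u.im + x.2 * d.im + v.im := by
  rw [SP_T_apply]; simp

/-- The job statement is false for `a = b = c` (then `openSegment ℝ a c = {c}`, so `a' = b' = c`
and `s3` fails); the hypothesis `hne : a ≠ b` is added at the end. -/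
theorem slide_planar (v0 v1 v2 a b c : ℂ) (h01 : v0 ≠ v1) (hint : segment ℝ v0 v1 ∩ segment ℝ v1 v2 = {v1})
    (hc : c ∈ openSegment ℝ v1 v2) (hcab : c ∈ openSegment ℝ a b) (hnp : segment ℝ a b ∩ segment ℝ v1 v2 = {c})
    (hab : Disjoint (segment ℝ a b) (segment ℝ v0 v1)) (F : Set ℂ) (hF : IsClosed F)
    (hFd : Disjoint F (segment ℝ v1 c)) (hne : a ≠ b) :
    ∃ a' b' l r c' : ℂ, Detour v0 v1 v2 a b c F a' b' l r c' := by
  have hcab' := openSegment_subset_segment ℝ _ _ hcab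
  have hcv : c ≠ v1 := by
    intro h
    apply Set.disjoint_left.1 hab hcab'
    rw [h]
    exact right_mem_segment ℝ _ _
  rw [openSegment_eq_image] at hc hcab
  obtain ⟨t, ⟨ht0, ht1⟩, hct⟩ := hc
  obtain ⟨s, ⟨hs0, hs1⟩, hcs⟩ := hcab
  simp only at hct hcs
  have ctr : (1 - t) * v1.re + t * v2.re = c.re := by rw [← hct]; simp
  have cti : (1 - t) * v1.im + t * v2.im = c.im := by rw [← hct]; simp
  have csr : (1 - s) * a.re + s * b.re = c.re := by rw [← hcs]; simp
  have csi : (1 - s) * a.im + s * b.im = c.im := by rw [← hcs]; simp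
  obtain ⟨u, hu⟩ : ∃ u, u = c - v1 := ⟨_, rfl⟩
  obtain ⟨d, hd⟩ : ∃ d, d = b - a := ⟨_, rfl⟩
  have ur : u.re = c.re - v1.re := by rw [hu]; simp
  have ui : u.im = c.im - v1.im := by rw [hu]; simp
  have dr : d.re = b.re - a.re := by rw [hd]; simp
  have di : d.im = b.im - a.im := by rw [hd]; simp
  have hu0 : u ≠ 0 := by rw [hu]; exact sub_ne_zero.2 hcv
  have hd0 : d ≠ 0 := by rw [hd]; exact sub_ne_zero.2 hne.symm
  have hun : 0 < u.re ^ 2 + u.im ^ 2 := by
    rcases (by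
      by_contra hcon
      push Not at hcon
      exact hu0 (Complex.ext hcon.1 hcon.2) : u.re ≠ 0 ∨ u.im ≠ 0) with h | h
    · positivity
    · positivity
  have hdet : u.re * d.im - u.im * d.re ≠ 0 := by
    intro h0
    obtain ⟨ρ, hρ⟩ : ∃ ρ, ρ = (d.re * u.re + d.im * u.im) / (u.re ^ 2 + u.im ^ 2) := ⟨_, rfl⟩
    have er : d.re = ρ * u.re := by
      rw [hρ, div_mul_eq_mul_div, eq_div_iff hun.ne']
      linear_combination (-u.im) * h0
    have ei : d.im = ρ * u.im := by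
      rw [hρ, div_mul_eq_mul_div, eq_div_iff hun.ne']
      linear_combination (u.re) * h0
    obtain ⟨θ, hθ⟩ : ∃ θ, θ = min (1 - s) (min (1 / (|ρ| + 1)) ((1 / t - 1) / (|ρ| + 1))) :=
      ⟨_, rfl⟩
    have hρ0 : 0 < |ρ| + 1 := by positivity
    have ht' : 0 < 1 / t - 1 := by
      rw [sub_pos, lt_div_iff₀ ht0]
      linarith
    have θ1 : θ ≤ 1 - s := by rw [hθ]; exact min_le_left _ _
    have θ2 : θ ≤ 1 / (|ρ| + 1) := by
      rw [hθ]; exact (min_le_right _ _).trans (min_le_left _ _)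
    have θ3 : θ ≤ (1 / t - 1) / (|ρ| + 1) := by
      rw [hθ]; exact (min_le_right _ _).trans (min_le_right _ _)
    have θ0 : 0 < θ := by
      rw [hθ]
      exact lt_min (by linarith) (lt_min (by positivity) (by positivity))
    rw [le_div_iff₀ hρ0] at θ2 θ3
    have hθρ1 : θ * ρ ≤ θ * |ρ| := mul_le_mul_of_nonneg_left (le_abs_self ρ) θ0.le
    have hθρ2 : -(θ * |ρ|) ≤ θ * ρ := by
      have := mul_le_mul_of_nonneg_left (neg_abs_le ρ) θ0.le
      linarith
    have hz1 : c + θ • d ∈ segment ℝ a b := by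
      rw [segment_eq_image]
      refine ⟨s + θ, ⟨by linarith, by linarith⟩, ?_⟩
      apply Complex.ext
      · simp
        rw [← csr, dr]
        ring
      · simp
        rw [← csi, di]
        ring
    have hz2 : c + θ • d ∈ segment ℝ v1 v2 := by
      rw [segment_eq_image]
      have k1 : 0 ≤ 1 + θ * ρ := by linarith
      have k2 : 1 + θ * ρ ≤ 1 / t := by linarith
      have k3 : (1 + θ * ρ) * t ≤ 1 := by
        rwa [le_div_iff₀ ht0] at k2
      refine ⟨(1 + θ * ρ) * t, ⟨by positivity, k3⟩, ?_⟩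
      apply Complex.ext
      · simp
        rw [er, ur]
        linear_combination (1 + θ * ρ) * ctr
      · simp
        rw [ei, ui]
        linear_combination (1 + θ * ρ) * cti
    have hz3 : c + θ • d ∈ ({c} : Set ℂ) := by
      rw [← hnp]
      exact ⟨hz1, hz2⟩
    rw [Set.mem_singleton_iff, add_eq_left, smul_eq_zero] at hz3
    rcases hz3 with h | h
    · exact θ0.ne' h
    · exact hd0 h
  have hT0 : SP_T v1 u d (0, 0) = v1 := by
    apply Complex.ext
    · rw [SP_T_re]; simp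
    · rw [SP_T_im]; simp
  have hT1 : SP_T v1 u d (1 / t, 0) = v2 := by
    apply Complex.ext
    · rw [SP_T_re, ur, ← ctr]
      field_simp
      ring
    · rw [SP_T_im, ui, ← cti]
      field_simp
      ring
  have hTc : SP_T v1 u d (1, 0) = c := by
    apply Complex.ext
    · rw [SP_T_re, ur]; ring
    · rw [SP_T_im, ui]; ring
  have hTa : SP_T v1 u d (1, -s) = a := by
    apply Complex.ext
    · rw [SP_T_re, ur, dr]
      linear_combination -csr
    · rw [SP_T_im, ui, di]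
      linear_combination -csi
  have hTb : SP_T v1 u d (1, 1 - s) = b := by
    apply Complex.ext
    · rw [SP_T_re, ur, dr]
      linear_combination -csr
    · rw [SP_T_im, ui, di]
      linear_combination -csi
  obtain ⟨D, hD⟩ : ∃ D, D = u.re * d.im - u.im * d.re := ⟨_, rfl⟩
  rw [← hD] at hdet
  obtain ⟨p, hp⟩ : ∃ p, p = ((v0.re - v1.re) * d.im - (v0.im - v1.im) * d.re) / D := ⟨_, rfl⟩
  obtain ⟨q, hq⟩ : ∃ q, q = (u.re * (v0.im - v1.im) - u.im * (v0.re - v1.re)) / D := ⟨_, rfl⟩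
  have hTv : SP_T v1 u d (p, q) = v0 := by
    apply Complex.ext
    · rw [SP_T_re, hp, hq]
      field_simp
      rw [hD]
      ring
    · rw [SP_T_im, hp, hq]
      field_simp
      rw [hD]
      ring
  have hTi : Function.Injective (SP_T v1 u d) := by
    intro x y hxy
    have e1 := congrArg Complex.re hxy
    have e2 := congrArg Complex.im hxy
    rw [SP_T_re, SP_T_re] at e1
    rw [SP_T_im, SP_T_im] at e2
    have f1 : (x.1 - y.1) * D = 0 := by
      rw [hD]
      linear_combination d.im * e1 - d.re * e2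
    have f2 : (x.2 - y.2) * D = 0 := by
      rw [hD]
      linear_combination u.re * e2 - u.im * e1
    rcases mul_eq_zero.1 f1 with h | h
    · rcases mul_eq_zero.1 f2 with h' | h'
      · exact Prod.ext (by linarith) (by linarith)
      · exact absurd h' hdet
    · exact absurd h hdet
  have hTcont : Continuous (SP_T v1 u d : ℝ × ℝ → ℂ) := by
    change Continuous (fun x : ℝ × ℝ => x.1 • u + x.2 • d + v1)
    fun_prop
  have hFd' : Disjoint ((SP_T v1 u d) ⁻¹' F) (segment ℝ ((0, 0) : ℝ × ℝ) (1, 0)) := by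
    rw [Set.disjoint_left]
    intro x hx hx2
    apply Set.disjoint_left.1 hFd hx
    have h1 := Set.mem_image_of_mem (SP_T v1 u d) hx2
    rw [image_segment, hT0, hTc] at h1
    exact h1
  have hcase : q = 0 → p < 0 := by
    intro hq0
    have e1 : v0.re = p * u.re + v1.re := by
      rw [← hTv, SP_T_re, hq0]; ring
    have e2 : v0.im = p * u.im + v1.im := by
      rw [← hTv, SP_T_im, hq0]; ring
    by_contra hcon
    push Not at hcon
    have hp0 : p ≠ 0 := by
      intro h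
      apply h01
      apply Complex.ext
      · rw [e1, h]; ring
      · rw [e2, h]; ring
    have hp1 : 0 < p := lt_of_le_of_ne hcon (Ne.symm hp0)
    obtain ⟨m, hm⟩ : ∃ m, m = min p 1 := ⟨_, rfl⟩
    have m1 : m ≤ p := by rw [hm]; exact min_le_left _ _
    have m2 : m ≤ 1 := by rw [hm]; exact min_le_right _ _
    have m0 : 0 < m := by rw [hm]; exact lt_min hp1 one_pos
    have hz1 : v1 + m • u ∈ segment ℝ v0 v1 := by
      rw [segment_eq_image]
      have k1 : m / p ≤ 1 := by rw [div_le_one hp1]; exact m1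
      have k2 : 0 < m / p := by positivity
      refine ⟨1 - m / p, ⟨by linarith, by linarith⟩, ?_⟩
      apply Complex.ext
      · simp
        rw [e1]
        field_simp
        ring
      · simp
        rw [e2]
        field_simp
        ring
    have hz2 : v1 + m • u ∈ segment ℝ v1 v2 := by
      rw [segment_eq_image]
      have k1 : m * t ≤ 1 := by nlinarith
      refine ⟨m * t, ⟨by positivity, k1⟩, ?_⟩
      apply Complex.ext
      · simp
        rw [ur]
        linear_combination m * ctr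
      · simp
        rw [ui]
        linear_combination m * cti
    have hz3 : v1 + m • u ∈ ({v1} : Set ℂ) := by
      rw [← hint]
      exact ⟨hz1, hz2⟩
    rw [Set.mem_singleton_iff, add_eq_left, smul_eq_zero] at hz3
    rcases hz3 with h | h
    · exact m0.ne' h
    · exact hu0 h
  have hB : 1 < 1 / t := by rw [lt_div_iff₀ ht0]; linarith
  obtain ⟨a', b', l, r, c', hDD⟩ := SP_nf p q (1 / t) s (1 - s) hcase hB hs0 (by linarith)
    ((SP_T v1 u d) ⁻¹' F) (hF.preimage hTcont) hFd'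
  have h2 := SP_map (SP_T v1 u d) hTi hDD
  rw [hTv, hT0, hT1, hTa, hTb, hTc] at h2
  exact ⟨_, _, _, _, _, SP_to h2⟩

end Knot548
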