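import Pool.Agent.Helper548.Knot.Defs
import Pool.Agent.Helper548.Knot.P_center_seg
import Pool.Agent.Helper548.Knot.P_mult_ge_two
import Pool.Agent.Helper548.Knot.P_slide_planar
import Pool.Agent.Helper548.Knot.P_spike_planar
import Pool.Agent.Helper548.Knot.P_psegs_closed
import Pool.Agent.Helper548.Knot.P_vert_unique
import Pool.Agent.Helper548.Knot.P_closed_inter
import Pool.Agent.Helper548.Knot.P_ready_edges



namespace Knot548
open Set


theorem slide_detour_seg (p q x : ℂ) (h : x ∈ segment ℝ p q) : x ∈ hseg p q ∨ x = q := by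
  obtain ⟨a, b, ha, hb, hab, rfl⟩ := h
  rcases lt_or_eq_of_le (show b ≤ 1 by linarith) with hb1 | hb1
  · left
    exact ⟨b, hb, hb1, by rw [show (1 - b) = a by linarith]⟩
  · right
    have h0 : a = 0 := by linarith
    rw [h0, hb1]
    simp

theorem slide_detour_open (p q x : ℂ) (h : x ∈ openSegment ℝ p q) : x ∈ hseg p q := by
  obtain ⟨a, b, ha, hb, hab, rfl⟩ := h
  exact ⟨b, hb.le, by linarith, by rw [show (1 - b) = a by linarith]⟩

theorem slide_detour_end (p q c : ℂ) (hpq : p ≠ q) (hc : c ∈ openSegment ℝ p q) :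
    q ∉ segment ℝ p c := by
  rintro ⟨s, t, hs, ht, hst, h⟩
  obtain ⟨a, b, ha, hb, hab, rfl⟩ := hc
  simp only [Complex.real_smul] at h
  have e1 : (s : ℂ) = 1 - t := by
    have : s = 1 - t := by linarith
    rw [this]; push_cast; ring
  have e2 : (a : ℂ) = 1 - b := by
    have : a = 1 - b := by linarith
    rw [this]; push_cast; ring
  rw [e1, e2] at h
  have h1 : (1 - (t : ℂ) * b) * (p - q) = 0 := by linear_combination h
  rcases mul_eq_zero.1 h1 with h2 | h2
  · have h3 : 1 - t * b = 0 := by exact_mod_cast h2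
    have : t ≤ 1 := by linarith
    have : b < 1 := by linarith
    nlinarith
  · exact hpq (sub_eq_zero.1 h2)

theorem slide_detour_mult {P : List (ℂ × ℝ)} (E3 : List ((ℂ × ℝ) × (ℂ × ℝ)))
    (e f g : (ℂ × ℝ) × (ℂ × ℝ)) (h : (cedges P).Perm (e :: f :: g :: E3)) (x : ℂ)
    (he : x ∈ hseg e.1.1 e.2.1) (hf : x ∈ hseg f.1.1 f.2.1) (hg : x ∈ hseg g.1.1 g.2.1) :
    3 ≤ mult P x := by
  unfold mult cnt
  rw [h.countP_eq, List.countP_cons_of_pos (by simpa using he),
    List.countP_cons_of_pos (by simpa using hf), List.countP_cons_of_pos (by simpa using hg)]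
  omega

theorem slide_detour_tail {α : Type*} (L : List α) (e : α × α) (he : e ∈ pedges L) :
    e.2 ∈ L.tail := by
  induction L with
  | nil => simp [pedges] at he
  | cons a l ih =>
    cases l with
    | nil => simp [pedges] at he
    | cons b l =>
      rw [pedges, List.mem_cons] at he
      rcases he with rfl | he
      · simp
      · have := ih he
        simp only [List.tail_cons] at this ⊢
        exact List.mem_cons_of_mem _ this

theorem slide_detour_perm1 {α : Type*} (A B C : List α) (p q r : α) :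
    (A ++ [p, q] ++ B ++ [r] ++ C).Perm (p :: q :: (A ++ B ++ [r] ++ C)) := by
  classical
  rw [List.perm_iff_count]
  intro x
  simp only [List.count_append, List.count_cons, List.count_nil]
  omega

theorem slide_detour_perm2 {α : Type*} (A B C : List α) (p q r : α) :
    (A ++ [p, q] ++ B ++ [r] ++ C).Perm (q :: r :: (A ++ B ++ [p] ++ C)) := by
  classical
  rw [List.perm_iff_count]
  intro x
  simp only [List.count_append, List.count_cons, List.count_nil]
  omega

theorem slide_detour_perm3 {α : Type*} (A B C : List α) (p q r : α) :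
    (A ++ [p, q] ++ B ++ [r] ++ C).Perm (p :: r :: (A ++ B ++ [q] ++ C)) := by
  classical
  rw [List.perm_iff_count]
  intro x
  simp only [List.count_append, List.count_cons, List.count_nil]
  omega

theorem slide_detour_perm4 {α : Type*} (A B C : List α) (p q r : α) :
    (A ++ [p, q] ++ B ++ [r] ++ C).Perm ((A ++ B ++ C) ++ [p, q, r]) := by
  classical
  rw [List.perm_iff_count]
  intro x
  simp only [List.count_append, List.count_cons, List.count_nil]
  omega

theorem slide_detour_perm5 {α : Type*} (A B : List α) (e p q r : α) :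
    ((A ++ e :: B) ++ [p, q, r]).Perm (e :: q :: r :: (A ++ B ++ [p])) := by
  classical
  rw [List.perm_iff_count]
  intro x
  simp only [List.count_append, List.count_cons, List.count_nil]
  omega

theorem slide_detour_last {α : Type*} (L : List α) (hL : L ≠ []) (v : α) :
    (L.getLast hL, v) ∈ pedges (L ++ [v]) := by
  induction L with
  | nil => exact absurd rfl hL
  | cons a l ih =>
    cases l with
    | nil => simp [pedges]
    | cons b l =>
      have := ih (by simp)
      rw [List.getLast_cons (by simp)]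
      show _ ∈ (a, b) :: pedges (b :: l ++ [v])
      exact List.mem_cons_of_mem _ this

theorem slide_detour {O : ℂ} {h : ℝ} {M : List (ℂ × ℝ)} {v y y2 : ℂ × ℝ} {X : List (ℂ × ℝ)} {a b : ℂ × ℝ}
    {Y : List (ℂ × ℝ)} {c : ℂ} (R : Ready O h (M ++ [v]) y y2 X a b Y c) :
    ∃ a' b' l r c' : ℂ, Detour (((O, h) :: M).getLast (by simp)).1 v.1 y.1 a.1 b.1 c
      (psegs (pedges ((O, h) :: M) ++ pedges (y :: y2 :: (X ++ [a])) ++ pedges (b :: (Y ++ [(O, h)]))))
      a' b' l r c' := by
  set P := (((O, h) :: (M ++ [v])) ++ [y, y2]) ++ X ++ [a, b] ++ Y with hP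
  set u := ((O, h) :: M).getLast (by simp) with hu
  have hedges : cedges P = pedges ((O, h) :: M) ++ [(u, v), (v, y)] ++ pedges (y :: y2 :: (X ++ [a])) ++
        [(a, b)] ++ pedges (b :: (Y ++ [(O, h)])) := ready_edges M v y y2 X a b Y
  have hlast : ((O, h) :: (M ++ [v])).getLast (by simp) = v := by simp
  have hreg : Reg O P := R.reg
  have hcm : mult P c = 2 := R.cm
  have hPs : P = ((O, h) :: M) ++ v :: (y :: y2 :: (X ++ [a, b] ++ Y)) := by
    rw [hP]; simp
  have hce := R.ce
  rw [hlast] at hce
  have hk3 : ∀ x ∈ segment ℝ v.1 y.1, x ≠ O → x ≠ c → mult P x ≤ 1 := by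
    have h0 := R.k3
    rw [hlast] at h0
    exact h0
  have huM : u ∈ (O, h) :: M := List.getLast_mem _
  have hvoff : v.1 ≠ O := R.moff v (by simp)
  -- vertex uniqueness
  have hyu := vert_unique hreg ((O, h) :: (M ++ [v])) (y2 :: (X ++ [a, b] ++ Y)) y (by rw [hP]; simp) R.yoff
  have hvu := vert_unique hreg ((O, h) :: M) (y :: y2 :: (X ++ [a, b] ++ Y)) v (by rw [hP]; simp) hvoff
  have hbu := vert_unique hreg ((((O, h) :: (M ++ [v])) ++ [y, y2]) ++ X ++ [a]) Y b (by rw [hP]; simp) R.boff
  -- edges
  have euv : (u, v) ∈ cedges P := by rw [hedges]; simp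
  have evy : (v, y) ∈ cedges P := by rw [hedges]; simp
  have eab : (a, b) ∈ cedges P := by rw [hedges]; simp
  have hOvy : O ∉ segment ℝ v.1 y.1 := by
    intro hO
    rcases center_seg hreg (v, y) evy hO with h0 | h0
    · exact hvoff h0
    · exact R.yoff h0
  have hOab : O ∉ segment ℝ a.1 b.1 := by
    intro hO
    rcases center_seg hreg (a, b) eab hO with h0 | h0
    · exact R.aoff h0
    · exact R.boff h0
  have hk1 : ∀ x ∈ segment ℝ u.1 v.1, x ≠ O → mult P x ≤ 1 := by
    intro x hx hxO
    refine R.k1 x ⟨(u, v), ?_, hx⟩ hxO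
    exact slide_detour_last ((O, h) :: M) (by simp) v
  have perm1 : (cedges P).Perm ((u, v) :: (v, y) :: (pedges ((O, h) :: M) ++
      pedges (y :: y2 :: (X ++ [a])) ++ [(a, b)] ++ pedges (b :: (Y ++ [(O, h)])))) := by
    rw [hedges]; exact slide_detour_perm1 _ _ _ _ _ _
  have perm2 : (cedges P).Perm ((v, y) :: (a, b) :: (pedges ((O, h) :: M) ++
      pedges (y :: y2 :: (X ++ [a])) ++ [(u, v)] ++ pedges (b :: (Y ++ [(O, h)])))) := by
    rw [hedges]; exact slide_detour_perm2 _ _ _ _ _ _
  have perm3 : (cedges P).Perm ((u, v) :: (a, b) :: (pedges ((O, h) :: M) ++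
      pedges (y :: y2 :: (X ++ [a])) ++ [(v, y)] ++ pedges (b :: (Y ++ [(O, h)])))) := by
    rw [hedges]; exact slide_detour_perm3 _ _ _ _ _ _
  have hab1 : a.1 ≠ b.1 := hreg.nondeg (a, b) eab
  refine slide_planar u.1 v.1 y.1 a.1 b.1 c (hreg.nondeg _ euv) ?_ hce R.cs ?_ ?_ _
    (psegs_closed _) ?_ hab1
  · -- (2)
    apply Set.eq_singleton_iff_unique_mem.2
    refine ⟨⟨right_mem_segment ℝ _ _, left_mem_segment ℝ _ _⟩, ?_⟩
    rintro x ⟨hx1, hx2⟩
    have hxO : x ≠ O := by rintro rfl; exact hOvy hx2
    rcases closed_inter hreg _ (u, v) (v, y) perm1 x hxO hx1 hx2 with h0 | ⟨h0, _⟩ | ⟨h0, h0'⟩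
    · have := hk1 x hx1 hxO
      omega
    · exact h0
    · exfalso
      have hyu' : y = u := h0'
      exact hyu u (by
        rw [List.mem_append]; left
        rcases List.mem_cons.1 huM with h1 | h1
        · rw [h1]; simp
        · simp [h1]) (by rw [← hyu'])
  · -- (3)
    apply Set.eq_singleton_iff_unique_mem.2
    refine ⟨⟨openSegment_subset_segment ℝ _ _ R.cs, openSegment_subset_segment ℝ _ _ hce⟩, ?_⟩
    rintro x ⟨hx1, hx2⟩
    have hxO : x ≠ O := by rintro rfl; exact hOvy hx2
    rcases closed_inter hreg _ (v, y) (a, b) perm2 x hxO hx2 hx1 with h0 | ⟨h0, h0'⟩ | ⟨h0, h0'⟩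
    · by_contra hxc
      have := hk3 x hx2 hxO hxc
      omega
    · exfalso
      have h1 : y = a := h0'
      exact hyu a (by simp) (by rw [← h1])
    · exfalso
      have h1 : b = v := h0'
      exact hvu b (by simp) (by rw [← h1])
  · -- (4)
    rw [Set.disjoint_left]
    intro x hx1 hx2
    have hxO : x ≠ O := by rintro rfl; exact hOab hx1
    rcases closed_inter hreg _ (u, v) (a, b) perm3 x hxO hx2 hx1 with h0 | ⟨h0, h0'⟩ | ⟨h0, h0'⟩
    · have := hk1 x hx2 hxO
      omega
    · have h1 : v = a := h0'
      exact hvu a (by simp) (by rw [← h1])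
    · have h1 : b = u := h0'
      exact hbu u (by
        rw [List.mem_append]; left
        rcases List.mem_cons.1 huM with h1 | h1
        · rw [h1]; simp
        · simp [h1]) (by rw [← h1])
  · -- (5)
    rw [Set.disjoint_left]
    rintro x ⟨e, he, hxe⟩ hx2
    have hx2' : x ∈ segment ℝ v.1 y.1 :=
      (convex_segment v.1 y.1).segment_subset (left_mem_segment ℝ _ _)
        (openSegment_subset_segment ℝ _ _ hce) hx2
    have hxO : x ≠ O := by rintro rfl; exact hOvy hx2'
    obtain ⟨s', t', hst⟩ := List.append_of_mem he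
    have perm4 : (cedges P).Perm (e :: (v, y) :: (a, b) :: (s' ++ t' ++ [(u, v)])) := by
      have e0 : (cedges P).Perm ((pedges ((O, h) :: M) ++ pedges (y :: y2 :: (X ++ [a])) ++
          pedges (b :: (Y ++ [(O, h)]))) ++ [(u, v), (v, y), (a, b)]) := by
        rw [hedges]; exact slide_detour_perm4 _ _ _ _ _ _
      refine e0.trans ?_
      rw [hst]; exact slide_detour_perm5 _ _ _ _ _ _
    have he2 : e.2 ∈ ((O, h) :: M) ++ (y :: y2 :: (X ++ [a, b] ++ Y)) := by
      rw [List.mem_append, List.mem_append] at he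
      rcases he with (he | he) | he
      · have h5 := slide_detour_tail _ _ he
        simp only [List.tail_cons] at h5
        exact List.mem_append_left _ (List.mem_cons_of_mem _ h5)
      · have h5 := slide_detour_tail _ _ he
        simp only [List.tail_cons, List.mem_cons, List.mem_append, List.not_mem_nil, or_false] at h5
        refine List.mem_append_right _ ?_
        rcases h5 with h5 | h5 | h5
        · rw [h5]; simp
        · simp [h5]
        · rw [h5]; simp
      · have h5 := slide_detour_tail _ _ he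
        simp only [List.tail_cons, List.mem_append, List.mem_cons, List.not_mem_nil, or_false] at h5
        rcases h5 with h5 | h5
        · refine List.mem_append_right _ ?_
          simp [h5]
        · rw [h5]; simp
    rcases closed_inter hreg _ e (v, y) perm4 x hxO hxe hx2' with h0 | ⟨h0, h0'⟩ | ⟨h0, h0'⟩
    · have hxc : x = c := by
        by_contra hxc
        have := hk3 x hx2' hxO hxc
        omega
      subst hxc
      rcases slide_detour_seg _ _ _ hxe with h1 | h1
      · have h3 := slide_detour_mult _ e (v, y) (a, b) perm4 x h1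
          (slide_detour_open _ _ _ hce) (slide_detour_open _ _ _ R.cs)
        omega
      · have he2P : e.2 ∈ P := by
          rw [hPs, List.mem_append]
          rcases List.mem_append.1 he2 with h5 | h5
          · exact Or.inl h5
          · exact Or.inr (List.mem_cons_of_mem _ h5)
        have h4 := hreg.vert e.2 he2P (by rw [← h1]; exact hxO)
        rw [← h1] at h4
        omega
    · exact hvu e.2 he2 (by rw [h0'])
    · refine slide_detour_end v.1 y.1 c (hreg.nondeg _ evy) hce ?_
      have h1 : x = y.1 := h0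
      rw [← h1]
      exact hx2

end Knot548
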