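import Pool.Agent.Helper548.Knot.Defs
import Pool.Agent.Helper548.Knot.P_ce_cons
import Pool.Agent.Helper548.Knot.P_pe_append
import Pool.Agent.Helper548.Knot.P_simple_rotate
import Pool.Agent.Helper548.Knot.P_eqv_rotate
import Pool.Agent.Helper548.Knot.P_simple_top
import Pool.Agent.Helper548.Knot.P_cone
import Pool.Agent.Helper548.Knot.P_raise
import Pool.Agent.Helper548.Knot.P_over_ord



namespace Knot548
open Set


theorem slide_aux_pe_mem {α : Type*} : ∀ (L : List α) (e : α × α), e ∈ pedges L → e.1 ∈ L ∧ e.2 ∈ L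
  | [], e, h => by simp [pedges] at h
  | [_], e, h => by simp [pedges] at h
  | a :: b :: l, e, h => by
    rw [pedges, List.mem_cons] at h
    rcases h with h | h
    · rw [h]
      exact ⟨by simp, by simp⟩
    · have h1 := slide_aux_pe_mem (b :: l) e h
      exact ⟨List.mem_cons_of_mem _ h1.1, List.mem_cons_of_mem _ h1.2⟩

theorem slide_aux_height (p q : ℂ × ℝ) (H : ℝ) (hp : p.2 < H) (hq : q.2 < H) (c : ℂ) (z : ℝ)
    (h : ((c, z) : ℂ × ℝ) ∈ segment ℝ p q) : z < H := by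
  obtain ⟨s, t, hs, ht, hst, he⟩ := h
  have h2 := congrArg Prod.snd he
  simp only [Prod.snd_add, Prod.smul_snd, smul_eq_mul] at h2
  rw [← h2]
  rcases eq_or_lt_of_le hs with h0 | h0
  · have ht1 : t = 1 := by linarith
    rw [← h0, ht1]
    linarith
  · have h3 : s * H + t * H = H := by rw [← add_mul, hst, one_mul]
    have h4 := mul_lt_mul_of_pos_left hp h0
    have h5 := mul_le_mul_of_nonneg_left hq.le ht
    linarith

theorem slide_aux_flat (p q : ℂ) (H : ℝ) (c : ℂ) (z : ℝ)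
    (h : ((c, z) : ℂ × ℝ) ∈ segment ℝ ((p, H) : ℂ × ℝ) (q, H)) : z = H := by
  obtain ⟨s, t, hs, ht, hst, he⟩ := h
  have h2 := congrArg Prod.snd he
  simp only [Prod.snd_add, Prod.smul_snd, smul_eq_mul] at h2
  rw [← h2, ← add_mul, hst, one_mul]

theorem slide_aux_hseg {E : Type*} [AddCommGroup E] [Module ℝ E] (a b : E) :
    hseg a b ⊆ segment ℝ a b := by
  rintro x ⟨s, h0, h1, rfl⟩
  exact ⟨1 - s, s, by linarith, h0, by ring, rfl⟩

theorem slide_aux_last (a b : ℂ) (hab : a ≠ b) : b ∉ hseg a b := by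
  rintro ⟨s, h0, h1, h⟩
  have h2 : ((1 - s : ℝ) : ℂ) * (b - a) = 0 := by
    simp only [Complex.real_smul] at h
    push_cast at h ⊢
    linear_combination h
  rcases mul_eq_zero.1 h2 with h3 | h3
  · rw [Complex.ofReal_eq_zero] at h3
    linarith
  · exact hab (sub_eq_zero.1 h3).symm

theorem slide_aux_path1 (a b : ℂ) (hab : a ≠ b) : PathSimple (a :: (([] : List ℂ) ++ [b])) := by
  refine ⟨?_, ?_, ?_⟩
  · intro e he
    simp only [List.nil_append, pedges, List.mem_cons, List.not_mem_nil, or_false] at he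
    rw [he]
    exact hab
  · simp [pedges]
  · intro x hx e he
    simp only [List.nil_append, pedges, List.mem_cons, List.not_mem_nil, or_false] at he
    simp only [List.nil_append, List.getLast?_cons_cons, List.getLast?_singleton,
      Option.mem_def, Option.some.injEq] at hx
    rw [he, ← hx]
    exact slide_aux_last a b hab

theorem slide_aux_path3 (a l r b : ℂ) (n1 : a ≠ l) (n2 : l ≠ r) (n3 : r ≠ b)
    (s1 : segment ℝ a l ∩ segment ℝ l r = {l}) (s2 : segment ℝ l r ∩ segment ℝ r b = {r})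
    (s3 : Disjoint (segment ℝ a l) (segment ℝ r b)) : PathSimple (a :: ([l, r] ++ [b])) := by
  have hpe : pedges (a :: ([l, r] ++ [b])) = [(a, l), (l, r), (r, b)] := rfl
  have d1 : Disjoint (hseg a l) (hseg l r) := by
    rw [Set.disjoint_left]
    intro x hx hx'
    have h1 : x ∈ segment ℝ a l ∩ segment ℝ l r := ⟨slide_aux_hseg _ _ hx, slide_aux_hseg _ _ hx'⟩
    rw [s1, Set.mem_singleton_iff] at h1
    rw [h1] at hx
    exact slide_aux_last a l n1 hx
  have d2 : Disjoint (hseg a l) (hseg r b) :=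
    s3.mono (slide_aux_hseg _ _) (slide_aux_hseg _ _)
  have d3 : Disjoint (hseg l r) (hseg r b) := by
    rw [Set.disjoint_left]
    intro x hx hx'
    have h1 : x ∈ segment ℝ l r ∩ segment ℝ r b := ⟨slide_aux_hseg _ _ hx, slide_aux_hseg _ _ hx'⟩
    rw [s2, Set.mem_singleton_iff] at h1
    rw [h1] at hx
    exact slide_aux_last l r n2 hx
  refine ⟨?_, ?_, ?_⟩
  · intro e he
    rw [hpe] at he
    simp only [List.mem_cons, List.not_mem_nil, or_false] at he
    rcases he with h | h | h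
    · rw [h]; exact n1
    · rw [h]; exact n2
    · rw [h]; exact n3
  · rw [hpe]
    simp only [List.pairwise_cons, List.mem_cons, List.not_mem_nil, or_false, forall_eq_or_imp,
      forall_eq, implies_true, List.Pairwise.nil, and_true, IsEmpty.forall_iff]
    exact ⟨⟨d1, d2⟩, d3⟩
  · intro x hx e he
    rw [hpe] at he
    have hx' : x = b := by
      simp at hx
      exact hx.symm
    rw [hx']
    simp only [List.mem_cons, List.not_mem_nil, or_false] at he
    have hb : b ∈ segment ℝ r b := right_mem_segment ℝ r b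
    rcases he with h | h | h
    · rw [h]
      intro h1
      exact Set.disjoint_left.1 s3 (slide_aux_hseg _ _ h1) hb
    · rw [h]
      intro h1
      have h2 : b ∈ segment ℝ l r ∩ segment ℝ r b := ⟨slide_aux_hseg _ _ h1, hb⟩
      rw [s2, Set.mem_singleton_iff] at h2
      exact n3 h2.symm
    · rw [h]
      exact slide_aux_last r b n3

theorem slide_eqv {O : ℂ} {h : ℝ} {M : List (ℂ × ℝ)} {v y y2 : ℂ × ℝ} {X : List (ℂ × ℝ)} {a b : ℂ × ℝ}
    {Y : List (ℂ × ℝ)} {c : ℂ} (R : Ready O h (M ++ [v]) y y2 X a b Y c) (ho : Over v y a b c) (F : Set ℂ)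
    (a' b' l r c' : ℂ) (D : Detour (((O, h) :: M).getLast (by simp)).1 v.1 y.1 a.1 b.1 c F a' b' l r c') (H : ℝ)
    (hH : ∀ w ∈ (((O, h) :: (M ++ [v])) ++ [y, y2]) ++ X ++ [a, b] ++ Y, w.2 < H) :
    Simple (((((O, h) :: M) ++ [v, y]) ++ (y2 :: X ++ [a, (a', H)]) ++ [(l, H), (r, H)] ++ ((b', H) :: b :: Y) : List (ℂ × ℝ))) ∧
    Eqv ((((O, h) :: (M ++ [v])) ++ [y, y2]) ++ X ++ [a, b] ++ Y)
      ((((O, h) :: M) ++ [v, y]) ++ (y2 :: X ++ [a, (a', H)]) ++ [(l, H), (r, H)] ++ ((b', H) :: b :: Y)) := by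
  obtain ⟨A, hA⟩ : ∃ A : List (ℂ × ℝ), A = (((O, h) :: (M ++ [v])) ++ [y, y2]) ++ X := ⟨_, rfl⟩
  obtain ⟨Rr, hRr⟩ : ∃ Rr : List (ℂ × ℝ), Rr = b :: (Y ++ A ++ [a]) := ⟨_, rfl⟩
  have hRr0 : Rr ≠ [] := by rw [hRr]; simp
  have hP0 : (((O, h) :: (M ++ [v])) ++ [y, y2]) ++ X ++ [a, b] ++ Y = A ++ [a, b] ++ Y := by
    rw [hA]
  have hRrH : ∀ w ∈ Rr, w.2 < H := by
    intro w hw
    apply hH
    rw [hP0]
    rw [hRr] at hw
    simp only [List.mem_cons, List.mem_append, List.not_mem_nil, or_false] at hw ⊢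
    tauto
  -- over_ord
  have hlist : (((O, h) :: (M ++ [v])) ++ [y, y2]) ++ X ++ [a, b] ++ Y =
      ((O, h) :: M) ++ [v, y] ++ (y2 :: X) ++ [a, b] ++ Y := by simp
  have hgl : ((O, h) :: (M ++ [v])).getLast (by simp) = v := by simp
  have hce : c ∈ openSegment ℝ v.1 y.1 := by
    have h1 := R.ce
    rw [hgl] at h1
    exact h1
  have hord0 := over_ord (O := O) ((O, h) :: M) (y2 :: X) Y v y a b c
    (by rw [← hlist]; exact R.reg) R.coff (by rw [← hlist]; exact R.cm) hce R.cs ho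
  have hlist2 : b :: (Y ++ (((O, h) :: M) ++ [v, y] ++ (y2 :: X)) ++ [a]) = Rr := by
    rw [hRr, hA]
    simp
  rw [hlist2] at hord0
  have hra := raise (O := O) A Y a b c (by rw [← hP0]; exact R.reg) R.aoff R.boff R.cs
    (by rw [← hP0]; exact R.k5) a' b' D.ha D.hb H H (by
      intro e he z w w' hz hw hw'
      rw [← hRr] at he
      left
      refine ⟨hord0 e he z w hz hw, ?_⟩
      rw [slide_aux_flat _ _ _ _ _ hw']
      have h1 := slide_aux_pe_mem _ _ he
      exact slide_aux_height _ _ _ (hRrH _ h1.1) (hRrH _ h1.2) _ _ hz)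
  obtain ⟨hreg1, heq1, -, -⟩ := hra
  -- rotation
  have hrot1 : (A ++ [a, (a', H), (b', H), b] ++ Y).rotate (A ++ [a]).length =
      (a', H) :: (b', H) :: Rr := by
    have h1 : A ++ [a, (a', H), (b', H), b] ++ Y = (A ++ [a]) ++ ((a', H) :: (b', H) :: b :: Y) := by
      simp
    rw [h1, List.rotate_append_length_eq, hRr]
    simp
  have hP2 : (((O, h) :: M) ++ [v, y]) ++ (y2 :: X ++ [a, (a', H)]) ++ [(l, H), (r, H)] ++
      ((b', H) :: b :: Y) = (A ++ [a]) ++ ((a', H) :: (l, H) :: (r, H) :: (b', H) :: b :: Y) := by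
    rw [hA]
    simp
  have hrot2 : ((A ++ [a]) ++ ((a', H) :: (l, H) :: (r, H) :: (b', H) :: b :: Y)).rotate
      (A ++ [a]).length = (a' :: ([l, r] ++ [b'])).map (fun z => ((z, H) : ℂ × ℝ)) ++ Rr := by
    rw [List.rotate_append_length_eq, hRr]
    simp
  have hs1 : Simple ((a', H) :: (b', H) :: Rr) := by
    rw [← hrot1, simple_rotate]
    exact hreg1.simple
  have hab' : a' ≠ b' := by
    have h1 := hs1.1 ((a', H), (b', H)) (by
      rw [ce_cons]
      simp [pedges])
    intro h2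
    apply h1
    rw [h2]
  have hN3 := slide_aux_path3 a' l r b' D.n1 D.n2 D.n3 D.s1 D.s2 D.s3
  have hN1 := slide_aux_path1 a' b' hab'
  have hs3 := simple_top a' b' Rr H hs1 hRr0 hRrH [l, r] hN3
  have hc3 := (cone a' b' [l, r] Rr H (H + 1) 0 (by linarith) hN3 hRr0 hRrH hs3).2
  have hc1 := (cone a' b' [] Rr H (H + 1) 0 (by linarith) hN1 hRr0 hRrH hs1).2
  rw [hP2]
  constructor
  · rw [← simple_rotate _ (A ++ [a]).length, hrot2]
    exact hs3
  · rw [hP0]
    have e1 : Eqv (A ++ [a, (a', H), (b', H), b] ++ Y) ((a', H) :: (b', H) :: Rr) := by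
      rw [← hrot1]
      exact eqv_rotate _ _
    have e2 : Eqv ((A ++ [a]) ++ ((a', H) :: (l, H) :: (r, H) :: (b', H) :: b :: Y))
        ((a' :: ([l, r] ++ [b'])).map (fun z => ((z, H) : ℂ × ℝ)) ++ Rr) := by
      rw [← hrot2]
      exact eqv_rotate _ _
    exact Relation.EqvGen.trans _ _ _ heq1 (Relation.EqvGen.trans _ _ _ e1
      (Relation.EqvGen.trans _ _ _ hc1 (Relation.EqvGen.trans _ _ _
        (Relation.EqvGen.symm _ _ hc3) (Relation.EqvGen.symm _ _ e2))))

end Knot548
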