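import Pool.Agent.Helper548.Knot.Defs
import Pool.Agent.Helper548.Knot.P_ce_cons
import Pool.Agent.Helper548.Knot.P_pe_append
import Pool.Agent.Helper548.Knot.P_ready_edges



namespace Knot548
open Set


open Classical in
theorem slide_mult {O : ℂ} {h : ℝ} (M : List (ℂ × ℝ)) (v y y2 : ℂ × ℝ) (X : List (ℂ × ℝ)) (a b : ℂ × ℝ)
    (Y : List (ℂ × ℝ)) (a' b' l r : ℂ) (H : ℝ) (x : ℂ) :
    mult ((((O, h) :: M) ++ [v, y]) ++ (y2 :: X ++ [a, (a', H)]) ++ [(l, H), (r, H)] ++ ((b', H) :: b :: Y)) x +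
        (if x ∈ hseg a.1 b.1 then 1 else 0) =
      mult ((((O, h) :: (M ++ [v])) ++ [y, y2]) ++ X ++ [a, b] ++ Y) x + (if x ∈ hseg a.1 a' then 1 else 0) +
        (if x ∈ hseg a' l then 1 else 0) + (if x ∈ hseg l r then 1 else 0) + (if x ∈ hseg r b' then 1 else 0) +
        (if x ∈ hseg b' b.1 then 1 else 0) := by
  have hnew : cedges ((((O, h) :: M) ++ [v, y]) ++ (y2 :: X ++ [a, (a', H)]) ++ [(l, H), (r, H)] ++
      ((b', H) :: b :: Y)) =
      pedges (((O, h) :: (M ++ v :: y :: y2 :: X)) ++ [a]) ++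
        ((a, (a', H)) :: ((a', H), (l, H)) :: ((l, H), (r, H)) :: ((r, H), (b', H)) ::
          ((b', H), b) :: pedges (b :: (Y ++ [(O, h)]))) := by
    have e : (((O, h) :: M) ++ [v, y]) ++ (y2 :: X ++ [a, (a', H)]) ++ [(l, H), (r, H)] ++
        ((b', H) :: b :: Y) = (O, h) :: (M ++ v :: y :: y2 :: (X ++ a :: (a', H) :: (l, H) ::
          (r, H) :: (b', H) :: b :: Y)) := by simp
    rw [e, ce_cons]
    have e2 : (O, h) :: ((M ++ v :: y :: y2 :: (X ++ a :: (a', H) :: (l, H) ::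
          (r, H) :: (b', H) :: b :: Y)) ++ [(O, h)]) =
        ((O, h) :: (M ++ v :: y :: y2 :: X)) ++ a :: ((a', H) :: (l, H) :: (r, H) :: (b', H) ::
          b :: (Y ++ [(O, h)])) := by simp
    rw [e2, pe_append]
    rfl
  have hold : cedges ((((O, h) :: (M ++ [v])) ++ [y, y2]) ++ X ++ [a, b] ++ Y) =
      pedges (((O, h) :: (M ++ v :: y :: y2 :: X)) ++ [a]) ++
        ((a, b) :: pedges (b :: (Y ++ [(O, h)]))) := by
    have e : (((O, h) :: (M ++ [v])) ++ [y, y2]) ++ X ++ [a, b] ++ Y =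
        (O, h) :: (M ++ v :: y :: y2 :: (X ++ a :: b :: Y)) := by simp
    rw [e, ce_cons]
    have e2 : (O, h) :: ((M ++ v :: y :: y2 :: (X ++ a :: b :: Y)) ++ [(O, h)]) =
        ((O, h) :: (M ++ v :: y :: y2 :: X)) ++ a :: (b :: (Y ++ [(O, h)])) := by simp
    rw [e2, pe_append]
    rfl
  unfold mult cnt
  rw [hnew, hold]
  simp only [List.countP_append, List.countP_cons, decide_eq_true_eq]
  ring

end Knot548
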