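import Pool.Agent.Helper548.Knot.Defs
import Pool.Agent.Helper548.Knot.P_ce_cons
import Pool.Agent.Helper548.Knot.P_pe_append
import Pool.Agent.Helper548.Knot.P_hseg_split
import Pool.Agent.Helper548.Knot.P_center_seg
import Pool.Agent.Helper548.Knot.P_mult_ge_two
import Pool.Agent.Helper548.Knot.P_vert_unique
import Pool.Agent.Helper548.Knot.P_ready_edges
import Pool.Agent.Helper548.Knot.P_slide_mult



namespace Knot548
open Set


theorem sr_hseg_sub {E : Type*} [AddCommGroup E] [Module ℝ E] (a b : E) :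
    hseg a b ⊆ segment ℝ a b := by
  rintro x ⟨s, h0, h1, rfl⟩
  exact ⟨1 - s, s, by linarith, h0, by ring, rfl⟩

theorem sr_left {E : Type*} [AddCommGroup E] [Module ℝ E] (a b : E) : a ∈ hseg a b :=
  ⟨0, le_rfl, one_pos, by simp⟩

theorem sr_open {E : Type*} [AddCommGroup E] [Module ℝ E] {a b x : E}
    (hx : x ∈ openSegment ℝ a b) : x ∈ hseg a b := by
  obtain ⟨p, q, hp, hq, hpq, rfl⟩ := hx
  exact ⟨q, hq.le, by linarith, by rw [show 1 - q = p by linarith]⟩

theorem sr_inj {a b : ℂ} (hab : a ≠ b) {σ τ : ℝ}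
    (h : (1 - σ) • a + σ • b = (1 - τ) • a + τ • b) : σ = τ := by
  have h3 : (σ - τ) • (b - a) = 0 := by
    calc (σ - τ) • (b - a) = ((1 - σ) • a + σ • b) - ((1 - τ) • a + τ • b) := by module
      _ = 0 := by rw [h, sub_self]
  rcases smul_eq_zero.mp h3 with h | h
  · linarith
  · exact absurd (sub_eq_zero.mp h).symm hab

theorem sr_right {a b : ℂ} (h : a ≠ b) : b ∉ hseg a b := by
  rintro ⟨s, h0, h1, h2⟩
  have h3 : (1 - (1 : ℝ)) • a + (1 : ℝ) • b = (1 - s) • a + s • b := by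
    rw [← h2]; simp
  have := sr_inj h h3
  linarith

theorem sr_hseg_param (a b : ℂ) (α β : ℝ) (h : α < β) (x : ℂ) :
    x ∈ hseg ((1 - α) • a + α • b) ((1 - β) • a + β • b) ↔
      ∃ τ, α ≤ τ ∧ τ < β ∧ x = (1 - τ) • a + τ • b := by
  constructor
  · rintro ⟨s, h0, h1, rfl⟩
    refine ⟨α + s * (β - α), by nlinarith, by nlinarith, ?_⟩
    module
  · rintro ⟨τ, h0, h1, rfl⟩
    have hd : 0 < β - α := by linarith
    refine ⟨(τ - α) / (β - α), div_nonneg (by linarith) hd.le, ?_, ?_⟩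
    · rw [div_lt_one hd]; linarith
    · obtain ⟨σ, hσ⟩ : ∃ σ, σ = (τ - α) / (β - α) := ⟨_, rfl⟩
      have : τ = α + σ * (β - α) := by
        rw [hσ]; field_simp; ring
      rw [← hσ, this]
      module

theorem sr_param {a b c a' b' : ℂ} (hc : c ∈ openSegment ℝ a b) (ha : a' ∈ openSegment ℝ a c)
    (hb : b' ∈ openSegment ℝ c b) : ∃ α s β : ℝ, 0 < α ∧ α < s ∧ s < β ∧ β < 1 ∧
      a' = (1 - α) • a + α • b ∧ c = (1 - s) • a + s • b ∧ b' = (1 - β) • a + β • b := by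
  obtain ⟨p, s, hp, hs, hps, rfl⟩ := hc
  obtain ⟨p1, t, hp1, ht, hpt, rfl⟩ := ha
  obtain ⟨p2, q, hp2, hq, hpq, rfl⟩ := hb
  obtain rfl : p = 1 - s := by linarith
  obtain rfl : p1 = 1 - t := by linarith
  obtain rfl : p2 = 1 - q := by linarith
  refine ⟨t * s, s, s + q * (1 - s), by positivity, by nlinarith, by nlinarith, by nlinarith,
    ?_, rfl, ?_⟩
  · module
  · module

theorem sr_end_edge {α : Type*} (b z : α) (Y : List α) :
    ∃ e ∈ pedges (b :: (Y ++ [z])), e.2 = z := by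
  induction Y generalizing b with
  | nil => exact ⟨(b, z), by simp [pedges], rfl⟩
  | cons w Y ih =>
    obtain ⟨e, he, h⟩ := ih w
    refine ⟨e, ?_, h⟩
    simp only [List.cons_append, pedges, List.mem_cons]
    exact Or.inr he

theorem sr_last_edge {α : Type*} (z v : α) (M : List α) :
    ((z :: M).getLast (by simp), v) ∈ pedges (z :: (M ++ [v])) := by
  induction M generalizing z with
  | nil => simp [pedges]
  | cons w M ih =>
    have := ih w
    rw [List.getLast_cons (by simp)]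
    simp only [List.cons_append, pedges, List.mem_cons]
    exact Or.inr this

theorem sr_start {α : Type*} (L : List α) (w : α) (hw : w ∈ L) : ∃ e ∈ cedges L, e.1 = w := by
  obtain ⟨i, hi, rfl⟩ := List.mem_iff_getElem.mp hw
  have hlen : i < (L.rotate 1).length := by simpa using hi
  refine ⟨(L[i], (L.rotate 1)[i]), ?_, rfl⟩
  unfold cedges
  rw [List.mem_iff_getElem]
  refine ⟨i, by simp [hi], ?_⟩
  rw [List.getElem_zip]

theorem sr_mult_pos (P : List (ℂ × ℝ)) (w : ℂ × ℝ) (hw : w ∈ P) : 1 ≤ mult P w.1 := by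
  obtain ⟨e, he, h⟩ := sr_start P w hw
  unfold mult cnt
  refine List.countP_pos_iff.mpr ⟨e, he, ?_⟩
  simp only [decide_eq_true_eq]
  rw [h]
  exact sr_left _ _

theorem sr_cnt_zero (E : List ((ℂ × ℝ) × (ℂ × ℝ))) (x : ℂ) (h : x ∉ psegs E) : cnt E x = 0 := by
  unfold cnt
  rw [List.countP_eq_zero]
  intro e he hx
  simp only [decide_eq_true_eq] at hx
  exact h ⟨e, he, sr_hseg_sub _ _ hx⟩

open Classical in
theorem sr_mult_P {O : ℂ} {h : ℝ} (M : List (ℂ × ℝ)) (v y y2 : ℂ × ℝ) (X : List (ℂ × ℝ))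
    (a b : ℂ × ℝ) (Y : List (ℂ × ℝ)) (x : ℂ) :
    mult ((((O, h) :: (M ++ [v])) ++ [y, y2]) ++ X ++ [a, b] ++ Y) x =
      cnt (pedges ((O, h) :: M) ++ pedges (y :: y2 :: (X ++ [a])) ++
        pedges (b :: (Y ++ [(O, h)]))) x +
      (if x ∈ hseg (((O, h) :: M).getLast (by simp)).1 v.1 then 1 else 0) +
      (if x ∈ hseg v.1 y.1 then 1 else 0) + (if x ∈ hseg a.1 b.1 then 1 else 0) := by
  unfold mult
  rw [ready_edges]
  unfold cnt
  simp only [List.countP_append, List.countP_cons, List.countP_nil, decide_eq_true_eq]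
  ring

theorem sr_edges_P {O : ℂ} {h : ℝ} (M : List (ℂ × ℝ)) (v y y2 : ℂ × ℝ) (X : List (ℂ × ℝ))
    (a b : ℂ × ℝ) (Y : List (ℂ × ℝ)) :
    cedges ((((O, h) :: (M ++ [v])) ++ [y, y2]) ++ X ++ [a, b] ++ Y) =
      pedges (((O, h) :: (M ++ [v, y, y2] ++ X)) ++ [a]) ++
        (a, b) :: pedges (b :: (Y ++ [(O, h)])) := by
  have e1 : (((O, h) :: (M ++ [v])) ++ [y, y2]) ++ X ++ [a, b] ++ Y =
      (O, h) :: (M ++ [v, y, y2] ++ X ++ a :: b :: Y) := by simp
  rw [e1, ce_cons]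
  have e2 : ((O, h) :: (M ++ [v, y, y2] ++ X ++ a :: b :: Y ++ [(O, h)])) =
      ((O, h) :: (M ++ [v, y, y2] ++ X)) ++ a :: b :: (Y ++ [(O, h)]) := by simp
  rw [e2, pe_append]
  rfl

theorem sr_edges_P' {O : ℂ} {h : ℝ} (M : List (ℂ × ℝ)) (v y y2 : ℂ × ℝ) (X : List (ℂ × ℝ))
    (a b : ℂ × ℝ) (Y : List (ℂ × ℝ)) (a1 l1 r1 b1 : ℂ × ℝ) :
    cedges ((((O, h) :: M) ++ [v, y]) ++ (y2 :: X ++ [a, a1]) ++ [l1, r1] ++ (b1 :: b :: Y)) =
      pedges (((O, h) :: (M ++ [v, y, y2] ++ X)) ++ [a]) ++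
        (a, a1) :: (a1, l1) :: (l1, r1) :: (r1, b1) :: (b1, b) :: pedges (b :: (Y ++ [(O, h)])) := by
  have e1 : (((O, h) :: M) ++ [v, y]) ++ (y2 :: X ++ [a, a1]) ++ [l1, r1] ++ (b1 :: b :: Y) =
      (O, h) :: (M ++ [v, y, y2] ++ X ++ a :: a1 :: l1 :: r1 :: b1 :: b :: Y) := by simp
  rw [e1, ce_cons]
  have e2 : ((O, h) :: (M ++ [v, y, y2] ++ X ++ a :: a1 :: l1 :: r1 :: b1 :: b :: Y ++ [(O, h)])) =
      ((O, h) :: (M ++ [v, y, y2] ++ X)) ++ a :: a1 :: l1 :: r1 :: b1 :: b :: (Y ++ [(O, h)]) := by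
    simp
  rw [e2, pe_append]
  rfl

theorem sr_ax (O : ℂ) (h : ℝ) (M : List (ℂ × ℝ)) (v y y2 : ℂ × ℝ) (X : List (ℂ × ℝ))
    (a b : ℂ × ℝ) (Y : List (ℂ × ℝ)) (a1 l1 r1 b1 : ℂ × ℝ) (ha1 : a1.1 ≠ O) (hl1 : l1.1 ≠ O)
    (hr1 : r1.1 ≠ O) (hb1 : b1.1 ≠ O) :
    ax O ((((O, h) :: M) ++ [v, y]) ++ (y2 :: X ++ [a, a1]) ++ [l1, r1] ++ (b1 :: b :: Y)) =
    ax O ((((O, h) :: (M ++ [v])) ++ [y, y2]) ++ X ++ [a, b] ++ Y) := by
  unfold ax
  simp only [List.countP_append, List.countP_cons, List.countP_nil, decide_eq_true_eq,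
    if_neg ha1, if_neg hl1, if_neg hr1, if_neg hb1, List.cons_append]
  ring

theorem sr_mem {O : ℂ} {h : ℝ} (M : List (ℂ × ℝ)) (v y y2 : ℂ × ℝ) (X : List (ℂ × ℝ))
    (a b : ℂ × ℝ) (Y : List (ℂ × ℝ)) (a1 l1 r1 b1 : ℂ × ℝ) (w : ℂ × ℝ)
    (hw : w ∈ ((((O, h) :: M) ++ [v, y]) ++ (y2 :: X ++ [a, a1]) ++ [l1, r1] ++ (b1 :: b :: Y))) :
    (w ∈ ((((O, h) :: (M ++ [v])) ++ [y, y2]) ++ X ++ [a, b] ++ Y)) ∨ w = a1 ∨
      w = l1 ∨ w = r1 ∨ w = b1 := by
  simp only [List.cons_append, List.append_assoc, List.mem_cons, List.mem_append,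
    List.nil_append] at hw
  rcases hw with hw | hw | hw | hw | hw | hw | hw | hw | hw | hw | hw | hw | hw
  all_goals first | (right; simp [hw]; done) | (left; simp [hw]; done)

theorem sr_uniq {A B : Set ℂ} {z x : ℂ} (h : A ∩ B = {z}) (hA : x ∈ A) (hB : x ∈ B) : x = z := by
  have : x ∈ A ∩ B := ⟨hA, hB⟩
  rw [h] at this
  exact this

open Classical in
theorem sr_core {O : ℂ} (P P' : List (ℂ × ℝ)) (E3 : List ((ℂ × ℝ) × (ℂ × ℝ)))
    (u v y a b c a' b' l r c' : ℂ)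
    (hslide : ∀ x, mult P' x + (if x ∈ hseg a b then 1 else 0) =
      mult P x + (if x ∈ hseg a a' then 1 else 0) +
        (if x ∈ hseg a' l then 1 else 0) + (if x ∈ hseg l r then 1 else 0) +
        (if x ∈ hseg r b' then 1 else 0) + (if x ∈ hseg b' b then 1 else 0))
    (hmP : ∀ x, mult P x = cnt E3 x + (if x ∈ hseg u v then 1 else 0) +
      (if x ∈ hseg v y then 1 else 0) + (if x ∈ hseg a b then 1 else 0))
    (hOF : O ∈ psegs E3)
    (D : Detour u v y a b c (psegs E3) a' b' l r c')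
    (hOab : O ∉ segment ℝ a b) (hab : a ≠ b) (huv : u ≠ v)
    (Rcenter : mult P O = ax O P) (Rtwo : ∀ x, x ≠ O → mult P x ≤ 2)
    (Rvert : ∀ v ∈ P, v.1 ≠ O → mult P v.1 = 1)
    (Rcs : c ∈ openSegment ℝ a b) (Rcm : mult P c = 2) (Rcoff : c ≠ O)
    (k1 : ∀ x ∈ segment ℝ u v, x ≠ O → mult P x ≤ 1)
    (k5 : ∀ x ∈ segment ℝ a b, x ≠ O → x ≠ c → mult P x ≤ 1)
    (hpos : ∀ w ∈ P', 1 ≤ mult P' w.1)
    (hst : ∀ w ∈ P, w.1 ∈ psegs E3 ∨ w.1 = u ∨ w.1 = v ∨ w.1 = a)
    (hmem : ∀ w ∈ P', w ∈ P ∨ w.1 = a' ∨ w.1 = l ∨ w.1 = r ∨ w.1 = b')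
    (hax : ax O P' = ax O P) :
    (mult P' O = ax O P') ∧ (∀ x, x ≠ O → mult P' x ≤ 2) ∧
    (∀ v ∈ P', v.1 ≠ O → mult P' v.1 = 1) ∧
    dbl O P' = (dbl O P \ {c}) ∪ {c'} ∧ c' ∉ dbl O P := by
  obtain ⟨α, s, β, h0α, hαs, hsβ, hβ1, ea, ec, eb⟩ := sr_param Rcs D.ha D.hb
  have e0 : (1 - (0 : ℝ)) • a + (0 : ℝ) • b = a := by simp
  have e1 : (1 - (1 : ℝ)) • a + (1 : ℝ) • b = b := by simp
  have haa' : a ≠ a' := by
    intro hh
    rw [ea] at hh
    have := sr_inj hab (e0.trans hh)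
    linarith
  have ha'b' : a' ≠ b' := by
    intro hh
    rw [ea, eb] at hh
    have := sr_inj hab hh
    linarith
  -- membership in terms of the parameter
  have m1 : ∀ x, x ∈ hseg a b ↔ ∃ τ : ℝ, 0 ≤ τ ∧ τ < 1 ∧ x = (1 - τ) • a + τ • b := by
    intro x
    have := sr_hseg_param a b 0 1 one_pos x
    rwa [e0, e1] at this
  have m2 : ∀ x, x ∈ hseg a a' ↔ ∃ τ : ℝ, 0 ≤ τ ∧ τ < α ∧ x = (1 - τ) • a + τ • b := by
    intro x
    have := sr_hseg_param a b 0 α h0α x
    rwa [e0, ← ea] at this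
  have m3 : ∀ x, x ∈ hseg a' b' ↔ ∃ τ : ℝ, α ≤ τ ∧ τ < β ∧ x = (1 - τ) • a + τ • b := by
    intro x
    have := sr_hseg_param a b α β (by linarith) x
    rwa [← ea, ← eb] at this
  have m4 : ∀ x, x ∈ hseg b' b ↔ ∃ τ : ℝ, β ≤ τ ∧ τ < 1 ∧ x = (1 - τ) • a + τ • b := by
    intro x
    have := sr_hseg_param a b β 1 hβ1 x
    rwa [e1, ← eb] at this
  have split : ∀ x, (if x ∈ hseg a b then 1 else 0) = (if x ∈ hseg a a' then 1 else 0) +
      (if x ∈ hseg a' b' then 1 else 0) + (if x ∈ hseg b' b then 1 else 0) := by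
    intro x
    by_cases hx : ∃ τ : ℝ, x = (1 - τ) • a + τ • b
    · obtain ⟨τ, hτ⟩ := hx
      have q : ∀ p q : ℝ, (∃ τ : ℝ, p ≤ τ ∧ τ < q ∧ x = (1 - τ) • a + τ • b) ↔ p ≤ τ ∧ τ < q := by
        intro p q
        constructor
        · rintro ⟨σ, h1, h2, h3⟩
          rw [hτ] at h3
          have := sr_inj hab h3
          subst this
          exact ⟨h1, h2⟩
        · rintro ⟨h1, h2⟩
          exact ⟨τ, h1, h2, hτ⟩
      simp only [m1, m2, m3, m4, q]
      by_cases c1 : 0 ≤ τ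
      · by_cases c2 : τ < α
        · rw [if_pos ⟨c1, by linarith⟩, if_pos ⟨c1, c2⟩, if_neg (fun h => by linarith [h.1]),
            if_neg (fun h => by linarith [h.1])]
        · by_cases c3 : τ < β
          · rw [if_pos ⟨c1, by linarith⟩, if_neg (fun h => c2 h.2),
              if_pos ⟨by linarith, c3⟩, if_neg (fun h => by linarith [h.1])]
          · by_cases c4 : τ < 1
            · rw [if_pos ⟨c1, c4⟩, if_neg (fun h => c2 h.2), if_neg (fun h => c3 h.2),
                if_pos ⟨by linarith, c4⟩]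
            · rw [if_neg (fun h => c4 h.2), if_neg (fun h => c2 h.2), if_neg (fun h => c3 h.2),
                if_neg (fun h => c4 h.2)]
      · rw [if_neg (fun h => c1 h.1), if_neg (fun h => c1 h.1),
          if_neg (fun h => c1 (by linarith [h.1])), if_neg (fun h => c1 (by linarith [h.1]))]
    · have q : ∀ p q : ℝ, ¬ ∃ τ : ℝ, p ≤ τ ∧ τ < q ∧ x = (1 - τ) • a + τ • b :=
        fun p q ⟨τ, _, _, h⟩ => hx ⟨τ, h⟩
      rw [if_neg (fun h => q _ _ ((m1 x).mp h)), if_neg (fun h => q _ _ ((m2 x).mp h)),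
        if_neg (fun h => q _ _ ((m3 x).mp h)), if_neg (fun h => q _ _ ((m4 x).mp h))]
  have hf : ∀ x, mult P' x = cnt E3 x + (if x ∈ hseg u v then 1 else 0) +
      (if x ∈ hseg v y then 1 else 0) + (if x ∈ hseg a a' then 1 else 0) +
        (if x ∈ hseg a' l then 1 else 0) + (if x ∈ hseg l r then 1 else 0) +
        (if x ∈ hseg r b' then 1 else 0) + (if x ∈ hseg b' b then 1 else 0) := by
    intro x
    have h1 := hslide x
    have h2 := hmP x
    omega
  have dj : ∀ {A B : Set ℂ} {x : ℂ}, Disjoint A B → x ∈ A → x ∉ B :=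
    fun h hx hx' => Set.disjoint_left.mp h hx hx'
  have hN1 : ∀ x, x ∈ hseg a' l → mult P' x = 1 := by
    intro x hx
    have hxs := sr_hseg_sub _ _ hx
    rw [hf x, sr_cnt_zero E3 x (dj D.f1 hxs),
      if_neg (fun h => dj D.d1 hxs (sr_hseg_sub _ _ h)),
      if_neg (fun h => dj D.d2 hxs (sr_hseg_sub _ _ h)),
      if_neg (fun h => by
        have := sr_uniq D.t1 (sr_hseg_sub _ _ h) hxs
        rw [this] at h
        exact sr_right haa' h), if_pos hx,
      if_neg (fun h => by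
        have := sr_uniq D.s1 hxs (sr_hseg_sub _ _ h)
        rw [this] at hx
        exact sr_right D.n1 hx),
      if_neg (fun h => dj D.s3 hxs (sr_hseg_sub _ _ h)),
      if_neg (fun h => dj D.t6 (sr_hseg_sub _ _ h) hxs)]
  have hN2 : ∀ x, x ∈ hseg l r → mult P' x = 1 + (if x = c' then 1 else 0) := by
    intro x hx
    have hxs := sr_hseg_sub _ _ hx
    have huv' : (if x ∈ hseg u v then 1 else 0) = (if x = c' then 1 else 0) := by
      by_cases hc : x = c'
      · rw [if_pos hc, if_pos]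
        rw [hc]
        exact sr_open D.hc
      · rw [if_neg hc, if_neg]
        intro h
        exact hc (sr_uniq D.m1 hxs (sr_hseg_sub _ _ h))
    have k1 : x ∉ hseg v y := fun h => dj D.m2 hxs (sr_hseg_sub _ _ h)
    have k2 : x ∉ hseg a a' := fun h => dj D.t2 (sr_hseg_sub _ _ h) hxs
    have k3 : x ∉ hseg a' l := fun h => by
        have := sr_uniq D.s1 (sr_hseg_sub _ _ h) hxs
        rw [this] at h
        exact sr_right D.n1 h
    have k4 : x ∉ hseg r b' := fun h => by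
        have := sr_uniq D.s2 hxs (sr_hseg_sub _ _ h)
        rw [this] at hx
        exact sr_right D.n2 hx
    have k5 : x ∉ hseg b' b := fun h => dj D.t5 (sr_hseg_sub _ _ h) hxs
    rw [hf x, sr_cnt_zero E3 x (dj D.f2 hxs), huv', if_neg k1, if_neg k2, if_neg k3, if_neg k4,
      if_neg k5, if_pos hx]
    omega
  have hN3 : ∀ x, x ∈ hseg r b' → mult P' x = 1 := by
    intro x hx
    have hxs := sr_hseg_sub _ _ hx
    rw [hf x, sr_cnt_zero E3 x (dj D.f3 hxs),
      if_neg (fun h => dj D.d3 hxs (sr_hseg_sub _ _ h)),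
      if_neg (fun h => dj D.d4 hxs (sr_hseg_sub _ _ h)),
      if_neg (fun h => dj D.t3 (sr_hseg_sub _ _ h) hxs),
      if_neg (fun h => dj D.s3 (sr_hseg_sub _ _ h) hxs),
      if_neg (fun h => by
        have := sr_uniq D.s2 (sr_hseg_sub _ _ h) hxs
        rw [this] at h
        exact sr_right D.n2 h), if_pos hx,
      if_neg (fun h => by
        have := sr_uniq D.t4 hxs (sr_hseg_sub _ _ h)
        rw [this] at hx
        exact sr_right D.n3 hx)]
  have hN0 : ∀ x, x ∉ hseg a' l → x ∉ hseg l r → x ∉ hseg r b' →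
      mult P' x + (if x ∈ hseg a' b' then 1 else 0) = mult P x := by
    intro x h1 h2 h3
    have h4 := hslide x
    rw [if_neg h1, if_neg h2, if_neg h3] at h4
    have h5 := split x
    omega
  -- position of the special points
  have hO1 : O ∉ segment ℝ a' l := fun h => dj D.f1 h hOF
  have hO2 : O ∉ segment ℝ l r := fun h => dj D.f2 h hOF
  have hO3 : O ∉ segment ℝ r b' := fun h => dj D.f3 h hOF
  have hsub : ∀ x, x ∈ hseg a' b' → x ∈ segment ℝ a b := by
    intro x hx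
    obtain ⟨τ, h1, h2, h3⟩ := (m3 x).mp hx
    exact sr_hseg_sub _ _ ((m1 x).mpr ⟨τ, by linarith, by linarith, h3⟩)
  have hOa'b' : O ∉ hseg a' b' := fun h => hOab (hsub O h)
  have hcin : c ∈ hseg a' b' := (m3 c).mpr ⟨s, hαs.le, hsβ, ec⟩
  have hb'in : b' ∉ hseg a' b' := sr_right ha'b'
  have hb'c : b' ≠ c := fun h => hb'in (h ▸ hcin)
  have hb'ab : b' ∈ segment ℝ a b :=
    sr_hseg_sub _ _ ((m1 b').mpr ⟨β, by linarith, hβ1, eb⟩)
  have hc'lr : c' ∈ hseg l r := sr_open D.hc2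
  have hc'uv : c' ∈ segment ℝ u v := openSegment_subset_segment ℝ _ _ D.hc
  have hc'O : c' ≠ O := fun h => hO2 (h ▸ sr_hseg_sub _ _ hc'lr)
  have hc'1 : c' ∉ segment ℝ a' l := fun h => dj D.d1 h hc'uv
  have hc'3 : c' ∉ segment ℝ r b' := fun h => dj D.d3 h hc'uv
  have hPc' : mult P c' ≤ 1 := k1 c' hc'uv hc'O
  have hP'c' : mult P' c' = 2 := by rw [hN2 c' hc'lr, if_pos rfl]
  have hc'c : c' ≠ c := by
    intro h
    rw [h, Rcm] at hPc'
    omega
  -- no vertex of P at c'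
  have hnov : ∀ w ∈ P, w.1 ≠ c' := by
    intro w hw h
    rcases hst w hw with h1 | h1 | h1 | h1
    · rw [h] at h1
      exact dj D.f2 (sr_hseg_sub _ _ hc'lr) h1
    · rw [h] at h1
      obtain ⟨p, q, hp, hq, hpq, h2⟩ := D.hc
      have h3 : (1 - q) • u + q • v = (1 - (0 : ℝ)) • u + (0 : ℝ) • v := by
        rw [show 1 - q = p by linarith, h2, h1]; simp
      have := sr_inj huv h3
      linarith
    · rw [h] at h1
      exact dj D.m2 (sr_hseg_sub _ _ hc'lr) (h1 ▸ left_mem_segment ℝ v y)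
    · rw [h] at h1
      exact dj D.t2 (h1 ▸ left_mem_segment ℝ a a') (sr_hseg_sub _ _ hc'lr)
  -- an upper bound
  have hle : ∀ x, x ∉ hseg a' l → x ∉ hseg l r → x ∉ hseg r b' → mult P' x ≤ mult P x := by
    intro x h1 h2 h3
    have := hN0 x h1 h2 h3
    omega
  refine ⟨?_, ?_, ?_, ?_, ?_⟩
  · have h1 := hN0 O (fun h => hO1 (sr_hseg_sub _ _ h)) (fun h => hO2 (sr_hseg_sub _ _ h))
      (fun h => hO3 (sr_hseg_sub _ _ h))
    rw [if_neg hOa'b'] at h1
    rw [hax, ← Rcenter]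
    exact h1
  · intro x hx
    by_cases h1 : x ∈ hseg a' l
    · rw [hN1 x h1]; omega
    by_cases h2 : x ∈ hseg l r
    · rw [hN2 x h2]; split_ifs <;> omega
    by_cases h3 : x ∈ hseg r b'
    · rw [hN3 x h3]; omega
    exact (hle x h1 h2 h3).trans (Rtwo x hx)
  · intro w hw hwO
    have hge := hpos w hw
    refine le_antisymm ?_ hge
    by_cases h1 : w.1 ∈ hseg a' l
    · rw [hN1 _ h1]
    by_cases h2 : w.1 ∈ hseg l r
    · rw [hN2 _ h2, if_neg]
      rcases hmem w hw with h | h | h | h | h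
      · exact hnov w h
      · rw [h]; intro hh; exact hc'1 (hh ▸ left_mem_segment ℝ a' l)
      · rw [h]; intro hh; exact hc'1 (hh ▸ right_mem_segment ℝ a' l)
      · rw [h]; intro hh; exact hc'3 (hh ▸ left_mem_segment ℝ r b')
      · rw [h]; intro hh; exact hc'3 (hh ▸ right_mem_segment ℝ r b')
    by_cases h3 : w.1 ∈ hseg r b'
    · rw [hN3 _ h3]
    rcases hmem w hw with h | h | h | h | h
    · exact (hle _ h1 h2 h3).trans (Rvert w h hwO).le
    · exact absurd (h ▸ sr_left a' l) h1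
    · exact absurd (h ▸ sr_left l r) h2
    · exact absurd (h ▸ sr_left r b') h3
    · refine (hle _ h1 h2 h3).trans ?_
      rw [h]
      refine k5 b' hb'ab ?_ hb'c
      rw [← h]; exact hwO
  · ext x
    constructor
    · rintro ⟨hxO, hx2⟩
      by_cases h1 : x ∈ hseg a' l
      · rw [hN1 x h1] at hx2; omega
      by_cases h2 : x ∈ hseg l r
      · rw [hN2 x h2] at hx2
        right
        change x = c'
        by_contra hh
        rw [if_neg hh] at hx2
        omega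
      by_cases h3 : x ∈ hseg r b'
      · rw [hN3 x h3] at hx2; omega
      left
      have h4 := hN0 x h1 h2 h3
      have h5 := Rtwo x hxO
      by_cases h6 : x ∈ hseg a' b'
      · rw [if_pos h6] at h4
        omega
      · rw [if_neg h6] at h4
        refine ⟨⟨hxO, by omega⟩, ?_⟩
        intro h7
        rw [Set.mem_singleton_iff] at h7
        exact h6 (h7 ▸ hcin)
    · rintro (⟨⟨hxO, hx2⟩, hxc⟩ | hxc)
      · have hxc' : x ≠ c := hxc
        have hxab : x ∉ segment ℝ a b := by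
          intro h
          have := k5 x h hxO hxc'
          omega
        have hxh : x ∉ hseg a' b' := fun h => hxab (hsub x h)
        refine ⟨hxO, ?_⟩
        have h9 := hmP x
        rw [if_neg (fun h => hxab (sr_hseg_sub _ _ h))] at h9
        by_cases h1 : x ∈ hseg a' l
        · exfalso
          have hxs := sr_hseg_sub _ _ h1
          rw [sr_cnt_zero E3 x (dj D.f1 hxs),
            if_neg (fun h => dj D.d1 hxs (sr_hseg_sub _ _ h)),
            if_neg (fun h => dj D.d2 hxs (sr_hseg_sub _ _ h))] at h9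
          omega
        by_cases h2 : x ∈ hseg l r
        · exfalso
          have hxs := sr_hseg_sub _ _ h2
          rw [sr_cnt_zero E3 x (dj D.f2 hxs),
            if_neg (fun h => dj D.m2 hxs (sr_hseg_sub _ _ h))] at h9
          split_ifs at h9 <;> omega
        by_cases h3 : x ∈ hseg r b'
        · exfalso
          have hxs := sr_hseg_sub _ _ h3
          rw [sr_cnt_zero E3 x (dj D.f3 hxs),
            if_neg (fun h => dj D.d3 hxs (sr_hseg_sub _ _ h)),
            if_neg (fun h => dj D.d4 hxs (sr_hseg_sub _ _ h))] at h9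
          omega
        have h4 := hN0 x h1 h2 h3
        rw [if_neg hxh] at h4
        omega
      · rw [Set.mem_singleton_iff] at hxc
        rw [hxc]
        exact ⟨hc'O, hP'c'⟩
  · rintro ⟨_, h⟩
    omega

theorem slide_reg {O : ℂ} {h : ℝ} {M : List (ℂ × ℝ)} {v y y2 : ℂ × ℝ} {X : List (ℂ × ℝ)} {a b : ℂ × ℝ}
    {Y : List (ℂ × ℝ)} {c : ℂ} (R : Ready O h (M ++ [v]) y y2 X a b Y c) 
    (a' b' l r c' : ℂ) (D : Detour (((O, h) :: M).getLast (by simp)).1 v.1 y.1 a.1 b.1 c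
      (psegs (pedges ((O, h) :: M) ++ pedges (y :: y2 :: (X ++ [a])) ++ pedges (b :: (Y ++ [(O, h)])))) a' b' l r c')
    (H : ℝ) (hS : Simple (((((O, h) :: M) ++ [v, y]) ++ (y2 :: X ++ [a, (a', H)]) ++ [(l, H), (r, H)] ++ ((b', H) :: b :: Y) : List (ℂ × ℝ)))) :
    Reg O ((((O, h) :: M) ++ [v, y]) ++ (y2 :: X ++ [a, (a', H)]) ++ [(l, H), (r, H)] ++ ((b', H) :: b :: Y)) ∧
    dbl O ((((O, h) :: M) ++ [v, y]) ++ (y2 :: X ++ [a, (a', H)]) ++ [(l, H), (r, H)] ++ ((b', H) :: b :: Y)) =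
      (dbl O ((((O, h) :: (M ++ [v])) ++ [y, y2]) ++ X ++ [a, b] ++ Y) \ {c}) ∪ {c'} ∧
    c' ∉ dbl O ((((O, h) :: (M ++ [v])) ++ [y, y2]) ++ X ++ [a, b] ++ Y) ∧
    ax O ((((O, h) :: M) ++ [v, y]) ++ (y2 :: X ++ [a, (a', H)]) ++ [(l, H), (r, H)] ++ ((b', H) :: b :: Y)) =
      ax O ((((O, h) :: (M ++ [v])) ++ [y, y2]) ++ X ++ [a, b] ++ Y) := by
  classical
  have hedP := sr_edges_P (O := O) (h := h) M v y y2 X a b Y
  have hedP' := sr_edges_P' (O := O) (h := h) M v y y2 X a b Y (a', H) (l, H) (r, H) (b', H)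
  have hre := ready_edges (O := O) (h := h) M v y y2 X a b Y
  have hlast := sr_last_edge (O, h) v M
  -- O lies on the rest
  have hOF : O ∈ psegs (pedges ((O, h) :: M) ++ pedges (y :: y2 :: (X ++ [a])) ++
      pedges (b :: (Y ++ [(O, h)]))) := by
    obtain ⟨e, he, he2⟩ := sr_end_edge b ((O, h) : ℂ × ℝ) Y
    refine ⟨e, List.mem_append_right _ he, ?_⟩
    have : e.2.1 = O := by rw [he2]
    rw [this]
    exact right_mem_segment ℝ _ _
  have hO1 : O ∉ segment ℝ a' l := fun h => Set.disjoint_left.mp D.f1 h hOF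
  have hO3 : O ∉ segment ℝ r b' := fun h => Set.disjoint_left.mp D.f3 h hOF
  have ha'O : a' ≠ O := fun h => hO1 (h ▸ left_mem_segment ℝ a' l)
  have hlO : l ≠ O := fun h => hO1 (h ▸ right_mem_segment ℝ a' l)
  have hrO : r ≠ O := fun h => hO3 (h ▸ left_mem_segment ℝ r b')
  have hb'O : b' ≠ O := fun h => hO3 (h ▸ right_mem_segment ℝ r b')
  have hax := sr_ax O h M v y y2 X a b Y (a', H) (l, H) (r, H) (b', H) ha'O hlO hrO hb'O
  have habe : (a, b) ∈ cedges ((((O, h) :: (M ++ [v])) ++ [y, y2]) ++ X ++ [a, b] ++ Y) := by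
    rw [hedP]; simp
  have huve : ((((O, h) :: M).getLast (by simp)), v) ∈
      cedges ((((O, h) :: (M ++ [v])) ++ [y, y2]) ++ X ++ [a, b] ++ Y) := by
    rw [hre]; simp
  have hab : a.1 ≠ b.1 := R.reg.nondeg _ habe
  have huv : (((O, h) :: M).getLast (by simp)).1 ≠ v.1 := R.reg.nondeg _ huve
  have hOab : O ∉ segment ℝ a.1 b.1 := by
    intro hh
    rcases center_seg R.reg _ habe hh with h1 | h1
    · exact R.aoff h1
    · exact R.boff h1
  have hst : ∀ w ∈ ((((O, h) :: (M ++ [v])) ++ [y, y2]) ++ X ++ [a, b] ++ Y),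
      w.1 ∈ psegs (pedges ((O, h) :: M) ++ pedges (y :: y2 :: (X ++ [a])) ++
        pedges (b :: (Y ++ [(O, h)]))) ∨ w.1 = (((O, h) :: M).getLast (by simp)).1 ∨
      w.1 = v.1 ∨ w.1 = a.1 := by
    intro w hw
    obtain ⟨e, he, hew⟩ := sr_start _ w hw
    rw [hre] at he
    have hin : e ∈ (pedges ((O, h) :: M) ++ pedges (y :: y2 :: (X ++ [a])) ++
        pedges (b :: (Y ++ [(O, h)]))) ∨ e = (((O, h) :: M).getLast (by simp), v) ∨
        e = (v, y) ∨ e = (a, b) := by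
      simp only [List.mem_append, List.mem_cons, List.not_mem_nil, or_false] at he
      rcases he with (((he | he | he) | he) | he) | he
      · left; exact List.mem_append_left _ (List.mem_append_left _ he)
      · right; left; exact he
      · right; right; left; exact he
      · left; exact List.mem_append_left _ (List.mem_append_right _ he)
      · right; right; right; exact he
      · left; exact List.mem_append_right _ he
    rcases hin with h1 | h1 | h1 | h1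
    · left
      refine ⟨e, h1, ?_⟩
      rw [hew]
      exact left_mem_segment ℝ _ _
    · right; left; rw [← hew, h1]
    · right; right; left; rw [← hew, h1]
    · right; right; right; rw [← hew, h1]
  have hmem : ∀ w ∈ ((((O, h) :: M) ++ [v, y]) ++ (y2 :: X ++ [a, (a', H)]) ++
      [(l, H), (r, H)] ++ ((b', H) :: b :: Y)),
      w ∈ ((((O, h) :: (M ++ [v])) ++ [y, y2]) ++ X ++ [a, b] ++ Y) ∨ w.1 = a' ∨
      w.1 = l ∨ w.1 = r ∨ w.1 = b' := by
    intro w hw
    rcases sr_mem M v y y2 X a b Y _ _ _ _ w hw with h1 | h1 | h1 | h1 | h1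
    · exact Or.inl h1
    · rw [h1]; exact Or.inr (Or.inl rfl)
    · rw [h1]; exact Or.inr (Or.inr (Or.inl rfl))
    · rw [h1]; exact Or.inr (Or.inr (Or.inr (Or.inl rfl)))
    · rw [h1]; exact Or.inr (Or.inr (Or.inr (Or.inr rfl)))
  have k1 : ∀ x ∈ segment ℝ (((O, h) :: M).getLast (by simp)).1 v.1, x ≠ O →
      mult ((((O, h) :: (M ++ [v])) ++ [y, y2]) ++ X ++ [a, b] ++ Y) x ≤ 1 := by
    intro x hx hxO
    exact R.k1 x ⟨_, hlast, hx⟩ hxO
  obtain ⟨c1, c2, c3, c4, c5⟩ := sr_core _ _ _ (((O, h) :: M).getLast (by simp)).1 v.1 y.1 a.1 b.1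
    c a' b' l r c'
    (slide_mult (O := O) (h := h) M v y y2 X a b Y a' b' l r H)
    (sr_mult_P (O := O) (h := h) M v y y2 X a b Y) hOF D hOab hab huv R.reg.center R.reg.two
    R.reg.vert R.cs R.cm R.coff k1 R.k5 (sr_mult_pos _) hst hmem hax
  refine ⟨⟨hS, ?_, c1, c2, c3⟩, c4, c5, hax⟩
  intro e he
  rw [hedP'] at he
  have hsep : e ∈ cedges ((((O, h) :: (M ++ [v])) ++ [y, y2]) ++ X ++ [a, b] ++ Y) ∨
      e = (a, (a', H)) ∨ e = ((a', H), (l, H)) ∨ e = ((l, H), (r, H)) ∨ e = ((r, H), (b', H)) ∨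
      e = ((b', H), b) := by
    rw [hedP]
    simp only [List.mem_append, List.mem_cons] at he ⊢
    rcases he with he | he | he | he | he | he | he
    · left; left; exact he
    · right; left; exact he
    · right; right; left; exact he
    · right; right; right; left; exact he
    · right; right; right; right; left; exact he
    · right; right; right; right; right; exact he
    · left; right; right; exact he
  obtain ⟨α, s, β, h0α, hαs, hsβ, hβ1, ea, ec, eb⟩ := sr_param R.cs D.ha D.hb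
  have e0 : (1 - (0 : ℝ)) • a.1 + (0 : ℝ) • b.1 = a.1 := by simp
  have e1 : (1 - (1 : ℝ)) • a.1 + (1 : ℝ) • b.1 = b.1 := by simp
  rcases hsep with h1 | h1 | h1 | h1 | h1 | h1
  · exact R.reg.nondeg e h1
  · rw [h1]
    intro hh
    have hh' : a.1 = a' := hh
    rw [ea] at hh'
    have := sr_inj hab (e0.trans hh')
    linarith
  · rw [h1]; exact D.n1
  · rw [h1]; exact D.n2
  · rw [h1]; exact D.n3
  · rw [h1]
    intro hh
    have hh' : b' = b.1 := hh
    rw [eb] at hh'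
    have := sr_inj hab (hh'.trans e1.symm)
    linarith

end Knot548
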