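import Pool.Agent.Helper548.Knot.Defs
import Pool.Agent.Helper548.Knot.P_ce_cons
import Pool.Agent.Helper548.Knot.P_pe_append
import Pool.Agent.Helper548.Knot.P_hseg_split
import Pool.Agent.Helper548.Knot.P_center_seg
import Pool.Agent.Helper548.Knot.P_mult_ge_two
import Pool.Agent.Helper548.Knot.P_vert_unique
import Pool.Agent.Helper548.Knot.P_ready_edges
import Pool.Agent.Helper548.Knot.P_slide_mult
import Pool.Agent.Helper548.Knot.P_slide_reg



namespace Knot548
open Set


theorem pe_snoc {α : Type*} (A : List α) (hA : A ≠ []) (v : α) :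
    pedges (A ++ [v]) = pedges A ++ [(A.getLast hA, v)] := by
  obtain ⟨B, x, rfl⟩ : ∃ B x, A = B ++ [x] :=
    ⟨A.dropLast, A.getLast hA, (List.dropLast_append_getLast hA).symm⟩
  rw [List.append_assoc, List.singleton_append, pe_append B x [v]]
  simp [pedges]

theorem hseg_sub (a b : ℂ) : hseg a b ⊆ segment ℝ a b := by
  rintro x ⟨s, h0, h1, rfl⟩
  exact ⟨1 - s, s, by linarith, h0, by ring, rfl⟩

theorem slide_ready {O : ℂ} {h : ℝ} {M : List (ℂ × ℝ)} {v y y2 : ℂ × ℝ} {X : List (ℂ × ℝ)} {a b : ℂ × ℝ}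
    {Y : List (ℂ × ℝ)} {c : ℂ} (R : Ready O h (M ++ [v]) y y2 X a b Y c) 
    (a' b' l r c' : ℂ) (D : Detour (((O, h) :: M).getLast (by simp)).1 v.1 y.1 a.1 b.1 c
      (psegs (pedges ((O, h) :: M) ++ pedges (y :: y2 :: (X ++ [a])) ++ pedges (b :: (Y ++ [(O, h)])))) a' b' l r c')
    (H : ℝ) (hH : ∀ w ∈ (((O, h) :: (M ++ [v])) ++ [y, y2]) ++ X ++ [a, b] ++ Y, w.2 < H)
    (hS : Simple (((((O, h) :: M) ++ [v, y]) ++ (y2 :: X ++ [a, (a', H)]) ++ [(l, H), (r, H)] ++ ((b', H) :: b :: Y) : List (ℂ × ℝ)))) :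
    Ready O h M v y (y2 :: X ++ [a, (a', H)]) (l, H) (r, H) ((b', H) :: b :: Y) c' ∧
    Over (((O, h) :: M).getLast (by simp)) v (l, H) (r, H) c' := by
  classical
  obtain ⟨hreg, hdbl, hc'old, -⟩ := slide_reg R a' b' l r c' D H hS
  have hF : ∀ x, ∀ e ∈ pedges ((O, h) :: M) ++ pedges (y :: y2 :: (X ++ [a])) ++
      pedges (b :: (Y ++ [(O, h)])), x ∈ segment ℝ e.1.1 e.2.1 →
      x ∈ psegs (pedges ((O, h) :: M) ++ pedges (y :: y2 :: (X ++ [a])) ++
        pedges (b :: (Y ++ [(O, h)]))) := fun x e he hx => ⟨e, he, hx⟩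
  have hOF : O ∈ psegs (pedges ((O, h) :: M) ++ pedges (y :: y2 :: (X ++ [a])) ++
      pedges (b :: (Y ++ [(O, h)]))) := by
    have e1 : pedges (b :: (Y ++ [(O, h)])) = pedges (b :: Y) ++
        [((b :: Y).getLast (by simp), (O, h))] := pe_snoc (b :: Y) (by simp) (O, h)
    refine hF O ((b :: Y).getLast (by simp), (O, h)) ?_ (right_mem_segment ℝ _ _)
    rw [e1]
    simp
  have hlast : (((O, h) :: (M ++ [v])).getLast (by simp)) = v := by simp
  have hsnoc : pedges ((O, h) :: (M ++ [v])) = pedges ((O, h) :: M) ++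
      [(((O, h) :: M).getLast (by simp), v)] := pe_snoc ((O, h) :: M) (by simp) v
  have hc'seg : c' ∈ segment ℝ l r := openSegment_subset_segment _ _ _ D.hc2
  have hc'F := Set.disjoint_left.1 D.f2 hc'seg
  have hlF := Set.disjoint_left.1 D.f1 (right_mem_segment ℝ a' l)
  have hrF := Set.disjoint_left.1 D.f3 (left_mem_segment ℝ r b')
  have hc'new : c' ∈ dbl O ((((O, h) :: M) ++ [v, y]) ++ (y2 :: X ++ [a, (a', H)]) ++
      [(l, H), (r, H)] ++ ((b', H) :: b :: Y)) := by
    rw [hdbl]; exact Or.inr rfl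
  have hle : ∀ x, x ≠ O →
      (x ∈ dbl O ((((O, h) :: (M ++ [v])) ++ [y, y2]) ++ X ++ [a, b] ++ Y) → x = c) → x ≠ c' →
      mult ((((O, h) :: M) ++ [v, y]) ++ (y2 :: X ++ [a, (a', H)]) ++
      [(l, H), (r, H)] ++ ((b', H) :: b :: Y)) x ≤ 1 := by
    intro x hx h1 h2
    have h3 := hreg.two x hx
    have h4 : mult ((((O, h) :: M) ++ [v, y]) ++ (y2 :: X ++ [a, (a', H)]) ++
      [(l, H), (r, H)] ++ ((b', H) :: b :: Y)) x ≠ 2 := by
      intro h5
      have h6 : x ∈ dbl O ((((O, h) :: M) ++ [v, y]) ++ (y2 :: X ++ [a, (a', H)]) ++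
        [(l, H), (r, H)] ++ ((b', H) :: b :: Y)) := ⟨hx, h5⟩
      rw [hdbl] at h6
      rcases h6 with ⟨h, h'⟩ | h
      · exact h' (h1 h)
      · exact h2 h
    omega
  have hnd : ∀ x, mult ((((O, h) :: (M ++ [v])) ++ [y, y2]) ++ X ++ [a, b] ++ Y) x ≤ 1 →
      x ∈ dbl O ((((O, h) :: (M ++ [v])) ++ [y, y2]) ++ X ++ [a, b] ++ Y) → x = c := by
    intro x hx hd
    have := hd.2
    omega
  refine ⟨⟨hreg, ?_, ?_, R.yoff, ?_, ?_, ?_, hc'new.2, D.hc, D.hc2, ?_, ?_, ?_, ?_⟩, ?_⟩
  · exact fun w hw => R.moff w (List.mem_append_left _ hw)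
  · exact R.moff v (by simp)
  · intro hlO
    exact hlF (by rw [show l = O from hlO]; exact hOF)
  · intro hrO
    exact hrF (by rw [show r = O from hrO]; exact hOF)
  · intro hcO
    exact hc'F (by rw [hcO]; exact hOF)
  · -- k1
    rintro x ⟨e, he, hxe⟩ hxO
    refine hle x hxO (hnd x (R.k1 x ⟨e, ?_, hxe⟩ hxO)) ?_
    · rw [hsnoc]; exact List.mem_append_left _ he
    · rintro rfl
      exact hc'F (hF _ e (List.mem_append_left _ (List.mem_append_left _ he)) hxe)
  · -- k3
    intro x hx hxO hxc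
    refine hle x hxO (hnd x (R.k1 x ⟨(((O, h) :: M).getLast (by simp), v), ?_, hx⟩ hxO)) hxc
    rw [hsnoc]; simp
  · -- k4
    intro x hx hxO
    have hx' : x ∈ segment ℝ (((O, h) :: (M ++ [v])).getLast (by simp)).1 y.1 := by
      rw [hlast]; exact hx
    refine hle x hxO (fun hd => ?_) ?_
    · by_contra hxc
      have := R.k3 x hx' hxO hxc
      have h2 := hd.2
      omega
    · rintro rfl
      exact Set.disjoint_left.1 D.m2 hc'seg hx
  · -- k5
    intro x hx hxO hxc
    refine hle x hxO (hnd x ?_) hxc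
    have hxF := Set.disjoint_left.1 D.f2 hx
    have z1 : (pedges ((O, h) :: M)).countP (fun e => decide (x ∈ hseg e.1.1 e.2.1)) = 0 := by
      rw [List.countP_eq_zero]
      intro e he hxe
      exact hxF (hF x e (List.mem_append_left _ (List.mem_append_left _ he))
        (hseg_sub _ _ (of_decide_eq_true hxe)))
    have z3 : (pedges (y :: y2 :: (X ++ [a]))).countP
        (fun e => decide (x ∈ hseg e.1.1 e.2.1)) = 0 := by
      rw [List.countP_eq_zero]
      intro e he hxe
      exact hxF (hF x e (List.mem_append_left _ (List.mem_append_right _ he))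
        (hseg_sub _ _ (of_decide_eq_true hxe)))
    have z5 : (pedges (b :: (Y ++ [(O, h)]))).countP
        (fun e => decide (x ∈ hseg e.1.1 e.2.1)) = 0 := by
      rw [List.countP_eq_zero]
      intro e he hxe
      exact hxF (hF x e (List.mem_append_right _ he)
        (hseg_sub _ _ (of_decide_eq_true hxe)))
    have z2 : ([(((O, h) :: M).getLast (by simp), v), (v, y)] :
        List ((ℂ × ℝ) × (ℂ × ℝ))).countP (fun e => decide (x ∈ hseg e.1.1 e.2.1)) = 0 := by
      rw [List.countP_eq_zero]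
      intro e he hxe
      have hxe' := hseg_sub _ _ (of_decide_eq_true hxe)
      rcases List.mem_cons.1 he with rfl | he
      · have h1 : x ∈ segment ℝ l r ∩ segment ℝ (((O, h) :: M).getLast (by simp)).1 v.1 :=
          ⟨hx, hxe'⟩
        rw [D.m1] at h1
        exact hxc h1
      · rw [List.mem_singleton] at he
        subst he
        exact Set.disjoint_left.1 D.m2 hx hxe'
    have z4 : ([(a, b)] : List ((ℂ × ℝ) × (ℂ × ℝ))).countP
        (fun e => decide (x ∈ hseg e.1.1 e.2.1)) ≤ 1 := List.countP_le_length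
    show cnt (cedges _) x ≤ 1
    rw [ready_edges]
    unfold cnt
    rw [List.countP_append, List.countP_append, List.countP_append, List.countP_append]
    have e1 : (List.countP (fun e : (ℂ × ℝ) × (ℂ × ℝ) => decide (x ∈ hseg e.1.1 e.2.1))
      (pedges ((O, h) :: M))) = 0 := by convert z1
    have e2 : (List.countP (fun e : (ℂ × ℝ) × (ℂ × ℝ) => decide (x ∈ hseg e.1.1 e.2.1))
      [(((O, h) :: M).getLast (by simp), v), (v, y)]) = 0 := by convert z2
    simp only [z1, z3, z5, z2]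
    omega
  · -- Over
    intro z z' hz hz'
    obtain ⟨α, β, hα, hβ, hαβ, hz⟩ := hz
    obtain ⟨α', β', hα', hβ', hαβ', hz'⟩ := hz'
    have h1 : α * (((O, h) :: M).getLast (by simp)).2 + β * v.2 = z := congrArg Prod.snd hz
    have h2 : α' * H + β' * H = z' := congrArg Prod.snd hz'
    have h3 : z' = H := by rw [← h2, ← add_mul, hαβ', one_mul]
    have h4 : (((O, h) :: M).getLast (by simp)).2 < H := by
      apply hH
      have : ((O, h) :: M).getLast (by simp) ∈ (O, h) :: M := List.getLast_mem _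
      rcases List.mem_cons.1 this with h5 | h5
      · rw [h5]; simp
      · simp [h5]
    have h5 : v.2 < H := hH v (by simp)
    rw [h3, ← h1]
    have h6 : H = α * H + β * H := by rw [← add_mul, hαβ, one_mul]
    rcases hα.lt_or_eq with h7 | h7
    · have := mul_lt_mul_of_pos_left h4 h7
      have h8 := mul_le_mul_of_nonneg_left h5.le hβ
      linarith
    · have h8 : β = 1 := by linarith
      rw [← h7, h8]; linarith

end Knot548
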