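import Pool.Agent.Helper548.Knot.Defs
import Pool.Agent.Helper548.Knot.P_slide_detour
import Pool.Agent.Helper548.Knot.P_slide_eqv
import Pool.Agent.Helper548.Knot.P_slide_reg
import Pool.Agent.Helper548.Knot.P_slide_ready



namespace Knot548
open Set


theorem slide {O : ℂ} {h : ℝ} {M : List (ℂ × ℝ)} {v y y2 : ℂ × ℝ} {X : List (ℂ × ℝ)} {a b : ℂ × ℝ}
    {Y : List (ℂ × ℝ)} {c : ℂ} (R : Ready O h (M ++ [v]) y y2 X a b Y c) (ho : Over v y a b c)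
    (hfin : (dbl O ((((O, h) :: (M ++ [v])) ++ [y, y2]) ++ X ++ [a, b] ++ Y)).Finite) :
    ∃ (y' y2' : ℂ × ℝ) (X' : List (ℂ × ℝ)) (a' b' : ℂ × ℝ) (Y' : List (ℂ × ℝ)) (c' : ℂ),
      Ready O h M y' y2' X' a' b' Y' c' ∧ Over (((O, h) :: M).getLast (by simp)) y' a' b' c' ∧
      Eqv ((((O, h) :: (M ++ [v])) ++ [y, y2]) ++ X ++ [a, b] ++ Y) ((((O, h) :: M) ++ [y', y2']) ++ X' ++ [a', b'] ++ Y') ∧
      (dbl O ((((O, h) :: M) ++ [y', y2']) ++ X' ++ [a', b'] ++ Y')).ncard =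
        (dbl O ((((O, h) :: (M ++ [v])) ++ [y, y2]) ++ X ++ [a, b] ++ Y)).ncard ∧
      ax O ((((O, h) :: M) ++ [y', y2']) ++ X' ++ [a', b'] ++ Y') =
        ax O ((((O, h) :: (M ++ [v])) ++ [y, y2]) ++ X ++ [a, b] ++ Y) ∧
      (dbl O ((((O, h) :: M) ++ [y', y2']) ++ X' ++ [a', b'] ++ Y')).Finite := by
  obtain ⟨a', b', l, r, c', D⟩ := slide_detour R
  obtain ⟨H, hH⟩ : ∃ H : ℝ, ∀ w ∈ (((O, h) :: (M ++ [v])) ++ [y, y2]) ++ X ++ [a, b] ++ Y, w.2 < H := by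
    generalize (((O, h) :: (M ++ [v])) ++ [y, y2]) ++ X ++ [a, b] ++ Y = L
    induction L with
    | nil => exact ⟨0, by simp⟩
    | cons w L ih =>
      obtain ⟨H, hH⟩ := ih
      refine ⟨max H (w.2 + 1), ?_⟩
      intro x hx
      rcases List.mem_cons.1 hx with rfl | hx
      · exact lt_of_lt_of_le (lt_add_one _) (le_max_right _ _)
      · exact lt_of_lt_of_le (hH x hx) (le_max_left _ _)
  obtain ⟨hS, hE⟩ := slide_eqv R ho _ a' b' l r c' D H hH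
  obtain ⟨hReg, hdbl, hc', hax⟩ := slide_reg R a' b' l r c' D H hS
  obtain ⟨hRd, hOv⟩ := slide_ready R a' b' l r c' D H hH hS
  refine ⟨v, y, y2 :: X ++ [a, (a', H)], (l, H), (r, H), (b', H) :: b :: Y, c', hRd, hOv, hE, ?_, hax, by
    rw [hdbl]; exact hfin.sdiff.union (Set.finite_singleton _)⟩
  have hcD : c ∈ dbl O ((((O, h) :: (M ++ [v])) ++ [y, y2]) ++ X ++ [a, b] ++ Y) := ⟨R.coff, R.cm⟩
  rw [hdbl, Set.union_singleton, Set.ncard_insert_of_notMem (fun hh => hc' hh.1) hfin.diff,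
    Set.ncard_diff_singleton_add_one hcD hfin]

end Knot548
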