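import Pool.Agent.Helper548.Knot.Defs
import Pool.Agent.Helper548.Knot.P_slide



namespace Knot548
open Set


theorem slide_all {O : ℂ} {h : ℝ} {M : List (ℂ × ℝ)} {y y2 : ℂ × ℝ} {X : List (ℂ × ℝ)} {a b : ℂ × ℝ}
    {Y : List (ℂ × ℝ)} {c : ℂ} (R : Ready O h M y y2 X a b Y c)
    (ho : Over (((O, h) :: M).getLast (by simp)) y a b c)
    (hfin : (dbl O ((((O, h) :: M) ++ [y, y2]) ++ X ++ [a, b] ++ Y)).Finite) :
    ∃ (y' y2' : ℂ × ℝ) (X' : List (ℂ × ℝ)) (a' b' : ℂ × ℝ) (Y' : List (ℂ × ℝ)) (c' : ℂ),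
      Ready O h [] y' y2' X' a' b' Y' c' ∧ Over (O, h) y' a' b' c' ∧
      Eqv ((((O, h) :: M) ++ [y, y2]) ++ X ++ [a, b] ++ Y) ((((O, h) :: []) ++ [y', y2']) ++ X' ++ [a', b'] ++ Y') ∧
      (dbl O ((((O, h) :: []) ++ [y', y2']) ++ X' ++ [a', b'] ++ Y')).ncard =
        (dbl O ((((O, h) :: M) ++ [y, y2]) ++ X ++ [a, b] ++ Y)).ncard ∧
      ax O ((((O, h) :: []) ++ [y', y2']) ++ X' ++ [a', b'] ++ Y') =
        ax O ((((O, h) :: M) ++ [y, y2]) ++ X ++ [a, b] ++ Y) ∧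
      (dbl O ((((O, h) :: []) ++ [y', y2']) ++ X' ++ [a', b'] ++ Y')).Finite := by
  induction M using List.reverseRecOn generalizing y y2 X a b Y c with
  | nil =>
    refine ⟨y, y2, X, a, b, Y, c, R, ?_, Relation.EqvGen.refl _, rfl, rfl, hfin⟩
    simpa using ho
  | append_singleton M v ih =>
    have ho' : Over v y a b c := by
      have h1 : ((O, h) :: (M ++ [v])).getLast (by simp) = v := by
        rw [List.getLast_cons (by simp)]
        simp
      rw [h1] at ho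
      exact ho
    obtain ⟨y', y2', X', a', b', Y', c', R', hov, he, hd, ha, hf⟩ := slide R ho' hfin
    obtain ⟨y3, y4, X3, a3, b3, Y3, c3, R3, hov3, he3, hd3, ha3, hf3⟩ := ih R' hov hf
    exact ⟨y3, y4, X3, a3, b3, Y3, c3, R3, hov3, Relation.EqvGen.trans _ _ _ he he3,
      hd3.trans hd, ha3.trans ha, hf3⟩

end Knot548
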