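import Pool.Agent.Helper548.Knot.Defs
import Pool.Agent.Helper548.Knot.P_slide_all
import Pool.Agent.Helper548.Knot.P_absorb
import Pool.Agent.Helper548.Knot.P_refl_facts
import Pool.Agent.Helper548.Knot.P_refl_eqv
import Pool.Agent.Helper548.Knot.P_refl_ready
import Pool.Agent.Helper548.Knot.P_over_or_under
import Pool.Agent.Helper548.Knot.P_prep



namespace Knot548
open Set


theorem elim_step_one {O : ℂ} {h : ℝ} {M : List (ℂ × ℝ)} {y y2 : ℂ × ℝ} {X : List (ℂ × ℝ)}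
    {a b : ℂ × ℝ} {Y : List (ℂ × ℝ)} {c : ℂ} (R : Ready O h M y y2 X a b Y c)
    (ho : Over (((O, h) :: M).getLast (by simp)) y a b c)
    (hfin : (dbl O ((((O, h) :: M) ++ [y, y2]) ++ X ++ [a, b] ++ Y)).Finite) :
    ∃ P' : List (ℂ × ℝ), Reg O P' ∧ Eqv ((((O, h) :: M) ++ [y, y2]) ++ X ++ [a, b] ++ Y) P' ∧
      (dbl O P').ncard + 1 = (dbl O ((((O, h) :: M) ++ [y, y2]) ++ X ++ [a, b] ++ Y)).ncard ∧
      ax O P' = ax O ((((O, h) :: M) ++ [y, y2]) ++ X ++ [a, b] ++ Y) + 1 ∧ (dbl O P').Finite := by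
  obtain ⟨y', y2', X', a', b', Y', c', R', ho', E, hd, hx, hf⟩ := slide_all R ho hfin
  obtain ⟨P', h1, h2, h3, h4, h5⟩ := absorb R' ho' hf
  exact ⟨P', h1, Relation.EqvGen.trans _ _ _ E h2, by rw [h3, hd], by rw [h4, hx], h5⟩

theorem elim_step_last {O : ℂ} {h : ℝ} {M : List (ℂ × ℝ)} :
    ((O, -h) :: refl M).getLast (by simp) =
      ((((O, h) :: M).getLast (by simp)).1, -(((O, h) :: M).getLast (by simp)).2) := by
  have e : (O, -h) :: refl M = ((O, h) :: M).map (fun v : ℂ × ℝ => (v.1, -v.2)) := rfl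
  simp only [e]
  rw [List.getLast_map]

theorem elim_step {O : ℂ} {P : List (ℂ × ℝ)} (hr : Reg O P) (hax : 1 ≤ ax O P) (hd : (dbl O P).Nonempty)
    (hfin : (dbl O P).Finite) :
    ∃ P' : List (ℂ × ℝ), Reg O P' ∧ Eqv P P' ∧ (dbl O P').ncard + 1 = (dbl O P).ncard ∧ ax O P' = ax O P + 1 ∧
      (dbl O P').Finite := by
  obtain ⟨h, M, y, y2, X, a, b, Y, c, R, E, hdbl, hax'⟩ := prep hr hax hd hfin
  have hfin2 : (dbl O ((((O, h) :: M) ++ [y, y2]) ++ X ++ [a, b] ++ Y)).Finite := by rw [hdbl]; exact hfin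
  rcases over_or_under R with ho | ho
  · obtain ⟨P', h1, h2, h3, h4, h5⟩ := elim_step_one R ho hfin2
    exact ⟨P', h1, Relation.EqvGen.trans _ _ _ E h2, by rw [h3, hdbl], by rw [h4, hax'], h5⟩
  · have R' := refl_ready R
    have ho' : Over (((O, -h) :: refl M).getLast (by simp)) (y.1, -y.2) (a.1, -a.2) (b.1, -b.2) c := by
      rw [elim_step_last]
      exact ho
    have e : ((((O, -h) :: refl M) ++ [(y.1, -y.2), (y2.1, -y2.2)]) ++ refl X ++
        [(a.1, -a.2), (b.1, -b.2)] ++ refl Y)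
        = refl ((((O, h) :: M) ++ [y, y2]) ++ X ++ [a, b] ++ Y) := by
      unfold refl
      simp only [List.map_append, List.map_cons, List.map_nil]
    obtain ⟨f1, f2, f3, f4, f5, f6⟩ := refl_facts ((((O, h) :: M) ++ [y, y2]) ++ X ++ [a, b] ++ Y)
    obtain ⟨P', h1, h2, h3, h4, h6⟩ := elim_step_one R' ho' (by rw [e, f6]; exact hfin2)
    rw [e] at h2 h3 h4
    obtain ⟨g1, g2, g3, g4, g5, g6⟩ := refl_facts P'
    have h5 := refl_eqv h2
    rw [f1] at h5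
    rw [f6, hdbl] at h3
    rw [f4, hax'] at h4
    refine ⟨refl P', (g5 O).2 h1, Relation.EqvGen.trans _ _ _ E h5, ?_, ?_, ?_⟩
    · rw [g6, h3]
    · rw [g4, h4]
    · rw [g6]; exact h6

end Knot548
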