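import Pool.Agent.Helper548.Knot.Defs
import Pool.Agent.Helper548.Knot.P_elim_step



namespace Knot548
open Set


theorem elim_aux (n : ℕ) : ∀ {O : ℂ} {P : List (ℂ × ℝ)}, Reg O P → 1 ≤ ax O P →
    (dbl O P).Finite → (dbl O P).ncard = n →
    ∃ P' : List (ℂ × ℝ), Reg O P' ∧ Eqv P P' ∧ dbl O P' = ∅ ∧
      ax O P' = ax O P + (dbl O P).ncard := by
  induction n with
  | zero =>
    intro O P hr hax hfin hn
    refine ⟨P, hr, Relation.EqvGen.refl P, ?_, by omega⟩
    exact (Set.ncard_eq_zero hfin).mp hn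
  | succ n ih =>
    intro O P hr hax hfin hn
    have hne : (dbl O P).Nonempty := by
      rw [Set.nonempty_iff_ne_empty]
      intro h
      rw [h, Set.ncard_empty] at hn
      omega
    obtain ⟨P1, hr1, he1, hc1, ha1, hf1⟩ := elim_step hr hax hne hfin
    obtain ⟨P2, hr2, he2, hd2, ha2⟩ := ih hr1 (by omega) hf1 (by omega)
    exact ⟨P2, hr2, Relation.EqvGen.trans _ _ _ he1 he2, hd2, by omega⟩

theorem elim {O : ℂ} {P : List (ℂ × ℝ)} (hr : Reg O P) (hax : 1 ≤ ax O P)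
    (hfin : (dbl O P).Finite) :
    ∃ P' : List (ℂ × ℝ), Reg O P' ∧ Eqv P P' ∧ dbl O P' = ∅ ∧ ax O P' = ax O P + (dbl O P).ncard := by
  exact elim_aux _ hr hax hfin rfl

end Knot548
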