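import Pool.Agent.Helper548.Knot.Defs
import Pool.Agent.Helper548.Knot.P_center_seg
import Pool.Agent.Helper548.Knot.P_mult_ge_two
import Pool.Agent.Helper548.Knot.P_vert_unique
import Pool.Agent.Helper548.Knot.P_closed_inter
import Pool.Agent.Helper548.Knot.P_poly_edges_all



namespace Knot548
open Set


theorem tl_disj_map {α β : Type*} (f : α → β) : ∀ l : List α, pedges (l.map f) = (pedges l).map (Prod.map f f)
  | [] => rfl
  | [_] => rfl
  | a :: b :: l => by
    have ih := tl_disj_map f (b :: l)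
    show (f a, f b) :: pedges ((b :: l).map f) = (f a, f b) :: (pedges (b :: l)).map (Prod.map f f)
    rw [ih]

theorem tl_disj_zip {α : Type*} (c : α) (l : List α) : ∀ a : α,
    (a :: l).zip (l ++ [c]) = pedges ((a :: l) ++ [c]) := by
  induction l with
  | nil => intro a; rfl
  | cons b l ih =>
    intro a
    show (a, b) :: (b :: l).zip (l ++ [c]) = (a, b) :: pedges ((b :: l) ++ [c])
    rw [ih]

theorem tl_disj_cedges {α : Type*} (a : α) (l : List α) : cedges (a :: l) = pedges ((a :: l) ++ [a]) := by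
  rw [← tl_disj_zip]
  unfold cedges
  rw [List.rotate_cons_succ, List.rotate_zero]

theorem tl_disj_mem {α : Type*} : ∀ (l : List α) (e : α × α), e ∈ pedges l → e.1 ∈ l ∧ e.2 ∈ l
  | [], e, h => by simp [pedges] at h
  | [_], e, h => by simp [pedges] at h
  | a :: b :: l, e, h => by
    have h' : e ∈ (a, b) :: pedges (b :: l) := h
    rcases List.mem_cons.mp h' with h1 | h1
    · rw [h1]
      exact ⟨List.mem_cons_self, List.mem_cons_of_mem _ List.mem_cons_self⟩
    · obtain ⟨h2, h3⟩ := tl_disj_mem (b :: l) e h1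
      exact ⟨List.mem_cons_of_mem _ h2, List.mem_cons_of_mem _ h3⟩

theorem tl_disj_img {O : ℂ} (L : List (ℂ × ℝ)) (h h' : ℝ) (x : ℂ) (hx : x ∈ img O L) :
    ∃ e ∈ pedges ((((O, h) : ℂ × ℝ) :: L) ++ [(O, h')]), x ∈ segment ℝ e.1.1 e.2.1 := by
  obtain ⟨e, he, hxe⟩ := hx
  rw [tl_disj_cedges] at he
  have h1 : (O :: L.map Prod.fst) ++ [O] = ((((O, h) : ℂ × ℝ) :: L) ++ [(O, h')]).map Prod.fst := by
    simp
  rw [h1, tl_disj_map] at he
  obtain ⟨e', he', hee⟩ := List.mem_map.mp he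
  refine ⟨e', he', ?_⟩
  rw [← hee] at hxe
  exact hxe

theorem tl_disj_perm {α : Type*} (l1 l2 : List α) (e f : α) (he : e ∈ l1) (hf : f ∈ l2) :
    ∃ E3, (l1 ++ l2).Perm (e :: f :: E3) := by
  obtain ⟨a, b, rfl⟩ := List.append_of_mem he
  obtain ⟨c, d, rfl⟩ := List.append_of_mem hf
  refine ⟨(a ++ b) ++ (c ++ d), ?_⟩
  have h1 : (a ++ e :: b).Perm (e :: (a ++ b)) := List.perm_middle
  have h2 : (c ++ f :: d).Perm (f :: (c ++ d)) := List.perm_middle
  refine (h1.append h2).trans ?_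
  show (e :: ((a ++ b) ++ (f :: (c ++ d)))).Perm (e :: f :: ((a ++ b) ++ (c ++ d)))
  exact List.Perm.cons e List.perm_middle

theorem tl_disj_vert {O : ℂ} {L : List (ℂ × ℝ)} {h h' : ℝ} {v : ℂ × ℝ}
    (hv : v ∈ (((O, h) : ℂ × ℝ) :: L) ++ [(O, h')]) (hO : v.1 ≠ O) : v ∈ L := by
  rcases List.mem_append.mp hv with h1 | h1
  · rcases List.mem_cons.mp h1 with h2 | h2
    · exfalso
      apply hO
      rw [h2]
    · exact h2
  · exfalso
    apply hO
    rw [List.mem_singleton.mp h1]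

theorem tl_disj_two {O : ℂ} (W : List (ℝ × List (ℂ × ℝ))) (hr : Reg O (poly O W))
    (i j : ℕ) (hi : i < W.length) (hj : j < W.length) (hij : i < j) (v : ℂ × ℝ) (hv : v.1 ≠ O)
    (h1 : v ∈ (W[i]).2) (h2 : v ∈ (W[j]).2) : False := by
  have hW : W = W.take i ++ W[i] :: W.drop (i + 1) := by
    rw [← List.drop_eq_getElem_cons hi, List.take_append_drop]
  have hjmem : W[j] ∈ W.drop (i + 1) := by
    rw [List.mem_iff_getElem]
    refine ⟨j - (i + 1), by rw [List.length_drop]; omega, ?_⟩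
    rw [List.getElem_drop]
    congr 1
    omega
  obtain ⟨a, b, hab⟩ := List.append_of_mem h1
  have hP : poly O W = ((poly O (W.take i)) ++ ((O, (W[i]).1) :: a)) ++ v :: (b ++ poly O (W.drop (i + 1))) := by
    conv_lhs => rw [hW]
    unfold poly
    rw [List.flatMap_append, List.flatMap_cons, hab]
    simp only [List.append_assoc, List.cons_append]
  refine vert_unique hr _ _ v hP hv v ?_ rfl
  apply List.mem_append_right
  apply List.mem_append_right
  unfold poly
  rw [List.mem_flatMap]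
  exact ⟨W[j], hjmem, List.mem_cons_of_mem _ h2⟩

theorem tl_disj {O : ℂ} (W : List (ℝ × List (ℂ × ℝ))) (hr : Reg O (poly O W)) (hoff : ∀ p ∈ W, ∀ v ∈ p.2, v.1 ≠ O)
    (hne : ∀ p ∈ W, p.2 ≠ []) (hd : dbl O (poly O W) = ∅) :
    W.Pairwise (fun p q => img O p.2 ∩ img O q.2 ⊆ {O}) := by
  rw [List.pairwise_iff_getElem]
  intro i j hi hj hij x hx
  by_contra hxO
  have hxO' : x ≠ O := hxO
  obtain ⟨Z, hZ⟩ : ∃ Z, Z = W.zip ((W.map Prod.fst).rotate 1) := ⟨_, rfl⟩
  have hZl : Z.length = W.length := by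
    rw [hZ, List.length_zip, List.length_rotate, List.length_map, min_self]
  have hi' : i < Z.length := by omega
  have hj' : j < Z.length := by omega
  have hZi : (Z[i]).1 = W[i] := by
    simp only [hZ, List.getElem_zip]
  have hZj : (Z[j]).1 = W[j] := by
    simp only [hZ, List.getElem_zip]
  obtain ⟨e, he, hxe⟩ := tl_disj_img (O := O) (W[i]).2 (W[i]).1 (Z[i]).2 x hx.1
  obtain ⟨f, hf, hxf⟩ := tl_disj_img (O := O) (W[j]).2 (W[j]).1 (Z[j]).2 x hx.2
  have hZs : Z = (Z.take i ++ [Z[i]]) ++ Z.drop (i + 1) := by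
    rw [List.append_assoc, List.singleton_append, ← List.drop_eq_getElem_cons hi', List.take_append_drop]
  have hjmem : Z[j] ∈ Z.drop (i + 1) := by
    rw [List.mem_iff_getElem]
    refine ⟨j - (i + 1), by rw [List.length_drop]; omega, ?_⟩
    rw [List.getElem_drop]
    congr 1
    omega
  have hed := poly_edges_all (O := O) W
  rw [← hZ] at hed
  have hed2 : cedges (poly O W) = ((Z.take i ++ [Z[i]]).flatMap
      (fun p => pedges ((((O, p.1.1) : ℂ × ℝ) :: p.1.2) ++ [(O, p.2)]))) ++ ((Z.drop (i + 1)).flatMap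
      (fun p => pedges ((((O, p.1.1) : ℂ × ℝ) :: p.1.2) ++ [(O, p.2)]))) := by
    rw [← List.flatMap_append, ← hZs, hed]
  have he1 : e ∈ ((Z.take i ++ [Z[i]]).flatMap
      (fun p => pedges ((((O, p.1.1) : ℂ × ℝ) :: p.1.2) ++ [(O, p.2)]))) := by
    rw [List.mem_flatMap]
    refine ⟨Z[i], List.mem_append_right _ List.mem_cons_self, ?_⟩
    rw [hZi]
    exact he
  have hf1 : f ∈ ((Z.drop (i + 1)).flatMap
      (fun p => pedges ((((O, p.1.1) : ℂ × ℝ) :: p.1.2) ++ [(O, p.2)]))) := by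
    rw [List.mem_flatMap]
    refine ⟨Z[j], hjmem, ?_⟩
    rw [hZj]
    exact hf
  obtain ⟨E3, hE3⟩ := tl_disj_perm _ _ e f he1 hf1
  rw [← hed2] at hE3
  have hem := tl_disj_mem _ e he
  have hfm := tl_disj_mem _ f hf
  rcases closed_inter hr E3 e f hE3 x hxO' hxe hxf with h | ⟨h, hef⟩ | ⟨h, hef⟩
  · have : x ∈ dbl O (poly O W) := ⟨hxO', h⟩
    rw [hd] at this
    exact this
  · have hv : e.2.1 ≠ O := by rw [← h]; exact hxO'
    refine tl_disj_two W hr i j hi hj hij e.2 hv (tl_disj_vert hem.2 hv) ?_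
    rw [hef] at hv ⊢
    exact tl_disj_vert hfm.1 hv
  · have hv : f.2.1 ≠ O := by rw [← h]; exact hxO'
    refine tl_disj_two W hr i j hi hj hij f.2 hv ?_ (tl_disj_vert hfm.2 hv)
    rw [hef] at hv ⊢
    exact tl_disj_vert hem.1 hv

end Knot548
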