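import Pool.Agent.Helper548.Knot.Defs
import Pool.Agent.Helper548.Knot.P_ce_cons
import Pool.Agent.Helper548.Knot.P_pe_append
import Pool.Agent.Helper548.Knot.P_center_seg
import Pool.Agent.Helper548.Knot.P_mult_ge_two
import Pool.Agent.Helper548.Knot.P_vert_unique
import Pool.Agent.Helper548.Knot.P_closed_inter
import Pool.Agent.Helper548.Knot.P_poly_edges_all



namespace Knot548
open Set


theorem tl_simp_pe_map {α β : Type*} (f : α → β) (L : List α) :
    pedges (L.map f) = (pedges L).map (fun e => (f e.1, f e.2)) := by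
  induction L with
  | nil => rfl
  | cons a L ih =>
    cases L with
    | nil => rfl
    | cons b L =>
      simp only [List.map_cons, pedges] at ih ⊢
      rw [ih]

theorem tl_simp_mem_fst {α : Type*} (L : List α) (w : α) : ∀ e ∈ pedges (L ++ [w]), e.1 ∈ L := by
  induction L with
  | nil => intro e he; simp [pedges] at he
  | cons a L ih =>
    intro e he
    cases L with
    | nil =>
      simp only [List.cons_append, List.nil_append, pedges, List.mem_singleton] at he
      simp [he]
    | cons b L =>
      simp only [List.cons_append, pedges, List.mem_cons] at he ih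
      rcases he with he | he
      · simp [he]
      · have := ih e he
        exact List.mem_cons_of_mem _ (by simpa using this)

theorem tl_simp_zip {α β : Type*} (W : List α) (V : List β) (h : W.length = V.length) (p : α)
    (hp : p ∈ W) : ∃ q, (p, q) ∈ W.zip V := by
  obtain ⟨n, hn, rfl⟩ := List.getElem_of_mem hp
  refine ⟨V[n]'(h ▸ hn), ?_⟩
  rw [List.mem_iff_getElem]
  exact ⟨n, by simp [← h, hn], by simp⟩

theorem tl_simp {O : ℂ} (W : List (ℝ × List (ℂ × ℝ))) (hr : Reg O (poly O W)) (hoff : ∀ p ∈ W, ∀ v ∈ p.2, v.1 ≠ O)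
    (hne : ∀ p ∈ W, p.2 ≠ []) (hd : dbl O (poly O W) = ∅) :
    ∀ p ∈ W, 2 ≤ p.2.length → Simple (O :: p.2.map Prod.fst) := by
  intro p hp hlen
  obtain ⟨h', hh'⟩ := tl_simp_zip W ((W.map Prod.fst).rotate 1) (by simp) p hp
  have hsub : List.Sublist (pedges ((((O, p.1) : ℂ × ℝ) :: p.2) ++ [(O, h')])) (cedges (poly O W)) := by
    rw [poly_edges_all, List.flatMap_def]
    apply List.sublist_flatten_of_mem
    rw [List.mem_map]
    exact ⟨(p, h'), hh', rfl⟩
  have hce : cedges (O :: p.2.map Prod.fst) =
      (pedges ((((O, p.1) : ℂ × ℝ) :: p.2) ++ [(O, h')])).map (fun e => (e.1.1, e.2.1)) := by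
    rw [ce_cons, ← tl_simp_pe_map]
    simp
  have hO : ∀ e ∈ cedges (poly O W), O ∈ hseg e.1.1 e.2.1 → e.1.1 = O := by
    rintro e he ⟨s, hs0, hs1, hs⟩
    have hseg' : O ∈ segment ℝ e.1.1 e.2.1 :=
      ⟨1 - s, s, by linarith, hs0, by ring, hs.symm⟩
    rcases center_seg hr e he hseg' with h | h
    · exact h
    · exfalso
      apply hr.nondeg e he
      rw [h] at hs ⊢
      have h1 : (1 - s) • (O - e.1.1) = 0 := by
        have : (1 - s) • (O - e.1.1) = O - ((1 - s) • e.1.1 + s • O) := by
          rw [smul_sub, sub_smul, sub_smul, one_smul, one_smul]; abel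
        rw [this, ← hs, sub_self]
      rcases smul_eq_zero.mp h1 with h2 | h2
      · linarith
      · exact (sub_eq_zero.mp h2).symm
  refine ⟨?_, ?_⟩
  · intro e he
    rw [hce, List.mem_map] at he
    obtain ⟨e', he', rfl⟩ := he
    exact hr.nondeg e' (hsub.subset he')
  · rw [hce, List.pairwise_map, List.pairwise_iff_forall_sublist]
    intro e f hef
    have hef' := hef.trans hsub
    obtain ⟨E3, hE3⟩ := hef'.exists_perm_append
    have hee : e ∈ cedges (poly O W) := hef'.subset (by simp)
    have hff : f ∈ cedges (poly O W) := hef'.subset (by simp)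
    rw [Set.disjoint_left]
    intro x hxe hxf
    have h2 := mult_ge_two E3 e f (by simpa using hE3) x hxe hxf
    by_cases hxO : x = O
    · subst hxO
      have hf1 := hO f hff hxf
      -- f is in the tail
      have hft : f ∈ pedges (p.2 ++ [((x, h') : ℂ × ℝ)]) := by
        obtain ⟨v, L', hL⟩ : ∃ v L', p.2 = v :: L' := by
          rcases hp2 : p.2 with _ | ⟨v, L'⟩
          · rw [hp2] at hlen; simp at hlen
          · exact ⟨v, L', rfl⟩
        rw [hL] at hef ⊢
        simp only [List.cons_append, pedges] at hef ⊢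
        cases hef with
        | cons _ h => exact h.subset (by simp)
        | cons_cons _ h => exact h.subset (by simp)
      exact hoff p hp _ (tl_simp_mem_fst _ _ f hft) hf1
    · have h3 := hr.two x hxO
      have : x ∈ dbl O (poly O W) := ⟨hxO, by omega⟩
      rw [hd] at this
      exact this

end Knot548
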