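import Pool.Agent.Helper548.Knot.Defs
import Pool.Agent.Helper548.Knot.P_ce_cons
import Pool.Agent.Helper548.Knot.P_pe_append
import Pool.Agent.Helper548.Knot.P_poly_edges
import Pool.Agent.Helper548.Knot.P_poly_edges_all
import Pool.Agent.Helper548.Knot.P_tl_disj
import Pool.Agent.Helper548.Knot.P_tl_simp



namespace Knot548
open Set


theorem tl_loops_zfst {O : ℂ} (W : List (ℝ × List (ℂ × ℝ))) :
    (W.zip ((W.map Prod.fst).rotate 1)).map Prod.fst = W := by
  rw [List.map_fst_zip]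
  simp

theorem tl_loops_start {O : ℂ} {h : ℝ} {h' : ℝ} (L : List (ℂ × ℝ)) :
    ∃ y, (((O, h) : ℂ × ℝ), y) ∈ pedges ((((O, h) : ℂ × ℝ) :: L) ++ [(O, h')]) := by
  cases L with
  | nil => exact ⟨(O, h'), by simp [pedges]⟩
  | cons v l => exact ⟨v, by simp [pedges]⟩

theorem tl_loops {O : ℂ} (W : List (ℝ × List (ℂ × ℝ))) (hr : Reg O (poly O W)) (hoff : ∀ p ∈ W, ∀ v ∈ p.2, v.1 ≠ O)
    (hW : W ≠ []) (hd : dbl O (poly O W) = ∅) : Loops O W := by
  have hne : ∀ p ∈ W, p.2 ≠ [] := by
    intro p hp hp2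
    have h1 : p ∈ (W.zip ((W.map Prod.fst).rotate 1)).map Prod.fst := by
      rw [tl_loops_zfst (O := O)]; exact hp
    obtain ⟨⟨p', h'⟩, hz, rfl⟩ := List.mem_map.1 h1
    have h2 : (((O, p'.1) : ℂ × ℝ), ((O, h') : ℂ × ℝ)) ∈ cedges (poly O W) := by
      rw [poly_edges_all, List.mem_flatMap]
      refine ⟨_, hz, ?_⟩
      simp only at hp2
      rw [hp2]
      simp [pedges]
    exact hr.nondeg _ h2 rfl
  refine ⟨?_, hne, hoff, ?_, tl_simp W hr hoff hne hd, tl_disj W hr hoff hne hd⟩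
  · by_contra hcon
    push Not at hcon
    obtain ⟨h1, h2⟩ := hcon
    match W, hW with
    | [(h, L)], _ =>
      have h3 := h2 (h, L) (by simp)
      have h4 := hne (h, L) (by simp)
      simp only at h3 h4
      match L, h4 with
      | [v], _ =>
        have h5 := hr.simple.2
        simp only [poly, List.flatMap_cons, List.flatMap_nil, cedges, List.append_nil] at h5
        have h6 : ([((O, h) : ℂ × ℝ), v].zip ([((O, h) : ℂ × ℝ), v].rotate 1)) =
          [((O, h), v), (v, (O, h))] := rfl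
        rw [h6, List.pairwise_cons] at h5
        have h7 := h5.1 (v, (O, h)) (by simp)
        rw [Set.disjoint_left] at h7
        refine h7 (a := (1 - (1/2 : ℝ)) • ((O, h) : ℂ × ℝ) + (1/2 : ℝ) • v) ⟨1/2, by norm_num, by norm_num, rfl⟩
          ⟨1/2, by norm_num, by norm_num, ?_⟩
        simp only
        rw [add_comm]
        norm_num
      | (v :: w :: l), _ => simp at h3
    | (p :: q :: l), _ => simp at h1
  · have h1 := hr.simple.2
    rw [poly_edges_all, List.pairwise_flatMap] at h1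
    have h2 := h1.2
    have h3 : List.Pairwise (fun z z' : (ℝ × List (ℂ × ℝ)) × ℝ => z.1.1 ≠ z'.1.1)
        (W.zip ((W.map Prod.fst).rotate 1)) := by
      refine h2.imp ?_
      rintro ⟨⟨g, L⟩, h⟩ ⟨⟨g', L'⟩, h'⟩ hh
      simp only at hh ⊢
      rintro rfl
      obtain ⟨y, hy⟩ := tl_loops_start (O := O) (h := g) (h' := h) L
      obtain ⟨y', hy'⟩ := tl_loops_start (O := O) (h := g) (h' := h') L'
      have h4 := hh _ hy _ hy'
      rw [Set.disjoint_left] at h4
      exact h4 (a := ((O, g) : ℂ × ℝ)) ⟨0, le_refl _, one_pos, by simp⟩ ⟨0, le_refl _, one_pos, by simp⟩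
    have h4 := (List.pairwise_map (f := fun z : (ℝ × List (ℂ × ℝ)) × ℝ => z.1.1) (R := (· ≠ ·))).2 h3
    have h5 : (W.zip ((W.map Prod.fst).rotate 1)).map (fun z => z.1.1) = W.map Prod.fst := by
      conv_rhs => rw [← tl_loops_zfst (O := O) W]
      rw [List.map_map]
      rfl
    rw [h5] at h4
    exact h4

end Knot548
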