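import Pool.Agent.Helper548.Knot.Defs



namespace Knot548
open Set


theorem tl_split_aux {O : ℂ} (Q : List (ℂ × ℝ)) :
    ∃ (pre : List (ℂ × ℝ)) (W : List (ℝ × List (ℂ × ℝ))), Q = pre ++ poly O W ∧
      (∀ v ∈ pre, v.1 ≠ O) ∧ (∀ p ∈ W, ∀ v ∈ p.2, v.1 ≠ O) ∧ W.length = ax O Q := by
  classical
  induction Q with
  | nil => exact ⟨[], [], by simp [poly], by simp, by simp, by simp [ax]⟩
  | cons v Q ih =>
    obtain ⟨pre, W, h1, h2, h3, h4⟩ := ih
    by_cases hv : v.1 = O
    · refine ⟨[], (v.2, pre) :: W, ?_, by simp, ?_, ?_⟩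
      · have e : v = (O, v.2) := by rw [← hv]
        have e2 : poly O ((v.2, pre) :: W) = (O, v.2) :: (pre ++ poly O W) := by
          simp [poly]
        rw [e2, ← h1, ← e]
        rfl
      · intro p hp
        rcases List.mem_cons.1 hp with rfl | hp
        · exact h2
        · exact h3 p hp
      · rw [List.length_cons, h4]
        simp [ax, hv]
    · refine ⟨v :: pre, W, ?_, ?_, h3, ?_⟩
      · rw [List.cons_append, ← h1]
      · intro w hw
        rcases List.mem_cons.1 hw with rfl | hw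
        · exact hv
        · exact h2 w hw
      · rw [h4]
        simp [ax, hv]

theorem tl_split {O : ℂ} (P : List (ℂ × ℝ)) (hax : 1 ≤ ax O P) :
    ∃ (W : List (ℝ × List (ℂ × ℝ))) (k : ℕ), poly O W = P.rotate k ∧ (∀ p ∈ W, ∀ v ∈ p.2, v.1 ≠ O) ∧
      W.length = ax O P := by
  obtain ⟨pre, W, h1, h2, h3, h4⟩ := tl_split_aux (O := O) P
  have hW : W ≠ [] := by
    rintro rfl
    simp at h4
    omega
  obtain ⟨W0, q, rfl⟩ : ∃ W0 q, W = W0 ++ [q] :=
    ⟨W.dropLast, W.getLast hW, (List.dropLast_append_getLast hW).symm⟩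
  refine ⟨W0 ++ [(q.1, q.2 ++ pre)], pre.length, ?_, ?_, ?_⟩
  · conv_rhs => rw [h1, List.rotate_append_length_eq]
    simp [poly]
  · intro p hp v hv
    rcases List.mem_append.1 hp with hp | hp
    · exact h3 p (List.mem_append_left _ hp) v hv
    · rw [List.mem_singleton] at hp
      subst hp
      rcases List.mem_append.1 hv with hv | hv
      · exact h3 q (by simp) v hv
      · exact h2 v hv
  · rw [← h4]
    simp

end Knot548
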