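import Pool.Agent.Helper548.Knot.Defs
import Pool.Agent.Helper548.Knot.P_mult_rotate
import Pool.Agent.Helper548.Knot.P_reg_rotate
import Pool.Agent.Helper548.Knot.P_eqv_rotate
import Pool.Agent.Helper548.Knot.P_tl_split
import Pool.Agent.Helper548.Knot.P_tl_loops



namespace Knot548
open Set


theorem to_loops {O : ℂ} {P : List (ℂ × ℝ)} (hr : Reg O P) (hax : 1 ≤ ax O P) (hd : dbl O P = ∅) :
    ∃ (W : List (ℝ × List (ℂ × ℝ))), Loops O W ∧ Eqv P (poly O W) ∧ W.length = ax O P := by
  obtain ⟨W, k, hW, hoff, hlen⟩ := tl_split P hax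
  have hr' : Reg O (poly O W) := by
    rw [hW]; exact (reg_rotate k).2 hr
  have hd' : dbl O (poly O W) = ∅ := by
    rw [hW]
    unfold dbl at hd ⊢
    simp only [mult_rotate]
    exact hd
  have hne : W ≠ [] := by
    rintro rfl
    simp at hlen
    omega
  refine ⟨W, tl_loops W hr' hoff hne hd', ?_, hlen⟩
  rw [hW]
  exact eqv_rotate P k

end Knot548
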