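import Pool.Agent.Helper548.Knot.Defs
import Pool.Agent.Helper548.Knot.P_elim
import Pool.Agent.Helper548.Knot.P_to_loops
import Pool.Agent.Helper548.Knot.P_allpages



namespace Knot548
open Set


theorem partC_ax_le (O : ℂ) (P : List (ℂ × ℝ)) : ax O P ≤ mult P O := by
  classical
  unfold ax mult cnt
  have h1 : (cedges P).map Prod.fst = P := by
    unfold cedges
    rw [List.map_fst_zip]
    simp
  have h2 : List.countP (fun v : ℂ × ℝ => decide (v.1 = O)) P
      = List.countP (fun e : (ℂ × ℝ) × (ℂ × ℝ) => decide (e.1.1 = O)) (cedges P) := by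
    conv_lhs => rw [← h1]
    rw [List.countP_map]
    rfl
  have h3 : List.countP (fun e : (ℂ × ℝ) × (ℂ × ℝ) => decide (e.1.1 = O)) (cedges P)
      ≤ List.countP (fun e => decide (O ∈ hseg e.1.1 e.2.1)) (cedges P) := by
    apply List.countP_mono_left
    intro e _ he
    simp only [decide_eq_true_eq] at he ⊢
    exact ⟨0, le_rfl, one_pos, by simp [he]⟩
  have h4 := h2.trans_le h3
  convert h4

theorem partC {P : List (ℂ × ℝ)} (hP : P ≠ []) (hs : Simple P) (hn : ∀ e ∈ cedges P, e.1.1 ≠ e.2.1)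
    (h2 : ∀ x, mult P x ≤ 2) (hv : ∀ v ∈ P, mult P v.1 = 1)
    (hfin : {x | mult P x = 2}.Finite) :
    ∃ (O : ℂ) (W : List (ℝ × List (ℂ × ℝ))), Loops O W ∧ (∀ p ∈ W, p.2.length = 1) ∧
      W.length ≤ 2 * ({x | mult P x = 2}.ncard + 1) ∧ Eqv P (poly O W) := by
  obtain ⟨v0, L, rfl⟩ := List.exists_cons_of_ne_nil hP
  set P := v0 :: L with hPdef
  have hv0 : v0 ∈ P := by simp [hPdef]
  have hm : mult P v0.1 = 1 := hv v0 hv0
  have hax1 : 1 ≤ ax v0.1 P := by
    classical
    unfold ax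
    have : 0 < List.countP (fun v : ℂ × ℝ => decide (v.1 = v0.1)) P :=
      List.countP_pos_iff.2 ⟨v0, hv0, by simp⟩
    have h := Nat.succ_le_of_lt this
    convert h
  have hax2 : ax v0.1 P ≤ 1 := hm ▸ partC_ax_le v0.1 P
  have hax : ax v0.1 P = 1 := le_antisymm hax2 hax1
  have hr : Reg v0.1 P :=
    { simple := hs
      nondeg := hn
      center := by rw [hm, hax]
      two := fun x _ => h2 x
      vert := fun v hv' _ => hv v hv' }
  have hdbl : dbl v0.1 P = {x | mult P x = 2} := by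
    ext x
    constructor
    · exact fun h => h.2
    · intro h
      refine ⟨?_, h⟩
      rintro rfl
      have h' : mult P v0.1 = 2 := h
      omega
  obtain ⟨P', hr', he', hd', ha'⟩ := elim hr hax1 (by rw [hdbl]; exact hfin)
  obtain ⟨W, hW, heW, hlW⟩ := to_loops hr' (by omega) hd'
  obtain ⟨W', hW', hpg, hlW', heW'⟩ := allpages hW
  refine ⟨v0.1, W', hW', hpg, ?_, (Relation.EqvGen.trans _ _ _ he' (Relation.EqvGen.trans _ _ _ heW heW'))⟩
  rw [← hdbl]
  omega

end Knot548
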